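import Mathlib

/-!
# FFW/BezLim: the limit in the elementary Bezout bound

If `M * binom(r + n, n) ≤ binom(d r + c + n, n)` for all `r` then `M ≤ d ^ n`.

PROOF. `n! binom(r + n, n) = ∏_{i=1}^n (r + i) ≥ r ^ n` and
`n! binom(d r + c + n, n) = ∏ (d r + c + i) ≤ (d r + c + n) ^ n`. So `M r ^ n ≤ (d r + c + n) ^ n`
for all `r`; divide by `r ^ n` and let `r → ∞`: `M ≤ d ^ n` (limit of `(d + (c + n) / r) ^ n`).
-/

namespace FFW

private theorem bez_pow (M d n c : ℕ)
    (h : ∀ r : ℕ, M * Nat.choose (r + n) n ≤ Nat.choose (d * r + c + n) n) (r : ℕ) :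
    M * r ^ n ≤ (d * r + c + n) ^ n := by
  have h1 : r ^ n ≤ n.factorial * (r + n).choose n := by
    rw [← Nat.ascFactorial_eq_factorial_mul_choose]
    exact le_trans (Nat.pow_le_pow_left (Nat.le_succ r) n) (Nat.pow_succ_le_ascFactorial (r + 1) n)
  have h2 : n.factorial * (d * r + c + n).choose n ≤ (d * r + c + n) ^ n := by
    rw [← Nat.ascFactorial_eq_factorial_mul_choose]
    exact Nat.ascFactorial_le_pow_add (d * r + c) n
  calc M * r ^ n ≤ M * (n.factorial * (r + n).choose n) := Nat.mul_le_mul_left _ h1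
    _ = n.factorial * (M * (r + n).choose n) := by ring
    _ ≤ n.factorial * (d * r + c + n).choose n := Nat.mul_le_mul_left _ (h r)
    _ ≤ (d * r + c + n) ^ n := h2

theorem bez_lim (M d n c : ℕ)
    (h : ∀ r : ℕ, M * Nat.choose (r + n) n ≤ Nat.choose (d * r + c + n) n) : M ≤ d ^ n := by
  have key : ∀ r : ℕ, 0 < r → (M : ℝ) ≤ ((d : ℝ) + ((c : ℝ) + n) / r) ^ n := by
    intro r hr
    have hr' : (0 : ℝ) < r := by exact_mod_cast hr
    have h1 : (M : ℝ) * (r : ℝ) ^ n ≤ ((d : ℝ) * r + c + n) ^ n := by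
      exact_mod_cast bez_pow M d n c h r
    have h2 : ((d : ℝ) * r + c + n) = ((d : ℝ) + ((c : ℝ) + n) / r) * r := by
      field_simp
      ring
    rw [h2, mul_pow] at h1
    exact le_of_mul_le_mul_right h1 (pow_pos hr' n)
  have lim : Filter.Tendsto (fun r : ℕ => ((d : ℝ) + ((c : ℝ) + n) / r) ^ n) Filter.atTop
      (nhds ((d : ℝ) ^ n)) := by
    have h0 : Filter.Tendsto (fun r : ℕ => ((c : ℝ) + n) / r) Filter.atTop (nhds 0) :=
      tendsto_const_div_atTop_nhds_zero_nat _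
    have h1 := (h0.const_add (d : ℝ)).pow n
    rwa [add_zero] at h1
  have hM : (M : ℝ) ≤ (d : ℝ) ^ n := by
    refine ge_of_tendsto lim ?_
    filter_upwards [Filter.eventually_gt_atTop 0] with r hr
    exact key r hr
  exact_mod_cast hM

end FFW
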