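import Pool.Agent.FFW.BezDim
import Pool.Agent.FFW.BezLim

/-!
# FFW/Bez: elementary Bezout bound over a finite field

The number of points `y ∈ F ^ n` with `f_i(y) = w_i` for all `i` and nonzero Jacobian determinant
is at most `d ^ n`, if the `f_i` have total degree `≤ d`, `d ≥ 1`.

PROOF. Map to the infinite field `L = AlgebraicClosure F`: the polynomials
`map (algebraMap F L) (f i) - C (w i)`, total degree `≤ d`, and the image `Z` of the set in `L ^ n`
(injective map; zeros and Jacobian determinants are preserved, `pderiv` commutes with `map`,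
`pderiv (C _) = 0`). Apply `bez_dim` and `bez_lim`.
-/

open Finset MvPolynomial

namespace FFW

private theorem bez_eval {F L : Type*} [Field F] [Field L] (φ : F →+* L) {n : ℕ}
    (y : Fin n → F) (p : MvPolynomial (Fin n) F) :
    eval (fun i => φ (y i)) (map φ p) = φ (eval y p) := by
  rw [eval_map, MvPolynomial.eval, MvPolynomial.coe_eval₂Hom, MvPolynomial.eval₂_comp_left]
  simp [Function.comp_def]

open scoped Classical in
theorem bez {F : Type*} [Field F] [Fintype F] (n d : ℕ) (f : Fin n → MvPolynomial (Fin n) F)
    (hd : ∀ i, (f i).totalDegree ≤ d) (w : Fin n → F) :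
    (univ.filter (fun y : Fin n → F => (∀ i, eval y (f i) = w i) ∧
      (Matrix.of fun i j => eval y (pderiv j (f i))).det ≠ 0)).card ≤ d ^ n := by
  have hinf : Infinite (AlgebraicClosure F) := IsAlgClosed.instInfinite
  set φ : F →+* AlgebraicClosure F := algebraMap F (AlgebraicClosure F) with hφ
  have hφi : Function.Injective φ := φ.injective
  set g : Fin n → MvPolynomial (Fin n) (AlgebraicClosure F) :=
    fun i => map φ (f i) - C (φ (w i)) with hg
  have hgd : ∀ i, (g i).totalDegree ≤ d := by
    intro i
    refine (totalDegree_sub _ _).trans (max_le ?_ ?_)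
    · exact (Finset.sup_mono (support_map_subset φ (f i))).trans (hd i)
    · rw [totalDegree_C]; exact Nat.zero_le _
  set A := univ.filter (fun y : Fin n → F => (∀ i, eval y (f i) = w i) ∧
      (Matrix.of fun i j => eval y (pderiv j (f i))).det ≠ 0) with hA
  set Z : Finset (Fin n → AlgebraicClosure F) := A.image (fun y i => φ (y i)) with hZ
  have hcard : Z.card = A.card := by
    rw [hZ, Finset.card_image_of_injective]
    intro a b hab
    funext i
    exact hφi (congrFun hab i)
  have hz : ∀ z ∈ Z, ∀ i, eval z (g i) = 0 := by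
    intro z hzZ i
    obtain ⟨y, hy, rfl⟩ := Finset.mem_image.1 hzZ
    have hy2 := (Finset.mem_filter.1 hy).2.1 i
    rw [hg]
    simp only [map_sub, eval_C]
    rw [bez_eval, hy2, sub_self]
  have hJ : ∀ z ∈ Z, (Matrix.of fun i j => eval z (pderiv j (g i))).det ≠ 0 := by
    intro z hzZ
    obtain ⟨y, hy, rfl⟩ := Finset.mem_image.1 hzZ
    have hy2 := (Finset.mem_filter.1 hy).2.2
    have hM : (Matrix.of fun i j => eval (fun i => φ (y i)) (pderiv j (g i))) =
        φ.mapMatrix (Matrix.of fun i j => eval y (pderiv j (f i))) := by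
      ext i j
      simp only [Matrix.of_apply, RingHom.mapMatrix_apply, Matrix.map_apply]
      rw [hg]
      simp only [map_sub, pderiv_C, sub_zero]
      rw [pderiv_map, bez_eval]
    rw [hM, ← RingHom.map_det]
    intro h0
    exact hy2 (hφi (by rw [h0, map_zero]))
  obtain ⟨c, hc⟩ := bez_dim n d g hgd Z hz hJ
  rw [← hcard]
  exact bez_lim _ _ _ c hc

end FFW
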