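import Pool.Agent.FFW.BezIndep

/-!
# FFW/BezDim: dimension count

With `f_i` of total degree `≤ d` and `Z` as in `BezIndep.lean`: there is `c` with
`#Z * binom(r + n, n) ≤ binom(d r + c + n, n)` for all `r`.

PROOF. Interpolation polynomials `e z` (for `z ≠ w` in `Z` choose a coordinate `i` with
`z i ≠ w i` and take the product over `w` of `(X_i - C (w i)) / (z i - w i)`); `c` := the maximum
of their total degrees. The space of polynomials of total degree `≤ r`
(`MvPolynomial.restrictTotalDegree (Fin n) L r`) has dimension `binom(r + n, n)`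
(basis: the monomials `d` with `d.degree ≤ r`, their number is `binom(r + n, n)`: e.g. homogenise
with one more variable and `Sym` / `Finset.finsuppAntidiag`, or induction on `n`; state it as a
private lemma). The linear map `(Q_z)_{z ∈ Z} ↦ ∑ e_z * aeval f (Q_z)` from
`Z → restrictTotalDegree r` to `restrictTotalDegree (d r + c)` is injective by `bez_indep`
(total degree of `aeval f Q` is `≤ d r`). Compare the dimensions.
-/

open Finset MvPolynomial

namespace FFW

private lemma finrank_restrict (L : Type*) [Field L] (n r : ℕ) :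
    Module.finrank L (restrictTotalDegree (Fin n) L r) = Nat.choose (r + n) n := by
  classical
  have hset : {s : Fin n →₀ ℕ | (s.sum fun _ e => e) ≤ r} =
      (((Finset.range (r + 1)).biUnion fun k =>
        (Finset.univ : Finset (Fin n)).finsuppAntidiag k : Finset (Fin n →₀ ℕ)) :
        Set (Fin n →₀ ℕ)) := by
    ext s
    simp only [Set.mem_ofPred_eq, Finset.coe_biUnion, Set.mem_iUnion, Finset.mem_coe,
      Finset.mem_range, Finset.mem_finsuppAntidiag, Finset.subset_univ, and_true, exists_prop]
    constructor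
    · intro h
      refine ⟨_, Nat.lt_succ_of_le h, ?_⟩
      rw [Finsupp.sum_fintype]
      simp
    · rintro ⟨k, hk, hs⟩
      rw [Finsupp.sum_fintype _ _ (by simp), hs]
      omega
  have hb : Module.finrank L (restrictTotalDegree (Fin n) L r) =
      Nat.card {s : Fin n →₀ ℕ | (s.sum fun _ e => e) ≤ r} :=
    Module.finrank_eq_nat_card_basis (basisRestrictSupport L _)
  rw [hb, hset, Nat.card_coe_set_eq, Set.ncard_coe_finset, Finset.card_biUnion]
  · simp only [Finset.card_finsuppAntidiag_nat_eq_multichoose, Finset.card_univ, Fintype.card_fin]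
    exact Nat.sum_range_multichoose r n
  · intro i _ j _ hij
    rw [Function.onFun, Finset.disjoint_left]
    intro s hs hs'
    rw [Finset.mem_finsuppAntidiag] at hs hs'
    exact hij (hs.1.symm.trans hs'.1)

private lemma deg_aeval {L : Type*} [Field L] (n d r : ℕ) (f : Fin n → MvPolynomial (Fin n) L)
    (hd : ∀ i, (f i).totalDegree ≤ d) (Q : MvPolynomial (Fin n) L) (hQ : Q.totalDegree ≤ r) :
    (aeval f Q).totalDegree ≤ d * r := by
  rw [aeval_def, eval₂_eq']
  refine totalDegree_finsetSum_le fun s hs => ?_
  refine (totalDegree_mul _ _).trans ?_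
  have h1 : (algebraMap L (MvPolynomial (Fin n) L) (coeff s Q)).totalDegree = 0 :=
    totalDegree_C _
  rw [h1, Nat.zero_add]
  refine (totalDegree_finsetProd _ _).trans ?_
  have h2 : ∑ i, s i ≤ r := by
    have h3 := (le_totalDegree hs).trans hQ
    rwa [Finsupp.sum_fintype _ _ (by simp)] at h3
  calc ∑ i, (f i ^ s i).totalDegree ≤ ∑ i, s i * d :=
        Finset.sum_le_sum fun i _ => (totalDegree_pow _ _).trans (Nat.mul_le_mul le_rfl (hd i))
    _ = (∑ i, s i) * d := (Finset.sum_mul _ _ _).symm
    _ ≤ r * d := Nat.mul_le_mul h2 le_rfl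
    _ = d * r := Nat.mul_comm _ _

private lemma interp {L : Type*} [Field L] (n : ℕ) (Z : Finset (Fin n → L)) :
    ∃ e : (Fin n → L) → MvPolynomial (Fin n) L, ∀ z ∈ Z, ∀ w ∈ Z,
      eval w (e z) = @ite L (z = w) (Classical.propDecidable _) 1 0 := by
  classical
  have hi : ∀ z w : Fin n → L, ∃ p : MvPolynomial (Fin n) L,
      z ≠ w → (eval w p = 0 ∧ eval z p = 1) := by
    intro z w
    by_cases h : z = w
    · exact ⟨0, fun h' => absurd h h'⟩
    · obtain ⟨i, hi⟩ := Function.ne_iff.mp h
      refine ⟨C ((z i - w i)⁻¹) * (X i - C (w i)), fun _ => ⟨by simp, ?_⟩⟩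
      have : z i - w i ≠ 0 := sub_ne_zero.mpr hi
      simp [this]
  choose p hp using hi
  refine ⟨fun z => ∏ w ∈ Z.erase z, p z w, ?_⟩
  intro z hz w hw
  rw [map_prod]
  split_ifs with h
  · subst h
    refine Finset.prod_eq_one fun v hv => ?_
    exact (hp z v (Finset.ne_of_mem_erase hv).symm).2
  · refine Finset.prod_eq_zero (i := w) ?_ (hp z w h).1
    exact Finset.mem_erase.mpr ⟨fun h' => h h'.symm, hw⟩

theorem bez_dim {L : Type*} [Field L] [Infinite L] (n d : ℕ) (f : Fin n → MvPolynomial (Fin n) L)
    (hd : ∀ i, (f i).totalDegree ≤ d)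
    (Z : Finset (Fin n → L)) (hz : ∀ z ∈ Z, ∀ i, eval z (f i) = 0)
    (hJ : ∀ z ∈ Z, (Matrix.of fun i j => eval z (pderiv j (f i))).det ≠ 0) :
    ∃ c : ℕ, ∀ r : ℕ, Z.card * Nat.choose (r + n) n ≤ Nat.choose (d * r + c + n) n := by
  classical
  obtain ⟨e, he⟩ := interp n Z
  refine ⟨Z.sup fun z => (e z).totalDegree, fun r => ?_⟩
  set c := Z.sup fun z => (e z).totalDegree with hc
  let T : (Z → restrictTotalDegree (Fin n) L r) →ₗ[L] restrictTotalDegree (Fin n) L (d * r + c) :=
    LinearMap.codRestrict _
      (∑ z : Z, (LinearMap.mulLeft L (e z.1)).comp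
        ((aeval f : MvPolynomial (Fin n) L →ₐ[L] MvPolynomial (Fin n) L).toLinearMap.comp
          ((Submodule.subtype _).comp (LinearMap.proj z)))) (by
        intro Q
        rw [mem_restrictTotalDegree, LinearMap.sum_apply]
        refine totalDegree_finsetSum_le fun z _ => ?_
        simp only [LinearMap.comp_apply, LinearMap.mulLeft_apply]
        refine (totalDegree_mul _ _).trans ?_
        have h1 : (e z.1).totalDegree ≤ c := Finset.le_sup (f := fun z => (e z).totalDegree) z.2
        have h2 := deg_aeval n d r f hd (Q z).1 ((mem_restrictTotalDegree _ _ _).mp (Q z).2)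
        have h3 := Nat.add_le_add h1 h2
        rw [Nat.add_comm c] at h3
        exact h3)
  have hT : Function.Injective T := by
    rw [injective_iff_map_eq_zero]
    intro Q hQ
    have hQ' : ∑ z : Z, e z.1 * aeval f (Q z).1 = 0 := by
      have := congrArg Subtype.val hQ
      simpa [T, LinearMap.sum_apply] using this
    let Q' : (Fin n → L) → MvPolynomial (Fin n) L := fun z => if h : z ∈ Z then (Q ⟨z, h⟩).1 else 0
    have hs : ∑ z ∈ Z, e z * aeval f (Q' z) = 0 := by
      rw [← Finset.sum_coe_sort Z, ← hQ']
      refine Finset.sum_congr rfl fun z _ => ?_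
      simp [Q']
    have := bez_indep n f Z hz hJ e (fun z hz' w hw' => by
      rw [he z hz' w hw']
      split_ifs <;> rfl) Q' hs
    funext z
    apply Subtype.ext
    have h := this z.1 z.2
    simpa [Q'] using h
  have hfin := LinearMap.finrank_le_finrank_of_injective hT
  rw [Module.finrank_pi_fintype, finrank_restrict] at hfin
  simpa [finrank_restrict] using hfin

end FFW
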