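import Mathlib

/-!
# FFW/BezIndep: linear independence behind the elementary Bezout bound

`L` an infinite field, `f_1, ..., f_n` polynomials in `n` variables, `Z` a finite set of common
zeros at which the Jacobian determinant is not zero, `e z` polynomials with `e z (w) = δ_{z,w}` on
`Z`. If `∑_z e_z * Q_z(f_1, ..., f_n) = 0` then all `Q_z` (`z ∈ Z`) vanish.

PROOF. Suppose some `Q_z ≠ 0`, `z ∈ Z`. Let `m` be the least degree such that some `Q_z`, `z ∈ Z`,
has a nonzero homogeneous component of degree `m`, and `z0 ∈ Z` with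
`R := homogeneousComponent m (Q z0) ≠ 0`. `L` is infinite, so there is `w` with `eval w R ≠ 0`
(`MvPolynomial.funext`). The Jacobian matrix `A_{ij} = eval z0 (pderiv j (f i))` is invertible:
`v := A⁻¹ w`, so `A.mulVec v = w`. Let `θ : MvPolynomial (Fin n) L →ₐ Polynomial L`,
`X_i ↦ C (z0 i) + X * C (v i)`. Then `θ (f i)` has constant coefficient `eval z0 (f i) = 0` and
coefficient of `X` equal to `∑_j v_j * eval z0 (pderiv j (f i)) = w i` (derivative of `θ p` at `0`;
prove for all `p` by induction: `(θ p).coeff 0 = eval z0 p`,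
`(θ p).coeff 1 = ∑_j v j * eval z0 (pderiv j p)`). So `θ (f i) = X * ρ_i`, `(ρ_i).coeff 0 = w i`.
For a polynomial `Q` all of whose homogeneous components of degree `< m` vanish,
`aeval (θ ∘ f) Q = X ^ m * (aeval ρ (homogeneousComponent m Q) + X * ...)`
(monomial by monomial: `aeval (X * ρ) (monomial d c) = X ^ |d| * aeval ρ (monomial d c)`), so its
coefficient of `X ^ m` is `eval w (homogeneousComponent m Q)`. Apply `θ` to the hypothesis:
`∑_z θ(e_z) * aeval (θ ∘ f) (Q_z) = 0`; the coefficient of `X ^ m` is
`∑_z (e_z)(z0) * eval w (homogeneousComponent m (Q_z)) = eval w R ≠ 0`, a contradiction.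
-/

open Finset MvPolynomial

namespace FFW

private noncomputable def th {L : Type*} [Field L] {n : ℕ} (z v : Fin n → L) :
    MvPolynomial (Fin n) L →ₐ[L] Polynomial L :=
  aeval (fun i => Polynomial.C (z i) + Polynomial.X * Polynomial.C (v i))

private theorem th0 {L : Type*} [Field L] {n : ℕ} (z v : Fin n → L) (p : MvPolynomial (Fin n) L) :
    (th z v p).coeff 0 = eval z p := by
  induction p using MvPolynomial.induction_on with
  | C a => simp [th]
  | add p q hp hq => rw [map_add, Polynomial.coeff_add, hp, hq, map_add]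
  | mul_X p i hp =>
    rw [map_mul, Polynomial.mul_coeff_zero, hp, map_mul]
    congr 1
    simp [th]

private theorem th1 {L : Type*} [Field L] {n : ℕ} (z v : Fin n → L) (p : MvPolynomial (Fin n) L) :
    (th z v p).coeff 1 = ∑ j, v j * eval z (pderiv j p) := by
  classical
  induction p using MvPolynomial.induction_on with
  | C a =>
    have h1 : th z v (C a) = Polynomial.C a := by
      simp [th, MvPolynomial.algebraMap_eq, Polynomial.algebraMap_eq]
    rw [h1, Polynomial.coeff_C]
    simp
  | add p q hp hq =>
    rw [map_add, Polynomial.coeff_add, hp, hq, ← Finset.sum_add_distrib]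
    refine Finset.sum_congr rfl fun j _ => ?_
    rw [map_add, map_add, mul_add]
  | mul_X p i hp =>
    have h1 : th z v (p * X i) =
        th z v p * Polynomial.C (z i) + th z v p * Polynomial.C (v i) * Polynomial.X := by
      rw [map_mul]
      have : th z v (X i) = Polynomial.C (z i) + Polynomial.X * Polynomial.C (v i) := by
        simp [th]
      rw [this]
      ring
    rw [h1, Polynomial.coeff_add, Polynomial.coeff_mul_C, Polynomial.coeff_mul_X,
      Polynomial.coeff_mul_C, th0, hp]
    have h2 : ∀ j, v j * eval z (pderiv j (p * X i)) =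
        v j * eval z (pderiv j p) * z i + (if j = i then v j * eval z p else 0) := by
      intro j
      rw [Derivation.leibniz, pderiv_X]
      by_cases hji : j = i
      · subst hji
        simp
        ring
      · have h3 : (Pi.single j (1 : MvPolynomial (Fin n) L) : Fin n → MvPolynomial (Fin n) L) i = 0 :=
          Pi.single_eq_of_ne (Ne.symm hji) _
        simp [hji, smul_eq_mul, h3]
        ring
    simp only [h2]
    rw [Finset.sum_add_distrib, Finset.sum_ite_eq' Finset.univ i, if_pos (Finset.mem_univ i),
      ← Finset.sum_mul]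
    ring

private theorem coeff_aeval {L : Type*} [Field L] {n : ℕ} (ρ : Fin n → Polynomial L)
    (Q : MvPolynomial (Fin n) L) (m : ℕ)
    (hQ : ∀ j < m, homogeneousComponent j Q = 0) :
    (aeval (fun i => Polynomial.X * ρ i) Q).coeff m =
      eval (fun i => (ρ i).coeff 0) (homogeneousComponent m Q) := by
  classical
  have h0 : ∀ d ∈ Q.support, m ≤ d.degree := by
    intro d hd
    by_contra hlt
    push Not at hlt
    have h1 := hQ _ hlt
    have h2 : coeff d (homogeneousComponent d.degree Q) = coeff d Q := by
      rw [coeff_homogeneousComponent, if_pos rfl]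
    rw [h1, coeff_zero] at h2
    exact (mem_support_iff.1 hd) h2.symm
  have h1 : ∀ (d : Fin n →₀ ℕ) (c : L),
      aeval (fun i => Polynomial.X * ρ i) (monomial d c) =
        (Polynomial.C c * ∏ i, ρ i ^ d i) * Polynomial.X ^ d.degree := by
    intro d c
    rw [aeval_monomial, Polynomial.algebraMap_eq, Finsupp.prod_fintype _ _ (by simp)]
    simp only [mul_pow]
    rw [Finset.prod_mul_distrib, Finset.prod_pow_eq_pow_sum]
    have : ∑ i, d i = d.degree := by
      rw [Finsupp.degree_eq_sum]
    rw [this]
    ring
  have h2 : ∀ d ∈ Q.support,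
      (aeval (fun i => Polynomial.X * ρ i) (monomial d (coeff d Q))).coeff m =
        if d.degree = m then eval (fun i => (ρ i).coeff 0) (monomial d (coeff d Q)) else 0 := by
    intro d hd
    rw [h1, Polynomial.coeff_mul_X_pow']
    by_cases hdm : d.degree = m
    · rw [if_pos hdm.le, if_pos hdm, hdm, Nat.sub_self, Polynomial.mul_coeff_zero,
        Polynomial.coeff_C_zero, eval_monomial, Finsupp.prod_fintype _ _ (by simp)]
      congr 1
      rw [Polynomial.coeff_zero_eq_eval_zero, Polynomial.eval_prod]
      refine Finset.prod_congr rfl fun i _ => ?_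
      rw [Polynomial.eval_pow, ← Polynomial.coeff_zero_eq_eval_zero]
    · rw [if_neg hdm, if_neg]
      intro hle
      exact hdm (le_antisymm hle (h0 d hd))
  conv_lhs => rw [Q.as_sum]
  rw [map_sum, Polynomial.finsetSum_coeff, Finset.sum_congr rfl h2, homogeneousComponent_apply,
    map_sum, Finset.sum_filter]

open scoped Classical in
theorem bez_indep {L : Type*} [Field L] [Infinite L] (n : ℕ) (f : Fin n → MvPolynomial (Fin n) L)
    (Z : Finset (Fin n → L)) (hz : ∀ z ∈ Z, ∀ i, eval z (f i) = 0)
    (hJ : ∀ z ∈ Z, (Matrix.of fun i j => eval z (pderiv j (f i))).det ≠ 0)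
    (e : (Fin n → L) → MvPolynomial (Fin n) L)
    (he : ∀ z ∈ Z, ∀ w ∈ Z, eval w (e z) = if z = w then 1 else 0)
    (Q : (Fin n → L) → MvPolynomial (Fin n) L)
    (h : ∑ z ∈ Z, e z * aeval f (Q z) = 0) : ∀ z ∈ Z, Q z = 0 := by
  by_contra hne
  push Not at hne
  obtain ⟨z1, hz1, hQ1⟩ := hne
  have hex : ∃ m, ∃ z ∈ Z, homogeneousComponent m (Q z) ≠ 0 := by
    by_contra hall
    push Not at hall
    apply hQ1
    rw [← sum_homogeneousComponent (Q z1)]
    exact Finset.sum_eq_zero fun i _ => hall i z1 hz1
  obtain ⟨z0, hz0, hR⟩ := Nat.find_spec hex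
  have hmin : ∀ z ∈ Z, ∀ j < Nat.find hex, homogeneousComponent j (Q z) = 0 := by
    intro z hzZ j hj
    by_contra hh
    exact Nat.find_min hex hj ⟨z, hzZ, hh⟩
  generalize Nat.find hex = m at hR hmin
  obtain ⟨w, hw⟩ : ∃ w, eval w (homogeneousComponent m (Q z0)) ≠ 0 := by
    by_contra hall
    push Not at hall
    apply hR
    apply MvPolynomial.funext
    intro x
    rw [hall x, map_zero]
  set A : Matrix (Fin n) (Fin n) L := Matrix.of fun i j => eval z0 (pderiv j (f i)) with hA
  have hdet : IsUnit A.det := isUnit_iff_ne_zero.2 (hJ z0 hz0)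
  set v : Fin n → L := A⁻¹.mulVec w with hv
  have hAv : A.mulVec v = w := by
    rw [hv, Matrix.mulVec_mulVec, Matrix.mul_nonsing_inv _ hdet, Matrix.one_mulVec]
  set ρ : Fin n → Polynomial L := fun i => Polynomial.divX (th z0 v (f i)) with hρ
  have hρf : ∀ i, th z0 v (f i) = Polynomial.X * ρ i := by
    intro i
    have h1 := Polynomial.divX_mul_X_add (th z0 v (f i))
    rw [th0, hz z0 hz0 i, Polynomial.C_0, add_zero] at h1
    rw [← h1, hρ, mul_comm]
  have hρ0 : ∀ i, (ρ i).coeff 0 = w i := by
    intro i
    rw [hρ]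
    simp only
    rw [Polynomial.coeff_divX, zero_add, th1, ← hAv, Matrix.mulVec, dotProduct]
    refine Finset.sum_congr rfl fun j _ => ?_
    rw [hA, Matrix.of_apply, mul_comm]
  have hfw : (fun i => (ρ i).coeff 0) = w := by
    funext i
    exact hρ0 i
  have hth : ∀ z, th z0 v (aeval f (Q z)) = aeval (fun i => Polynomial.X * ρ i) (Q z) := by
    intro z
    rw [comp_aeval_apply]
    congr 2
    funext i
    exact hρf i
  have hco : ∀ z ∈ Z, ∀ j ≤ m, (th z0 v (aeval f (Q z))).coeff j =
      eval w (homogeneousComponent j (Q z)) := by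
    intro z hzZ j hj
    rw [hth, coeff_aeval ρ (Q z) j (fun i hi => hmin z hzZ i (lt_of_lt_of_le hi hj)), hfw]
  have key := congrArg (fun p => (th z0 v p).coeff m) h
  simp only [map_zero, Polynomial.coeff_zero] at key
  rw [map_sum, Polynomial.finsetSum_coeff] at key
  have hterm : ∀ z ∈ Z, (th z0 v (e z * aeval f (Q z))).coeff m =
      if z = z0 then eval w (homogeneousComponent m (Q z)) else 0 := by
    intro z hzZ
    rw [map_mul, Polynomial.coeff_mul, Finset.sum_eq_single (0, m)]
    · simp only
      rw [th0, he z hzZ z0 hz0, hco z hzZ m le_rfl]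
      split_ifs
      · rw [one_mul]
      · rw [zero_mul]
    · rintro ⟨a, b⟩ hab hne'
      rw [Finset.HasAntidiagonal.mem_antidiagonal] at hab
      simp only at hab
      have hbm : b < m := by
        rcases Nat.lt_or_ge b m with hb | hb
        · exact hb
        · exfalso
          apply hne'
          have ha : a = 0 := by omega
          have hb' : b = m := by omega
          rw [ha, hb']
      simp only
      rw [hco z hzZ b hbm.le, hmin z hzZ b hbm, map_zero, mul_zero]
    · intro hnot
      exfalso
      apply hnot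
      rw [Finset.HasAntidiagonal.mem_antidiagonal]
      simp
  rw [Finset.sum_congr rfl hterm, Finset.sum_ite_eq' Z z0, if_pos hz0] at key
  exact hw key

end FFW
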