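import Pool.Agent.FFW.Defs

/-!
# FFW/Circle: the circle method inequality

`M = k D`, `λ(s) = ‖S ψ k (fn (M+1) s) (D+1)‖ / q ^ (D+1)`. Let `W` be a nonempty set of polynomials
of degree `≤ M`, `A` a set of functionals with `∑_{s ∈ A, s ≠ 0} λ(s) ^ t ≤ 1/2`, `λ(s) ^ t ≤ δ` for
`s ∉ A`, `2 δ q ^ (M+1) < #W`. Then every `N` of degree `≤ M` is `w₁ + w₂ + ∑_{i<t} x_i ^ k` with
`w₁, w₂ ∈ W` and `x_i` of degree `≤ D`.

PROOF. Orthogonality: for `z ∈ Pl (M+1)`, `∑_s ψ(fn (M+1) s z) = q ^ (M+1)` if `z = 0`, and `0`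
otherwise (`fn_apply`; if `z.coeff i ≠ 0` shift `s i`; `ψ ≠ 1`). Let
`R = #{(w₁, w₂, x) : w₁ + w₂ + ∑ x_i ^ k = N}` (`x_i ^ k ∈ Pl (M+1)`), `Ŵ(s) = ∑_{w ∈ W} ψ(fn s w)`.
`q ^ (M+1) R = ∑_s Ŵ(s)² (S ψ k (fn s) (D+1)) ^ t ψ(- fn s N)`. `s = 0` gives
`(#W)² q ^ ((D+1) t)`. The rest is in absolute value at most
`q ^ ((D+1) t) (∑_{s ∈ A, s ≠ 0} |Ŵ(s)|² λ(s) ^ t + ∑_{s ∉ A} |Ŵ(s)|² λ(s) ^ t)
≤ q ^ ((D+1) t) ((#W)² / 2 + δ ∑_s |Ŵ(s)|²)` and `∑_s |Ŵ(s)|² = q ^ (M+1) #W` (orthogonality).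
So `q ^ (M+1) R ≥ q ^ ((D+1) t) #W (#W / 2 - δ q ^ (M+1)) > 0`.
-/

open Finset Polynomial

namespace FFW

private theorem achar_sum {F ι : Type*} [Field F] (ψ : AddChar F ℂ) (s : Finset ι) (f : ι → F) :
    ψ (∑ i ∈ s, f i) = ∏ i ∈ s, ψ (f i) := by
  classical
  induction s using Finset.induction_on with
  | empty => simp
  | insert a s ha ih => rw [Finset.sum_insert ha, Finset.prod_insert ha, AddChar.map_add_eq_mul, ih]

private theorem orth {F : Type*} [Field F] [Fintype F] (ψ : AddChar F ℂ) (hψ : ψ ≠ 1) (m : ℕ)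
    (z : F[X]) (hz : z ∈ Pl F m) (hz0 : z ≠ 0) : ∑ s : Fin m → F, ψ (fn m s z) = 0 := by
  classical
  have h1 : ∀ s : Fin m → F, ψ (fn m s z) = ∏ i : Fin m, ψ (s i * z.coeff i) := by
    intro s
    rw [fn_apply, achar_sum]
  simp_rw [h1]
  have h2 := Finset.prod_univ_sum (R := ℂ) (fun _ : Fin m => (Finset.univ : Finset F))
    (fun i a => ψ (a * z.coeff i))
  rw [Fintype.piFinset_univ] at h2
  rw [← h2]
  obtain ⟨i, hi⟩ : ∃ i : Fin m, z.coeff i ≠ 0 := by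
    by_contra hc
    push Not at hc
    apply hz0
    ext j
    rw [coeff_zero]
    rcases Nat.lt_or_ge j m with hj | hj
    · exact hc ⟨j, hj⟩
    · exact (Polynomial.degree_lt_iff_coeff_zero z m).1 (mem_Pl.1 hz) j hj
  apply Finset.prod_eq_zero (Finset.mem_univ i)
  rw [AddChar.sum_mulShift (z.coeff i) (AddChar.IsPrimitive.of_ne_one hψ), if_neg hi]
  simp

private theorem orth0 {F : Type*} [Field F] [Fintype F] (ψ : AddChar F ℂ) (m : ℕ) :
    ∑ s : Fin m → F, ψ (fn m s 0) = (Fintype.card F : ℂ) ^ m := by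
  simp

private theorem pow_mem_Pl {F : Type*} [Field F] [Fintype F] (k D : ℕ) {x : F[X]}
    (hx : x ∈ Pl F (D + 1)) : x ^ k ∈ Pl F (k * D + 1) := by
  rw [mem_Pl] at *
  have h1 : x.natDegree ≤ D := by
    rcases eq_or_ne x 0 with h | h
    · simp [h]
    · have := (Polynomial.natDegree_lt_iff_degree_lt h).2 hx
      omega
  have h2 : (x ^ k).natDegree ≤ k * D := Polynomial.natDegree_pow_le.trans (Nat.mul_le_mul_left k h1)
  have h3 : (x ^ k).degree ≤ ((k * D : ℕ) : WithBot ℕ) := Polynomial.degree_le_of_natDegree_le h2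
  refine lt_of_le_of_lt h3 ?_
  exact_mod_cast Nat.lt_succ_self _

private theorem parseval {F : Type*} [Field F] [Fintype F] (ψ : AddChar F ℂ) (hψ : ψ ≠ 1) (m : ℕ)
    (W : Finset F[X]) (hW : ∀ w ∈ W, w ∈ Pl F m) :
    ∑ s : Fin m → F, ‖∑ w ∈ W, ψ (fn m s w)‖ ^ 2 = (Fintype.card F : ℝ) ^ m * W.card := by
  classical
  have h1 : ∀ s : Fin m → F, ((‖∑ w ∈ W, ψ (fn m s w)‖ ^ 2 : ℝ) : ℂ) =
      ∑ w ∈ W, ∑ w' ∈ W, ψ (fn m s (w - w')) := by
    intro s
    rw [← Complex.normSq_eq_norm_sq, ← Complex.mul_conj, map_sum, Finset.sum_mul_sum]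
    refine Finset.sum_congr rfl fun w _ => Finset.sum_congr rfl fun w' _ => ?_
    rw [map_sub, sub_eq_add_neg, AddChar.map_add_eq_mul, AddChar.map_neg_eq_conj]
  have h2 : ((∑ s : Fin m → F, ‖∑ w ∈ W, ψ (fn m s w)‖ ^ 2 : ℝ) : ℂ) =
      (((Fintype.card F : ℝ) ^ m * W.card : ℝ) : ℂ) := by
    rw [Complex.ofReal_sum]
    simp_rw [h1]
    rw [Finset.sum_comm]
    have h3 : ∀ w ∈ W, ∑ s : Fin m → F, ∑ w' ∈ W, ψ (fn m s (w - w')) =
        (Fintype.card F : ℂ) ^ m := by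
      intro w hw
      rw [Finset.sum_comm, Finset.sum_eq_single w]
      · rw [sub_self, orth0]
      · intro w' hw' hne
        exact orth ψ hψ m _ (sub_mem_Pl (hW w hw) (hW w' hw')) (sub_ne_zero.2 hne.symm)
      · intro h; exact absurd hw h
    rw [Finset.sum_congr rfl h3, Finset.sum_const, nsmul_eq_mul]
    push_cast
    ring
  exact_mod_cast h2

private theorem circle_aux {F : Type*} [Field F] [Fintype F] (ψ : AddChar F ℂ) (hψ : ψ ≠ 1)
    (k D t m : ℕ) (hpow : ∀ x ∈ Pl F (D + 1), x ^ k ∈ Pl F m)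
    (W : Finset F[X]) (hW : ∀ w ∈ W, w ∈ Pl F m) (hne : W.Nonempty)
    (A : Set (Fin m → F)) (δ : ℝ)
    (hmaj : ∀ A' : Finset (Fin m → F), (∀ s ∈ A', s ∈ A ∧ s ≠ 0) →
      ∑ s ∈ A', (‖S ψ k (fn m s) (D + 1)‖ / (Fintype.card F : ℝ) ^ (D + 1)) ^ t ≤ 1 / 2)
    (hmin : ∀ s, s ∉ A →
      (‖S ψ k (fn m s) (D + 1)‖ / (Fintype.card F : ℝ) ^ (D + 1)) ^ t ≤ δ)
    (hδ : 2 * δ * (Fintype.card F : ℝ) ^ m < W.card)
    (N : F[X]) (hN : N ∈ Pl F m) :
    ∃ w₁ ∈ W, ∃ w₂ ∈ W, ∃ x : Fin t → F[X], (∀ i, x i ∈ Pl F (D + 1)) ∧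
      N = w₁ + w₂ + ∑ i, x i ^ k := by
  classical
  by_contra hcon
  push Not at hcon
  set q : ℝ := (Fintype.card F : ℝ) with hq
  have hq0 : 0 < q := by
    rw [hq]; exact_mod_cast Fintype.card_pos
  set Wh : (Fin m → F) → ℂ := fun s => ∑ w ∈ W, ψ (fn m s w) with hWh
  set lam : (Fin m → F) → ℝ := fun s => ‖S ψ k (fn m s) (D + 1)‖ / q ^ (D + 1) with hlam
  have hWc : (0 : ℝ) < W.card := by exact_mod_cast hne.card_pos
  -- replace `δ` by a nonnegative number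
  obtain ⟨δ', hδ'0, hmin', hδ'⟩ : ∃ δ' : ℝ, 0 ≤ δ' ∧ (∀ s, s ∉ A → lam s ^ t ≤ δ') ∧
      2 * δ' * q ^ m < W.card := by
    rcases le_or_gt 0 δ with h | h
    · exact ⟨δ, h, hmin, hδ⟩
    · refine ⟨0, le_rfl, fun s hs => (hmin s hs).trans h.le, ?_⟩
      simpa using hWc
  -- the number of solutions
  have hR : ∑ w₁ ∈ W, ∑ w₂ ∈ W, ∑ x ∈ Fintype.piFinset (fun _ : Fin t => Pl F (D + 1)),
      ∑ s : Fin m → F, ψ (fn m s (w₁ + w₂ + ∑ i, x i ^ k - N)) = 0 := by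
    refine Finset.sum_eq_zero fun w₁ h1 => Finset.sum_eq_zero fun w₂ h2 =>
      Finset.sum_eq_zero fun x hx => ?_
    have hx' : ∀ i, x i ∈ Pl F (D + 1) := fun i => Fintype.mem_piFinset.1 hx i
    apply orth ψ hψ
    · refine sub_mem_Pl (add_mem_Pl (add_mem_Pl (hW _ h1) (hW _ h2)) ?_) hN
      refine Finset.sum_induction _ (fun z => z ∈ Pl F m) (fun a b ha hb => add_mem_Pl ha hb)
        (zero_mem_Pl m) (fun i _ => hpow _ (hx' i))
    · intro h0
      exact hcon w₁ h1 w₂ h2 x hx' (sub_eq_zero.1 h0).symm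
  have hI : ∑ s : Fin m → F, Wh s ^ 2 * S ψ k (fn m s) (D + 1) ^ t * ψ (fn m s (-N)) = 0 := by
    rw [← hR]
    symm
    calc ∑ w₁ ∈ W, ∑ w₂ ∈ W, ∑ x ∈ Fintype.piFinset (fun _ : Fin t => Pl F (D + 1)),
        ∑ s : Fin m → F, ψ (fn m s (w₁ + w₂ + ∑ i, x i ^ k - N))
        = ∑ s : Fin m → F, ∑ w₁ ∈ W, ∑ w₂ ∈ W,
          ∑ x ∈ Fintype.piFinset (fun _ : Fin t => Pl F (D + 1)),
            ψ (fn m s (w₁ + w₂ + ∑ i, x i ^ k - N)) := by
          rw [Finset.sum_comm' (s := Finset.univ) (t' := W) (s' := fun _ => Finset.univ)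
            (t := fun _ => W)]
          · refine Finset.sum_congr rfl fun w₁ _ => ?_
            rw [Finset.sum_comm' (s := Finset.univ) (t' := W) (s' := fun _ => Finset.univ)
              (t := fun _ => W)]
            · refine Finset.sum_congr rfl fun w₂ _ => ?_
              rw [Finset.sum_comm]
            · simp
          · simp
      _ = _ := by
          refine Finset.sum_congr rfl fun s _ => ?_
          have hS : S ψ k (fn m s) (D + 1) ^ t =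
              ∑ x ∈ Fintype.piFinset (fun _ : Fin t => Pl F (D + 1)),
                ψ (fn m s (∑ i, x i ^ k)) := by
            unfold S
            have h2 := Finset.prod_univ_sum (R := ℂ) (fun _ : Fin t => Pl F (D + 1))
              (fun _ a => ψ (fn m s (a ^ k)))
            rw [Finset.prod_const, Finset.card_univ, Fintype.card_fin] at h2
            rw [h2]
            refine Finset.sum_congr rfl fun x _ => ?_
            rw [map_sum, achar_sum]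
          rw [hS, sq]
          simp only [hWh]
          rw [Finset.sum_mul_sum, Finset.sum_mul, Finset.sum_mul]
          refine Finset.sum_congr rfl fun w₁ _ => ?_
          rw [Finset.sum_mul, Finset.sum_mul]
          refine Finset.sum_congr rfl fun w₂ _ => ?_
          rw [Finset.mul_sum, Finset.sum_mul]
          refine Finset.sum_congr rfl fun x _ => ?_
          rw [sub_eq_add_neg, (fn m s).map_add, (fn m s).map_add, (fn m s).map_add,
            AddChar.map_add_eq_mul, AddChar.map_add_eq_mul, AddChar.map_add_eq_mul]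
  have hnorm : ∀ s, ‖Wh s ^ 2 * S ψ k (fn m s) (D + 1) ^ t * ψ (fn m s (-N))‖ =
      (q ^ (D + 1)) ^ t * (‖Wh s‖ ^ 2 * lam s ^ t) := by
    intro s
    rw [norm_mul, norm_mul, norm_pow, norm_pow, AddChar.norm_apply]
    simp only [hlam]
    rw [div_pow]
    field_simp
  have hWh_le : ∀ s, ‖Wh s‖ ≤ W.card := by
    intro s
    simp only [hWh]
    refine (norm_sum_le _ _).trans ?_
    simp [AddChar.norm_apply]
  have hlam0 : ∀ s, 0 ≤ lam s := fun s => by positivity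
  -- the main term
  have h0 : Wh 0 ^ 2 * S ψ k (fn m 0) (D + 1) ^ t * ψ (fn m 0 (-N)) =
      (((W.card : ℝ) ^ 2 * (q ^ (D + 1)) ^ t : ℝ) : ℂ) := by
    have e0 : ∀ z : F[X], fn m 0 z = 0 := by
      intro z
      rw [fn_apply]
      simp
    simp only [hWh]
    unfold S
    simp only [e0, AddChar.map_zero_eq_one, Finset.sum_const, card_Pl, nsmul_eq_mul, mul_one]
    rw [hq]
    push_cast
    ring
  have hsplit := hI
  rw [← Finset.add_sum_erase _ _ (Finset.mem_univ (0 : Fin m → F)), h0] at hsplit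
  have hbound : (W.card : ℝ) ^ 2 * (q ^ (D + 1)) ^ t ≤
      ∑ s ∈ Finset.univ.erase (0 : Fin m → F), (q ^ (D + 1)) ^ t * (‖Wh s‖ ^ 2 * lam s ^ t) := by
    have h1 : (((W.card : ℝ) ^ 2 * (q ^ (D + 1)) ^ t : ℝ) : ℂ) =
        -∑ s ∈ Finset.univ.erase (0 : Fin m → F),
          Wh s ^ 2 * S ψ k (fn m s) (D + 1) ^ t * ψ (fn m s (-N)) := eq_neg_of_add_eq_zero_left hsplit
    have h2 := congrArg norm h1
    rw [norm_neg, Complex.norm_real, Real.norm_of_nonneg (by positivity)] at h2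
    rw [h2]
    refine (norm_sum_le _ _).trans ?_
    exact Finset.sum_le_sum fun s _ => (hnorm s).le
  rw [← Finset.mul_sum, mul_comm] at hbound
  have hqt : 0 < (q ^ (D + 1)) ^ t := by positivity
  have hb2 := le_of_mul_le_mul_left hbound hqt
  rw [← Finset.sum_filter_add_sum_filter_not _ (fun s => s ∈ A)] at hb2
  have hb3 : ∑ s ∈ (Finset.univ.erase (0 : Fin m → F)).filter (fun s => s ∈ A),
      ‖Wh s‖ ^ 2 * lam s ^ t ≤ (W.card : ℝ) ^ 2 * (1 / 2) := by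
    refine le_trans (Finset.sum_le_sum (g := fun s => (W.card : ℝ) ^ 2 * lam s ^ t) fun s _ => ?_) ?_
    · exact mul_le_mul_of_nonneg_right (pow_le_pow_left₀ (norm_nonneg _) (hWh_le s) 2)
        (pow_nonneg (hlam0 s) t)
    · rw [← Finset.mul_sum]
      refine mul_le_mul_of_nonneg_left (hmaj _ ?_) (by positivity)
      intro s hs
      rw [Finset.mem_filter, Finset.mem_erase] at hs
      exact ⟨hs.2, hs.1.1⟩
  have hb4 : ∑ s ∈ (Finset.univ.erase (0 : Fin m → F)).filter (fun s => ¬ s ∈ A),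
      ‖Wh s‖ ^ 2 * lam s ^ t ≤ δ' * (q ^ m * W.card) := by
    refine le_trans (Finset.sum_le_sum (g := fun s => δ' * ‖Wh s‖ ^ 2) fun s hs => ?_) ?_
    · rw [Finset.mem_filter] at hs
      rw [mul_comm]
      exact mul_le_mul_of_nonneg_right (hmin' s hs.2) (by positivity)
    · rw [← Finset.mul_sum]
      refine mul_le_mul_of_nonneg_left ?_ hδ'0
      rw [hq, ← parseval ψ hψ m W hW]
      refine Finset.sum_le_sum_of_subset_of_nonneg (Finset.subset_univ _) fun s _ _ => ?_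
      positivity
  have hfin : (W.card : ℝ) ^ 2 ≤ (W.card : ℝ) ^ 2 * (1 / 2) + δ' * (q ^ m * W.card) :=
    hb2.trans (add_le_add hb3 hb4)
  nlinarith [mul_lt_mul_of_pos_right hδ' hWc]

theorem circle {F : Type*} [Field F] [Fintype F] (ψ : AddChar F ℂ) (hψ : ψ ≠ 1) (k D t : ℕ)
    (W : Finset F[X]) (hW : ∀ w ∈ W, w ∈ Pl F (k * D + 1)) (hne : W.Nonempty)
    (A : Set (Fin (k * D + 1) → F)) (δ : ℝ)
    (hmaj : ∀ A' : Finset (Fin (k * D + 1) → F), (∀ s ∈ A', s ∈ A ∧ s ≠ 0) →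
      ∑ s ∈ A', (‖S ψ k (fn (k * D + 1) s) (D + 1)‖ / (Fintype.card F : ℝ) ^ (D + 1)) ^ t ≤ 1 / 2)
    (hmin : ∀ s, s ∉ A →
      (‖S ψ k (fn (k * D + 1) s) (D + 1)‖ / (Fintype.card F : ℝ) ^ (D + 1)) ^ t ≤ δ)
    (hδ : 2 * δ * (Fintype.card F : ℝ) ^ (k * D + 1) < W.card)
    (N : F[X]) (hN : N ∈ Pl F (k * D + 1)) :
    ∃ w₁ ∈ W, ∃ w₂ ∈ W, ∃ x : Fin t → F[X], (∀ i, x i ∈ Pl F (D + 1)) ∧
      N = w₁ + w₂ + ∑ i, x i ^ k := by
  exact circle_aux ψ hψ k D t (k * D + 1) (fun x hx => pow_mem_Pl k D hx) W hW hne A δ hmaj hmin hδ N hN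

end FFW
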