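import Pool.Agent.FFW.Den

/-!
# FFW/Joint: independence of the residue modulo `g` and the top coefficients

`g` monic, `deg g + e ≤ D + 1`, `e ≤ k D`. The number of `x ∈ (Pl (D+1)) ^ t` with
`∑ x_i ^ k - n ∈ Pl (k D + 1 - e)` and `g ∣ ∑ x_i ^ k - n` is
`(q ^ (D + 1 - deg g - e)) ^ t * rr k t g n * rr k t (X ^ e) (reflect (k D) n)`.

PROOF. For `w ∈ Pl (k D + 1)`: `w ∈ Pl (k D + 1 - e) ↔ X ^ e ∣ reflect (k D) w`;
`reflect (k D) (∑ x_i ^ k - n) = ∑ (reflect D x_i) ^ k - reflect (k D) n`. Both conditions depend only on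
`x_i %ₘ g` and `reflect D x_i %ₘ X ^ e`. The map `Pl (D+1) → Pl (deg g) × Pl e`,
`x ↦ (x %ₘ g, reflect D x %ₘ X ^ e)`, is linear and surjective, all fibres have
`q ^ (D + 1 - deg g - e)` elements (see the proof of `fac` in Fac.lean, private lemmas there can be
copied). Count `t`-tuples (`Fintype.piFinset`).
-/

open Finset Polynomial

namespace FFW


private theorem mem_Pl_succ {F : Type*} [Field F] [Fintype F] {n : ℕ} {x : F[X]} :
    x ∈ Pl F (n + 1) ↔ x.natDegree ≤ n := by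
  rw [mem_Pl, degree_lt_iff_coeff_zero, natDegree_le_iff_coeff_eq_zero]
  exact Iff.rfl

private theorem reflect_pow {F : Type*} [Field F] {D : ℕ} {x : F[X]} (hx : x.natDegree ≤ D) (k : ℕ) :
    reflect (k * D) (x ^ k) = (reflect D x) ^ k := by
  induction k with
  | zero => rw [zero_mul, pow_zero, pow_zero, ← C_1, reflect_C]; simp
  | succ k ih =>
    have h : (x ^ k).natDegree ≤ k * D := (natDegree_pow_le).trans (Nat.mul_le_mul_left k hx)
    rw [pow_succ, Nat.succ_mul, reflect_mul _ _ h hx, ih, pow_succ]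

private theorem refl_refl {F : Type*} [Field F] (D : ℕ) (v : F[X]) : reflect D (reflect D v) = v := by
  ext i
  rw [coeff_reflect, coeff_reflect, revAt_invol]

private theorem reflect_mem {F : Type*} [Field F] [Fintype F] {D : ℕ} {v : F[X]} (hv : v ∈ Pl F (D + 1)) :
    reflect D v ∈ Pl F (D + 1) := by
  rw [mem_Pl, degree_lt_iff_coeff_zero] at *
  intro m hm
  rw [coeff_reflect, revAt_eq_self_of_lt (by omega)]
  exact hv m hm

private theorem dvd_reflect {F : Type*} [Field F] [Fintype F] {D e : ℕ} (he : e ≤ D + 1) {y : F[X]}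
    (hy : y ∈ Pl F (D + 1 - e)) : (X : F[X]) ^ e ∣ reflect D y := by
  rw [X_pow_dvd_iff]
  intro d hd
  rw [mem_Pl, degree_lt_iff_coeff_zero] at hy
  rw [coeff_reflect, revAt_le (by omega)]
  exact hy _ (by omega)

private theorem mem_of_dvd_reflect {F : Type*} [Field F] [Fintype F] {D e : ℕ} (he : e ≤ D + 1) {y : F[X]}
    (hy : y ∈ Pl F (D + 1)) (h : (X : F[X]) ^ e ∣ reflect D y) : y ∈ Pl F (D + 1 - e) := by
  rw [X_pow_dvd_iff] at h
  rw [mem_Pl, degree_lt_iff_coeff_zero] at *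
  intro m hm
  by_cases hmD : D + 1 ≤ m
  · exact hy m hmD
  · have h1 := h (D - m) (by omega)
    rw [coeff_reflect, revAt_le (by omega)] at h1
    rwa [show D - (D - m) = m by omega] at h1

private theorem mod_mem {F : Type*} [Field F] [Fintype F] {g : F[X]} (hg : g.Monic) (x : F[X]) :
    x %ₘ g ∈ Pl F g.natDegree := by
  rw [mem_Pl, ← degree_eq_natDegree hg.ne_zero]
  exact degree_modByMonic_lt x hg

private theorem mod_self {F : Type*} [Field F] [Fintype F] {g : F[X]} (hg : g.Monic) {u : F[X]}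
    (hu : u ∈ Pl F g.natDegree) : u %ₘ g = u := by
  rw [mem_Pl, ← degree_eq_natDegree hg.ne_zero] at hu
  exact (modByMonic_eq_self_iff hg).2 hu

/-- the parametrisation of `Pl (D + 1)` by `Pl e × Pl m × Pl (deg g)` -/
private theorem exists_par {F : Type*} [Field F] [Fintype F] (D e : ℕ) (g : F[X]) (hg : g.Monic)
    (he : g.natDegree + e ≤ D + 1) :
    ∃ I : F[X] × F[X] × F[X] → F[X],
      Set.InjOn I ↑(Pl F e ×ˢ (Pl F (D + 1 - g.natDegree - e) ×ˢ Pl F g.natDegree)) ∧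
      (∀ p ∈ Pl F e ×ˢ (Pl F (D + 1 - g.natDegree - e) ×ˢ Pl F g.natDegree), I p ∈ Pl F (D + 1)) ∧
      Set.SurjOn I ↑(Pl F e ×ˢ (Pl F (D + 1 - g.natDegree - e) ×ˢ Pl F g.natDegree))
        ↑(Pl F (D + 1)) ∧
      (∀ p ∈ Pl F e ×ˢ (Pl F (D + 1 - g.natDegree - e) ×ˢ Pl F g.natDegree),
        (X : F[X]) ^ e ∣ reflect D (I p) - p.1 ∧ g ∣ I p - p.2.2) := by
  classical
  set m := D + 1 - g.natDegree - e with hm
  let I : F[X] × F[X] × F[X] → F[X] := fun p =>
    reflect D p.1 + (g * p.2.1 + (p.2.2 - reflect D p.1 %ₘ g))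
  have hgw : ∀ w ∈ Pl F m, g * w ∈ Pl F (D + 1 - e) := by
    intro w hw
    have h1 : g ∈ Pl F (g.natDegree + 1) := mem_Pl_succ.2 le_rfl
    have h2 := mul_mem_Pl h1 hw
    have h3 : g.natDegree + m = D + 1 - e := by omega
    rwa [h3] at h2
  have hlow : ∀ v u w, u ∈ Pl F g.natDegree → w ∈ Pl F m →
      g * w + (u - reflect D v %ₘ g) ∈ Pl F (D + 1 - e) := by
    intro v u w hu hw
    refine add_mem_Pl (hgw w hw) (Pl_mono (by omega) (sub_mem_Pl hu (mod_mem hg _)))
  have hImod : ∀ v u w, u ∈ Pl F g.natDegree → I (v, w, u) %ₘ g = u := by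
    intro v u w hu
    simp only [I]
    rw [add_modByMonic, add_modByMonic, sub_modByMonic, mod_self hg hu, mod_self hg (mod_mem hg _),
      (modByMonic_eq_zero_iff_dvd hg).2 (dvd_mul_right g w)]
    ring
  have hIref : ∀ v u w, u ∈ Pl F g.natDegree → w ∈ Pl F m →
      (X : F[X]) ^ e ∣ reflect D (I (v, w, u)) - v := by
    intro v u w hu hw
    simp only [I]
    rw [reflect_add, refl_refl]
    have h1 := dvd_reflect (D := D) (e := e) (by omega) (hlow v u w hu hw)
    have h2 : v + reflect D (g * w + (u - reflect D v %ₘ g)) - v = reflect D (g * w + (u - reflect D v %ₘ g)) := by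
      ring
    rw [h2]
    exact h1
  have hIinj : Set.InjOn I ↑(Pl F e ×ˢ (Pl F m ×ˢ Pl F g.natDegree)) := by
    rintro ⟨v, w, u⟩ h ⟨v', w', u'⟩ h' hI
    simp only [coe_product, Set.mem_prod, mem_coe] at h h'
    have hu : u = u' := by
      rw [← hImod v u w h.2.2, ← hImod v' u' w' h'.2.2, hI]
    have hv : v = v' := by
      have h3 := hIref v u w h.2.2 h.2.1
      have h4 := hIref v' u' w' h'.2.2 h'.2.1
      rw [← hI] at h4
      have h5 : (X : F[X]) ^ e ∣ v - v' := by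
        have := dvd_sub h4 h3
        have e1 : reflect D (I (v, w, u)) - v' - (reflect D (I (v, w, u)) - v) = v - v' := by ring
        rwa [e1] at this
      have h6 := sub_mem_Pl h.1 h'.1
      rw [mem_Pl] at h6
      have h7 : v - v' = 0 := by
        by_contra hne
        have := degree_le_of_dvd h5 hne
        rw [degree_X_pow] at this
        exact absurd h6 (not_lt.2 this)
      exact sub_eq_zero.1 h7
    subst hu hv
    have hw : g * w = g * w' := by
      simp only [I] at hI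
      simpa using hI
    have := mul_left_cancel₀ hg.ne_zero hw
    rw [this]
  have hImem : ∀ p ∈ Pl F e ×ˢ (Pl F m ×ˢ Pl F g.natDegree), I p ∈ Pl F (D + 1) := by
    rintro ⟨v, w, u⟩ h
    simp only [mem_product] at h
    exact add_mem_Pl (reflect_mem (Pl_mono (by omega) h.1)) (Pl_mono (by omega) (hlow v u w h.2.2 h.2.1))
  have hcard : (Pl F (D + 1)).card ≤ (Pl F e ×ˢ (Pl F m ×ˢ Pl F g.natDegree)).card := by
    rw [card_product, card_product, card_Pl, card_Pl, card_Pl, card_Pl, ← pow_add, ← pow_add]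
    refine le_of_eq ?_
    congr 1
    omega
  have hsurj : Set.SurjOn I ↑(Pl F e ×ˢ (Pl F m ×ˢ Pl F g.natDegree)) ↑(Pl F (D + 1)) :=
    Finset.surjOn_of_injOn_of_card_le I hImem hIinj hcard
  refine ⟨I, hIinj, hImem, hsurj, ?_⟩
  rintro ⟨v, w, u⟩ h
  simp only [mem_product] at h
  refine ⟨hIref v u w h.2.2 h.2.1, ?_⟩
  change g ∣ I (v, w, u) - u
  rw [← modByMonic_eq_zero_iff_dvd hg, sub_modByMonic, hImod v u w h.2.2, mod_self hg h.2.2, sub_self]

private theorem sum_congr_dvd {F : Type*} [Field F] {t : ℕ} {h : F[X]} {a b : Fin t → F[X]} (n : F[X])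
    (hab : ∀ i, h ∣ a i - b i) (k : ℕ) : h ∣ ∑ i, a i ^ k - n ↔ h ∣ ∑ i, b i ^ k - n := by
  have h1 : h ∣ ∑ i, a i ^ k - ∑ i, b i ^ k := by
    rw [← Finset.sum_sub_distrib]
    exact Finset.dvd_sum fun i _ => (hab i).trans (sub_dvd_pow_sub_pow _ _ k)
  have h2 : ∑ i, a i ^ k - n = (∑ i, a i ^ k - ∑ i, b i ^ k) + (∑ i, b i ^ k - n) := by ring
  rw [h2]
  exact (dvd_add_right h1)

private theorem reflect_sum' {F : Type*} [Field F] {t : ℕ} (M : ℕ) (a : Fin t → F[X]) :
    reflect M (∑ i, a i) = ∑ i, reflect M (a i) := by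
  ext j
  rw [coeff_reflect, finsetSum_coeff, finsetSum_coeff]
  exact Finset.sum_congr rfl fun i _ => (coeff_reflect _ _ _).symm

open scoped Classical in
theorem joint {F : Type*} [Field F] [Fintype F] (k D t e : ℕ) (g : F[X]) (hg : g.Monic)
    (he : g.natDegree + e ≤ D + 1) (hek : e ≤ k * D) (n : F[X]) (hn : n ∈ Pl F (k * D + 1)) :
    ((Fintype.piFinset (fun _ : Fin t => Pl F (D + 1))).filter
      (fun x => ∑ i, x i ^ k - n ∈ Pl F (k * D + 1 - e) ∧ g ∣ ∑ i, x i ^ k - n)).card =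
    (Fintype.card F ^ (D + 1 - g.natDegree - e)) ^ t * rr k t g n *
      rr k t (X ^ e) (reflect (k * D) n) := by
  classical
  obtain ⟨I, hinj, hmem, hsurj, hdvd⟩ := exists_par D e g hg he
  set m := D + 1 - g.natDegree - e with hm
  have hsumk : ∀ x : Fin t → F[X], (∀ i, x i ∈ Pl F (D + 1)) → ∑ i, x i ^ k - n ∈ Pl F (k * D + 1) := by
    intro x hx
    refine sub_mem_Pl ?_ hn
    rw [mem_Pl_succ]
    refine natDegree_sum_le_of_forall_le _ _ fun i _ => ?_
    exact (natDegree_pow_le).trans (Nat.mul_le_mul_left k (mem_Pl_succ.1 (hx i)))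
  have hrefl : ∀ x : Fin t → F[X], (∀ i, x i ∈ Pl F (D + 1)) →
      reflect (k * D) (∑ i, x i ^ k - n) = ∑ i, (reflect D (x i)) ^ k - reflect (k * D) n := by
    intro x hx
    rw [reflect_sub, reflect_sum']
    congr 1
    exact Finset.sum_congr rfl fun i _ => reflect_pow (mem_Pl_succ.1 (hx i)) k
  have hiff : ∀ x : Fin t → F[X], (∀ i, x i ∈ Pl F (D + 1)) →
      (∑ i, x i ^ k - n ∈ Pl F (k * D + 1 - e) ↔
        (X : F[X]) ^ e ∣ ∑ i, (reflect D (x i)) ^ k - reflect (k * D) n) := by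
    intro x hx
    rw [← hrefl x hx]
    constructor
    · intro h
      exact dvd_reflect (by omega) h
    · intro h
      exact mem_of_dvd_reflect (by omega) (hsumk x hx) h
  have hcardm : (Fintype.piFinset (fun _ : Fin t => Pl F m)).card = (Fintype.card F ^ m) ^ t := by
    rw [Fintype.card_piFinset]
    simp [card_Pl]
  rw [← hcardm]
  unfold rr
  rw [← card_product, ← card_product]
  symm
  refine Finset.card_bij (fun (p : ((Fin t → F[X]) × (Fin t → F[X])) × (Fin t → F[X])) _ =>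
    fun i => I (p.2 i, p.1.1 i, p.1.2 i)) ?_ ?_ ?_
  · rintro ⟨⟨w, u⟩, v⟩ h
    simp only [mem_product, mem_filter, Fintype.mem_piFinset, natDegree_X_pow] at h
    obtain ⟨⟨hw, hu, hu2⟩, hv, hv2⟩ := h
    have hp : ∀ i, (v i, w i, u i) ∈ Pl F e ×ˢ (Pl F m ×ˢ Pl F g.natDegree) := fun i =>
      mem_product.2 ⟨hv i, mem_product.2 ⟨hw i, hu i⟩⟩
    have hI : ∀ i, I (v i, w i, u i) ∈ Pl F (D + 1) := fun i => hmem _ (hp i)
    simp only [mem_filter, Fintype.mem_piFinset]
    refine ⟨hI, ?_, ?_⟩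
    · rw [hiff _ hI]
      exact (sum_congr_dvd _ (fun i => (hdvd _ (hp i)).1) k).2 hv2
    · exact (sum_congr_dvd _ (fun i => (hdvd _ (hp i)).2) k).2 hu2
  · rintro ⟨⟨w, u⟩, v⟩ h ⟨⟨w', u'⟩, v'⟩ h' hE
    simp only [mem_product, mem_filter, Fintype.mem_piFinset, natDegree_X_pow] at h h'
    obtain ⟨⟨hw, hu, hu2⟩, hv, hv2⟩ := h
    obtain ⟨⟨hw', hu', hu2'⟩, hv', hv2'⟩ := h'
    have hE2 : ∀ i, (v i, w i, u i) = (v' i, w' i, u' i) := by
      intro i
      refine hinj ?_ ?_ (congrFun hE i)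
      · exact mem_coe.2 (mem_product.2 ⟨hv i, mem_product.2 ⟨hw i, hu i⟩⟩)
      · exact mem_coe.2 (mem_product.2 ⟨hv' i, mem_product.2 ⟨hw' i, hu' i⟩⟩)
    have h1 : v = v' := funext fun i => (Prod.ext_iff.1 (hE2 i)).1
    have h2 : w = w' := funext fun i => (Prod.ext_iff.1 (Prod.ext_iff.1 (hE2 i)).2).1
    have h3 : u = u' := funext fun i => (Prod.ext_iff.1 (Prod.ext_iff.1 (hE2 i)).2).2
    rw [h1, h2, h3]
  · intro x hx
    simp only [mem_filter, Fintype.mem_piFinset] at hx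
    obtain ⟨hx, hx2, hx3⟩ := hx
    have hch : ∀ i, ∃ p, p ∈ Pl F e ×ˢ (Pl F m ×ˢ Pl F g.natDegree) ∧ I p = x i := by
      intro i
      obtain ⟨p, hp, hp2⟩ := hsurj (mem_coe.2 (hx i))
      exact ⟨p, mem_coe.1 hp, hp2⟩
    choose p hp hpx using hch
    refine ⟨((fun i => (p i).2.1, fun i => (p i).2.2), fun i => (p i).1), ?_, ?_⟩
    · have hp1 : ∀ i, (p i).1 ∈ Pl F e := fun i => (mem_product.1 (hp i)).1
      have hp2 : ∀ i, (p i).2.1 ∈ Pl F m := fun i => (mem_product.1 (mem_product.1 (hp i)).2).1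
      have hp3 : ∀ i, (p i).2.2 ∈ Pl F g.natDegree := fun i => (mem_product.1 (mem_product.1 (hp i)).2).2
      simp only [mem_product, mem_filter, Fintype.mem_piFinset, natDegree_X_pow]
      refine ⟨⟨hp2, hp3, ?_⟩, hp1, ?_⟩
      · refine (sum_congr_dvd (a := x) _ (fun i => ?_) k).1 hx3
        rw [← hpx i]
        exact (hdvd _ (hp i)).2
      · rw [hiff x hx] at hx2
        refine (sum_congr_dvd (a := fun i => reflect D (x i)) _ (fun i => ?_) k).1 hx2
        rw [← hpx i]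
        exact (hdvd _ (hp i)).1
    · funext i
      exact hpx i

end FFW
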