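import Pool.Agent.FFW.FourH
import Pool.Agent.FFW.Joint

/-!
# FFW/TD: the sum over the functionals killed by `d ^ k`

`M = k D`, `M' = k D - e`, `s` is killed by `d ^ k` if `fn (M+1) s (d ^ k y) = 0` for all
`y ∈ Pl (M' + 1 - k deg d)`.

PROOF. Expand the power and interchange: the left side is
`∑_{x ∈ (Pl (D+1)) ^ t} ∑_{s killed} ψ(fn s (∑ x_i ^ k - n))`
(`S ^ t = ∑_{x ∈ piFinset} ∏ ψ(fn s (x_i ^ k))`, `Finset.prod_univ_sum`/`Finset.sum_pow'`, see the proof of
`circle` in Circle.lean, private lemmas there can be copied). `∑ x_i ^ k - n ∈ Pl (k D + 1)`. By `four_h`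
(`g = d ^ k`, `M' = k D - e`) the inner sum is `q ^ (e + k deg d)` if `∑ x_i ^ k - n ∈ Pl (k D - e + 1)`
and `d ^ k ∣ ∑ x_i ^ k - n`, else `0`. The number of such `x` is by `joint`
`(q ^ (D + 1 - k deg d - e)) ^ t * rr k t (d ^ k) n * rr k t (X ^ e) (reflect (k D) n)`, so with
`j = deg d` the left side is
`q ^ (e + k j) (q ^ (D + 1 - k j - e)) ^ t rr k t (d ^ k) n * rr k t (X ^ e) (reflect (k D) n)
= (q ^ (D+1)) ^ t * dl k t d n * dtop k t e (reflect (k D) n)`.
(`hg1` gives `hgd` of `four_h`; `k D + 1 - e = k D - e + 1` as `e ≤ k D`.)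
-/

open Finset Polynomial

namespace FFW

private theorem td_achar_sum {F ι : Type*} [Field F] (ψ : AddChar F ℂ) (s : Finset ι) (f : ι → F) :
    ψ (∑ i ∈ s, f i) = ∏ i ∈ s, ψ (f i) := by
  classical
  induction s using Finset.induction_on with
  | empty => simp
  | insert a s ha ih => rw [Finset.sum_insert ha, Finset.prod_insert ha, AddChar.map_add_eq_mul, ih]

/-- the power of the exponential sum, expanded -/
private theorem td_expand {F : Type*} [Field F] [Fintype F] (ψ : AddChar F ℂ) (k m D t : ℕ)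
    (s : Fin m → F) (n : F[X]) :
    (S ψ k (fn m s) D) ^ t * ψ (- fn m s n) =
      ∑ x ∈ Fintype.piFinset (fun _ : Fin t => Pl F D), ψ (fn m s (∑ i, x i ^ k - n)) := by
  have h1 : (S ψ k (fn m s) D) ^ t =
      ∑ x ∈ Fintype.piFinset (fun _ : Fin t => Pl F D), ∏ i, ψ (fn m s (x i ^ k)) := by
    rw [← Finset.prod_univ_sum (fun _ : Fin t => Pl F D) (fun _ x => ψ (fn m s (x ^ k)))]
    rw [Finset.prod_const, Finset.card_univ, Fintype.card_fin]
    rfl
  rw [h1, Finset.sum_mul]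
  refine Finset.sum_congr rfl fun x _ => ?_
  rw [map_sub, sub_eq_add_neg, AddChar.map_add_eq_mul, map_sum, td_achar_sum]

private theorem td_mem {F : Type*} [Field F] [Fintype F] {k D t : ℕ} {x : Fin t → F[X]}
    (hx : ∀ i, x i ∈ Pl F (D + 1)) {n : F[X]} (hn : n ∈ Pl F (k * D + 1)) :
    ∑ i, x i ^ k - n ∈ Pl F (k * D + 1) := by
  have hsucc : ∀ {m : ℕ} {y : F[X]}, y ∈ Pl F (m + 1) ↔ y.natDegree ≤ m := by
    intro m y
    rw [mem_Pl, degree_lt_iff_coeff_zero, natDegree_le_iff_coeff_eq_zero]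
    exact Iff.rfl
  refine sub_mem_Pl ?_ hn
  rw [hsucc]
  refine natDegree_sum_le_of_forall_le _ _ fun i _ => ?_
  exact (natDegree_pow_le).trans (Nat.mul_le_mul_left k (hsucc.1 (hx i)))

open scoped Classical in
theorem td {F : Type*} [Field F] [Fintype F] (ψ : AddChar F ℂ) (hψ : ψ ≠ 1)
    (k D t e : ℕ) (d : F[X]) (hd : d.Monic) (hek : e ≤ k * D)
    (he : k * d.natDegree + e ≤ D + 1) (hg1 : k * d.natDegree ≤ k * D - e)
    (n : F[X]) (hn : n ∈ Pl F (k * D + 1)) :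
    ∑ s ∈ univ.filter (fun s : Fin (k * D + 1) → F =>
      ∀ y ∈ Pl F (k * D - e + 1 - (d ^ k).natDegree), fn (k * D + 1) s (d ^ k * y) = 0),
        (S ψ k (fn (k * D + 1) s) (D + 1)) ^ t * ψ (- fn (k * D + 1) s n) =
    ((((Fintype.card F : ℝ) ^ (D + 1)) ^ t * (dl k t d n * dtop k t e (reflect (k * D) n)) : ℝ) :
      ℂ) := by
  have hgm : (d ^ k).Monic := hd.pow k
  have hdeg : (d ^ k).natDegree = k * d.natDegree := hd.natDegree_pow k
  have hg2 : (d ^ k).natDegree ≤ k * D - e := by rw [hdeg]; exact hg1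
  have h1 : ∀ s : Fin (k * D + 1) → F,
      (S ψ k (fn (k * D + 1) s) (D + 1)) ^ t * ψ (- fn (k * D + 1) s n) =
      ∑ x ∈ Fintype.piFinset (fun _ : Fin t => Pl F (D + 1)),
        ψ (fn (k * D + 1) s (∑ i, x i ^ k - n)) := fun s => td_expand ψ k _ _ t s n
  rw [Finset.sum_congr rfl fun s _ => h1 s, Finset.sum_comm]
  have h2 : ∀ x ∈ Fintype.piFinset (fun _ : Fin t => Pl F (D + 1)),
      ∑ s ∈ univ.filter (fun s : Fin (k * D + 1) → F =>
        ∀ y ∈ Pl F (k * D - e + 1 - (d ^ k).natDegree), fn (k * D + 1) s (d ^ k * y) = 0),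
        ψ (fn (k * D + 1) s (∑ i, x i ^ k - n)) =
      if ∑ i, x i ^ k - n ∈ Pl F (k * D - e + 1) ∧ d ^ k ∣ ∑ i, x i ^ k - n then
        (Fintype.card F : ℂ) ^ (k * D - (k * D - e) + (d ^ k).natDegree) else 0 := by
    intro x hx
    rw [Fintype.mem_piFinset] at hx
    have h3 := four_h ψ hψ (k * D) (k * D - e) (Nat.sub_le _ _) (d ^ k) hgm hg2
      (∑ i, x i ^ k - n) (td_mem hx hn)
    exact h3
  rw [Finset.sum_congr rfl h2, ← Finset.sum_filter, Finset.sum_const, nsmul_eq_mul]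
  have h4 := joint k D t e (d ^ k) hgm (by rw [hdeg]; exact he) hek n hn
  have h5 : k * D - e + 1 = k * D + 1 - e := by omega
  have h6 : k * D - (k * D - e) + (d ^ k).natDegree = e + k * d.natDegree := by
    rw [hdeg]; omega
  rw [h5, h6, h4, hdeg]
  have hq : (Fintype.card F : ℝ) ≠ 0 := by
    exact_mod_cast Fintype.card_ne_zero
  have h7 : ((Fintype.card F : ℝ) ^ (D + 1)) ^ t =
      ((Fintype.card F : ℝ) ^ (D + 1 - k * d.natDegree - e)) ^ t *
      ((Fintype.card F : ℝ) ^ (k * d.natDegree)) ^ t * ((Fintype.card F : ℝ) ^ e) ^ t := by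
    rw [← mul_pow, ← mul_pow, ← pow_add, ← pow_add]
    congr 2
    omega
  have h8 : (((Fintype.card F : ℝ) ^ (D + 1)) ^ t *
      (dl k t d n * dtop k t e (reflect (k * D) n)) : ℝ) =
      ((Fintype.card F : ℝ) ^ (D + 1 - k * d.natDegree - e)) ^ t * (rr k t (d ^ k) n : ℝ) *
        (rr k t (X ^ e) (reflect (k * D) n) : ℝ) *
        (Fintype.card F : ℝ) ^ (e + k * d.natDegree) := by
    rw [h7, dl, dtop, pow_add]
    field_simp
  rw [h8]
  push_cast
  ring

end FFW
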