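import Pool.Agent.FFW.Om
import Pool.Agent.FFW.TD

/-!
# FFW/Circle2: the circle method with the positive singular series

`M = k D`, `e = k C₂`, `M' = M - e`, `λ(s)` as in Circle.lean. `s` is GOOD if
some monic `d` of degree `≤ C₁` has `fn (M+1) s (d ^ k y) = 0` for all `y ∈ Pl (M' + 1 - k deg d)`.
Assume `λ(s) ^ t ≤ δ` for all `s` which are not good, `sfin k t C₁ n ≥ 1/2` and `dtop k t e m ≥ 1/2` for all
`n, m`, and `4 δ q ^ (M+1) < #W`. Then every `N` of degree `≤ M` is `w₁ + w₂ + ∑_{i<t} x_i ^ k`.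

PROOF. Let `R`, `Ŵ`, `F(s) = Ŵ(s)² (S ψ k (fn s) (D+1)) ^ t ψ(- fn s N)` be as in Circle.lean, so
`q ^ (M+1) R = ∑_s F(s)`. Let `ω(s) = ∑_{j ≤ C₁} #{d ∈ Mo j : d ^ k kills s} - q ∑_{j < C₁} #{...}`
(kills: as in `omega_one`, `β = fn (M+1) s`, this `M'`; `2 k C₁ ≤ M' + 1`). By `omega_one` `ω(s) = 1` if `s` is
good and trivially `ω(s) = 0` if not. So `∑_s F(s) = ∑_s ω(s) F(s) + ∑_{s not good} F(s)`. The second
sum is `≤ δ q ^ ((D+1) t) ∑ |Ŵ(s)|² = δ q ^ ((D+1) t) q ^ (M+1) #W` in absolute value. The first is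
`∑_{w₁, w₂} (∑_{j ≤ C₁} ∑_{d ∈ Mo j} T_d - q ∑_{j < C₁} ∑_{d ∈ Mo j} T_d)`,
`T_d = ∑_{s : d ^ k kills s} (S ψ k (fn s) (D+1)) ^ t ψ(- fn s n)`, `n = N - w₁ - w₂`, and by `td`
`T_d = q ^ ((D+1) t) * dl k t d n * dtop k t e (reflect M n)`. So the first sum is
`∑_{w₁, w₂} q ^ ((D+1) t) dtop * sfin k t C₁ n ≥ (#W)² q ^ ((D+1) t) / 4`. Hence
`q ^ (M+1) R ≥ q ^ ((D+1) t) #W (#W / 4 - δ q ^ (M+1)) > 0`. (The orthogonality lemmas are proved in
Circle.lean as private lemmas and can be copied.)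
-/

open Finset Polynomial

namespace FFW

private theorem Circle2_achar_sum {F ι : Type*} [Field F] (ψ : AddChar F ℂ) (s : Finset ι) (f : ι → F) :
    ψ (∑ i ∈ s, f i) = ∏ i ∈ s, ψ (f i) := by
  classical
  induction s using Finset.induction_on with
  | empty => simp
  | insert a s ha ih => rw [Finset.sum_insert ha, Finset.prod_insert ha, AddChar.map_add_eq_mul, ih]

private theorem Circle2_orth {F : Type*} [Field F] [Fintype F] (ψ : AddChar F ℂ) (hψ : ψ ≠ 1) (m : ℕ)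
    (z : F[X]) (hz : z ∈ Pl F m) (hz0 : z ≠ 0) : ∑ s : Fin m → F, ψ (fn m s z) = 0 := by
  classical
  have h1 : ∀ s : Fin m → F, ψ (fn m s z) = ∏ i : Fin m, ψ (s i * z.coeff i) := by
    intro s
    rw [fn_apply, Circle2_achar_sum]
  simp_rw [h1]
  have h2 := Finset.prod_univ_sum (R := ℂ) (fun _ : Fin m => (Finset.univ : Finset F))
    (fun i a => ψ (a * z.coeff i))
  rw [Fintype.piFinset_univ] at h2
  rw [← h2]
  obtain ⟨i, hi⟩ : ∃ i : Fin m, z.coeff i ≠ 0 := by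
    by_contra hc
    push Not at hc
    apply hz0
    ext j
    rw [coeff_zero]
    rcases Nat.lt_or_ge j m with hj | hj
    · exact hc ⟨j, hj⟩
    · exact (Polynomial.degree_lt_iff_coeff_zero z m).1 (mem_Pl.1 hz) j hj
  apply Finset.prod_eq_zero (Finset.mem_univ i)
  rw [AddChar.sum_mulShift (z.coeff i) (AddChar.IsPrimitive.of_ne_one hψ), if_neg hi]
  simp

private theorem Circle2_orth0 {F : Type*} [Field F] [Fintype F] (ψ : AddChar F ℂ) (m : ℕ) :
    ∑ s : Fin m → F, ψ (fn m s 0) = (Fintype.card F : ℂ) ^ m := by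
  simp

private theorem Circle2_pow_mem_Pl {F : Type*} [Field F] [Fintype F] (k D : ℕ) {x : F[X]}
    (hx : x ∈ Pl F (D + 1)) : x ^ k ∈ Pl F (k * D + 1) := by
  rw [mem_Pl] at *
  have h1 : x.natDegree ≤ D := by
    rcases eq_or_ne x 0 with h | h
    · simp [h]
    · have := (Polynomial.natDegree_lt_iff_degree_lt h).2 hx
      omega
  have h2 : (x ^ k).natDegree ≤ k * D := Polynomial.natDegree_pow_le.trans (Nat.mul_le_mul_left k h1)
  have h3 : (x ^ k).degree ≤ ((k * D : ℕ) : WithBot ℕ) := Polynomial.degree_le_of_natDegree_le h2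
  refine lt_of_le_of_lt h3 ?_
  exact_mod_cast Nat.lt_succ_self _

private theorem Circle2_parseval {F : Type*} [Field F] [Fintype F] (ψ : AddChar F ℂ) (hψ : ψ ≠ 1) (m : ℕ)
    (W : Finset F[X]) (hW : ∀ w ∈ W, w ∈ Pl F m) :
    ∑ s : Fin m → F, ‖∑ w ∈ W, ψ (fn m s w)‖ ^ 2 = (Fintype.card F : ℝ) ^ m * W.card := by
  classical
  have h1 : ∀ s : Fin m → F, ((‖∑ w ∈ W, ψ (fn m s w)‖ ^ 2 : ℝ) : ℂ) =
      ∑ w ∈ W, ∑ w' ∈ W, ψ (fn m s (w - w')) := by
    intro s
    rw [← Complex.normSq_eq_norm_sq, ← Complex.mul_conj, map_sum, Finset.sum_mul_sum]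
    refine Finset.sum_congr rfl fun w _ => Finset.sum_congr rfl fun w' _ => ?_
    rw [map_sub, sub_eq_add_neg, AddChar.map_add_eq_mul, AddChar.map_neg_eq_conj]
  have h2 : ((∑ s : Fin m → F, ‖∑ w ∈ W, ψ (fn m s w)‖ ^ 2 : ℝ) : ℂ) =
      (((Fintype.card F : ℝ) ^ m * W.card : ℝ) : ℂ) := by
    rw [Complex.ofReal_sum]
    simp_rw [h1]
    rw [Finset.sum_comm]
    have h3 : ∀ w ∈ W, ∑ s : Fin m → F, ∑ w' ∈ W, ψ (fn m s (w - w')) =
        (Fintype.card F : ℂ) ^ m := by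
      intro w hw
      rw [Finset.sum_comm, Finset.sum_eq_single w]
      · rw [sub_self, Circle2_orth0]
      · intro w' hw' hne
        exact Circle2_orth ψ hψ m _ (sub_mem_Pl (hW w hw) (hW w' hw')) (sub_ne_zero.2 hne.symm)
      · intro h; exact absurd hw h
    rw [Finset.sum_congr rfl h3, Finset.sum_const, nsmul_eq_mul]
    push_cast
    ring
  exact_mod_cast h2

private theorem Circle2_zero {F : Type*} [Field F] [Fintype F] (ψ : AddChar F ℂ) (hψ : ψ ≠ 1)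
    (k D t m : ℕ) (hpow : ∀ x ∈ Pl F (D + 1), x ^ k ∈ Pl F m)
    (W : Finset F[X]) (hW : ∀ w ∈ W, w ∈ Pl F m) (N : F[X]) (hN : N ∈ Pl F m)
    (hcon : ∀ w₁ ∈ W, ∀ w₂ ∈ W, ∀ x : Fin t → F[X], (∀ i, x i ∈ Pl F (D + 1)) →
      N ≠ w₁ + w₂ + ∑ i, x i ^ k) :
    ∑ s : Fin m → F, (∑ w ∈ W, ψ (fn m s w)) ^ 2 * S ψ k (fn m s) (D + 1) ^ t *
      ψ (fn m s (-N)) = 0 := by
  classical
  -- the number of solutions
  have hR : ∑ w₁ ∈ W, ∑ w₂ ∈ W, ∑ x ∈ Fintype.piFinset (fun _ : Fin t => Pl F (D + 1)),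
      ∑ s : Fin m → F, ψ (fn m s (w₁ + w₂ + ∑ i, x i ^ k - N)) = 0 := by
    refine Finset.sum_eq_zero fun w₁ h1 => Finset.sum_eq_zero fun w₂ h2 =>
      Finset.sum_eq_zero fun x hx => ?_
    have hx' : ∀ i, x i ∈ Pl F (D + 1) := fun i => Fintype.mem_piFinset.1 hx i
    apply Circle2_orth ψ hψ
    · refine sub_mem_Pl (add_mem_Pl (add_mem_Pl (hW _ h1) (hW _ h2)) ?_) hN
      refine Finset.sum_induction _ (fun z => z ∈ Pl F m) (fun a b ha hb => add_mem_Pl ha hb)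
        (zero_mem_Pl m) (fun i _ => hpow _ (hx' i))
    · intro h0
      exact hcon w₁ h1 w₂ h2 x hx' (sub_eq_zero.1 h0).symm
  have hI : ∑ s : Fin m → F, (∑ w ∈ W, ψ (fn m s w)) ^ 2 * S ψ k (fn m s) (D + 1) ^ t * ψ (fn m s (-N)) = 0 := by
    rw [← hR]
    symm
    calc ∑ w₁ ∈ W, ∑ w₂ ∈ W, ∑ x ∈ Fintype.piFinset (fun _ : Fin t => Pl F (D + 1)),
        ∑ s : Fin m → F, ψ (fn m s (w₁ + w₂ + ∑ i, x i ^ k - N))
        = ∑ s : Fin m → F, ∑ w₁ ∈ W, ∑ w₂ ∈ W,
          ∑ x ∈ Fintype.piFinset (fun _ : Fin t => Pl F (D + 1)),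
            ψ (fn m s (w₁ + w₂ + ∑ i, x i ^ k - N)) := by
          rw [Finset.sum_comm' (s := Finset.univ) (t' := W) (s' := fun _ => Finset.univ)
            (t := fun _ => W)]
          · refine Finset.sum_congr rfl fun w₁ _ => ?_
            rw [Finset.sum_comm' (s := Finset.univ) (t' := W) (s' := fun _ => Finset.univ)
              (t := fun _ => W)]
            · refine Finset.sum_congr rfl fun w₂ _ => ?_
              rw [Finset.sum_comm]
            · simp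
          · simp
      _ = _ := by
          refine Finset.sum_congr rfl fun s _ => ?_
          have hS : S ψ k (fn m s) (D + 1) ^ t =
              ∑ x ∈ Fintype.piFinset (fun _ : Fin t => Pl F (D + 1)),
                ψ (fn m s (∑ i, x i ^ k)) := by
            unfold S
            have h2 := Finset.prod_univ_sum (R := ℂ) (fun _ : Fin t => Pl F (D + 1))
              (fun _ a => ψ (fn m s (a ^ k)))
            rw [Finset.prod_const, Finset.card_univ, Fintype.card_fin] at h2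
            rw [h2]
            refine Finset.sum_congr rfl fun x _ => ?_
            rw [map_sum, Circle2_achar_sum]
          rw [hS, sq]
          rw [Finset.sum_mul_sum, Finset.sum_mul, Finset.sum_mul]
          refine Finset.sum_congr rfl fun w₁ _ => ?_
          rw [Finset.sum_mul, Finset.sum_mul]
          refine Finset.sum_congr rfl fun w₂ _ => ?_
          rw [Finset.mul_sum, Finset.sum_mul]
          refine Finset.sum_congr rfl fun x _ => ?_
          rw [sub_eq_add_neg, (fn m s).map_add, (fn m s).map_add, (fn m s).map_add,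
            AddChar.map_add_eq_mul, AddChar.map_add_eq_mul, AddChar.map_add_eq_mul]
  exact hI

/-- The sum over the functionals killed by `d ^ k`. -/
private lemma Circle2_T {F : Type*} [Field F] [Fintype F] (ψ : AddChar F ℂ) (hψ : ψ ≠ 1)
    (k D t e : ℕ) (d : F[X]) (hd : d.Monic) (hek : e ≤ k * D)
    (he : k * d.natDegree + e ≤ D + 1) (hg1 : k * d.natDegree ≤ k * D - e)
    (W : Finset F[X]) (hW : ∀ w ∈ W, w ∈ Pl F (k * D + 1)) (N : F[X]) (hN : N ∈ Pl F (k * D + 1))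
    (P : (Fin (k * D + 1) → F) → Prop) [DecidablePred P]
    (hP : ∀ s, P s ↔ ∀ y ∈ Pl F (k * D - e + 1 - (d ^ k).natDegree),
      fn (k * D + 1) s (d ^ k * y) = 0) :
    ∑ s ∈ univ.filter P, (∑ w ∈ W, ψ (fn (k * D + 1) s w)) ^ 2 *
      S ψ k (fn (k * D + 1) s) (D + 1) ^ t * ψ (fn (k * D + 1) s (-N)) =
    ((∑ w₁ ∈ W, ∑ w₂ ∈ W, ((Fintype.card F : ℝ) ^ (D + 1)) ^ t *
      (dl k t d (N - w₁ - w₂) * dtop k t e (reflect (k * D) (N - w₁ - w₂))) : ℝ) : ℂ) := by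
  classical
  have h1 : ∀ s : Fin (k * D + 1) → F, (∑ w ∈ W, ψ (fn (k * D + 1) s w)) ^ 2 *
      S ψ k (fn (k * D + 1) s) (D + 1) ^ t * ψ (fn (k * D + 1) s (-N)) =
      ∑ w₁ ∈ W, ∑ w₂ ∈ W, (S ψ k (fn (k * D + 1) s) (D + 1)) ^ t *
        ψ (- fn (k * D + 1) s (N - w₁ - w₂)) := by
    intro s
    rw [sq, Finset.sum_mul_sum, Finset.sum_mul, Finset.sum_mul]
    refine Finset.sum_congr rfl fun w₁ _ => ?_
    rw [Finset.sum_mul, Finset.sum_mul]
    refine Finset.sum_congr rfl fun w₂ _ => ?_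
    have h2 : - fn (k * D + 1) s (N - w₁ - w₂) =
        fn (k * D + 1) s w₁ + fn (k * D + 1) s w₂ + fn (k * D + 1) s (-N) := by
      rw [map_sub, map_sub, map_neg]
      ring
    rw [h2, AddChar.map_add_eq_mul, AddChar.map_add_eq_mul]
    ring
  simp_rw [h1]
  rw [Finset.sum_comm, Complex.ofReal_sum]
  refine Finset.sum_congr rfl fun w₁ hw₁ => ?_
  rw [Finset.sum_comm, Complex.ofReal_sum]
  refine Finset.sum_congr rfl fun w₂ hw₂ => ?_
  have h3 := td ψ hψ k D t e d hd hek he hg1 (N - w₁ - w₂)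
    (sub_mem_Pl (sub_mem_Pl hN (hW _ hw₁)) (hW _ hw₂))
  have hPe : P = fun s => ∀ y ∈ Pl F (k * D - e + 1 - (d ^ k).natDegree),
      fn (k * D + 1) s (d ^ k * y) = 0 := funext fun s => propext (hP s)
  subst hPe
  convert h3

theorem circle2 {F : Type*} [Field F] [Fintype F] (ψ : AddChar F ℂ) (hψ : ψ ≠ 1)
    (k D t C₁ C₂ : ℕ) (hk : 2 ≤ k) (hC : k * C₁ + k * C₂ ≤ D + 1) (hC1 : k * C₁ ≤ D)
    (hC2 : k * C₂ ≤ D)
    (W : Finset F[X]) (hW : ∀ w ∈ W, w ∈ Pl F (k * D + 1)) (hne : W.Nonempty) (δ : ℝ)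
    (hmin : ∀ s : Fin (k * D + 1) → F,
      (¬ ∃ d : F[X], d.Monic ∧ d.natDegree ≤ C₁ ∧
        ∀ y ∈ Pl F (k * D - k * C₂ + 1 - (d ^ k).natDegree), fn (k * D + 1) s (d ^ k * y) = 0) →
      (‖S ψ k (fn (k * D + 1) s) (D + 1)‖ / (Fintype.card F : ℝ) ^ (D + 1)) ^ t ≤ δ)
    (hs : ∀ n : F[X], 1 / 2 ≤ sfin k t C₁ n) (htop : ∀ m : F[X], 1 / 2 ≤ dtop k t (k * C₂) m)
    (hδ : 4 * δ * (Fintype.card F : ℝ) ^ (k * D + 1) < W.card)
    (N : F[X]) (hN : N ∈ Pl F (k * D + 1)) :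
    ∃ w₁ ∈ W, ∃ w₂ ∈ W, ∃ x : Fin t → F[X], (∀ i, x i ∈ Pl F (D + 1)) ∧
      N = w₁ + w₂ + ∑ i, x i ^ k := by
  classical
  by_contra hcon
  push Not at hcon
  have hkD : 2 * D ≤ k * D := Nat.mul_le_mul_right D hk
  have hI := Circle2_zero ψ hψ k D t (k * D + 1) (fun x hx => Circle2_pow_mem_Pl k D hx) W hW N hN
    hcon
  set m := k * D + 1 with hm
  set q : ℝ := (Fintype.card F : ℝ) with hq
  have hq0 : 0 < q := by
    rw [hq]; exact_mod_cast Fintype.card_pos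
  set Q : ℝ := (q ^ (D + 1)) ^ t with hQ
  have hQ0 : 0 < Q := by positivity
  set lam : (Fin m → F) → ℝ := fun s => ‖S ψ k (fn m s) (D + 1)‖ / q ^ (D + 1) with hlam
  set G : (Fin m → F) → ℂ := fun s => (∑ w ∈ W, ψ (fn m s w)) ^ 2 *
    S ψ k (fn m s) (D + 1) ^ t * ψ (fn m s (-N)) with hG
  have hWc : (0 : ℝ) < W.card := by exact_mod_cast hne.card_pos
  set Kill : F[X] → (Fin m → F) → Prop := fun d s =>
    ∀ y ∈ Pl F (k * D - k * C₂ + 1 - (d ^ k).natDegree), fn m s (d ^ k * y) = 0 with hKill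
  set Good : (Fin m → F) → Prop := fun s => ∃ d : F[X], d.Monic ∧ d.natDegree ≤ C₁ ∧ Kill d s
    with hGood
  obtain ⟨δ', hδ'0, hmin', hδ'⟩ : ∃ δ' : ℝ, 0 ≤ δ' ∧ (∀ s, ¬ Good s → lam s ^ t ≤ δ') ∧
      4 * δ' * q ^ m < W.card := by
    rcases le_or_gt 0 δ with h | h
    · exact ⟨δ, h, hmin, hδ⟩
    · refine ⟨0, le_rfl, fun s hs => (hmin s hs).trans h.le, ?_⟩
      simpa using hWc
  -- the weight
  set om : (Fin m → F) → ℂ := fun s =>
    ∑ j ∈ range (C₁ + 1), (((Mo F j).filter (fun d => Kill d s)).card : ℂ) -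
      (Fintype.card F : ℂ) * ∑ j ∈ range C₁, (((Mo F j).filter (fun d => Kill d s)).card : ℂ) with hom
  have hom1 : ∀ s, Good s → om s = 1 := by
    intro s hsg
    have h1 := omega_one k (k * D - k * C₂) C₁ (by omega) (by omega) (fn m s) hsg
    have h2 : ∑ j ∈ range (C₁ + 1), ((Mo F j).filter (fun d => Kill d s)).card =
        1 + Fintype.card F * ∑ j ∈ range C₁, ((Mo F j).filter (fun d => Kill d s)).card := by
      convert h1
    have h3 : ((∑ j ∈ range (C₁ + 1), ((Mo F j).filter (fun d => Kill d s)).card : ℕ) : ℂ) =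
        ((1 + Fintype.card F * ∑ j ∈ range C₁, ((Mo F j).filter (fun d => Kill d s)).card : ℕ) : ℂ) :=
      congrArg _ h2
    push_cast at h3
    simp only [hom]
    rw [h3]
    ring
  have hom0 : ∀ s, ¬ Good s → om s = 0 := by
    intro s hsg
    have h1 : ∀ j, j ≤ C₁ → (Mo F j).filter (fun d => Kill d s) = ∅ := by
      intro j hj
      rw [Finset.filter_eq_empty_iff]
      intro d hd hkd
      rw [mem_Mo] at hd
      exact hsg ⟨d, hd.1, by omega, hkd⟩
    simp only [hom]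
    rw [Finset.sum_eq_zero (s := range (C₁ + 1)), Finset.sum_eq_zero (s := range C₁)]
    · ring
    · intro j hj
      rw [Finset.mem_range] at hj
      rw [h1 j (by omega)]
      simp
    · intro j hj
      rw [Finset.mem_range] at hj
      rw [h1 j (by omega)]
      simp
  -- the sums over the major arcs
  have hE : ∀ j, j ≤ C₁ → ∑ s, (((Mo F j).filter (fun d => Kill d s)).card : ℂ) * G s =
      ((∑ w₁ ∈ W, ∑ w₂ ∈ W, Q * (dtop k t (k * C₂) (reflect (k * D) (N - w₁ - w₂)) *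
        ∑ d ∈ Mo F j, dl k t d (N - w₁ - w₂)) : ℝ) : ℂ) := by
    intro j hj
    have h1 : ∀ s, (((Mo F j).filter (fun d => Kill d s)).card : ℂ) * G s =
        ∑ d ∈ Mo F j, if Kill d s then G s else 0 := by
      intro s
      rw [← Finset.sum_filter, Finset.sum_const, nsmul_eq_mul]
    simp_rw [h1]
    rw [Finset.sum_comm]
    have hjk : k * j ≤ k * C₁ := Nat.mul_le_mul_left k hj
    have h2 : ∀ d ∈ Mo F j, ∑ s, (if Kill d s then G s else 0) =
        ((∑ w₁ ∈ W, ∑ w₂ ∈ W, Q * (dl k t d (N - w₁ - w₂) *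
          dtop k t (k * C₂) (reflect (k * D) (N - w₁ - w₂))) : ℝ) : ℂ) := by
      intro d hd
      rw [mem_Mo] at hd
      rw [← Finset.sum_filter]
      exact Circle2_T ψ hψ k D t (k * C₂) d hd.1 (by omega) (by rw [hd.2]; omega)
        (by rw [hd.2]; omega) W hW N hN (Kill d) (fun s => Iff.rfl)
    rw [Finset.sum_congr rfl h2, ← Complex.ofReal_sum, Finset.sum_comm]
    congr 1
    refine Finset.sum_congr rfl fun w₁ _ => ?_
    rw [Finset.sum_comm]
    refine Finset.sum_congr rfl fun w₂ _ => ?_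
    rw [Finset.mul_sum, Finset.mul_sum]
    refine Finset.sum_congr rfl fun d _ => ?_
    ring
  have hA : ∑ s, om s * G s = ((∑ w₁ ∈ W, ∑ w₂ ∈ W, Q *
      (dtop k t (k * C₂) (reflect (k * D) (N - w₁ - w₂)) * sfin k t C₁ (N - w₁ - w₂)) : ℝ) : ℂ) := by
    have h1 : ∀ s, om s * G s =
        ∑ j ∈ range (C₁ + 1), (((Mo F j).filter (fun d => Kill d s)).card : ℂ) * G s -
        (Fintype.card F : ℂ) * ∑ j ∈ range C₁,
          (((Mo F j).filter (fun d => Kill d s)).card : ℂ) * G s := by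
      intro s
      simp only [hom]
      rw [sub_mul, Finset.sum_mul, mul_assoc, Finset.sum_mul]
    simp_rw [h1]
    rw [Finset.sum_sub_distrib, ← Finset.mul_sum, Finset.sum_comm,
      Finset.sum_comm (s := univ) (t := range C₁)]
    have h2 : ∀ n, n ≤ C₁ + 1 → ∑ j ∈ range n,
        ∑ s, (((Mo F j).filter (fun d => Kill d s)).card : ℂ) * G s =
        ((∑ w₁ ∈ W, ∑ w₂ ∈ W, Q * (dtop k t (k * C₂) (reflect (k * D) (N - w₁ - w₂)) *
        ∑ j ∈ range n, ∑ d ∈ Mo F j, dl k t d (N - w₁ - w₂)) : ℝ) : ℂ) := by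
      intro n hn
      have h3 : ∀ j ∈ range n, ∑ s, (((Mo F j).filter (fun d => Kill d s)).card : ℂ) * G s =
        ((∑ w₁ ∈ W, ∑ w₂ ∈ W, Q * (dtop k t (k * C₂) (reflect (k * D) (N - w₁ - w₂)) *
        ∑ d ∈ Mo F j, dl k t d (N - w₁ - w₂)) : ℝ) : ℂ) := by
        intro j hj
        rw [Finset.mem_range] at hj
        exact hE j (by omega)
      rw [Finset.sum_congr rfl h3, ← Complex.ofReal_sum, Finset.sum_comm]
      congr 1
      refine Finset.sum_congr rfl fun w₁ _ => ?_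
      rw [Finset.sum_comm]
      refine Finset.sum_congr rfl fun w₂ _ => ?_
      rw [Finset.mul_sum, Finset.mul_sum]
    rw [h2 (C₁ + 1) le_rfl, h2 C₁ (by omega)]
    have h4 : (Fintype.card F : ℂ) = ((q : ℝ) : ℂ) := by rw [hq]; push_cast; rfl
    rw [h4, ← Complex.ofReal_mul, ← Complex.ofReal_sub]
    congr 1
    rw [Finset.mul_sum, ← Finset.sum_sub_distrib]
    refine Finset.sum_congr rfl fun w₁ _ => ?_
    rw [Finset.mul_sum, ← Finset.sum_sub_distrib]
    refine Finset.sum_congr rfl fun w₂ _ => ?_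
    unfold sfin
    ring
  -- splitting
  have hsplit : ∑ s, om s * G s + ∑ s ∈ univ.filter (fun s => ¬ Good s), G s = 0 := by
    rw [← hI, ← Finset.sum_filter_add_sum_filter_not univ (fun s => Good s) (fun s => om s * G s),
      ← Finset.sum_filter_add_sum_filter_not univ (fun s => Good s)
        (fun s : Fin m → F => (∑ w ∈ W, ψ (fn m s w)) ^ 2 *
          S ψ k (fn m s) (D + 1) ^ t * ψ (fn m s (-N)))]
    have h1 : ∑ s ∈ univ.filter (fun s => Good s), om s * G s =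
        ∑ s ∈ univ.filter (fun s => Good s), G s := by
      refine Finset.sum_congr rfl fun s hs' => ?_
      rw [Finset.mem_filter] at hs'
      rw [hom1 s hs'.2, one_mul]
    have h2 : ∑ s ∈ univ.filter (fun s => ¬ Good s), om s * G s = 0 := by
      refine Finset.sum_eq_zero fun s hs' => ?_
      rw [Finset.mem_filter] at hs'
      rw [hom0 s hs'.2, zero_mul]
    rw [h1, h2, add_zero]
  have hlow : (W.card : ℝ) ^ 2 * Q / 4 ≤ ∑ w₁ ∈ W, ∑ w₂ ∈ W, Q *
      (dtop k t (k * C₂) (reflect (k * D) (N - w₁ - w₂)) * sfin k t C₁ (N - w₁ - w₂)) := by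
    have h1 : ∀ w₁ ∈ W, ∀ w₂ ∈ W, Q / 4 ≤ Q *
        (dtop k t (k * C₂) (reflect (k * D) (N - w₁ - w₂)) * sfin k t C₁ (N - w₁ - w₂)) := by
      intro w₁ _ w₂ _
      have h2 := hs (N - w₁ - w₂)
      have h3 := htop (reflect (k * D) (N - w₁ - w₂))
      have h4 : 1 / 4 ≤ dtop k t (k * C₂) (reflect (k * D) (N - w₁ - w₂)) *
          sfin k t C₁ (N - w₁ - w₂) := by nlinarith
      have := mul_le_mul_of_nonneg_left h4 hQ0.le
      linarith
    calc (W.card : ℝ) ^ 2 * Q / 4 = ∑ w₁ ∈ W, ∑ w₂ ∈ W, Q / 4 := by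
          rw [Finset.sum_const, Finset.sum_const, nsmul_eq_mul, nsmul_eq_mul]
          ring
      _ ≤ _ := Finset.sum_le_sum fun w₁ h => Finset.sum_le_sum fun w₂ h' => h1 w₁ h w₂ h'
  have hnorm : ∀ s, ‖G s‖ = Q * (‖∑ w ∈ W, ψ (fn m s w)‖ ^ 2 * lam s ^ t) := by
    intro s
    simp only [hG]
    rw [norm_mul, norm_mul, norm_pow, norm_pow, AddChar.norm_apply]
    simp only [hlam]
    rw [div_pow, hQ]
    field_simp
  have hup : ‖∑ s ∈ univ.filter (fun s => ¬ Good s), G s‖ ≤ Q * (δ' * (q ^ m * W.card)) := by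
    refine (norm_sum_le _ _).trans ?_
    simp_rw [hnorm]
    rw [← Finset.mul_sum]
    refine mul_le_mul_of_nonneg_left ?_ hQ0.le
    refine le_trans (Finset.sum_le_sum
      (g := fun s => δ' * ‖∑ w ∈ W, ψ (fn m s w)‖ ^ 2) fun s hs' => ?_) ?_
    · rw [Finset.mem_filter] at hs'
      rw [mul_comm]
      exact mul_le_mul_of_nonneg_right (hmin' s hs'.2) (by positivity)
    · rw [← Finset.mul_sum]
      refine mul_le_mul_of_nonneg_left ?_ hδ'0
      rw [hq, ← Circle2_parseval ψ hψ m W hW]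
      refine Finset.sum_le_sum_of_subset_of_nonneg (Finset.subset_univ _) fun s _ _ => ?_
      positivity
  rw [hA] at hsplit
  have h5 := eq_neg_of_add_eq_zero_left hsplit
  have h6 := congrArg norm h5
  rw [norm_neg, Complex.norm_real, Real.norm_eq_abs] at h6
  have h7 := (le_abs_self _).trans (h6.le.trans hup)
  have h8 := hlow.trans h7
  have h9 : (W.card : ℝ) ^ 2 / 4 ≤ δ' * (q ^ m * W.card) := by
    have : (W.card : ℝ) ^ 2 * Q / 4 = Q * ((W.card : ℝ) ^ 2 / 4) := by ring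
    rw [this] at h8
    exact le_of_mul_le_mul_left h8 hQ0
  nlinarith [mul_lt_mul_of_pos_right hδ' hWc]

end FFW
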