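import Pool.Agent.FFW.Defs

/-!
# FFW/Crt: multiplicativity over coprime factors

PROOF. `a * g₁ + b * g₂ = 1`. `φ₁ z := φ (b g₂ z)`, `φ₂ z := φ (a g₁ z)`, so `φ = φ₁ + φ₂`;
`φ₁` kills multiples of `g₁`: `φ(b g₂ g₁ y) = 0`. Primitive: if `φ₁(h y) = φ(b g₂ h y) = 0` for all `y`
then `g₁ g₂ ∣ b g₂ h`, so `g₁ ∣ b h` and `g₁ ∣ h` (`b g₂ = 1 - a g₁`, so `b` is coprime to `g₁`).
The map `Pl (deg (g₁ g₂)) → Pl (deg g₁) × Pl (deg g₂)`, `x ↦ (x %ₘ g₁, x %ₘ g₂)` is injective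
(the difference is divisible by `g₁ g₂` and has smaller degree), hence bijective (cardinalities);
`φ(x ^ k) = φ₁(x ^ k) + φ₂(x ^ k) = φ₁((x %ₘ g₁) ^ k) + φ₂((x %ₘ g₂) ^ k)`.
-/

open Finset Polynomial

namespace FFW

theorem crt {F : Type*} [Field F] [Fintype F] (ψ : AddChar F ℂ) (k : ℕ) (g₁ g₂ : F[X])
    (h₁ : g₁.Monic) (h₂ : g₂.Monic) (hco : IsCoprime g₁ g₂) (φ : F[X] →ₗ[F] F)
    (hφ : Prim φ (g₁ * g₂)) :
    ∃ φ₁ φ₂ : F[X] →ₗ[F] F, Prim φ₁ g₁ ∧ Prim φ₂ g₂ ∧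
      S ψ k φ (g₁ * g₂).natDegree = S ψ k φ₁ g₁.natDegree * S ψ k φ₂ g₂.natDegree := by
  classical
  obtain ⟨a, b, hab⟩ := hco
  have h10 := h₁.ne_zero
  have h20 := h₂.ne_zero
  -- the primitivity
  have prim : ∀ (u v c d : F[X]), u ≠ 0 → v ≠ 0 → c * u + d * v = 1 → Prim φ (u * v) →
      Prim (φ ∘ₗ LinearMap.mulLeft F (d * v)) u := by
    intro u v c d hu hv hcd hP
    refine ⟨fun y => ?_, fun h hh => ?_⟩
    · rw [LinearMap.comp_apply, LinearMap.mulLeft_apply]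
      have e : d * v * (u * y) = (u * v) * (d * y) := by ring
      rw [e]
      exact hP.1 _
    · have h1 : u * v ∣ d * v * h := by
        apply hP.2
        intro y
        have := hh y
        rw [LinearMap.comp_apply, LinearMap.mulLeft_apply] at this
        rw [mul_assoc]
        exact this
      have h2 : u ∣ d * h := by
        have e : d * v * h = (d * h) * v := by ring
        rw [e] at h1
        exact (mul_dvd_mul_iff_right hv).1 h1
      have e : h = u * (c * h) + v * (d * h) := by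
        calc h = (c * u + d * v) * h := by rw [hcd, one_mul]
          _ = _ := by ring
      rw [e]
      exact dvd_add (dvd_mul_right _ _) (h2.mul_left v)
  have hP1 : Prim (φ ∘ₗ LinearMap.mulLeft F (b * g₂)) g₁ := prim g₁ g₂ a b h10 h20 hab hφ
  have hP2 : Prim (φ ∘ₗ LinearMap.mulLeft F (a * g₁)) g₂ := by
    apply prim g₂ g₁ b a h20 h10 _ _
    · rw [← hab]; ring
    · rw [mul_comm]; exact hφ
  obtain ⟨φ₁, e1⟩ : ∃ f : F[X] →ₗ[F] F, f = φ ∘ₗ LinearMap.mulLeft F (b * g₂) := ⟨_, rfl⟩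
  obtain ⟨φ₂, e2⟩ : ∃ f : F[X] →ₗ[F] F, f = φ ∘ₗ LinearMap.mulLeft F (a * g₁) := ⟨_, rfl⟩
  rw [← e1] at hP1
  rw [← e2] at hP2
  refine ⟨φ₁, φ₂, hP1, hP2, ?_⟩
  have hsum : ∀ z, φ z = φ₁ z + φ₂ z := by
    intro z
    rw [e1, e2, LinearMap.comp_apply, LinearMap.comp_apply, LinearMap.mulLeft_apply,
      LinearMap.mulLeft_apply, ← map_add]
    congr 1
    calc z = (a * g₁ + b * g₂) * z := by rw [hab, one_mul]
      _ = _ := by ring
  have hmod : ∀ (θ : F[X] →ₗ[F] F) (g : F[X]), g.Monic → Prim θ g → ∀ x : F[X],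
      θ (x ^ k) = θ ((x %ₘ g) ^ k) := by
    intro θ g hg hP x
    have hd : g ∣ x ^ k - (x %ₘ g) ^ k := by
      refine dvd_trans ?_ (sub_dvd_pow_sub_pow x (x %ₘ g) k)
      have := modByMonic_add_div x g
      exact ⟨x /ₘ g, by linear_combination -this⟩
    obtain ⟨y, hy⟩ := hd
    have h0 := hP.1 y
    rw [← hy, map_sub] at h0
    exact sub_eq_zero.1 h0
  -- the bijection
  have hmem : ∀ (g : F[X]), g.Monic → ∀ x : F[X], x %ₘ g ∈ Pl F g.natDegree := by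
    intro g hg x
    rw [mem_Pl]
    have := degree_modByMonic_lt x hg
    rwa [degree_eq_natDegree hg.ne_zero] at this
  have hdeg : (g₁ * g₂).natDegree = g₁.natDegree + g₂.natDegree := h₁.natDegree_mul h₂
  have hinj : Set.InjOn (fun x : F[X] => (x %ₘ g₁, x %ₘ g₂))
      (Pl F (g₁ * g₂).natDegree : Set F[X]) := by
    intro x hx y hy hxy
    rw [Finset.mem_coe] at hx hy
    simp only [Prod.mk.injEq] at hxy
    have hz : ∀ g : F[X], g.Monic → x %ₘ g = y %ₘ g → g ∣ x - y := by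
      intro g hg h
      rw [← modByMonic_eq_zero_iff_dvd hg, sub_modByMonic, h, sub_self]
    have hdvd : g₁ * g₂ ∣ x - y :=
      IsCoprime.mul_dvd ⟨a, b, hab⟩ (hz g₁ h₁ hxy.1) (hz g₂ h₂ hxy.2)
    have hlt : (x - y).degree < (g₁ * g₂).degree := by
      have := mem_Pl.1 (sub_mem_Pl hx hy)
      rwa [degree_eq_natDegree (mul_ne_zero h10 h20)]
    exact sub_eq_zero.1 (eq_zero_of_dvd_of_degree_lt hdvd hlt)
  have himg : (Pl F (g₁ * g₂).natDegree).image (fun x : F[X] => (x %ₘ g₁, x %ₘ g₂)) =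
      Pl F g₁.natDegree ×ˢ Pl F g₂.natDegree := by
    apply Finset.eq_of_subset_of_card_le
    · intro z hz
      rw [Finset.mem_image] at hz
      obtain ⟨x, _, rfl⟩ := hz
      rw [Finset.mem_product]
      exact ⟨hmem g₁ h₁ x, hmem g₂ h₂ x⟩
    · rw [Finset.card_image_of_injOn hinj, Finset.card_product, card_Pl, card_Pl, card_Pl, hdeg,
        pow_add]
  have hR : S ψ k φ₁ g₁.natDegree * S ψ k φ₂ g₂.natDegree =
      ∑ z ∈ Pl F g₁.natDegree ×ˢ Pl F g₂.natDegree, ψ (φ₁ (z.1 ^ k)) * ψ (φ₂ (z.2 ^ k)) := by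
    unfold S
    rw [Finset.sum_mul_sum, Finset.sum_product]
  rw [hR, ← himg, Finset.sum_image hinj]
  unfold S
  apply Finset.sum_congr rfl
  intro x _
  rw [hsum, AddChar.map_add_eq_mul, hmod φ₁ g₁ h₁ hP1, hmod φ₂ g₂ h₂ hP2]

end FFW
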