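import Pool.Agent.FFW.Defs

/-!
# FFW/PB: exponential sums modulo a prime

`p` monic irreducible of degree `d`, `Q = q ^ d`, `φ` primitive modulo `p`:
`‖∑_{x ∈ Pl d} ψ(φ(x ^ k))‖ ≤ k * √Q`.

PROOF. `S_a = ∑_{x ∈ Pl d} ψ(φ(a x ^ k))` for `a ∈ Pl d` (`φ` kills the multiples of `p`, so all
is modulo `p`; one may work in the field `K = AdjoinRoot p`, or directly with `Pl d` and `%ₘ p`).
`∑_{a ∈ Pl d} |S_a|² = Q * #{(x, y) : x ^ k ≡ y ^ k mod p}`: for `z ≢ 0` the map `a ↦ φ(a z)` is a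
nonzero linear functional on `Pl d` (primitivity), so `∑_a ψ(φ(a z)) = 0` (`ψ ≠ 1`). The number of
pairs is `≤ 1 + (Q - 1) k`. `a = 0` contributes `Q ^ 2`. So
`∑_{a ≠ 0} |S_a|² ≤ Q (1 + (Q-1) k) - Q ^ 2 = Q (Q-1) (k-1)`. For `c ∈ Pl d`, `c ≠ 0`:
`S_{c ^ k mod p} = S_1` (substitution `x → c x mod p`, a bijection of the residues), and every
`a ≠ 0` is `≡ c ^ k` for at most `k` values `c`. So `(Q-1) |S_1|² ≤ k * Q (Q-1) (k-1)`,
`|S_1|² ≤ k ^ 2 Q`.
-/

open Finset Polynomial

namespace FFW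

open scoped Classical in
private theorem card_pow_eq {K : Type*} [Field K] [Fintype K] (k : ℕ) (hk : 1 ≤ k) (a : K) :
    (Finset.univ.filter (fun x : K => x ^ k = a)).card ≤ k := by
  have h1 : (Finset.univ.filter (fun x : K => x ^ k = a)) ⊆ (nthRoots k a).toFinset := by
    intro x hx
    rw [Finset.mem_filter] at hx
    rw [Multiset.mem_toFinset, mem_nthRoots hk]
    exact hx.2
  calc (Finset.univ.filter (fun x : K => x ^ k = a)).card
      ≤ (nthRoots k a).toFinset.card := Finset.card_le_card h1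
    _ ≤ Multiset.card (nthRoots k a) := Multiset.toFinset_card_le _
    _ ≤ k := card_nthRoots k a

/-- the second moment -/
private theorem second_moment {K : Type*} [Field K] [Fintype K] (χ : AddChar K ℂ) (hχ : χ ≠ 1)
    (k : ℕ) (hk : 1 ≤ k) :
    ∑ a : K, ‖∑ x : K, χ (a * x ^ k)‖ ^ 2 ≤
      (Fintype.card K : ℝ) * (1 + ((Fintype.card K : ℝ) - 1) * k) := by
  classical
  have hprim : χ.IsPrimitive := AddChar.IsPrimitive.of_ne_one hχ
  have hsq : ∀ a : K, ((‖∑ x : K, χ (a * x ^ k)‖ ^ 2 : ℝ) : ℂ) =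
      ∑ x : K, ∑ y : K, χ (a * (y ^ k - x ^ k)) := by
    intro a
    rw [Complex.ofReal_pow, ← Complex.conj_mul', map_sum, Finset.sum_mul_sum]
    refine Finset.sum_congr rfl fun x _ => Finset.sum_congr rfl fun y _ => ?_
    rw [← AddChar.map_neg_eq_conj, ← AddChar.map_add_eq_mul]
    congr 1
    ring
  have htot : ((∑ a : K, ‖∑ x : K, χ (a * x ^ k)‖ ^ 2 : ℝ) : ℂ) =
      (Fintype.card K : ℂ) * ((∑ x : K, (Finset.univ.filter (fun y : K => y ^ k = x ^ k)).card : ℕ) : ℂ) := by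
    rw [Complex.ofReal_sum]
    rw [Finset.sum_congr rfl fun a _ => hsq a]
    rw [Finset.sum_comm]
    rw [Nat.cast_sum, Finset.mul_sum]
    refine Finset.sum_congr rfl fun x _ => ?_
    rw [Finset.sum_comm]
    have : ∀ y : K, ∑ a : K, χ (a * (y ^ k - x ^ k)) =
        if y ^ k = x ^ k then (Fintype.card K : ℂ) else 0 := by
      intro y
      rw [AddChar.sum_mulShift _ hprim]
      by_cases h : y ^ k = x ^ k
      · rw [if_pos h, if_pos (sub_eq_zero.2 h)]
      · rw [if_neg h, if_neg (fun h' => h (sub_eq_zero.1 h'))]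
        simp
    rw [Finset.sum_congr rfl fun y _ => this y]
    rw [← Finset.sum_filter, Finset.sum_const, nsmul_eq_mul, mul_comm]
  have htot' : (∑ a : K, ‖∑ x : K, χ (a * x ^ k)‖ ^ 2 : ℝ) =
      (Fintype.card K : ℝ) * ((∑ x : K, (Finset.univ.filter (fun y : K => y ^ k = x ^ k)).card : ℕ) : ℝ) := by
    exact_mod_cast htot
  rw [htot']
  refine mul_le_mul_of_nonneg_left ?_ (Nat.cast_nonneg _)
  have h0 : (Finset.univ.filter (fun y : K => y ^ k = (0 : K) ^ k)).card = 1 := by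
    rw [Finset.card_eq_one]
    refine ⟨0, ?_⟩
    ext y
    rw [Finset.mem_filter, Finset.mem_singleton]
    constructor
    · rintro ⟨_, h⟩
      rw [zero_pow (by omega)] at h
      exact pow_eq_zero_iff (by omega) |>.1 h
    · rintro rfl
      exact ⟨Finset.mem_univ _, rfl⟩
  have hsum : (∑ x : K, (Finset.univ.filter (fun y : K => y ^ k = x ^ k)).card) ≤
      1 + (Fintype.card K - 1) * k := by
    rw [← Finset.add_sum_erase _ _ (Finset.mem_univ (0 : K)), h0]
    refine Nat.add_le_add_left ?_ 1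
    calc ∑ x ∈ Finset.univ.erase (0 : K), (Finset.univ.filter (fun y : K => y ^ k = x ^ k)).card
        ≤ ∑ x ∈ Finset.univ.erase (0 : K), k := Finset.sum_le_sum fun x _ => card_pow_eq k hk _
      _ = (Fintype.card K - 1) * k := by
        rw [Finset.sum_const, Finset.card_erase_of_mem (Finset.mem_univ _), Finset.card_univ,
          smul_eq_mul]
  have hQ : 1 ≤ Fintype.card K := Fintype.card_pos
  calc ((∑ x : K, (Finset.univ.filter (fun y : K => y ^ k = x ^ k)).card : ℕ) : ℝ)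
      ≤ ((1 + (Fintype.card K - 1) * k : ℕ) : ℝ) := by exact_mod_cast hsum
    _ = 1 + ((Fintype.card K : ℝ) - 1) * k := by
      push_cast [Nat.cast_sub hQ]
      ring

private theorem field_bound {K : Type*} [Field K] [Fintype K] (χ : AddChar K ℂ) (hχ : χ ≠ 1)
    (k : ℕ) (hk : 1 ≤ k) :
    ‖∑ x : K, χ (x ^ k)‖ ≤ k * Real.sqrt (Fintype.card K) := by
  classical
  set Q : ℝ := (Fintype.card K : ℝ) with hQdef
  have hQ1 : (1 : ℝ) < Q := by
    rw [hQdef]
    exact_mod_cast Fintype.one_lt_card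
  have hk1 : (1 : ℝ) ≤ k := by exact_mod_cast hk
  have hsec := second_moment χ hχ k hk
  rw [← hQdef] at hsec
  set T : K → ℝ := fun a => ‖∑ x : K, χ (a * x ^ k)‖ ^ 2 with hT
  have hT0 : T 0 = Q ^ 2 := by
    simp [hT, hQdef]
  have hsplit : T 0 + ∑ a ∈ Finset.univ.erase (0 : K), T a = ∑ a : K, T a :=
    Finset.add_sum_erase _ _ (Finset.mem_univ (0 : K))
  have hne : ∑ a ∈ Finset.univ.erase (0 : K), T a ≤ Q * (Q - 1) * (k - 1) := by
    have : ∑ a : K, T a ≤ Q * (1 + (Q - 1) * k) := hsec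
    rw [← hsplit, hT0] at this
    linarith
  -- shift invariance
  have hinv : ∀ c : K, c ≠ 0 → T (c ^ k) = T 1 := by
    intro c hc
    simp only [hT]
    congr 2
    have : ∑ x : K, χ (1 * x ^ k) = ∑ x : K, χ (1 * (c * x) ^ k) :=
      (Equiv.sum_comp (Equiv.mulLeft₀ c hc) (fun x : K => χ (1 * x ^ k))).symm
    rw [this]
    refine Finset.sum_congr rfl fun x _ => ?_
    rw [mul_pow, one_mul]
  have hTnn : ∀ a, 0 ≤ T a := fun a => by positivity
  have hfib : ∑ c ∈ Finset.univ.erase (0 : K), T (c ^ k) ≤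
      k * ∑ a ∈ Finset.univ.erase (0 : K), T a := by
    have hmaps : ∀ c ∈ Finset.univ.erase (0 : K), c ^ k ∈ Finset.univ.erase (0 : K) := by
      intro c hc
      rw [Finset.mem_erase] at hc ⊢
      exact ⟨pow_ne_zero k hc.1, Finset.mem_univ _⟩
    rw [← Finset.sum_fiberwise_of_maps_to hmaps, Finset.mul_sum]
    refine Finset.sum_le_sum fun a _ => ?_
    have : ∑ c ∈ (Finset.univ.erase (0 : K)).filter (fun c => c ^ k = a), T (c ^ k) =
        ((Finset.univ.erase (0 : K)).filter (fun c => c ^ k = a)).card * T a := by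
      rw [Finset.sum_congr rfl (g := fun _ => T a)
        (fun c hc => by rw [(Finset.mem_filter.1 hc).2])]
      rw [Finset.sum_const, nsmul_eq_mul]
    rw [this]
    refine mul_le_mul_of_nonneg_right ?_ (hTnn a)
    have h2 : ((Finset.univ.erase (0 : K)).filter (fun c => c ^ k = a)).card ≤ k :=
      le_trans (Finset.card_le_card (Finset.filter_subset_filter _ (Finset.erase_subset _ _)))
        (card_pow_eq k hk a)
    exact_mod_cast h2
  have hleft : ∑ c ∈ Finset.univ.erase (0 : K), T (c ^ k) = (Q - 1) * T 1 := by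
    rw [Finset.sum_congr rfl (g := fun _ => T 1)
      (fun c hc => hinv c (Finset.mem_erase.1 hc).1)]
    rw [Finset.sum_const, nsmul_eq_mul, Finset.card_erase_of_mem (Finset.mem_univ _),
      Finset.card_univ, Nat.cast_sub Fintype.card_pos]
    simp [hQdef]
  have hmain : (Q - 1) * T 1 ≤ (Q - 1) * (k ^ 2 * Q) := by
    calc (Q - 1) * T 1 = ∑ c ∈ Finset.univ.erase (0 : K), T (c ^ k) := hleft.symm
      _ ≤ k * ∑ a ∈ Finset.univ.erase (0 : K), T a := hfib
      _ ≤ k * (Q * (Q - 1) * (k - 1)) := mul_le_mul_of_nonneg_left hne (by positivity)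
      _ ≤ (Q - 1) * (k ^ 2 * Q) := by
        have : 0 ≤ k * (Q * (Q - 1)) := by
          have : 0 ≤ Q - 1 := by linarith
          positivity
        nlinarith
  have hT1 : T 1 ≤ k ^ 2 * Q := le_of_mul_le_mul_left hmain (by linarith)
  have hT1' : ‖∑ x : K, χ (x ^ k)‖ ^ 2 ≤ k ^ 2 * Q := by
    simpa [hT] using hT1
  have : (k * Real.sqrt Q) ^ 2 = k ^ 2 * Q := by
    rw [mul_pow, Real.sq_sqrt (by linarith)]
  rw [← this] at hT1'
  exact le_of_sq_le_sq hT1' (by positivity)

theorem pb {F : Type*} [Field F] [Fintype F] (ψ : AddChar F ℂ) (hψ : ψ ≠ 1) (k : ℕ)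
    (hk : 1 ≤ k) (p : F[X]) (hp : p.Monic) (hirr : Irreducible p) (φ : F[X] →ₗ[F] F)
    (hφ : Prim φ p) :
    ‖S ψ k φ p.natDegree‖ ≤ k * Real.sqrt ((Fintype.card F : ℝ) ^ p.natDegree) := by
  classical
  haveI : Fact (Irreducible p) := ⟨hirr⟩
  have hp0 : p ≠ 0 := hp.ne_zero
  -- the residue map restricted to `Pl`
  have hmod : ∀ f : F[X], f %ₘ p ∈ Pl F p.natDegree := by
    intro f
    rw [mem_Pl, ← degree_eq_natDegree hp0]
    exact degree_modByMonic_lt f hp
  have hsurj : ∀ y : AdjoinRoot p, ∃ x ∈ Pl F p.natDegree, AdjoinRoot.mk p x = y := by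
    intro y
    obtain ⟨f, rfl⟩ := AdjoinRoot.mk_surjective y
    refine ⟨f %ₘ p, hmod f, ?_⟩
    rw [AdjoinRoot.mk_eq_mk]
    have h1 := modByMonic_add_div f p
    refine ⟨-(f /ₘ p), ?_⟩
    linear_combination h1
  have hinj : ∀ x ∈ Pl F p.natDegree, ∀ y ∈ Pl F p.natDegree,
      AdjoinRoot.mk p x = AdjoinRoot.mk p y → x = y := by
    intro x hx y hy h
    rw [AdjoinRoot.mk_eq_mk] at h
    by_contra hne
    have h1 : x - y ≠ 0 := sub_ne_zero.2 hne
    have h2 := sub_mem_Pl hx hy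
    rw [mem_Pl, ← degree_eq_natDegree hp0] at h2
    exact absurd (degree_le_of_dvd h h1) (not_le.2 h2)
  haveI : Finite (AdjoinRoot p) := by
    refine Finite.of_surjective (fun x : (Pl F p.natDegree) => AdjoinRoot.mk p (x : F[X])) ?_
    intro y
    obtain ⟨x, hx, hxy⟩ := hsurj y
    exact ⟨⟨x, hx⟩, hxy⟩
  haveI : Fintype (AdjoinRoot p) := Fintype.ofFinite _
  have hred : ∀ f : F[X], φ (f %ₘ p) = φ f := by
    intro f
    conv_rhs => rw [← modByMonic_add_div f p]
    rw [map_add, hφ.1, add_zero]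
  set L : AdjoinRoot p →ₗ[F] F := φ ∘ₗ AdjoinRoot.modByMonicHom hp with hL
  have hLmk : ∀ f : F[X], L (AdjoinRoot.mk p f) = φ f := by
    intro f
    rw [hL, LinearMap.comp_apply, AdjoinRoot.modByMonicHom_mk, hred]
  set χ : AddChar (AdjoinRoot p) ℂ := ψ.compAddMonoidHom L.toAddMonoidHom with hχdef
  have hχapply : ∀ y, χ y = ψ (L y) := fun y => rfl
  have hχ : χ ≠ 1 := by
    intro h1
    apply hψ
    have hex : ∃ y, φ y ≠ 0 := by
      by_contra hno
      push Not at hno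
      have := hφ.2 1 (fun y => hno _)
      exact hirr.not_isUnit (isUnit_of_dvd_one this)
    obtain ⟨y, hy⟩ := hex
    ext a
    have h2 := congrArg (fun c : AddChar (AdjoinRoot p) ℂ => c (AdjoinRoot.mk p ((a / φ y) • y))) h1
    simp only [hχapply, hLmk, map_smul, smul_eq_mul, AddChar.one_apply] at h2
    rw [div_mul_cancel₀ a hy] at h2
    rw [h2, AddChar.one_apply]
  have hcard : (Fintype.card (AdjoinRoot p) : ℝ) = (Fintype.card F : ℝ) ^ p.natDegree := by
    have : Fintype.card (AdjoinRoot p) = (Pl F p.natDegree).card := by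
      rw [← Finset.card_univ]
      symm
      refine Finset.card_bij (fun x _ => AdjoinRoot.mk p x) (fun _ _ => Finset.mem_univ _)
        (fun x hx y hy h => hinj x hx y hy h) ?_
      intro y _
      obtain ⟨x, hx, hxy⟩ := hsurj y
      exact ⟨x, hx, hxy⟩
    rw [this, card_Pl]
    push_cast
    rfl
  have hS : S ψ k φ p.natDegree = ∑ y : AdjoinRoot p, χ (y ^ k) := by
    unfold S
    refine Finset.sum_bij (fun x _ => AdjoinRoot.mk p x) (fun _ _ => Finset.mem_univ _)
      (fun x hx y hy h => hinj x hx y hy h) ?_ ?_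
    · intro y _
      obtain ⟨x, hx, hxy⟩ := hsurj y
      exact ⟨x, hx, hxy⟩
    · intro x _
      rw [hχapply, ← map_pow, hLmk]
  rw [hS, ← hcard]
  exact field_bound χ hχ k hk

end FFW
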