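import Pool.Agent.FFW.Den
import Pool.Agent.FFW.PB

/-!
# FFW/EpB: size of the local deviations, `t = 5`

`|ep k 5 p n| ≤ (k ^ 5 + 1) / (Q √Q)`, `Q = q ^ (deg p)`.

PROOF. Let `N` be the number of all `x ∈ (Pl d)^5` (`d = deg p`) with `p ∣ ∑ x_i ^ k - n`; `np` is `N`
minus `1` if `p ∣ n` (the zero tuple), minus `0` otherwise (`p ∣ x_i`, `x_i ∈ Pl d` means `x_i = 0`).
Choose a functional `φ` on `F[X]` primitive modulo `p` (e.g. `φ z = (z %ₘ p).coeff (d - 1)`; if
`φ(h y) = 0` for all `y` and `p ∤ h`, Bezout `u h + v p = 1`, `y = u * X ^ (d-1)` gives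
`φ(X ^ (d-1)) = 1 ≠ 0`). For `a ∈ Pl d`, `a ≠ 0`, `φ_a z = φ(a z)` is again primitive modulo `p`, and
`∑_{a ∈ Pl d} ψ(φ(a z)) = Q` if `p ∣ z`, `0` otherwise (`z ↦` linear functional on `Pl d`). So
`Q N = ∑_{a ∈ Pl d} ψ(-φ(a n)) (S ψ k φ_a d) ^ 5`, the term `a = 0` is `Q ^ 5`, the others are
`≤ (k √Q) ^ 5` by `pb`: `|Q N - Q ^ 5| ≤ (Q - 1) k ^ 5 Q ^ (5/2)`. Hence
`|ep| = |Q np / Q ^ 5 - 1| ≤ |Q N - Q ^ 5| / Q ^ 5 + Q / Q ^ 5 ≤ k ^ 5 Q ^ (-3/2) + Q ^ (-4)`.
(`ψ` any nontrivial additive character, e.g. `AddChar.exists_apply_ne_zero`, see `exists_psi` in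
Final.lean.)
-/

open Finset Polynomial

namespace FFW

open scoped Classical in
private theorem card_pow_eq {K : Type*} [Field K] [Fintype K] (k : ℕ) (hk : 1 ≤ k) (a : K) :
    (Finset.univ.filter (fun x : K => x ^ k = a)).card ≤ k := by
  have h1 : (Finset.univ.filter (fun x : K => x ^ k = a)) ⊆ (nthRoots k a).toFinset := by
    intro x hx
    rw [Finset.mem_filter] at hx
    rw [Multiset.mem_toFinset, mem_nthRoots hk]
    exact hx.2
  calc (Finset.univ.filter (fun x : K => x ^ k = a)).card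
      ≤ (nthRoots k a).toFinset.card := Finset.card_le_card h1
    _ ≤ Multiset.card (nthRoots k a) := Multiset.toFinset_card_le _
    _ ≤ k := card_nthRoots k a

/-- the second moment -/
private theorem second_moment {K : Type*} [Field K] [Fintype K] (χ : AddChar K ℂ) (hχ : χ ≠ 1)
    (k : ℕ) (hk : 1 ≤ k) :
    ∑ a : K, ‖∑ x : K, χ (a * x ^ k)‖ ^ 2 ≤
      (Fintype.card K : ℝ) * (1 + ((Fintype.card K : ℝ) - 1) * k) := by
  classical
  have hprim : χ.IsPrimitive := AddChar.IsPrimitive.of_ne_one hχ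
  have hsq : ∀ a : K, ((‖∑ x : K, χ (a * x ^ k)‖ ^ 2 : ℝ) : ℂ) =
      ∑ x : K, ∑ y : K, χ (a * (y ^ k - x ^ k)) := by
    intro a
    rw [Complex.ofReal_pow, ← Complex.conj_mul', map_sum, Finset.sum_mul_sum]
    refine Finset.sum_congr rfl fun x _ => Finset.sum_congr rfl fun y _ => ?_
    rw [← AddChar.map_neg_eq_conj, ← AddChar.map_add_eq_mul]
    congr 1
    ring
  have htot : ((∑ a : K, ‖∑ x : K, χ (a * x ^ k)‖ ^ 2 : ℝ) : ℂ) =
      (Fintype.card K : ℂ) * ((∑ x : K, (Finset.univ.filter (fun y : K => y ^ k = x ^ k)).card : ℕ) : ℂ) := by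
    rw [Complex.ofReal_sum]
    rw [Finset.sum_congr rfl fun a _ => hsq a]
    rw [Finset.sum_comm]
    rw [Nat.cast_sum, Finset.mul_sum]
    refine Finset.sum_congr rfl fun x _ => ?_
    rw [Finset.sum_comm]
    have : ∀ y : K, ∑ a : K, χ (a * (y ^ k - x ^ k)) =
        if y ^ k = x ^ k then (Fintype.card K : ℂ) else 0 := by
      intro y
      rw [AddChar.sum_mulShift _ hprim]
      by_cases h : y ^ k = x ^ k
      · rw [if_pos h, if_pos (sub_eq_zero.2 h)]
      · rw [if_neg h, if_neg (fun h' => h (sub_eq_zero.1 h'))]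
        simp
    rw [Finset.sum_congr rfl fun y _ => this y]
    rw [← Finset.sum_filter, Finset.sum_const, nsmul_eq_mul, mul_comm]
  have htot' : (∑ a : K, ‖∑ x : K, χ (a * x ^ k)‖ ^ 2 : ℝ) =
      (Fintype.card K : ℝ) * ((∑ x : K, (Finset.univ.filter (fun y : K => y ^ k = x ^ k)).card : ℕ) : ℝ) := by
    exact_mod_cast htot
  rw [htot']
  refine mul_le_mul_of_nonneg_left ?_ (Nat.cast_nonneg _)
  have h0 : (Finset.univ.filter (fun y : K => y ^ k = (0 : K) ^ k)).card = 1 := by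
    rw [Finset.card_eq_one]
    refine ⟨0, ?_⟩
    ext y
    rw [Finset.mem_filter, Finset.mem_singleton]
    constructor
    · rintro ⟨_, h⟩
      rw [zero_pow (by omega)] at h
      exact pow_eq_zero_iff (by omega) |>.1 h
    · rintro rfl
      exact ⟨Finset.mem_univ _, rfl⟩
  have hsum : (∑ x : K, (Finset.univ.filter (fun y : K => y ^ k = x ^ k)).card) ≤
      1 + (Fintype.card K - 1) * k := by
    rw [← Finset.add_sum_erase _ _ (Finset.mem_univ (0 : K)), h0]
    refine Nat.add_le_add_left ?_ 1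
    calc ∑ x ∈ Finset.univ.erase (0 : K), (Finset.univ.filter (fun y : K => y ^ k = x ^ k)).card
        ≤ ∑ x ∈ Finset.univ.erase (0 : K), k := Finset.sum_le_sum fun x _ => card_pow_eq k hk _
      _ = (Fintype.card K - 1) * k := by
        rw [Finset.sum_const, Finset.card_erase_of_mem (Finset.mem_univ _), Finset.card_univ,
          smul_eq_mul]
  have hQ : 1 ≤ Fintype.card K := Fintype.card_pos
  calc ((∑ x : K, (Finset.univ.filter (fun y : K => y ^ k = x ^ k)).card : ℕ) : ℝ)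
      ≤ ((1 + (Fintype.card K - 1) * k : ℕ) : ℝ) := by exact_mod_cast hsum
    _ = 1 + ((Fintype.card K : ℝ) - 1) * k := by
      push_cast [Nat.cast_sub hQ]
      ring

private theorem field_bound {K : Type*} [Field K] [Fintype K] (χ : AddChar K ℂ) (hχ : χ ≠ 1)
    (k : ℕ) (hk : 1 ≤ k) :
    ‖∑ x : K, χ (x ^ k)‖ ≤ k * Real.sqrt (Fintype.card K) := by
  classical
  set Q : ℝ := (Fintype.card K : ℝ) with hQdef
  have hQ1 : (1 : ℝ) < Q := by
    rw [hQdef]
    exact_mod_cast Fintype.one_lt_card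
  have hk1 : (1 : ℝ) ≤ k := by exact_mod_cast hk
  have hsec := second_moment χ hχ k hk
  rw [← hQdef] at hsec
  set T : K → ℝ := fun a => ‖∑ x : K, χ (a * x ^ k)‖ ^ 2 with hT
  have hT0 : T 0 = Q ^ 2 := by
    simp [hT, hQdef]
  have hsplit : T 0 + ∑ a ∈ Finset.univ.erase (0 : K), T a = ∑ a : K, T a :=
    Finset.add_sum_erase _ _ (Finset.mem_univ (0 : K))
  have hne : ∑ a ∈ Finset.univ.erase (0 : K), T a ≤ Q * (Q - 1) * (k - 1) := by
    have : ∑ a : K, T a ≤ Q * (1 + (Q - 1) * k) := hsec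
    rw [← hsplit, hT0] at this
    linarith
  -- shift invariance
  have hinv : ∀ c : K, c ≠ 0 → T (c ^ k) = T 1 := by
    intro c hc
    simp only [hT]
    congr 2
    have : ∑ x : K, χ (1 * x ^ k) = ∑ x : K, χ (1 * (c * x) ^ k) :=
      (Equiv.sum_comp (Equiv.mulLeft₀ c hc) (fun x : K => χ (1 * x ^ k))).symm
    rw [this]
    refine Finset.sum_congr rfl fun x _ => ?_
    rw [mul_pow, one_mul]
  have hTnn : ∀ a, 0 ≤ T a := fun a => by positivity
  have hfib : ∑ c ∈ Finset.univ.erase (0 : K), T (c ^ k) ≤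
      k * ∑ a ∈ Finset.univ.erase (0 : K), T a := by
    have hmaps : ∀ c ∈ Finset.univ.erase (0 : K), c ^ k ∈ Finset.univ.erase (0 : K) := by
      intro c hc
      rw [Finset.mem_erase] at hc ⊢
      exact ⟨pow_ne_zero k hc.1, Finset.mem_univ _⟩
    rw [← Finset.sum_fiberwise_of_maps_to hmaps, Finset.mul_sum]
    refine Finset.sum_le_sum fun a _ => ?_
    have : ∑ c ∈ (Finset.univ.erase (0 : K)).filter (fun c => c ^ k = a), T (c ^ k) =
        ((Finset.univ.erase (0 : K)).filter (fun c => c ^ k = a)).card * T a := by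
      rw [Finset.sum_congr rfl (g := fun _ => T a)
        (fun c hc => by rw [(Finset.mem_filter.1 hc).2])]
      rw [Finset.sum_const, nsmul_eq_mul]
    rw [this]
    refine mul_le_mul_of_nonneg_right ?_ (hTnn a)
    have h2 : ((Finset.univ.erase (0 : K)).filter (fun c => c ^ k = a)).card ≤ k :=
      le_trans (Finset.card_le_card (Finset.filter_subset_filter _ (Finset.erase_subset _ _)))
        (card_pow_eq k hk a)
    exact_mod_cast h2
  have hleft : ∑ c ∈ Finset.univ.erase (0 : K), T (c ^ k) = (Q - 1) * T 1 := by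
    rw [Finset.sum_congr rfl (g := fun _ => T 1)
      (fun c hc => hinv c (Finset.mem_erase.1 hc).1)]
    rw [Finset.sum_const, nsmul_eq_mul, Finset.card_erase_of_mem (Finset.mem_univ _),
      Finset.card_univ, Nat.cast_sub Fintype.card_pos]
    simp [hQdef]
  have hmain : (Q - 1) * T 1 ≤ (Q - 1) * (k ^ 2 * Q) := by
    calc (Q - 1) * T 1 = ∑ c ∈ Finset.univ.erase (0 : K), T (c ^ k) := hleft.symm
      _ ≤ k * ∑ a ∈ Finset.univ.erase (0 : K), T a := hfib
      _ ≤ k * (Q * (Q - 1) * (k - 1)) := mul_le_mul_of_nonneg_left hne (by positivity)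
      _ ≤ (Q - 1) * (k ^ 2 * Q) := by
        have : 0 ≤ k * (Q * (Q - 1)) := by
          have : 0 ≤ Q - 1 := by linarith
          positivity
        nlinarith
  have hT1 : T 1 ≤ k ^ 2 * Q := le_of_mul_le_mul_left hmain (by linarith)
  have hT1' : ‖∑ x : K, χ (x ^ k)‖ ^ 2 ≤ k ^ 2 * Q := by
    simpa [hT] using hT1
  have : (k * Real.sqrt Q) ^ 2 = k ^ 2 * Q := by
    rw [mul_pow, Real.sq_sqrt (by linarith)]
  rw [← this] at hT1'
  exact le_of_sq_le_sq hT1' (by positivity)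

private theorem achar_sum {F ι : Type*} [Field F] (ψ : AddChar F ℂ) (s : Finset ι) (f : ι → F) :
    ψ (∑ i ∈ s, f i) = ∏ i ∈ s, ψ (f i) := by
  classical
  induction s using Finset.induction_on with
  | empty => simp
  | insert a s ha ih => rw [Finset.sum_insert ha, Finset.prod_insert ha, AddChar.map_add_eq_mul, ih]

private theorem shift_bound {K : Type*} [Field K] [Fintype K] (χ : AddChar K ℂ) (hχ : χ ≠ 1)
    (k : ℕ) (hk : 1 ≤ k) (a : K) (ha : a ≠ 0) :
    ‖∑ x : K, χ (a * x ^ k)‖ ≤ k * Real.sqrt (Fintype.card K) := by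
  have h1 : AddChar.mulShift χ a ≠ 1 := (AddChar.IsPrimitive.of_ne_one hχ) ha
  have h2 := field_bound (AddChar.mulShift χ a) h1 k hk
  simpa [AddChar.mulShift_apply] using h2

private theorem field_count {K : Type*} [Field K] [Fintype K] [DecidableEq K] (χ : AddChar K ℂ)
    (hχ : χ ≠ 1) (k : ℕ) (hk : 1 ≤ k) (n : K) :
    |(Fintype.card K : ℝ) * ((Finset.univ.filter (fun x : Fin 5 → K => ∑ i, x i ^ k = n)).card : ℝ)
      - (Fintype.card K : ℝ) ^ 5| ≤
      ((Fintype.card K : ℝ) - 1) * (k * Real.sqrt (Fintype.card K)) ^ 5 := by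
  have hprim : χ.IsPrimitive := AddChar.IsPrimitive.of_ne_one hχ
  have hmain : (Fintype.card K : ℂ) *
      ((Finset.univ.filter (fun x : Fin 5 → K => ∑ i, x i ^ k = n)).card : ℂ) =
      ∑ a : K, χ (-(a * n)) * (∑ x : K, χ (a * x ^ k)) ^ 5 := by
    have h1 : ∀ x : Fin 5 → K, (if ∑ i, x i ^ k = n then (Fintype.card K : ℂ) else 0) =
        ∑ a : K, χ (a * (∑ i, x i ^ k - n)) := by
      intro x
      rw [AddChar.sum_mulShift _ hprim]
      by_cases h : ∑ i, x i ^ k = n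
      · rw [if_pos h, if_pos (sub_eq_zero.2 h)]
      · rw [if_neg h, if_neg (fun h' => h (sub_eq_zero.1 h'))]
        simp
    have h2 : (Fintype.card K : ℂ) *
        ((Finset.univ.filter (fun x : Fin 5 → K => ∑ i, x i ^ k = n)).card : ℂ) =
        ∑ x : Fin 5 → K, (if ∑ i, x i ^ k = n then (Fintype.card K : ℂ) else 0) := by
      rw [← Finset.sum_filter, Finset.sum_const, nsmul_eq_mul, mul_comm]
    rw [h2, Finset.sum_congr rfl fun x _ => h1 x, Finset.sum_comm]
    refine Finset.sum_congr rfl fun a _ => ?_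
    have h3 := Finset.prod_univ_sum (R := ℂ) (fun _ : Fin 5 => (Finset.univ : Finset K))
      (fun _ x => χ (a * x ^ k))
    rw [Finset.prod_const, Finset.card_univ, Fintype.card_fin, Fintype.piFinset_univ] at h3
    rw [h3, Finset.mul_sum]
    refine Finset.sum_congr rfl fun x _ => ?_
    rw [← achar_sum, ← AddChar.map_add_eq_mul]
    congr 1
    rw [mul_sub, Finset.mul_sum]
    ring
  have h0 : χ (-((0 : K) * n)) * (∑ x : K, χ (0 * x ^ k)) ^ 5 = (Fintype.card K : ℂ) ^ 5 := by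
    simp
  rw [← Finset.add_sum_erase _ _ (Finset.mem_univ (0 : K)), h0] at hmain
  have hdiff : (((Fintype.card K : ℝ) *
      ((Finset.univ.filter (fun x : Fin 5 → K => ∑ i, x i ^ k = n)).card : ℝ)
      - (Fintype.card K : ℝ) ^ 5 : ℝ) : ℂ) =
      ∑ a ∈ Finset.univ.erase (0 : K), χ (-(a * n)) * (∑ x : K, χ (a * x ^ k)) ^ 5 := by
    push_cast
    rw [hmain]
    ring
  have hn := congrArg norm hdiff
  rw [Complex.norm_real, Real.norm_eq_abs] at hn
  rw [hn]
  refine (norm_sum_le _ _).trans ?_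
  calc ∑ a ∈ Finset.univ.erase (0 : K), ‖χ (-(a * n)) * (∑ x : K, χ (a * x ^ k)) ^ 5‖
      ≤ ∑ a ∈ Finset.univ.erase (0 : K), (k * Real.sqrt (Fintype.card K)) ^ 5 := by
        refine Finset.sum_le_sum fun a ha => ?_
        rw [norm_mul, AddChar.norm_apply, one_mul, norm_pow]
        exact pow_le_pow_left₀ (norm_nonneg _)
          (shift_bound χ hχ k hk a (Finset.mem_erase.1 ha).1) 5
    _ = ((Fintype.card K : ℝ) - 1) * (k * Real.sqrt (Fintype.card K)) ^ 5 := by
        rw [Finset.sum_const, nsmul_eq_mul, Finset.card_erase_of_mem (Finset.mem_univ _),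
          Finset.card_univ, Nat.cast_sub Fintype.card_pos, Nat.cast_one]

theorem ep_le {F : Type*} [Field F] [Fintype F] (k : ℕ) (hk : 1 ≤ k) (p : F[X]) (hp : p.Monic)
    (hirr : Irreducible p) (n : F[X]) :
    |ep k 5 p n| ≤ ((k : ℝ) ^ 5 + 1) / ((Fintype.card F : ℝ) ^ p.natDegree *
      Real.sqrt ((Fintype.card F : ℝ) ^ p.natDegree)) := by
  classical
  have : Fact (Irreducible p) := ⟨hirr⟩
  have hp0 : p ≠ 0 := hp.ne_zero
  have hmod : ∀ f : F[X], f %ₘ p ∈ Pl F p.natDegree := by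
    intro f
    rw [mem_Pl, ← degree_eq_natDegree hp0]
    exact degree_modByMonic_lt f hp
  have hsurj : ∀ y : AdjoinRoot p, ∃ x ∈ Pl F p.natDegree, AdjoinRoot.mk p x = y := by
    intro y
    obtain ⟨f, rfl⟩ := AdjoinRoot.mk_surjective y
    refine ⟨f %ₘ p, hmod f, ?_⟩
    rw [AdjoinRoot.mk_eq_mk]
    have h1 := modByMonic_add_div f p
    refine ⟨-(f /ₘ p), ?_⟩
    linear_combination h1
  have hinj : ∀ x ∈ Pl F p.natDegree, ∀ y ∈ Pl F p.natDegree,
      AdjoinRoot.mk p x = AdjoinRoot.mk p y → x = y := by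
    intro x hx y hy h
    rw [AdjoinRoot.mk_eq_mk] at h
    by_contra hne
    have h1 : x - y ≠ 0 := sub_ne_zero.2 hne
    have h2 := sub_mem_Pl hx hy
    rw [mem_Pl, ← degree_eq_natDegree hp0] at h2
    exact absurd (degree_le_of_dvd h h1) (not_le.2 h2)
  have : Finite (AdjoinRoot p) := by
    refine Finite.of_surjective (fun x : (Pl F p.natDegree) => AdjoinRoot.mk p (x : F[X])) ?_
    intro y
    obtain ⟨x, hx, hxy⟩ := hsurj y
    exact ⟨⟨x, hx⟩, hxy⟩
  have : Fintype (AdjoinRoot p) := Fintype.ofFinite _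
  have hcard : (Fintype.card (AdjoinRoot p) : ℝ) = (Fintype.card F : ℝ) ^ p.natDegree := by
    have : Fintype.card (AdjoinRoot p) = (Pl F p.natDegree).card := by
      rw [← Finset.card_univ]
      symm
      refine Finset.card_bij (fun x _ => AdjoinRoot.mk p x) (fun _ _ => Finset.mem_univ _)
        (fun x hx y hy h => hinj x hx y hy h) ?_
      intro y _
      obtain ⟨x, hx, hxy⟩ := hsurj y
      exact ⟨x, hx, hxy⟩
    rw [this, card_Pl]
    push_cast
    rfl
  obtain ⟨χ, hχ'⟩ := AddChar.exists_apply_ne_zero.2 (one_ne_zero (α := AdjoinRoot p))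
  have hχ : χ ≠ 1 := by
    rintro rfl
    exact hχ' rfl
  have hcount := field_count χ hχ k hk (AdjoinRoot.mk p n)
  set A := Finset.univ.filter (fun x : Fin 5 → AdjoinRoot p => ∑ i, x i ^ k = AdjoinRoot.mk p n)
    with hA
  -- `np` counts the nonzero solutions
  have hnp : np k 5 p n = (A.filter (fun x => ∃ i, x i ≠ 0)).card := by
    unfold np
    refine Finset.card_bij (fun x _ => fun i => AdjoinRoot.mk p (x i)) ?_ ?_ ?_
    · intro x hx
      rw [Finset.mem_filter] at hx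
      obtain ⟨_, h2, i, h3⟩ := hx
      rw [Finset.mem_filter, hA, Finset.mem_filter]
      refine ⟨⟨Finset.mem_univ _, ?_⟩, i, ?_⟩
      · have h4 := AdjoinRoot.mk_eq_mk.2 h2
        rw [← h4, map_sum]
        simp only [map_pow]
      · intro h5
        exact h3 (AdjoinRoot.mk_eq_zero.1 h5)
    · intro x hx y hy h
      rw [Finset.mem_filter, Fintype.mem_piFinset] at hx hy
      funext i
      exact hinj _ (hx.1 i) _ (hy.1 i) (congrFun h i)
    · intro y hy
      rw [Finset.mem_filter, hA, Finset.mem_filter] at hy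
      obtain ⟨⟨_, h2⟩, i, h3⟩ := hy
      choose f hf1 hf2 using hsurj
      refine ⟨fun i => f (y i), ?_, ?_⟩
      · rw [Finset.mem_filter, Fintype.mem_piFinset]
        refine ⟨fun i => hf1 _, ?_, i, ?_⟩
        · rw [← AdjoinRoot.mk_eq_mk, map_sum]
          simp only [map_pow, hf2]
          exact h2
        · intro h5
          apply h3
          rw [← hf2 (y i)]
          exact AdjoinRoot.mk_eq_zero.2 h5
      · funext i
        exact hf2 _
  have hle1 : np k 5 p n ≤ A.card := by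
    rw [hnp]
    exact Finset.card_le_card (Finset.filter_subset _ _)
  have hle2 : A.card ≤ np k 5 p n + 1 := by
    rw [hnp, ← Finset.card_filter_add_card_filter_not (s := A) (fun x => ∃ i, x i ≠ 0)]
    refine Nat.add_le_add_left ?_ _
    rw [Finset.card_le_one]
    intro x hx y hy
    rw [Finset.mem_filter] at hx hy
    have hx2 := hx.2
    have hy2 := hy.2
    push Not at hx2 hy2
    funext i
    rw [hx2 i, hy2 i]
  rw [hcard] at hcount
  have hq1 : (1 : ℝ) ≤ (Fintype.card F : ℝ) := by exact_mod_cast Fintype.card_pos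
  have hQ1 : (1 : ℝ) ≤ (Fintype.card F : ℝ) ^ p.natDegree := one_le_pow₀ hq1
  unfold ep
  set Q : ℝ := (Fintype.card F : ℝ) ^ p.natDegree with hQ
  have hQ0 : 0 < Q := by linarith
  set r : ℝ := Real.sqrt Q with hr
  have hr1 : 1 ≤ r := by
    rw [hr]
    exact Real.one_le_sqrt.2 hQ1
  have hrr : r * r = Q := Real.mul_self_sqrt hQ0.le
  have hr0 : 0 < r := by linarith
  have h1 : (np k 5 p n : ℝ) ≤ A.card := by exact_mod_cast hle1
  have h2 : (A.card : ℝ) ≤ np k 5 p n + 1 := by exact_mod_cast hle2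
  have h3 : |Q * (np k 5 p n : ℝ) - Q ^ 5| ≤ (Q - 1) * (k * r) ^ 5 + Q := by
    have h4 := abs_le.1 hcount
    rw [abs_le]
    constructor
    · nlinarith [mul_le_mul_of_nonneg_left h2 hQ0.le]
    · nlinarith [mul_le_mul_of_nonneg_left h1 hQ0.le]
  have h5 : Q * (np k 5 p n : ℝ) / Q ^ 5 - 1 = (Q * (np k 5 p n : ℝ) - Q ^ 5) / Q ^ 5 := by
    field_simp
  rw [h5, abs_div, abs_of_pos (pow_pos hQ0 5), div_le_div_iff₀ (pow_pos hQ0 5) (mul_pos hQ0 hr0)]
  have hk0 : (0 : ℝ) ≤ (k : ℝ) ^ 5 := by positivity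
  calc |Q * (np k 5 p n : ℝ) - Q ^ 5| * (Q * r)
      ≤ ((Q - 1) * (k * r) ^ 5 + Q) * (Q * r) :=
        mul_le_mul_of_nonneg_right h3 (mul_nonneg hQ0.le hr0.le)
    _ = (Q - 1) * (k : ℝ) ^ 5 * Q ^ 4 + Q ^ 2 * r := by
        have e : r ^ 6 = Q ^ 3 := by
          rw [← hrr]
          ring
        calc ((Q - 1) * (k * r) ^ 5 + Q) * (Q * r)
            = (Q - 1) * (k : ℝ) ^ 5 * Q * r ^ 6 + Q ^ 2 * r := by ring
          _ = (Q - 1) * (k : ℝ) ^ 5 * Q ^ 4 + Q ^ 2 * r := by
              rw [e]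
              ring
    _ ≤ (k : ℝ) ^ 5 * Q ^ 5 + Q ^ 5 := by
        have hrQ : r ≤ Q := by nlinarith
        have h6 : Q ^ 2 * r ≤ Q ^ 5 := by
          calc Q ^ 2 * r ≤ Q ^ 2 * Q := mul_le_mul_of_nonneg_left hrQ (by positivity)
            _ = Q ^ 3 := by ring
            _ ≤ Q ^ 5 := pow_le_pow_right₀ hQ1 (by norm_num)
        have h7 : (Q - 1) * (k : ℝ) ^ 5 * Q ^ 4 ≤ (k : ℝ) ^ 5 * Q ^ 5 := by
          have : 0 ≤ (k : ℝ) ^ 5 * Q ^ 4 := by positivity
          nlinarith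
        linarith
    _ = ((k : ℝ) ^ 5 + 1) * Q ^ 5 := by ring

end FFW
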