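import Pool.Agent.FFW.Hens
import Pool.Agent.FFW.EpB

/-!
# FFW/DTop: the density at infinity is at least `1/2`

`10 (k ^ 5 + 1) ≤ √q`, `k ≥ 1`, `k ≠ 0` in `F`, `e ≥ 1`.

PROOF. `rr k 5 (X ^ e) m ≥` the number of solutions with some `x_i` not divisible by `X`
`= (q ^ 1) ^ ((e-1) 4) * np k 5 X m` (`hens` with `p = X`, `i = e`), and
`q * np k 5 X m / q ^ 5 = 1 + ep ≥ 1 - (k ^ 5 + 1)/(q √q) ≥ 1/2` (`ep_le`). So
`dtop ≥ q ^ e q ^ (4 (e-1)) np / q ^ (5 e) = q np / q ^ 5 ≥ 1/2`.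
-/

open Finset Polynomial

namespace FFW

private lemma dtop_rr {F : Type*} [Field F] [Fintype F] (k : ℕ) (hk : 1 ≤ k) (hkF : (k : F) ≠ 0)
    (e : ℕ) (m : F[X]) :
    (Fintype.card F) ^ (4 * e) * np k 5 X m ≤ rr k 5 (X ^ (e + 1)) m := by
  classical
  have h := hens k 5 hk hkF (by norm_num) (X : F[X]) monic_X irreducible_X (e + 1) (by omega) m
  have h1 : (Fintype.card F ^ (X : F[X]).natDegree) ^ ((e + 1 - 1) * (5 - 1)) =
      (Fintype.card F) ^ (4 * e) := by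
    rw [natDegree_X, pow_one]
    congr 1
    omega
  rw [h1] at h
  rw [← h]
  unfold rr
  apply Finset.card_le_card
  intro x hx
  rw [Finset.mem_filter] at hx ⊢
  exact ⟨hx.1, hx.2.1⟩

theorem dtop_ge {F : Type*} [Field F] [Fintype F] (k : ℕ) (hk : 1 ≤ k) (hkF : (k : F) ≠ 0)
    (hq : 10 * ((k : ℝ) ^ 5 + 1) ≤ Real.sqrt (Fintype.card F)) (e : ℕ) (he : 1 ≤ e) (m : F[X]) :
    1 / 2 ≤ dtop k 5 e m := by
  obtain ⟨e, rfl⟩ : ∃ e', e = e' + 1 := ⟨e - 1, by omega⟩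
  have hq1 : (1 : ℝ) ≤ Fintype.card F := by
    exact_mod_cast Fintype.card_pos (α := F)
  have hrr : ((Fintype.card F : ℝ)) ^ (4 * e) * (np k 5 X m : ℝ) ≤ (rr k 5 (X ^ (e + 1)) m : ℝ) := by
    exact_mod_cast dtop_rr k hk hkF e m
  have hep := ep_le k hk (X : F[X]) monic_X irreducible_X m
  rw [natDegree_X, pow_one] at hep
  unfold ep at hep
  rw [natDegree_X, pow_one] at hep
  unfold dtop
  set q : ℝ := (Fintype.card F : ℝ) with hqd
  set s : ℝ := Real.sqrt q with hs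
  set N : ℝ := (np k 5 X m : ℝ) with hN
  set R : ℝ := (rr k 5 (X ^ (e + 1)) m : ℝ) with hR
  have hq0 : (0 : ℝ) < q := by linarith
  have hs0 : 0 < s := Real.sqrt_pos.2 hq0
  have hb : ((k : ℝ) ^ 5 + 1) / (q * s) ≤ 1 / 2 := by
    rw [div_le_iff₀ (by positivity)]
    have h2 : s * 1 ≤ s * q := by
      apply mul_le_mul_of_nonneg_left hq1 hs0.le
    have h3 : (0 : ℝ) ≤ (k : ℝ) ^ 5 := by positivity
    nlinarith
  have h4 : 1 / 2 ≤ q * N / q ^ 5 := by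
    have h5 := (abs_le.1 hep).1
    linarith
  have h6 : q * N / q ^ 5 = q ^ (e + 1) * (q ^ (4 * e) * N) / (q ^ (e + 1)) ^ 5 := by
    rw [div_eq_div_iff (by positivity) (by positivity)]
    ring
  rw [h6] at h4
  refine h4.trans ?_
  gcongr

end FFW
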