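import Pool.Agent.FFW.Defs

/-!
# FFW/Dec: functionals with a small denominator split into a finite and an infinite part

`fn (M+1) s (G y) = 0` for all `y` of degree `≤ M - C`, `0 ≠ G` of degree `≤ C ≤ M`. Then there are
`g` monic, `e`, `deg g + e ≤ C`, and functionals `φ₁`, `φ₂` with `φ₁` primitive modulo `g`, `φ₂`
primitive modulo `X ^ e` and `fn (M+1) s z = φ₁ z + φ₂ (reflect M z)` for `z` of degree `≤ M`.

PROOF. Call `(g, e)` valid if `g` is monic, `deg g + e ≤ C` and `fn (M+1) s (g y) = 0` for all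
`y ∈ Pl (M + 1 - deg g - e)`. `(G / leading coefficient, C - deg G)` is valid. Take a valid pair with
`deg g + e` minimal, `a = deg g`. `φ₁ z := fn (M+1) s (z %ₘ g)` (linear: `Polynomial.modByMonicHom`).
It kills the multiples of `g`; and `φ₁ z = fn (M+1) s z` for `z ∈ Pl (M + 1 - e)` because
`z - z %ₘ g = g * (z /ₘ g)` with `z /ₘ g ∈ Pl (M + 1 - e - a)` (if `M + 1 - e ≤ a`, `z %ₘ g = z`).
`φ₂ := ∑_{i < e} (c_i) • lcoeff i`, `c_i = s_{M-i} - φ₁(X ^ (M-i))` (`e ≤ C ≤ M`). It kills the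
multiples of `X ^ e`; for `z ∈ Pl (M+1)`:
`fn (M+1) s z - φ₁ z = ∑_{j ≤ M} (s_j - φ₁(X ^ j)) z_j`, the terms `j ≤ M - e` vanish, the others
(`j = M - i`, `i < e`) give `∑_{i<e} c_i z_{M-i} = φ₂(reflect M z)` (`coeff_reflect`, `revAt_le`).
`Prim φ₁ g`: let `φ₁(h y) = 0` for all `y`; the set of such `h` is an ideal, generated by a monic
`h0 ∣ g` (or: replace `h` by the monic gcd `h0` of `h` and `g`, Bezout). For
`y ∈ Pl (M + 1 - deg h0 - e)`, `h0 y ∈ Pl (M + 1 - e)` and `fn (M+1) s (h0 y) = φ₁(h0 y) = 0`, so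
`(h0, e)` is valid, `deg h0 ≥ deg g` by minimality, `h0 = g` divides `h`.
`Prim φ₂ (X ^ e)`: for `e = 0` trivial. For `e ≥ 1`, `c_{e-1} ≠ 0`: otherwise `s_j = φ₁(X ^ j)` for
all `j ≤ M - e + 1`, and `(g, e - 1)` is valid. If `φ₂(h y) = 0` for all `y` and `X ^ e ∤ h`, write
`h = X ^ v h'`, `v < e`, `h'(0) ≠ 0` (least `v` with `h.coeff v ≠ 0`); `y = X ^ (e - 1 - v)` gives
`φ₂(h y) = c_{e-1} h'(0) ≠ 0` (the terms of `h y` of degree `≥ e` are killed, those of degree
`< e - 1` vanish), a contradiction.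
-/

open Finset Polynomial

namespace FFW

private theorem Dec_sum {F : Type*} [Field F] [Fintype F] (δ : F[X] →ₗ[F] F) (n : ℕ) {z : F[X]}
    (hz : z ∈ Pl F n) : δ z = ∑ j ∈ range n, z.coeff j * δ (X ^ j) := by
  have h1 : z = ∑ j ∈ range n, z.coeff j • (X ^ j : F[X]) := by
    ext i
    rw [finsetSum_coeff]
    simp only [coeff_smul, coeff_X_pow, smul_eq_mul, mul_ite, mul_one, mul_zero]
    rw [Finset.sum_ite_eq]
    split_ifs with hi
    · rfl
    · rw [Finset.mem_range] at hi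
      exact (Polynomial.degree_lt_iff_coeff_zero z n).1 (mem_Pl.1 hz) i (by omega)
  conv_lhs => rw [h1]
  rw [map_sum]
  refine Finset.sum_congr rfl fun j _ => ?_
  rw [map_smul, smul_eq_mul]

private theorem Dec_zero {F : Type*} [Field F] [Fintype F] (δ : F[X] →ₗ[F] F) (n : ℕ)
    (h : ∀ j < n, δ (X ^ j) = 0) {z : F[X]} (hz : z ∈ Pl F n) : δ z = 0 := by
  rw [Dec_sum δ n hz]
  refine Finset.sum_eq_zero fun j hj => ?_
  rw [h j (Finset.mem_range.1 hj), mul_zero]

private theorem Dec_div {F : Type*} [Field F] [Fintype F] {g z : F[X]} (hg : g.Monic) {n : ℕ}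
    (hz : z ∈ Pl F n) : z /ₘ g ∈ Pl F (n - g.natDegree) := by
  rw [mem_Pl] at *
  by_cases h0 : z /ₘ g = 0
  · rw [h0, degree_zero]
    exact WithBot.bot_lt_coe _
  have h1 : ¬ degree z < degree g := fun h => h0 ((divByMonic_eq_zero_iff hg).2 h)
  have hz0 : z ≠ 0 := by
    rintro rfl
    exact h0 (zero_divByMonic g)
  have hg0 : g ≠ 0 := hg.ne_zero
  have h2 : g.natDegree ≤ z.natDegree := natDegree_le_natDegree (not_lt.1 h1)
  rw [degree_eq_natDegree h0, natDegree_divByMonic z hg]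
  rw [degree_eq_natDegree hz0] at hz
  have h3 : z.natDegree < n := by exact_mod_cast hz
  have h4 : z.natDegree - g.natDegree < n - g.natDegree := by omega
  exact_mod_cast h4

private theorem Dec_mul {F : Type*} [Field F] [Fintype F] {g y : F[X]} {n e : ℕ}
    (h : g.natDegree + e ≤ n) (hy : y ∈ Pl F (n + 1 - g.natDegree - e)) :
    g * y ∈ Pl F (n + 1 - e) := by
  have h1 : g ∈ Pl F (g.natDegree + 1) := by
    rw [mem_Pl]
    exact lt_of_le_of_lt degree_le_natDegree (by exact_mod_cast Nat.lt_succ_self _)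
  have h2 := mul_mem_Pl h1 hy
  have h3 : g.natDegree + (n + 1 - g.natDegree - e) = n + 1 - e := by omega
  rwa [h3] at h2

/-- valid pairs -/
private def Dec_V {F : Type*} [Field F] [Fintype F] (M C : ℕ) (s : Fin (M + 1) → F) (g : F[X])
    (e : ℕ) : Prop :=
  g.Monic ∧ g.natDegree + e ≤ C ∧ ∀ y ∈ Pl F (M + 1 - g.natDegree - e), fn (M + 1) s (g * y) = 0

private theorem Dec_ex {F : Type*} [Field F] [Fintype F] (M C : ℕ) (s : Fin (M + 1) → F)
    (G : F[X]) (hG : G ≠ 0) (hGd : G ∈ Pl F (C + 1))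
    (h : ∀ y ∈ Pl F (M + 1 - C), fn (M + 1) s (G * y) = 0) : ∃ g e, Dec_V M C s g e := by
  have hlc : G.leadingCoeff ≠ 0 := leadingCoeff_ne_zero.2 hG
  have hd : G.natDegree ≤ C := by
    rw [mem_Pl, degree_eq_natDegree hG] at hGd
    have : G.natDegree < C + 1 := by exact_mod_cast hGd
    omega
  have hnd : (G * Polynomial.C G.leadingCoeff⁻¹).natDegree = G.natDegree :=
    natDegree_mul_C (inv_ne_zero hlc)
  refine ⟨G * Polynomial.C G.leadingCoeff⁻¹, C - G.natDegree, monic_mul_leadingCoeff_inv hG, ?_, ?_⟩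
  · rw [hnd]
    omega
  · rw [hnd]
    intro y hy
    have h1 : M + 1 - G.natDegree - (C - G.natDegree) = M + 1 - C := by omega
    rw [h1] at hy
    rw [mul_assoc]
    exact h _ (smul_mem_Pl _ hy)

theorem dec {F : Type*} [Field F] [Fintype F] (M C : ℕ) (hC : C ≤ M) (s : Fin (M + 1) → F)
    (G : F[X]) (hG : G ≠ 0) (hGd : G ∈ Pl F (C + 1))
    (h : ∀ y ∈ Pl F (M + 1 - C), fn (M + 1) s (G * y) = 0) :
    ∃ (g : F[X]) (e : ℕ) (φ₁ φ₂ : F[X] →ₗ[F] F), g.Monic ∧ g.natDegree + e ≤ C ∧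
      Prim φ₁ g ∧ Prim φ₂ (X ^ e) ∧
      ∀ z ∈ Pl F (M + 1), fn (M + 1) s z = φ₁ z + φ₂ (reflect M z) := by
  classical
  have hex : ∃ n, ∃ g e, Dec_V M C s g e ∧ g.natDegree + e = n := by
    obtain ⟨g, e, hv⟩ := Dec_ex M C s G hG hGd h
    exact ⟨_, g, e, hv, rfl⟩
  obtain ⟨g, e, ⟨hg, hge, hval⟩, hn⟩ := Nat.find_spec hex
  have hmin : ∀ g' e', Dec_V M C s g' e' → g.natDegree + e ≤ g'.natDegree + e' := by
    intro g' e' hv
    rw [hn]
    exact Nat.find_min' hex ⟨g', e', hv, rfl⟩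
  obtain ⟨φ₁, hφ₁⟩ : ∃ φ₁ : F[X] →ₗ[F] F, φ₁ = (fn (M + 1) s) ∘ₗ (modByMonicHom g) := ⟨_, rfl⟩
  have hφ₁a : ∀ z, φ₁ z = fn (M + 1) s (z %ₘ g) := fun z => by rw [hφ₁]; rfl
  have hφg : ∀ y, φ₁ (g * y) = 0 := by
    intro y
    rw [hφ₁a, self_mul_modByMonic hg, map_zero]
  obtain ⟨δ, hδ⟩ : ∃ δ : F[X] →ₗ[F] F, δ = fn (M + 1) s - φ₁ := ⟨_, rfl⟩
  have hδa : ∀ z, δ z = fn (M + 1) s z - φ₁ z := fun z => by rw [hδ]; rfl
  have hδ0 : ∀ z ∈ Pl F (M + 1 - e), δ z = 0 := by
    intro z hz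
    rw [hδa, hφ₁a, ← map_sub]
    have h1 : z - z %ₘ g = g * (z /ₘ g) := by
      conv_lhs => rw [← modByMonic_add_div z g]
      rw [modByMonic_add_div z g]
      have := modByMonic_add_div z g
      linear_combination -this
    rw [h1]
    apply hval
    have h2 := Dec_div hg hz
    rwa [Nat.sub_right_comm]
  have hX : ∀ j n : ℕ, j < n → (X ^ j : F[X]) ∈ Pl F n := by
    intro j n hj
    rw [mem_Pl, degree_X_pow]
    exact_mod_cast hj
  obtain ⟨φ₂, hφ₂⟩ : ∃ φ₂ : F[X] →ₗ[F] F, φ₂ = ∑ i ∈ range e, δ (X ^ (M - i)) • lcoeff F i :=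
    ⟨_, rfl⟩
  have hφ₂a : ∀ z, φ₂ z = ∑ i ∈ range e, δ (X ^ (M - i)) * z.coeff i := by
    intro z
    rw [hφ₂, LinearMap.sum_apply]
    rfl
  refine ⟨g, e, φ₁, φ₂, hg, hge, ⟨hφg, ?_⟩, ⟨?_, ?_⟩, ?_⟩
  · -- primitivity of φ₁
    intro k hk
    have hg0 : g ≠ 0 := hg.ne_zero
    have hd0 : EuclideanDomain.gcd k g ≠ 0 := fun h0 => hg0 (EuclideanDomain.gcd_eq_zero_iff.1 h0).2
    have hlc : (EuclideanDomain.gcd k g).leadingCoeff ≠ 0 := leadingCoeff_ne_zero.2 hd0
    obtain ⟨d, hd⟩ : ∃ d : F[X], d = EuclideanDomain.gcd k g *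
      Polynomial.C (EuclideanDomain.gcd k g).leadingCoeff⁻¹ := ⟨_, rfl⟩
    have hdm : d.Monic := by
      rw [hd]
      exact monic_mul_leadingCoeff_inv hd0
    have hu : IsUnit (Polynomial.C (EuclideanDomain.gcd k g).leadingCoeff⁻¹) :=
      isUnit_C.2 (isUnit_iff_ne_zero.2 (inv_ne_zero hlc))
    have hdg : d ∣ g := by
      rw [hd]
      exact (IsUnit.mul_right_dvd hu).2 (EuclideanDomain.gcd_dvd_right k g)
    have hdk : d ∣ k := by
      rw [hd]
      exact (IsUnit.mul_right_dvd hu).2 (EuclideanDomain.gcd_dvd_left k g)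
    have hdy : ∀ y, φ₁ (d * y) = 0 := by
      intro y
      obtain ⟨a, b, hab⟩ : ∃ a b : F[X], d = k * a + g * b := by
        refine ⟨EuclideanDomain.gcdA k g * Polynomial.C (EuclideanDomain.gcd k g).leadingCoeff⁻¹,
          EuclideanDomain.gcdB k g * Polynomial.C (EuclideanDomain.gcd k g).leadingCoeff⁻¹, ?_⟩
        have h1 := EuclideanDomain.gcd_eq_gcd_ab k g
        rw [hd]
        linear_combination (Polynomial.C (EuclideanDomain.gcd k g).leadingCoeff⁻¹) * h1
      have h1 : d * y = k * (a * y) + g * (b * y) := by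
        rw [hab]
        ring
      rw [h1, map_add, hk, hφg, add_zero]
    have hdle : d.natDegree ≤ g.natDegree := natDegree_le_of_dvd hdg hg0
    have hV : Dec_V M C s d e := by
      refine ⟨hdm, by omega, fun y hy => ?_⟩
      have h1 : d * y ∈ Pl F (M + 1 - e) := Dec_mul (by omega) hy
      have h2 := hδ0 _ h1
      rw [hδa, hdy, sub_zero] at h2
      exact h2
    have h3 := hmin d e hV
    have h4 : g = d := eq_of_monic_of_dvd_of_natDegree_le hdm hg hdg (by omega)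
    rw [h4]
    exact hdk
  · intro y
    rw [hφ₂a]
    refine Finset.sum_eq_zero fun i hi => ?_
    rw [Finset.mem_range] at hi
    rw [coeff_X_pow_mul', if_neg (by omega), mul_zero]
  · intro k hk
    rw [X_pow_dvd_iff]
    by_contra hno
    push Not at hno
    have hno' : ∃ v, v < e ∧ k.coeff v ≠ 0 := hno
    obtain ⟨hv1, hv2⟩ := Nat.find_spec hno'
    obtain ⟨v, hv⟩ : ∃ v, v = Nat.find hno' := ⟨_, rfl⟩
    rw [← hv] at hv1 hv2
    have hv3 : ∀ w < v, k.coeff w = 0 := by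
      intro w hw
      by_contra hne
      have := Nat.find_min' hno' ⟨by omega, hne⟩
      omega
    have he1 : 1 ≤ e := by omega
    have hc : δ (X ^ (M - (e - 1))) ≠ 0 := by
      intro h0
      have h1 : ∀ z ∈ Pl F (M + 1 - (e - 1)), δ z = 0 := by
        intro z hz
        refine Dec_zero δ _ (fun j hj => ?_) hz
        by_cases hj1 : j < M + 1 - e
        · exact hδ0 _ (hX j _ hj1)
        · have h2 : j = M - (e - 1) := by omega
          rw [h2]
          exact h0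
      have hV : Dec_V M C s g (e - 1) := by
        refine ⟨hg, by omega, fun y hy => ?_⟩
        have h2 : g * y ∈ Pl F (M + 1 - (e - 1)) := Dec_mul (by omega) hy
        have h3 := h1 _ h2
        rw [hδa, hφg, sub_zero] at h3
        exact h3
      have h4 := hmin g (e - 1) hV
      omega
    have h1 := hk (X ^ (e - 1 - v))
    rw [hφ₂a, Finset.sum_eq_single (e - 1)] at h1
    · rw [coeff_mul_X_pow', if_pos (by omega)] at h1
      have h2 : e - 1 - (e - 1 - v) = v := by omega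
      rw [h2] at h1
      rcases mul_eq_zero.1 h1 with h3 | h3
      · exact hc h3
      · exact hv2 h3
    · intro i hi hie
      rw [Finset.mem_range] at hi
      rw [coeff_mul_X_pow']
      split_ifs with h2
      · rw [hv3 _ (by omega), mul_zero]
      · rw [mul_zero]
    · intro h2
      exact absurd (Finset.mem_range.2 (by omega)) h2
  · intro z hz
    have h1 : δ z = φ₂ (reflect M z) := by
      rw [Dec_sum δ (M + 1) hz, hφ₂a, ← Finset.sum_range_reflect]
      have h2 : range e ⊆ range (M + 1) := Finset.range_subset_range.2 (by omega)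
      rw [← Finset.sum_subset h2]
      · refine Finset.sum_congr rfl fun i hi => ?_
        rw [Finset.mem_range] at hi
        rw [coeff_reflect, revAt_le (by omega)]
        have h3 : M + 1 - 1 - i = M - i := by omega
        rw [h3, mul_comm]
      · intro i hi hie
        rw [Finset.mem_range] at hi hie
        rw [hδ0 _ (hX _ _ (by omega)), mul_zero]
    rw [← h1, hδa]
    ring

end FFW
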