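import Mathlib

/-!
# FFW: Waring's problem over `F_q[t]`, basic definitions

`Pl F m` is the finite set of polynomials of degree `< m` (`q ^ m` elements),
`fn m s` the linear functional `z ↦ ∑_{i < m} s i * coeff z i`,
`S ψ k φ m = ∑_{x ∈ Pl F m} ψ (φ (x ^ k))`,
`Prim φ g`: the functional `φ` kills the multiples of `g`, and `g` divides every `h` whose
multiples are killed by `φ`.
-/

open Polynomial Finset

namespace FFW

noncomputable section

open scoped Classical in
/-- polynomials of degree `< m` -/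
def Pl (F : Type*) [Field F] [Fintype F] (m : ℕ) : Finset F[X] :=
  Finset.univ.image (fun c : Fin m → F => ∑ i : Fin m, C (c i) * X ^ (i : ℕ))

/-- the functional `z ↦ ∑_{i < m} s i * coeff z i` -/
def fn {F : Type*} [Field F] (m : ℕ) (s : Fin m → F) : F[X] →ₗ[F] F :=
  ∑ i : Fin m, s i • Polynomial.lcoeff F (i : ℕ)

/-- the exponential sum over the `k`-th powers -/
def S {F : Type*} [Field F] [Fintype F] (ψ : AddChar F ℂ) (k : ℕ) (φ : F[X] →ₗ[F] F) (m : ℕ) :
    ℂ :=
  ∑ x ∈ Pl F m, ψ (φ (x ^ k))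

/-- `φ` is a primitive functional modulo `g` -/
def Prim {F : Type*} [Field F] (φ : F[X] →ₗ[F] F) (g : F[X]) : Prop :=
  (∀ y, φ (g * y) = 0) ∧ ∀ h, (∀ y, φ (h * y) = 0) → g ∣ h

/-- the bound for the normalised exponential sum modulo `π ^ j`, `Q = |π|` -/
def bq (k : ℕ) (Q : ℝ) (j : ℕ) : ℝ :=
  if j % k = 1 then k / Real.sqrt Q / Q ^ (j / k) else (Q ^ ((j + k - 1) / k))⁻¹

open scoped Classical in
/-- the bound for the normalised exponential sum modulo `g` -/
def bb {F : Type*} [Field F] [Fintype F] (k : ℕ) (g : F[X]) : ℝ :=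
  ∏ p ∈ (UniqueFactorizationMonoid.normalizedFactors g).toFinset,
    bq k ((Fintype.card F : ℝ) ^ p.natDegree)
      ((UniqueFactorizationMonoid.normalizedFactors g).count p)

variable {F : Type*} [Field F] [Fintype F]

set_option linter.unusedSectionVars false

theorem coeff_poly (m : ℕ) (c : Fin m → F) (i : ℕ) :
    (∑ j : Fin m, C (c j) * X ^ (j : ℕ) : F[X]).coeff i = if h : i < m then c ⟨i, h⟩ else 0 := by
  rw [Polynomial.finsetSum_coeff]
  simp only [coeff_C_mul, coeff_X_pow, mul_ite, mul_one, mul_zero]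
  split_ifs with h
  · rw [Finset.sum_eq_single (⟨i, h⟩ : Fin m)]
    · simp
    · intro b _ hb
      rw [if_neg]
      intro hib
      exact hb (Fin.ext hib.symm)
    · simp
  · apply Finset.sum_eq_zero
    intro j _
    rw [if_neg]
    intro hij
    exact h (hij ▸ j.2)

theorem poly_degree_lt (m : ℕ) (c : Fin m → F) :
    (∑ j : Fin m, C (c j) * X ^ (j : ℕ) : F[X]).degree < m := by
  rw [Polynomial.degree_lt_iff_coeff_zero]
  intro i hi
  rw [coeff_poly, dif_neg (not_lt.mpr hi)]

theorem poly_inj (m : ℕ) :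
    Function.Injective (fun c : Fin m → F => ∑ i : Fin m, C (c i) * X ^ (i : ℕ)) := by
  intro c d h
  funext i
  have := congrArg (fun p => p.coeff (i : ℕ)) h
  simp only [coeff_poly, i.2, dif_pos] at this
  exact this

theorem mem_Pl {m : ℕ} {x : F[X]} : x ∈ Pl F m ↔ x.degree < m := by
  classical
  unfold Pl
  rw [Finset.mem_image]
  constructor
  · rintro ⟨c, _, rfl⟩
    exact poly_degree_lt m c
  · intro h
    refine ⟨fun i => x.coeff i, Finset.mem_univ _, ?_⟩
    ext i
    rw [coeff_poly]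
    split_ifs with hi
    · rfl
    · exact ((Polynomial.degree_lt_iff_coeff_zero x m).1 h i (not_lt.mp hi)).symm

theorem card_Pl (m : ℕ) : (Pl F m).card = Fintype.card F ^ m := by
  classical
  unfold Pl
  rw [Finset.card_image_of_injective _ (poly_inj m)]
  simp

theorem sum_Pl {A : Type*} [AddCommMonoid A] (m : ℕ) (f : F[X] → A) :
    ∑ x ∈ Pl F m, f x = ∑ c : Fin m → F, f (∑ i : Fin m, C (c i) * X ^ (i : ℕ)) := by
  classical
  unfold Pl
  rw [Finset.sum_image]
  intro a _ b _ h
  exact poly_inj m h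

theorem fn_apply (m : ℕ) (s : Fin m → F) (z : F[X]) :
    fn m s z = ∑ i : Fin m, s i * z.coeff i := by
  unfold fn
  simp [LinearMap.sum_apply, Polynomial.lcoeff_apply]

theorem zero_mem_Pl (m : ℕ) : (0 : F[X]) ∈ Pl F m := by
  rw [mem_Pl, degree_zero]
  exact WithBot.bot_lt_coe m

theorem add_mem_Pl {m : ℕ} {x y : F[X]} (hx : x ∈ Pl F m) (hy : y ∈ Pl F m) :
    x + y ∈ Pl F m := by
  rw [mem_Pl] at *
  exact lt_of_le_of_lt (degree_add_le x y) (max_lt hx hy)

theorem sub_mem_Pl {m : ℕ} {x y : F[X]} (hx : x ∈ Pl F m) (hy : y ∈ Pl F m) :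
    x - y ∈ Pl F m := by
  rw [mem_Pl] at *
  exact lt_of_le_of_lt (degree_sub_le x y) (max_lt hx hy)

theorem smul_mem_Pl {m : ℕ} {x : F[X]} (a : F) (hx : x ∈ Pl F m) : C a * x ∈ Pl F m := by
  rw [mem_Pl] at *
  refine lt_of_le_of_lt ?_ hx
  rw [← smul_eq_C_mul]
  exact degree_smul_le a x

theorem mul_mem_Pl {m n : ℕ} {x y : F[X]} (hx : x ∈ Pl F (m + 1)) (hy : y ∈ Pl F n) :
    x * y ∈ Pl F (m + n) := by
  rw [mem_Pl] at *
  by_cases h0 : x = 0
  · subst h0
    rw [zero_mul, degree_zero]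
    exact WithBot.bot_lt_coe _
  by_cases h1 : y = 0
  · subst h1
    rw [mul_zero, degree_zero]
    exact WithBot.bot_lt_coe _
  rw [degree_mul, degree_eq_natDegree h0, degree_eq_natDegree h1] at *
  have a : x.natDegree < m + 1 := by exact_mod_cast hx
  have b : y.natDegree < n := by exact_mod_cast hy
  have : x.natDegree + y.natDegree < m + n := by omega
  exact_mod_cast this

theorem Pl_mono {m n : ℕ} (h : m ≤ n) : Pl F m ⊆ Pl F n := by
  intro x hx
  rw [mem_Pl] at *
  exact lt_of_lt_of_le hx (by exact_mod_cast h)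

end

end FFW
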