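import Pool.Agent.FFW.Defs

/-!
# FFW/Den: local densities, definitions (for the bound `2k + 5`)

`Mo F j`: monic polynomials of degree `j`. `rr k t g n`: number of `x ∈ (F[X]/g)^t` (representatives of
degree `< deg g`) with `∑ x_i ^ k ≡ n mod g`. `rp k t c n`: number of `x` modulo `c ^ k` with
`∑ x_i ^ k ≡ n mod c ^ k` such that no prime factor of `c` divides all `x_i`. `np k t p n`: number of
nonzero solutions modulo `p`. `dl`, `dst`, `1 + ep`: the corresponding densities.
-/

open Polynomial Finset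

namespace FFW

noncomputable section

open scoped Classical in
/-- monic polynomials of degree `j` -/
def Mo (F : Type*) [Field F] [Fintype F] (j : ℕ) : Finset F[X] :=
  (Pl F (j + 1)).filter (fun d => d.Monic ∧ d.natDegree = j)

variable {F : Type*} [Field F] [Fintype F]

open scoped Classical in
/-- solutions modulo `g` -/
def rr (k t : ℕ) (g n : F[X]) : ℕ :=
  ((Fintype.piFinset (fun _ : Fin t => Pl F g.natDegree)).filter
    (fun x => g ∣ ∑ i, x i ^ k - n)).card

open scoped Classical in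
/-- solutions modulo `c ^ k`, primitive at the primes dividing `c` -/
def rp (k t : ℕ) (c n : F[X]) : ℕ :=
  ((Fintype.piFinset (fun _ : Fin t => Pl F (c ^ k).natDegree)).filter
    (fun x => c ^ k ∣ ∑ i, x i ^ k - n ∧ ∀ p, Irreducible p → p ∣ c → ∃ i, ¬ p ∣ x i)).card

open scoped Classical in
/-- nonzero solutions modulo `p` -/
def np (k t : ℕ) (p n : F[X]) : ℕ :=
  ((Fintype.piFinset (fun _ : Fin t => Pl F p.natDegree)).filter
    (fun x => p ∣ ∑ i, x i ^ k - n ∧ ∃ i, ¬ p ∣ x i)).card

/-- density of solutions modulo `d ^ k` -/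
def dl (k t : ℕ) (d n : F[X]) : ℝ :=
  (Fintype.card F : ℝ) ^ (k * d.natDegree) * rr k t (d ^ k) n /
    ((Fintype.card F : ℝ) ^ (k * d.natDegree)) ^ t

/-- density of primitive solutions modulo `c ^ k` -/
def dst (k t : ℕ) (c n : F[X]) : ℝ :=
  (Fintype.card F : ℝ) ^ (k * c.natDegree) * rp k t c n /
    ((Fintype.card F : ℝ) ^ (k * c.natDegree)) ^ t

/-- `1 + ep` is the density of nonzero solutions modulo `p` -/
def ep (k t : ℕ) (p n : F[X]) : ℝ :=
  (Fintype.card F : ℝ) ^ p.natDegree * np k t p n / ((Fintype.card F : ℝ) ^ p.natDegree) ^ t - 1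

/-- the truncated singular series -/
def sfin (k t C : ℕ) (n : F[X]) : ℝ :=
  ∑ j ∈ range (C + 1), ∑ d ∈ Mo F j, dl k t d n -
    (Fintype.card F : ℝ) * ∑ j ∈ range C, ∑ d ∈ Mo F j, dl k t d n

/-- density at the place at infinity; `m` is the reversed polynomial -/
def dtop (k t e : ℕ) (m : F[X]) : ℝ :=
  (Fintype.card F : ℝ) ^ e * rr k t (X ^ e) m / ((Fintype.card F : ℝ) ^ e) ^ t

theorem mem_Mo {j : ℕ} {d : F[X]} : d ∈ Mo F j ↔ d.Monic ∧ d.natDegree = j := by
  classical
  unfold Mo
  rw [Finset.mem_filter, mem_Pl]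
  constructor
  · rintro ⟨_, h⟩; exact h
  · intro h
    refine ⟨?_, h⟩
    refine lt_of_le_of_lt degree_le_natDegree ?_
    rw [h.2]
    exact_mod_cast Nat.lt_succ_self j

theorem card_Mo (j : ℕ) : (Mo F j).card = Fintype.card F ^ j := by
  classical
  rw [← card_Pl (F := F) j]
  symm
  apply Finset.card_bij (fun (x : F[X]) _ => X ^ j + x)
  · intro x hx
    rw [mem_Pl] at hx
    rw [mem_Mo]
    refine ⟨monic_X_pow_add hx, ?_⟩
    have h1 : (X ^ j + x).degree = ((j : ℕ) : WithBot ℕ) := by
      rw [degree_add_eq_left_of_degree_lt (by rw [degree_X_pow]; exact hx), degree_X_pow]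
    exact natDegree_eq_of_degree_eq_some h1
  · intro x _ y _ h
    exact add_left_cancel h
  · intro d hd
    rw [mem_Mo] at hd
    refine ⟨d - X ^ j, ?_, by ring⟩
    rw [mem_Pl]
    by_cases h0 : d - X ^ j = 0
    · rw [h0, degree_zero]; exact WithBot.bot_lt_coe j
    · have := degree_sub_lt_left (p := d) (q := X ^ j) (by rw [degree_X_pow, degree_eq_natDegree hd.1.ne_zero, hd.2])
        hd.1.ne_zero (by rw [hd.1.leadingCoeff, (monic_X_pow j).leadingCoeff])
      rwa [degree_eq_natDegree hd.1.ne_zero, hd.2] at this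

end

end FFW
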