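import Pool.Agent.FFW.Defs

/-!
# FFW/Euler: Euler product inequality over `F[t]`

PROOF. Let `P` be the finite set of monic irreducible polynomials of degree `≤ C`,
`W' p 0 = 1`, `W' p j = W p j` for `j ≥ 1`. The right side is `∏_{p ∈ P} ∑_{j ∈ range (C+1)} W' p j =
∑_{f ∈ P.pi (fun _ => range (C+1))} ∏_{p ∈ P} W' p (f p)` (`Finset.prod_sum`). To a monic `g` of
degree `≤ C` attach `f_g p = (normalizedFactors g).count p ≤ C`; its prime factors are monic
irreducible of degree `≤ C` (normalised = monic, `Polynomial.Monic.normalize_eq_self`), `g` is the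
product of `normalizedFactors g` (monic), so `g ↦ f_g` is injective, and the term of `g` is
`∏_{p ∈ P} W' p (f_g p)`. All terms are nonnegative (`Finset.sum_le_sum_of_subset_of_nonneg` /
`sum_le_sum_of_injOn`).
-/

open Finset Polynomial

namespace FFW

private lemma sum_inj_le {ι κ : Type*} [DecidableEq κ] (s : Finset ι) (t : Finset κ) (e : ι → κ)
    (he : ∀ i ∈ s, e i ∈ t) (hinj : ∀ i ∈ s, ∀ j ∈ s, e i = e j → i = j) (f : ι → ℝ) (g : κ → ℝ)
    (hfg : ∀ i ∈ s, f i = g (e i)) (hg : ∀ j ∈ t, 0 ≤ g j) : ∑ i ∈ s, f i ≤ ∑ j ∈ t, g j := by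
  calc ∑ i ∈ s, f i = ∑ i ∈ s, g (e i) := Finset.sum_congr rfl hfg
    _ = ∑ j ∈ s.image e, g j := (Finset.sum_image (fun i hi j hj h => hinj i hi j hj h)).symm
    _ ≤ ∑ j ∈ t, g j := Finset.sum_le_sum_of_subset_of_nonneg
        (fun j hj => by obtain ⟨i, hi, rfl⟩ := Finset.mem_image.1 hj; exact he i hi)
        (fun j hj _ => hg j hj)

open scoped Classical in
theorem euler {F : Type*} [Field F] [Fintype F] (C : ℕ) (W : F[X] → ℕ → ℝ)
    (hW : ∀ p j, 0 ≤ W p j) :
    ∑ g ∈ (Pl F (C + 1)).filter (fun g => g.Monic),
      ∏ p ∈ (UniqueFactorizationMonoid.normalizedFactors g).toFinset,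
        W p ((UniqueFactorizationMonoid.normalizedFactors g).count p) ≤
    ∏ p ∈ (Pl F (C + 1)).filter (fun p => p.Monic ∧ Irreducible p),
      (1 + ∑ j ∈ Icc 1 C, W p j) := by
  set P := (Pl F (C + 1)).filter (fun p => p.Monic ∧ Irreducible p) with hP
  set W' : F[X] → ℕ → ℝ := fun p j => if j = 0 then 1 else W p j with hW'
  have hW'0 : ∀ p j, 0 ≤ W' p j := by
    intro p j
    simp only [hW']
    split_ifs
    · exact zero_le_one
    · exact hW p j
  have hfac : ∀ p, (1 + ∑ j ∈ Icc 1 C, W p j) = ∑ j ∈ range (C + 1), W' p j := by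
    intro p
    rw [Finset.sum_range_succ', add_comm]
    congr 1
    · have : Icc 1 C = (range C).image (fun j => j + 1) := by
        ext j
        simp only [mem_Icc, mem_image, mem_range]
        constructor
        · rintro ⟨h1, h2⟩; exact ⟨j - 1, by omega, by omega⟩
        · rintro ⟨i, h1, rfl⟩; omega
      rw [this, Finset.sum_image (by intro a _ b _ h; simpa using h)]
      refine Finset.sum_congr rfl fun j _ => ?_
      simp [hW']
  -- facts on factors of a monic polynomial
  have hmonic : ∀ g : F[X], g.Monic → (UniqueFactorizationMonoid.normalizedFactors g).prod = g := by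
    intro g hg
    have h1 := UniqueFactorizationMonoid.prod_normalizedFactors_eq hg.ne_zero
    rw [h1]
    exact hg.normalize_eq_self
  have hmem : ∀ g : F[X], g ∈ (Pl F (C + 1)).filter (fun g => g.Monic) →
      ∀ p ∈ UniqueFactorizationMonoid.normalizedFactors g, p ∈ P := by
    intro g hg p hp
    rw [mem_filter, mem_Pl] at hg
    have hirr := UniqueFactorizationMonoid.irreducible_of_normalized_factor p hp
    have hnorm := UniqueFactorizationMonoid.normalize_normalized_factor p hp
    have hmon : p.Monic := by
      have : (normalize p).Monic := Polynomial.monic_normalize hirr.ne_zero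
      rwa [hnorm] at this
    have hdvd := UniqueFactorizationMonoid.dvd_of_mem_normalizedFactors hp
    rw [hP, mem_filter, mem_Pl]
    refine ⟨lt_of_le_of_lt (Polynomial.degree_le_of_dvd hdvd hg.2.ne_zero) hg.1, hmon, hirr⟩
  have hcount : ∀ g : F[X], g ∈ (Pl F (C + 1)).filter (fun g => g.Monic) →
      ∀ p, (UniqueFactorizationMonoid.normalizedFactors g).count p < C + 1 := by
    intro g hg p
    by_cases hp : p ∈ UniqueFactorizationMonoid.normalizedFactors g
    · have hpP := hmem g hg p hp
      rw [hP, mem_filter] at hpP
      rw [mem_filter, mem_Pl] at hg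
      set c := (UniqueFactorizationMonoid.normalizedFactors g).count p with hc
      have h1 : p ^ c ∣ g := by
        have h2 : Multiset.replicate c p ≤ UniqueFactorizationMonoid.normalizedFactors g :=
          Multiset.le_count_iff_replicate_le.1 le_rfl
        have h3 := Multiset.prod_dvd_prod_of_le h2
        rwa [Multiset.prod_replicate, hmonic g hg.2] at h3
      have h4 := Polynomial.natDegree_le_of_dvd h1 hg.2.ne_zero
      rw [Polynomial.natDegree_pow] at h4
      have h5 : 1 ≤ p.natDegree := hpP.2.2.natDegree_pos
      have h6 : g.natDegree < C + 1 := by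
        have := hg.1
        rw [Polynomial.degree_eq_natDegree hg.2.ne_zero] at this
        exact_mod_cast this
      nlinarith
    · rw [Multiset.count_eq_zero_of_notMem hp]; omega
  rw [Finset.prod_congr rfl (fun p _ => hfac p), Finset.prod_sum]
  refine sum_inj_le _ _ (fun g p _ => (UniqueFactorizationMonoid.normalizedFactors g).count p) ?_ ?_ _ _ ?_ ?_
  · intro g hg
    rw [Finset.mem_pi]
    intro p _
    rw [mem_range]
    exact hcount g hg p
  · intro g hg g' hg' h
    have key : UniqueFactorizationMonoid.normalizedFactors g = UniqueFactorizationMonoid.normalizedFactors g' := by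
      rw [Multiset.ext]
      intro p
      by_cases hp : p ∈ P
      · exact congrFun (congrFun h p) hp
      · rw [Multiset.count_eq_zero_of_notMem (fun hh => hp (hmem g hg p hh)),
          Multiset.count_eq_zero_of_notMem (fun hh => hp (hmem g' hg' p hh))]
    rw [← hmonic g (mem_filter.1 hg).2, ← hmonic g' (mem_filter.1 hg').2, key]
  · intro g hg
    rw [Finset.prod_attach P (fun p => W' p ((UniqueFactorizationMonoid.normalizedFactors g).count p))]
    have hsub : (UniqueFactorizationMonoid.normalizedFactors g).toFinset ⊆ P := by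
      intro p hp
      exact hmem g hg p (Multiset.mem_toFinset.1 hp)
    rw [← Finset.prod_subset hsub]
    · refine Finset.prod_congr rfl fun p hp => ?_
      have : (UniqueFactorizationMonoid.normalizedFactors g).count p ≠ 0 := by
        rw [Multiset.mem_toFinset, ← Multiset.count_pos] at hp
        omega
      simp only [hW']
      rw [if_neg this]
    · intro p _ hp
      have : (UniqueFactorizationMonoid.normalizedFactors g).count p = 0 :=
        Multiset.count_eq_zero_of_notMem (fun hh => hp (Multiset.mem_toFinset.2 hh))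
      simp only [hW']
      rw [if_pos this]
  · intro f _
    exact Finset.prod_nonneg fun p _ => hW'0 _ _

end FFW
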