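import Pool.Agent.FFW.Defs

/-!
# FFW/Fac: factorisation of the exponential sum, and the number of functionals

`g` monic, `deg g + e ≤ D + 1`, `φ₁` kills the multiples of `g`, `φ₂` those of `X ^ e`, and
`β z = φ₁ z + φ₂ (reflect (k D) z)` for `z` of degree `≤ k D`. Then
`S ψ k β (D+1) = q ^ (D + 1 - deg g - e) * S ψ k φ₁ (deg g) * S ψ k φ₂ e`.

PROOF. For `x ∈ Pl (D+1)`: `x ^ k ∈ Pl (k D + 1)`, `reflect (k D) (x ^ k) = (reflect D x) ^ k`
(`Polynomial.reflect_mul`, induction), so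
`ψ(β(x ^ k)) = ψ(φ₁((x %ₘ g) ^ k)) ψ(φ₂((reflect D x %ₘ X ^ e) ^ k))`
(`a ^ k - b ^ k` is a multiple of `a - b`). The linear map
`Pl (D+1) → Pl (deg g) × Pl e`, `x ↦ (x %ₘ g, reflect D x %ₘ X ^ e)` is surjective: given `(u, v)`,
let `x0 = reflect D v` (the top `e` coefficients: degrees `D + 1 - e, ..., D`) and
`x = x0 + (u - x0 %ₘ g)`; `deg (u - x0 %ₘ g) < deg g ≤ D + 1 - e`, so the top `e` coefficients of
`x` are those of `x0` and `x %ₘ g = u`. Hence all fibres have `q ^ (D + 1 - deg g - e)` elements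
(surjective homomorphism of finite groups, or count the kernel), and the sum factors.

`cnt`: the number of `s` for which such a decomposition (with given `g`, `e`) exists is
`≤ q ^ (deg g + e)`: `s_j = φ₁(X ^ j) + φ₂(X ^ (M - j))` (`reflect M (X ^ j) = X ^ (M - j)`), `φ₁` is
determined by its values at `X ^ i`, `i < deg g` (`φ₁ z = φ₁(z %ₘ g)`), `φ₂` by its values at
`X ^ i`, `i < e`. So `s` is determined by `deg g + e` elements of `F`.
-/

open Finset Polynomial

namespace FFW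

private theorem mem_Pl_succ {F : Type*} [Field F] [Fintype F] {n : ℕ} {x : F[X]} :
    x ∈ Pl F (n + 1) ↔ x.natDegree ≤ n := by
  rw [mem_Pl, degree_lt_iff_coeff_zero, natDegree_le_iff_coeff_eq_zero]
  exact Iff.rfl

private theorem reflect_pow {F : Type*} [Field F] {D : ℕ} {x : F[X]} (hx : x.natDegree ≤ D) (k : ℕ) :
    reflect (k * D) (x ^ k) = (reflect D x) ^ k := by
  induction k with
  | zero => rw [zero_mul, pow_zero, pow_zero, ← C_1, reflect_C]; simp
  | succ k ih =>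
    have h : (x ^ k).natDegree ≤ k * D := (natDegree_pow_le).trans (Nat.mul_le_mul_left k hx)
    rw [pow_succ, Nat.succ_mul, reflect_mul _ _ h hx, ih, pow_succ]

private theorem kill_pow {F : Type*} [Field F] {φ : F[X] →ₗ[F] F} {h : F[X]} (hφ : ∀ y, φ (h * y) = 0)
    {a b : F[X]} (hab : h ∣ a - b) (k : ℕ) : φ (a ^ k) = φ (b ^ k) := by
  obtain ⟨y, hy⟩ := hab.trans (sub_dvd_pow_sub_pow a b k)
  have h1 : φ (a ^ k - b ^ k) = 0 := by rw [hy]; exact hφ y
  rw [map_sub] at h1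
  exact sub_eq_zero.1 h1

private theorem refl_refl {F : Type*} [Field F] (D : ℕ) (v : F[X]) : reflect D (reflect D v) = v := by
  ext i
  rw [coeff_reflect, coeff_reflect, revAt_invol]

private theorem reflect_mem {F : Type*} [Field F] [Fintype F] {D : ℕ} {v : F[X]} (hv : v ∈ Pl F (D + 1)) :
    reflect D v ∈ Pl F (D + 1) := by
  rw [mem_Pl, degree_lt_iff_coeff_zero] at *
  intro m hm
  rw [coeff_reflect, revAt_eq_self_of_lt (by omega)]
  exact hv m hm

private theorem dvd_reflect {F : Type*} [Field F] [Fintype F] {D e : ℕ} (he : e ≤ D + 1) {y : F[X]}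
    (hy : y ∈ Pl F (D + 1 - e)) : (X : F[X]) ^ e ∣ reflect D y := by
  rw [X_pow_dvd_iff]
  intro d hd
  rw [mem_Pl, degree_lt_iff_coeff_zero] at hy
  rw [coeff_reflect, revAt_le (by omega)]
  exact hy _ (by omega)

private theorem mod_mem {F : Type*} [Field F] [Fintype F] {g : F[X]} (hg : g.Monic) (x : F[X]) :
    x %ₘ g ∈ Pl F g.natDegree := by
  rw [mem_Pl, ← degree_eq_natDegree hg.ne_zero]
  exact degree_modByMonic_lt x hg

private theorem mod_self {F : Type*} [Field F] [Fintype F] {g : F[X]} (hg : g.Monic) {u : F[X]}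
    (hu : u ∈ Pl F g.natDegree) : u %ₘ g = u := by
  rw [mem_Pl, ← degree_eq_natDegree hg.ne_zero] at hu
  exact (modByMonic_eq_self_iff hg).2 hu

theorem fac {F : Type*} [Field F] [Fintype F] (ψ : AddChar F ℂ) (k D : ℕ) (g : F[X])
    (hg : g.Monic) (e : ℕ) (he : g.natDegree + e ≤ D + 1) (φ₁ φ₂ β : F[X] →ₗ[F] F)
    (h₁ : ∀ y, φ₁ (g * y) = 0) (h₂ : ∀ y, φ₂ (X ^ e * y) = 0)
    (hβ : ∀ z ∈ Pl F (k * D + 1), β z = φ₁ z + φ₂ (reflect (k * D) z)) :
    S ψ k β (D + 1) = (Fintype.card F : ℂ) ^ (D + 1 - g.natDegree - e) *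
      S ψ k φ₁ g.natDegree * S ψ k φ₂ e := by
  classical
  set m := D + 1 - g.natDegree - e with hm
  -- the parametrisation
  let I : F[X] × F[X] × F[X] → F[X] := fun p =>
    reflect D p.1 + (g * p.2.1 + (p.2.2 - reflect D p.1 %ₘ g))
  have hgw : ∀ w ∈ Pl F m, g * w ∈ Pl F (D + 1 - e) := by
    intro w hw
    have h1 : g ∈ Pl F (g.natDegree + 1) := mem_Pl_succ.2 le_rfl
    have h2 := mul_mem_Pl h1 hw
    have h3 : g.natDegree + m = D + 1 - e := by omega
    rwa [h3] at h2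
  have hlow : ∀ v u w, u ∈ Pl F g.natDegree → w ∈ Pl F m →
      g * w + (u - reflect D v %ₘ g) ∈ Pl F (D + 1 - e) := by
    intro v u w hu hw
    refine add_mem_Pl (hgw w hw) (Pl_mono (by omega) (sub_mem_Pl hu (mod_mem hg _)))
  have hImod : ∀ v u w, u ∈ Pl F g.natDegree → I (v, w, u) %ₘ g = u := by
    intro v u w hu
    simp only [I]
    rw [add_modByMonic, add_modByMonic, sub_modByMonic, mod_self hg hu, mod_self hg (mod_mem hg _),
      (modByMonic_eq_zero_iff_dvd hg).2 (dvd_mul_right g w)]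
    ring
  have hIref : ∀ v u w, u ∈ Pl F g.natDegree → w ∈ Pl F m →
      (X : F[X]) ^ e ∣ reflect D (I (v, w, u)) - v := by
    intro v u w hu hw
    simp only [I]
    rw [reflect_add, refl_refl]
    have h1 := dvd_reflect (D := D) (e := e) (by omega) (hlow v u w hu hw)
    have h2 : v + reflect D (g * w + (u - reflect D v %ₘ g)) - v = reflect D (g * w + (u - reflect D v %ₘ g)) := by
      ring
    rw [h2]
    exact h1
  have hIinj : Set.InjOn I ↑(Pl F e ×ˢ (Pl F m ×ˢ Pl F g.natDegree)) := by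
    rintro ⟨v, w, u⟩ h ⟨v', w', u'⟩ h' hI
    simp only [coe_product, Set.mem_prod, mem_coe] at h h'
    have hu : u = u' := by
      rw [← hImod v u w h.2.2, ← hImod v' u' w' h'.2.2, hI]
    have hv : v = v' := by
      have h3 := hIref v u w h.2.2 h.2.1
      have h4 := hIref v' u' w' h'.2.2 h'.2.1
      rw [← hI] at h4
      have h5 : (X : F[X]) ^ e ∣ v - v' := by
        have := dvd_sub h4 h3
        have e1 : reflect D (I (v, w, u)) - v' - (reflect D (I (v, w, u)) - v) = v - v' := by ring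
        rwa [e1] at this
      have h6 := sub_mem_Pl h.1 h'.1
      rw [mem_Pl] at h6
      have h7 : v - v' = 0 := by
        by_contra hne
        have := degree_le_of_dvd h5 hne
        rw [degree_X_pow] at this
        exact absurd h6 (not_lt.2 this)
      exact sub_eq_zero.1 h7
    subst hu hv
    have hw : g * w = g * w' := by
      simp only [I] at hI
      simpa using hI
    have := mul_left_cancel₀ hg.ne_zero hw
    rw [this]
  have hImem : ∀ p ∈ Pl F e ×ˢ (Pl F m ×ˢ Pl F g.natDegree), I p ∈ Pl F (D + 1) := by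
    rintro ⟨v, w, u⟩ h
    simp only [mem_product] at h
    exact add_mem_Pl (reflect_mem (Pl_mono (by omega) h.1)) (Pl_mono (by omega) (hlow v u w h.2.2 h.2.1))
  have hcard : (Pl F (D + 1)).card ≤ (Pl F e ×ˢ (Pl F m ×ˢ Pl F g.natDegree)).card := by
    rw [card_product, card_product, card_Pl, card_Pl, card_Pl, card_Pl, ← pow_add, ← pow_add]
    refine le_of_eq ?_
    congr 1
    omega
  have hsurj : Set.SurjOn I ↑(Pl F e ×ˢ (Pl F m ×ˢ Pl F g.natDegree)) ↑(Pl F (D + 1)) :=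
    Finset.surjOn_of_injOn_of_card_le I hImem hIinj hcard
  have key : S ψ k β (D + 1) = ∑ p ∈ Pl F e ×ˢ (Pl F m ×ˢ Pl F g.natDegree),
      ψ (φ₂ (p.1 ^ k)) * ψ (φ₁ (p.2.2 ^ k)) := by
    unfold S
    symm
    refine Finset.sum_nbij I hImem hIinj hsurj ?_
    rintro ⟨v, w, u⟩ h
    have hx := hImem _ h
    simp only [mem_product] at h
    have hxD := mem_Pl_succ.1 hx
    have h3 : (I (v, w, u)) ^ k ∈ Pl F (k * D + 1) :=
      mem_Pl_succ.2 ((natDegree_pow_le).trans (Nat.mul_le_mul_left k hxD))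
    rw [hβ _ h3, AddChar.map_add_eq_mul, reflect_pow hxD, kill_pow h₂ (hIref v u w h.2.2 h.2.1) k]
    have h4 : g ∣ I (v, w, u) - u := by
      rw [← modByMonic_eq_zero_iff_dvd hg, sub_modByMonic, hImod v u w h.2.2, mod_self hg h.2.2, sub_self]
    rw [kill_pow h₁ h4 k, mul_comm]
  rw [key, sum_product]
  simp_rw [sum_product, sum_const, card_Pl, ← mul_sum]
  unfold S
  simp_rw [nsmul_eq_mul]
  push_cast
  rw [← mul_sum, ← sum_mul]
  ring

private theorem poly_eq {F : Type*} [Field F] [Fintype F] {m : ℕ} {p : F[X]} (hp : p ∈ Pl F m) :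
    ∑ j : Fin m, C (p.coeff j) * X ^ (j : ℕ) = p := by
  ext i
  rw [coeff_poly]
  split_ifs with hi
  · rfl
  · rw [mem_Pl] at hp
    exact ((degree_lt_iff_coeff_zero p m).1 hp i (not_lt.mp hi)).symm

private theorem kill_eq {F : Type*} [Field F] [Fintype F] {φ : F[X] →ₗ[F] F} {h : F[X]} (hh : h.Monic) {m : ℕ}
    (hm : h.natDegree = m) (hφ : ∀ y, φ (h * y) = 0) (z : F[X]) :
    φ z = ∑ i : Fin m, φ (X ^ (i : ℕ)) * (z %ₘ h).coeff i := by
  have h1 : φ z = φ (z %ₘ h) := by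
    conv_lhs => rw [← modByMonic_add_div z h]
    rw [map_add, hφ, add_zero]
  subst hm
  rw [h1]
  conv_lhs => rw [← poly_eq (mod_mem hh z)]
  rw [map_sum]
  refine sum_congr rfl fun i _ => ?_
  rw [← smul_eq_C_mul, map_smul, smul_eq_mul, mul_comm]

open scoped Classical in
theorem cnt {F : Type*} [Field F] [Fintype F] (M : ℕ) (g : F[X]) (hg : g.Monic) (e : ℕ) :
    (univ.filter (fun s : Fin (M + 1) → F => ∃ φ₁ φ₂ : F[X] →ₗ[F] F,
      (∀ y, φ₁ (g * y) = 0) ∧ (∀ y, φ₂ (X ^ e * y) = 0) ∧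
      ∀ z ∈ Pl F (M + 1), fn (M + 1) s z = φ₁ z + φ₂ (reflect M z))).card ≤
      Fintype.card F ^ (g.natDegree + e) := by
  let G : (Fin g.natDegree → F) × (Fin e → F) → (Fin (M + 1) → F) := fun ab j =>
    ∑ i : Fin g.natDegree, ab.1 i * ((X : F[X]) ^ (j : ℕ) %ₘ g).coeff i +
      ∑ i : Fin e, ab.2 i * ((X : F[X]) ^ (M - (j : ℕ)) %ₘ X ^ e).coeff i
  refine (card_le_card (t := univ.image G) ?_).trans (card_image_le.trans ?_)
  · intro s hs
    obtain ⟨φ₁, φ₂, h1, h2, h3⟩ := (mem_filter.1 hs).2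
    refine mem_image.2 ⟨(fun i => φ₁ (X ^ (i : ℕ)), fun i => φ₂ (X ^ (i : ℕ))), mem_univ _, ?_⟩
    funext j
    simp only [G]
    rw [← kill_eq hg rfl h1, ← kill_eq (monic_X_pow e) (natDegree_X_pow e) h2]
    have h4 := h3 (X ^ (j : ℕ)) (mem_Pl_succ.2 (by rw [natDegree_X_pow]; omega))
    rw [reflect_monomial, revAt_le (by omega)] at h4
    rw [← h4, fn_apply, sum_eq_single j]
    · simp
    · intro i _ hij
      rw [coeff_X_pow, if_neg, mul_zero]
      exact fun h => hij (Fin.ext h)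
    · intro h
      exact absurd (mem_univ j) h
  · simp [pow_add]

end FFW
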