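import Pool.Agent.FFW.Hank

/-!
# FFW/Iter: from many products to one small denominator

`V = Pl (D + 1)`, `D ≤ l`, `2 ^ r (T + 2) ≤ D`. If for a proportion `≥ q ^ (-T)` of the
`h ∈ V ^ r` one has `β(h_1 ... h_r y) = 0` for all `y` of degree `≤ l`, then there is `G ≠ 0` of
degree `≤ C = (2 ^ r - 1)(T + 2)` with `β(G y) = 0` for all `y` of degree `≤ l + r D - C`.

PROOF by induction on `r` (for all `β, l, T`). `r = 0`: the hypothesis says that the (unique) empty
tuple is in the set; `G = 1`. `r + 1`: for `h ∈ V ^ r` let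
`L(h) = {h' ∈ V : β((∏ h) h' y) = 0 for all y ∈ Pl (l + 1)}`, an `F`-subspace of `V`, so its
cardinality is a power of `q` (private lemma: a subset of `F[X]` which is a finite `F`-subspace has
`q ^ s` elements). `∑_h |L(h)| ≥ q ^ ((D+1)(r+1) - T)`. The `h` with `|L(h)| < q ^ (D + 1 - T)`
have `|L(h)| ≤ q ^ (D - T)` and contribute at most `q ^ ((D+1) r + D - T)`, so
`#{h : |L(h)| ≥ q ^ (D + 1 - T)} * q ^ (D+1) ≥ q ^ ((D+1)(r+1) - T) - q ^ ((D+1)(r+1) - T - 1)
≥ q ^ ((D+1)(r+1) - T - 1)`. For such `h` apply `hank` to `z ↦ β((∏ h) z)` with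
`a = D + 1, b = l + 1, c = T`: there is `g ≠ 0`, `g ∈ Pl (T + 1)` with `β((∏ h) g y) = 0` for
all `y ∈ Pl (D + l + 1 - T)`. Pigeonhole over the `< q ^ (T + 1)` possible `g`: for one `g` at
least `q ^ ((D+1) r - (2 T + 2))` of the `h` work. Apply the induction hypothesis to
`β' = β(g ·)`, `l' = D + l - T ≥ D`, `T' = 2 T + 2` (`2 ^ r (T' + 2) = 2 ^ (r+1) (T + 2) ≤ D`):
`G' ≠ 0` of degree `≤ (2 ^ r - 1)(2 T + 4)`; `G = g G'` has degree
`≤ c' := T + (2 ^ r - 1)(2 T + 4) ≤ (2 ^ (r+1) - 1)(T + 2)` and `β(G y) = 0` for all `y` of degree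
`≤ l' + r D - (2 ^ r - 1)(2 T + 4) = l + (r + 1) D - c'`.
-/

open Finset Polynomial

namespace FFW

variable {F : Type*} [Field F] [Fintype F]

private theorem card_sub (S : Finset F[X]) (h0 : (0 : F[X]) ∈ S)
    (hadd : ∀ x ∈ S, ∀ y ∈ S, x + y ∈ S) (hsmul : ∀ (a : F), ∀ x ∈ S, C a * x ∈ S) :
    ∃ s, S.card = Fintype.card F ^ s := by
  classical
  let W : Submodule F F[X] :=
    { carrier := (S : Set F[X])
      add_mem' := fun {x y} hx hy => hadd x hx y hy
      zero_mem' := h0
      smul_mem' := fun a x hx => by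
        rw [smul_eq_C_mul]
        exact hsmul a x hx }
  have e : Nat.card W = S.card := by
    have := Nat.card_eq_card_toFinset (S : Set F[X])
    rw [Finset.toFinset_coe] at this
    exact this
  have hfin : Finite W := (S.finite_toSet : (S : Set F[X]).Finite)
  refine ⟨Module.finrank F W, ?_⟩
  rw [← e, Module.natCard_eq_pow_finrank (K := F) (V := W), Nat.card_eq_fintype_card]

open scoped Classical in
private theorem card_L (β : F[X] →ₗ[F] F) (a b : ℕ) :
    ∃ s, ((Pl F a).filter (fun h => ∀ y ∈ Pl F b, β (h * y) = 0)).card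
      = Fintype.card F ^ s := by
  apply card_sub
  · rw [Finset.mem_filter]
    refine ⟨zero_mem_Pl a, fun y _ => ?_⟩
    rw [zero_mul, map_zero]
  · intro x hx y hy
    rw [Finset.mem_filter] at *
    refine ⟨add_mem_Pl hx.1 hy.1, fun z hz => ?_⟩
    rw [add_mul, map_add, hx.2 z hz, hy.2 z hz, add_zero]
  · intro c x hx
    rw [Finset.mem_filter] at *
    refine ⟨smul_mem_Pl c hx.1, fun z hz => ?_⟩
    rw [mul_assoc, ← smul_eq_C_mul, map_smul, hx.2 z hz, smul_zero]

open scoped Classical in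
/-- fibering over the last `r` coordinates -/
private theorem card_fib (r : ℕ) (β : F[X] →ₗ[F] F) (D l : ℕ) :
    ((Fintype.piFinset (fun _ : Fin (r + 1) => Pl F (D + 1))).filter
        (fun h => ∀ y ∈ Pl F (l + 1), β ((∏ i, h i) * y) = 0)).card ≤
      ∑ t ∈ Fintype.piFinset (fun _ : Fin r => Pl F (D + 1)),
        ((Pl F (D + 1)).filter (fun x => ∀ y ∈ Pl F (l + 1),
          (β ∘ₗ LinearMap.mulLeft F (∏ i, t i)) (x * y) = 0)).card := by
  rw [Finset.card_eq_sum_card_fiberwise (f := fun h : Fin (r + 1) → F[X] => Fin.tail h)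
    (t := Fintype.piFinset (fun _ : Fin r => Pl F (D + 1)))]
  · apply Finset.sum_le_sum
    intro t _
    apply Finset.card_le_card_of_injOn (fun h => h 0)
    · intro h hh
      simp only [Finset.coe_filter, Finset.mem_filter, Fintype.mem_piFinset, Set.mem_ofPred_eq]
        at hh ⊢
      obtain ⟨⟨h1, h2⟩, h3⟩ := hh
      refine ⟨h1 0, fun y hy => ?_⟩
      have := h2 y hy
      rw [Fin.prod_univ_succ] at this
      rw [LinearMap.comp_apply, LinearMap.mulLeft_apply, ← h3, ← this]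
      congr 1
      unfold Fin.tail
      ring
    · intro h hh h' hh' he
      simp only [Finset.coe_filter, Finset.mem_filter, Fintype.mem_piFinset, Set.mem_ofPred_eq]
        at hh hh'
      rw [← Fin.cons_self_tail h, ← Fin.cons_self_tail h', hh.2, hh'.2]
      simp only at he
      rw [he]
  · intro h hh
    simp only [Finset.coe_filter, Fintype.mem_piFinset, Set.mem_ofPred_eq, Finset.mem_coe] at hh ⊢
    intro i
    exact hh.1 i.succ

open scoped Classical in
/-- one step: one small `g` works for many tuples of length `r` -/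
private theorem step (r : ℕ) (β : F[X] →ₗ[F] F) (D l T : ℕ)
    (hl : D ≤ l) (hTD : T ≤ D)
    (h : (Fintype.card F ^ (D + 1)) ^ (r + 1) ≤ Fintype.card F ^ T *
      ((Fintype.piFinset (fun _ : Fin (r + 1) => Pl F (D + 1))).filter
        (fun h => ∀ y ∈ Pl F (l + 1), β ((∏ i, h i) * y) = 0)).card) :
    ∃ g ∈ Pl F (T + 1), g ≠ 0 ∧ (Fintype.card F ^ (D + 1)) ^ r ≤ Fintype.card F ^ (2 * T + 2) *
      ((Fintype.piFinset (fun _ : Fin r => Pl F (D + 1))).filter
        (fun t => ∀ y ∈ Pl F (D + l - T + 1),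
          (β ∘ₗ LinearMap.mulLeft F g) ((∏ i, t i) * y) = 0)).card := by
  set q := Fintype.card F with hq
  have hq2 : 2 ≤ q := by
    have := Fintype.one_lt_card (α := F)
    omega
  have hq0 : 0 < q := by omega
  set V := Fintype.piFinset (fun _ : Fin r => Pl F (D + 1)) with hV
  have hVc : V.card = (q ^ (D + 1)) ^ r := by
    rw [hV, Fintype.card_piFinset]
    simp [card_Pl, hq]
  set L : (Fin r → F[X]) → ℕ := fun t => ((Pl F (D + 1)).filter (fun x => ∀ y ∈ Pl F (l + 1),
          (β ∘ₗ LinearMap.mulLeft F (∏ i, t i)) (x * y) = 0)).card with hL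
  have hLle : ∀ t, L t ≤ q ^ (D + 1) := by
    intro t
    rw [hL]
    simp only
    rw [hq, ← card_Pl (F := F)]
    exact Finset.card_le_card (by
      intro x hx
      simp only [Finset.mem_filter] at hx
      exact hx.1)
  have hLpow : ∀ t, ∃ s, L t = q ^ s := by
    intro t
    obtain ⟨s, hs⟩ := card_L (β ∘ₗ LinearMap.mulLeft F (∏ i, t i)) (D + 1) (l + 1)
    refine ⟨s, ?_⟩
    rw [hq, ← hs, hL]
    simp only
    congr
  have h1 : (q ^ (D + 1)) ^ (r + 1) ≤ q ^ T * ∑ t ∈ V, L t :=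
    h.trans (Nat.mul_le_mul_left _ (card_fib r β D l))
  set A := V.filter (fun t => q ^ (D + 1 - T) ≤ L t) with hA
  -- the sum
  have h2 : ∑ t ∈ V, L t ≤ A.card * q ^ (D + 1) + V.card * q ^ (D - T) := by
    rw [← Finset.sum_filter_add_sum_filter_not V (fun t => q ^ (D + 1 - T) ≤ L t)]
    apply add_le_add
    · rw [← smul_eq_mul]
      exact Finset.sum_le_card_nsmul _ _ _ (fun t _ => hLle t)
    · calc ∑ t ∈ V.filter (fun t => ¬ q ^ (D + 1 - T) ≤ L t), L t
          ≤ (V.filter (fun t => ¬ q ^ (D + 1 - T) ≤ L t)).card • q ^ (D - T) := by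
            apply Finset.sum_le_card_nsmul
            intro t ht
            rw [Finset.mem_filter] at ht
            obtain ⟨s, hs⟩ := hLpow t
            rw [hs]
            apply Nat.pow_le_pow_right hq0
            have h3 := ht.2
            rw [hs, not_le] at h3
            have := (Nat.pow_lt_pow_iff_right (by omega)).1 h3
            omega
        _ ≤ V.card * q ^ (D - T) := by
            rw [smul_eq_mul]
            exact Nat.mul_le_mul_right _ (Finset.card_filter_le _ _)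
  -- hence A is big
  have h3 : (q ^ (D + 1)) ^ r ≤ q ^ (T + 1) * A.card := by
    rw [hVc] at h2
    have h4 : (q ^ (D + 1)) ^ (r + 1) ≤ q ^ T * (A.card * q ^ (D + 1)) + (q ^ (D + 1)) ^ r * q ^ D := by
      calc (q ^ (D + 1)) ^ (r + 1) ≤ q ^ T * (A.card * q ^ (D + 1) + (q ^ (D + 1)) ^ r * q ^ (D - T)) :=
            h1.trans (Nat.mul_le_mul_left _ h2)
        _ = q ^ T * (A.card * q ^ (D + 1)) + (q ^ (D + 1)) ^ r * (q ^ T * q ^ (D - T)) := by ring
        _ = _ := by
            rw [← pow_add, Nat.add_sub_cancel' hTD]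
    have h5 : 2 * ((q ^ (D + 1)) ^ r * q ^ D) ≤ (q ^ (D + 1)) ^ (r + 1) := by
      calc 2 * ((q ^ (D + 1)) ^ r * q ^ D) ≤ q * ((q ^ (D + 1)) ^ r * q ^ D) :=
            Nat.mul_le_mul_right _ hq2
        _ = _ := by ring
    have h6 : (q ^ (D + 1)) ^ r * q ^ D ≤ (q ^ (T + 1) * A.card) * q ^ D := by
      have : q ^ T * (A.card * q ^ (D + 1)) = (q ^ (T + 1) * A.card) * q ^ D := by ring
      omega
    exact Nat.le_of_mul_le_mul_right h6 (pow_pos hq0 _)
  -- pigeonhole
  set B : F[X] → Finset (Fin r → F[X]) := fun g => V.filter (fun t => ∀ y ∈ Pl F (D + l - T + 1),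
          (β ∘ₗ LinearMap.mulLeft F g) ((∏ i, t i) * y) = 0) with hB
  have h7 : A ⊆ ((Pl F (T + 1)).filter (fun g => g ≠ 0)).biUnion B := by
    intro t ht
    rw [hA, Finset.mem_filter] at ht
    obtain ⟨g, hg1, hg0, hg⟩ := hank (β ∘ₗ LinearMap.mulLeft F (∏ i, t i)) (D + 1) (l + 1) T
      (by omega) (by omega) (by
        have h3 := ht.2
        rw [hq, hL] at h3
        simp only at h3
        convert h3)
    rw [Finset.mem_biUnion]
    refine ⟨g, Finset.mem_filter.2 ⟨hg1, hg0⟩, ?_⟩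
    rw [hB]
    simp only [Finset.mem_filter]
    refine ⟨ht.1, fun y hy => ?_⟩
    have h8 := hg y (by
      have : D + 1 + (l + 1) - 1 - T = D + l - T + 1 := by omega
      rw [this]
      exact hy)
    rw [LinearMap.comp_apply, LinearMap.mulLeft_apply] at h8 ⊢
    rw [← h8]
    congr 1
    ring
  have h8 : A.card ≤ ∑ g ∈ (Pl F (T + 1)).filter (fun g => g ≠ 0), (B g).card :=
    (Finset.card_le_card h7).trans Finset.card_biUnion_le
  have h9 : ∃ g ∈ (Pl F (T + 1)).filter (fun g => g ≠ 0), (q ^ (D + 1)) ^ r ≤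
      q ^ (2 * T + 2) * (B g).card := by
    by_contra hcon
    push Not at hcon
    have hne : ((Pl F (T + 1)).filter (fun g => g ≠ 0)).Nonempty := by
      rw [Finset.nonempty_iff_ne_empty]
      intro he
      rw [he, Finset.sum_empty] at h8
      have : A.card = 0 := by omega
      rw [this, mul_zero] at h3
      have : 0 < (q ^ (D + 1)) ^ r := by positivity
      omega
    have h10 : ∑ g ∈ (Pl F (T + 1)).filter (fun g => g ≠ 0), q ^ (2 * T + 2) * (B g).card <
        ∑ g ∈ (Pl F (T + 1)).filter (fun g => g ≠ 0), (q ^ (D + 1)) ^ r :=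
      Finset.sum_lt_sum_of_nonempty hne hcon
    rw [Finset.sum_const, smul_eq_mul, ← Finset.mul_sum] at h10
    have h11 : ((Pl F (T + 1)).filter (fun g => g ≠ 0)).card ≤ q ^ (T + 1) := by
      rw [hq, ← card_Pl (F := F)]
      exact Finset.card_filter_le _ _
    have h12 : q ^ (T + 1) * (q ^ (D + 1)) ^ r ≤ q ^ (2 * T + 2) *
        ∑ g ∈ (Pl F (T + 1)).filter (fun g => g ≠ 0), (B g).card := by
      calc q ^ (T + 1) * (q ^ (D + 1)) ^ r ≤ q ^ (T + 1) * (q ^ (T + 1) * A.card) :=
            Nat.mul_le_mul_left _ h3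
        _ = q ^ (2 * T + 2) * A.card := by ring
        _ ≤ _ := Nat.mul_le_mul_left _ h8
    have h13 : ((Pl F (T + 1)).filter (fun g => g ≠ 0)).card * (q ^ (D + 1)) ^ r ≤
        q ^ (T + 1) * (q ^ (D + 1)) ^ r := Nat.mul_le_mul_right _ h11
    omega
  obtain ⟨g, hg, hgB⟩ := h9
  rw [Finset.mem_filter] at hg
  exact ⟨g, hg.1, hg.2, hgB⟩

open scoped Classical in
theorem iter {F : Type*} [Field F] [Fintype F] (r : ℕ) (β : F[X] →ₗ[F] F) (D l T : ℕ)
    (hl : D ≤ l) (hT : 2 ^ r * (T + 2) ≤ D)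
    (h : (Fintype.card F ^ (D + 1)) ^ r ≤ Fintype.card F ^ T *
      ((Fintype.piFinset (fun _ : Fin r => Pl F (D + 1))).filter
        (fun h => ∀ y ∈ Pl F (l + 1), β ((∏ i, h i) * y) = 0)).card) :
    ∃ G : F[X], G ≠ 0 ∧ G ∈ Pl F ((2 ^ r - 1) * (T + 2) + 1) ∧
      ∀ y ∈ Pl F (l + r * D + 1 - (2 ^ r - 1) * (T + 2)), β (G * y) = 0 := by
  induction r generalizing β l T with
  | zero =>
    refine ⟨1, one_ne_zero, ?_, ?_⟩
    · rw [mem_Pl, degree_one]
      simp
    · intro y hy
      have hpos : 0 < ((Fintype.piFinset (fun _ : Fin 0 => Pl F (D + 1))).filter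
        (fun h => ∀ y ∈ Pl F (l + 1), β ((∏ i, h i) * y) = 0)).card := by
        by_contra hc
        have hc' : ((Fintype.piFinset (fun _ : Fin 0 => Pl F (D + 1))).filter
          (fun h => ∀ y ∈ Pl F (l + 1), β ((∏ i, h i) * y) = 0)).card = 0 := by omega
        rw [hc', mul_zero, pow_zero] at h
        omega
      obtain ⟨x, hx⟩ := Finset.card_pos.1 hpos
      simp only [Finset.mem_filter] at hx
      have := hx.2 y (by
        have e : l + 0 * D + 1 - (2 ^ 0 - 1) * (T + 2) = l + 1 := by simp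
        rw [e] at hy
        exact hy)
      simpa using this
  | succ r ih =>
    have hP : 0 < 2 ^ r := by positivity
    have hTD : T ≤ D := by
      have : 1 * (T + 2) ≤ 2 ^ (r + 1) * (T + 2) :=
        Nat.mul_le_mul_right _ (Nat.one_le_two_pow)
      omega
    obtain ⟨g, hg, hg0, hc⟩ := step r β D l T hl hTD h
    obtain ⟨G, hG0, hG, hGy⟩ := ih (β ∘ₗ LinearMap.mulLeft F g) (D + l - T) (2 * T + 2)
      (by omega) (by
        have : 2 ^ r * (2 * T + 2 + 2) = 2 ^ (r + 1) * (T + 2) := by ring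
        omega) hc
    have e1 : (2 ^ (r + 1) - 1) * (T + 2) = T + (2 ^ r - 1) * (2 * T + 2 + 2) + 2 := by
      obtain ⟨P, hPP⟩ : ∃ P, 2 ^ r = P + 1 := ⟨2 ^ r - 1, by omega⟩
      have : 2 ^ (r + 1) = 2 * P + 2 := by rw [pow_succ, hPP]; ring
      rw [this, hPP]
      have e2 : 2 * P + 2 - 1 = 2 * P + 1 := by omega
      rw [e2, Nat.add_sub_cancel]
      ring
    refine ⟨g * G, mul_ne_zero hg0 hG0, ?_, ?_⟩
    · have := mul_mem_Pl hg hG
      refine Pl_mono ?_ this
      omega
    · intro y hy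
      have := hGy y (Pl_mono (by
        have e3 : (r + 1) * D = r * D + D := by ring
        rw [e1, e3]
        omega) hy)
      rw [LinearMap.comp_apply, LinearMap.mulLeft_apply] at this
      rw [mul_assoc]
      exact this

end FFW
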