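import Pool.Agent.FFW.Defs

/-!
# FFW/PPow: exponential sums modulo prime powers

`p` monic irreducible of degree `d`, `j ≥ 2`, `φ` primitive modulo `p ^ j`, `k ≠ 0` in `F`.
(a) `j ≤ k`: the sum is `q ^ (d (j - 1))`; (b) `j > k`: it is `q ^ (d (k - 1))` times a sum of the
same kind modulo `p ^ (j - k)`.

PROOF. Write `x ∈ Pl (j d)` uniquely as `x = y + p ^ (j-1) z`, `y ∈ Pl ((j-1) d)`, `z ∈ Pl d`
(division by the monic `p ^ (j-1)`). `x ^ k ≡ y ^ k + k p ^ (j-1) y ^ (k-1) z mod p ^ j`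
(`2 (j-1) ≥ j`), so `ψ(φ(x ^ k)) = ψ(φ(y ^ k)) ψ(φ(k p ^ (j-1) y ^ (k-1) z))`. The map
`z ↦ φ(k p ^ (j-1) y ^ (k-1) z)` is linear on `Pl d`; the sum over `z` is `q ^ d` if it is zero on
`Pl d` and `0` otherwise (`ψ ≠ 1`). It is zero on `Pl d` iff it is zero on all of `F[X]` (it kills
multiples of `p`) iff `p ^ j ∣ p ^ (j-1) y ^ (k-1)` (primitivity, `k` a unit) iff `p ∣ y` (`k ≥ 2`).
So `S = q ^ d ∑_{y ∈ Pl ((j-1) d), p ∣ y} ψ(φ(y ^ k))`, `y = p w`, `w ∈ Pl ((j-2) d)`.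
(a) `φ(p ^ k w ^ k) = 0` for `j ≤ k`: `S = q ^ d q ^ ((j-2) d)`.
(b) `φ' z := φ(p ^ k z)` is primitive modulo `p ^ (j-k)`. `φ'(w ^ k)` depends only on `w` modulo
`p ^ (j-k)`. It is simplest to write `S = ∑_{x ∈ Pl (j d), p ∣ x} ψ(φ(x ^ k))
= ∑_{w ∈ Pl ((j-1) d)} ψ(φ'(w ^ k))` (the same computation: `x` with `p ∤ x` contribute `0`), and
`w = u + p ^ (j-k) v`, `u ∈ Pl ((j-k) d)`, `v ∈ Pl ((k-1) d)` gives `q ^ ((k-1) d) * S ψ k φ' ((j-k) d)`.
-/

open Finset Polynomial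

namespace FFW

private theorem pp_split {F : Type*} [Field F] [Fintype F] (g : F[X]) (hg : g.Monic) (m : ℕ)
    (f : F[X] → ℂ) :
    ∑ x ∈ Pl F (g.natDegree + m), f x = ∑ y ∈ Pl F g.natDegree, ∑ z ∈ Pl F m, f (y + g * z) := by
  classical
  have hdg : g.degree = g.natDegree := degree_eq_natDegree hg.ne_zero
  have hgm : g ∈ Pl F (g.natDegree + 1) := by
    rw [mem_Pl, hdg]
    exact_mod_cast Nat.lt_succ_self _
  rw [← Finset.sum_product']
  symm
  refine Finset.sum_bij' (fun (q : F[X] × F[X]) _ => q.1 + g * q.2)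
    (fun x _ => (x %ₘ g, x /ₘ g)) ?_ ?_ ?_ ?_ ?_
  · rintro ⟨y, z⟩ h
    obtain ⟨hy, hz⟩ := Finset.mem_product.1 h
    exact add_mem_Pl (Pl_mono (Nat.le_add_right _ _) hy) (mul_mem_Pl hgm hz)
  · intro x hx
    refine Finset.mem_product.2 ⟨?_, ?_⟩
    · rw [mem_Pl, ← hdg]
      exact degree_modByMonic_lt x hg
    · rw [mem_Pl] at hx ⊢
      by_cases hle : g.degree ≤ x.degree
      · have h1 := degree_add_divByMonic hg hle
        by_cases h0 : x /ₘ g = 0
        · rw [h0, degree_zero]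
          exact WithBot.bot_lt_coe _
        · rw [← h1, hdg, degree_eq_natDegree h0] at hx
          rw [degree_eq_natDegree h0]
          have : g.natDegree + (x /ₘ g).natDegree < g.natDegree + m := by exact_mod_cast hx
          have h2 : (x /ₘ g).natDegree < m := by omega
          exact_mod_cast h2
      · rw [(divByMonic_eq_zero_iff hg).2 (not_le.1 hle), degree_zero]
        exact WithBot.bot_lt_coe _
  · rintro ⟨y, z⟩ h
    obtain ⟨hy, hz⟩ := Finset.mem_product.1 h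
    have h1 := div_modByMonic_unique z y hg (f := y + g * z) ⟨rfl, by
      rw [hdg]; exact mem_Pl.1 hy⟩
    simp only
    rw [h1.1, h1.2]
  · intro x _
    exact modByMonic_add_div x g
  · intro q _
    rfl

private theorem pp_zero {F : Type*} [Field F] [Fintype F] (ψ : AddChar F ℂ) (hψ : ψ ≠ 1) (m : ℕ)
    (L : F[X] →ₗ[F] F) (z0 : F[X]) (hz0 : z0 ∈ Pl F m) (hL : L z0 ≠ 0) :
    ∑ z ∈ Pl F m, ψ (L z) = 0 := by
  classical
  obtain ⟨a, ha⟩ : ∃ a, ψ a ≠ 1 := by
    by_contra hc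
    apply hψ
    ext a
    by_contra h
    exact hc ⟨a, by simpa using h⟩
  set z1 : F[X] := C (a / L z0) * z0 with hz1
  have hz1m : z1 ∈ Pl F m := smul_mem_Pl _ hz0
  have hL1 : L z1 = a := by
    rw [hz1, ← smul_eq_C_mul, map_smul, smul_eq_mul, div_mul_cancel₀ _ hL]
  have h1 : ∑ z ∈ Pl F m, ψ (L z) = ∑ z ∈ Pl F m, ψ (L (z + z1)) := by
    symm
    refine Finset.sum_bij' (fun z _ => z + z1) (fun z _ => z - z1) ?_ ?_ ?_ ?_ ?_
    · intro z hz
      exact add_mem_Pl hz hz1m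
    · intro z hz
      exact sub_mem_Pl hz hz1m
    · intro z _
      exact add_sub_cancel_right z z1
    · intro z _
      exact sub_add_cancel z z1
    · intro z _
      rfl
  have h2 : ∑ z ∈ Pl F m, ψ (L (z + z1)) = ψ a * ∑ z ∈ Pl F m, ψ (L z) := by
    rw [Finset.mul_sum]
    refine Finset.sum_congr rfl fun z _ => ?_
    rw [map_add, AddChar.map_add_eq_mul, hL1, mul_comm]
  rw [h2] at h1
  have h3 : (1 - ψ a) * ∑ z ∈ Pl F m, ψ (L z) = 0 := by
    rw [sub_mul, one_mul, ← h1, sub_self]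
  rcases mul_eq_zero.1 h3 with h4 | h4
  · exact absurd (sub_eq_zero.1 h4).symm ha
  · exact h4

/-- only the multiples of `p` contribute -/
private theorem pp_main {F : Type*} [Field F] [Fintype F] (ψ : AddChar F ℂ) (hψ : ψ ≠ 1) (k : ℕ)
    (hkF : (k : F) ≠ 0) (p : F[X]) (hp : p.Monic) (hirr : Irreducible p) (i : ℕ)
    (φ : F[X] →ₗ[F] F) (hφ : Prim φ (p ^ (i + 2))) :
    S ψ k φ ((i + 2) * p.natDegree) = ∑ w ∈ Pl F ((i + 1) * p.natDegree), ψ (φ ((p * w) ^ k)) := by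
  classical
  set d := p.natDegree with hd
  have hdp : p.degree = (d : WithBot ℕ) := degree_eq_natDegree hp.ne_zero
  have e1 : (i + 2) * d = (p ^ (i + 1)).natDegree + d := by
    rw [hp.natDegree_pow, ← hd]; ring
  have e2 : (p ^ (i + 1)).natDegree = p.natDegree + i * d := by
    rw [hp.natDegree_pow, ← hd]; ring
  have e3 : (i + 1) * d = (p ^ i).natDegree + d := by
    rw [hp.natDegree_pow, ← hd]; ring
  have hR : ∑ w ∈ Pl F ((i + 1) * d), ψ (φ ((p * w) ^ k)) =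
      ∑ w ∈ Pl F (i * d), ∑ z ∈ Pl F d, ψ (φ ((p * w + p ^ (i + 1) * z) ^ k)) := by
    rw [e3, pp_split (p ^ i) (hp.pow i) d, hp.natDegree_pow, ← hd]
    refine Finset.sum_congr rfl fun w _ => Finset.sum_congr rfl fun z _ => ?_
    have : p * (w + p ^ i * z) = p * w + p ^ (i + 1) * z := by ring
    rw [this]
  rw [hR]
  unfold S
  rw [e1, pp_split (p ^ (i + 1)) (hp.pow (i + 1)) d, e2, pp_split p hp (i * d)]
  have hsing : ∀ r ∈ Pl F p.natDegree, r ≠ 0 →
      ∑ w ∈ Pl F (i * d), ∑ z ∈ Pl F d, ψ (φ ((r + p * w + p ^ (i + 1) * z) ^ k)) = 0 := by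
    intro r hr hr0
    refine Finset.sum_eq_zero fun w _ => ?_
    set y := r + p * w with hy
    have hpy : ¬ p ∣ y := by
      intro h
      have h1 : p ∣ r := by
        have : r = y - p * w := by rw [hy]; ring
        rw [this]
        exact dvd_sub h (dvd_mul_right p w)
      apply hr0
      refine eq_zero_of_dvd_of_degree_lt h1 ?_
      rw [hdp]
      exact mem_Pl.1 hr
    -- the linear functional
    let L : F[X] →ₗ[F] F := φ ∘ₗ (LinearMap.mulLeft F ((k : F[X]) * y ^ (k - 1) * p ^ (i + 1)))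
    have hLdef : ∀ z, L z = φ ((k : F[X]) * y ^ (k - 1) * p ^ (i + 1) * z) := fun z => rfl
    have hexp : ∀ z, φ ((y + p ^ (i + 1) * z) ^ k) = φ (y ^ k) + L z := by
      intro z
      obtain ⟨c, hc⟩ := Polynomial.powAddExpansion y (p ^ (i + 1) * z) k
      have h2 : c * (p ^ (i + 1) * z) ^ 2 = p ^ (i + 2) * (p ^ i * z ^ 2 * c) := by
        have : (p ^ (i + 1)) ^ 2 = p ^ (i + 2) * p ^ i := by
          rw [← pow_mul, ← pow_add]
          congr 1
          ring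
        calc c * (p ^ (i + 1) * z) ^ 2 = c * ((p ^ (i + 1)) ^ 2 * z ^ 2) := by ring
          _ = _ := by rw [this]; ring
      rw [hc, map_add, map_add, h2, hφ.1, add_zero, hLdef]
      congr 2
      ring
    have hL0 : ∃ z0 ∈ Pl F d, L z0 ≠ 0 := by
      by_contra hcon
      have hL' : ∀ z0 ∈ Pl F d, L z0 = 0 := by
        intro z0 hz0
        by_contra h
        exact hcon ⟨z0, hz0, h⟩
      have hall : ∀ z, φ ((k : F[X]) * y ^ (k - 1) * p ^ (i + 1) * z) = 0 := by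
        intro z
        have h1 : z = z %ₘ p + p * (z /ₘ p) := (modByMonic_add_div z p).symm
        have h2 : (k : F[X]) * y ^ (k - 1) * p ^ (i + 1) * z =
            (k : F[X]) * y ^ (k - 1) * p ^ (i + 1) * (z %ₘ p) +
              p ^ (i + 2) * ((k : F[X]) * y ^ (k - 1) * (z /ₘ p)) := by
          conv_lhs => rw [h1]
          ring
        rw [h2, map_add, hφ.1, add_zero, ← hLdef]
        apply hL'
        rw [mem_Pl, ← hdp]
        exact degree_modByMonic_lt z hp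
      have hdvd := hφ.2 _ hall
      have h3 : p ∣ (k : F[X]) * y ^ (k - 1) := by
        have h4 : p ^ (i + 1) * p ∣ p ^ (i + 1) * ((k : F[X]) * y ^ (k - 1)) := by
          have : p ^ (i + 1) * p = p ^ (i + 2) := by ring
          rw [this, mul_comm (p ^ (i + 1))]
          exact hdvd
        exact (mul_dvd_mul_iff_left (pow_ne_zero _ hp.ne_zero)).1 h4
      have hku : IsUnit (k : F[X]) := by
        have : (k : F[X]) = C (k : F) := by simp
        rw [this, isUnit_C]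
        exact isUnit_iff_ne_zero.2 hkF
      rcases hirr.prime.dvd_or_dvd h3 with h4 | h4
      · exact hirr.not_isUnit (isUnit_of_dvd_unit h4 hku)
      · exact hpy (hirr.prime.dvd_of_dvd_pow h4)
    obtain ⟨z0, hz0, hz0'⟩ := hL0
    have h5 := pp_zero ψ hψ d L z0 hz0 hz0'
    calc ∑ z ∈ Pl F d, ψ (φ ((y + p ^ (i + 1) * z) ^ k))
        = ∑ z ∈ Pl F d, ψ (φ (y ^ k)) * ψ (L z) := by
          refine Finset.sum_congr rfl fun z _ => ?_
          rw [hexp, AddChar.map_add_eq_mul]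
      _ = 0 := by rw [← Finset.mul_sum, h5, mul_zero]
  rw [Finset.sum_eq_single_of_mem (0 : F[X]) (zero_mem_Pl _) hsing]
  refine Finset.sum_congr rfl fun w _ => Finset.sum_congr rfl fun z _ => ?_
  rw [zero_add]

theorem ppow_a {F : Type*} [Field F] [Fintype F] (ψ : AddChar F ℂ) (hψ : ψ ≠ 1) (k : ℕ)
    (hk : 2 ≤ k) (hkF : (k : F) ≠ 0) (p : F[X]) (hp : p.Monic) (hirr : Irreducible p) (j : ℕ)
    (hj : 2 ≤ j) (hjk : j ≤ k) (φ : F[X] →ₗ[F] F) (hφ : Prim φ (p ^ j)) :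
    S ψ k φ (j * p.natDegree) = (Fintype.card F : ℂ) ^ (p.natDegree * (j - 1)) := by
  obtain ⟨i, rfl⟩ : ∃ i, j = i + 2 := ⟨j - 2, by omega⟩
  rw [pp_main ψ hψ k hkF p hp hirr i φ hφ]
  have h1 : ∀ w ∈ Pl F ((i + 1) * p.natDegree), ψ (φ ((p * w) ^ k)) = 1 := by
    intro w _
    obtain ⟨e, he⟩ : ∃ e, k = (i + 2) + e := ⟨k - (i + 2), by omega⟩
    have h2 : (p * w) ^ k = p ^ (i + 2) * (p ^ e * w ^ k) := by
      rw [mul_pow]
      conv_lhs => rw [he, pow_add p]
      rw [← he]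
      ring
    rw [h2, hφ.1, AddChar.map_zero_eq_one]
  rw [Finset.sum_congr rfl h1, Finset.sum_const, card_Pl, nsmul_eq_mul, mul_one]
  push_cast
  congr 1
  exact mul_comm _ _

theorem ppow_b {F : Type*} [Field F] [Fintype F] (ψ : AddChar F ℂ) (hψ : ψ ≠ 1) (k : ℕ)
    (hk : 2 ≤ k) (hkF : (k : F) ≠ 0) (p : F[X]) (hp : p.Monic) (hirr : Irreducible p) (j : ℕ)
    (hjk : k < j) (φ : F[X] →ₗ[F] F) (hφ : Prim φ (p ^ j)) :
    ∃ φ' : F[X] →ₗ[F] F, Prim φ' (p ^ (j - k)) ∧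
      S ψ k φ (j * p.natDegree) = (Fintype.card F : ℂ) ^ (p.natDegree * (k - 1)) *
        S ψ k φ' ((j - k) * p.natDegree) := by
  have hjj : p ^ j = p ^ k * p ^ (j - k) := by
    rw [← pow_add]
    congr 1
    omega
  refine ⟨φ ∘ₗ LinearMap.mulLeft F (p ^ k), ⟨?_, ?_⟩, ?_⟩
  · intro y
    change φ (p ^ k * (p ^ (j - k) * y)) = 0
    rw [← mul_assoc, ← hjj]
    exact hφ.1 y
  · intro h hh
    have h1 : p ^ j ∣ p ^ k * h := by
      apply hφ.2
      intro y
      rw [mul_assoc]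
      exact hh y
    rw [hjj] at h1
    exact (mul_dvd_mul_iff_left (pow_ne_zero _ hp.ne_zero)).1 h1
  · have hφj : ∀ y, φ (p ^ j * y) = 0 := hφ.1
    obtain ⟨i, hi⟩ : ∃ i, j = i + 2 := ⟨j - 2, by omega⟩
    have hm : S ψ k φ (j * p.natDegree) =
        ∑ w ∈ Pl F ((j - 1) * p.natDegree), ψ (φ ((p * w) ^ k)) := by
      have h2 : j - 1 = i + 1 := by omega
      rw [h2]
      subst hi
      exact pp_main ψ hψ k hkF p hp hirr i φ hφ
    rw [hm]
    have e1 : (j - 1) * p.natDegree = (p ^ (j - k)).natDegree + (k - 1) * p.natDegree := by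
      rw [hp.natDegree_pow, ← add_mul]
      congr 1
      omega
    rw [e1, pp_split (p ^ (j - k)) (hp.pow _)]
    have h3 : ∀ u ∈ Pl F (p ^ (j - k)).natDegree, ∑ v ∈ Pl F ((k - 1) * p.natDegree),
        ψ (φ ((p * (u + p ^ (j - k) * v)) ^ k)) =
        (Fintype.card F : ℂ) ^ (p.natDegree * (k - 1)) *
          ψ ((φ ∘ₗ LinearMap.mulLeft F (p ^ k)) (u ^ k)) := by
      intro u _
      have h4 : ∀ v ∈ Pl F ((k - 1) * p.natDegree),
          ψ (φ ((p * (u + p ^ (j - k) * v)) ^ k)) =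
            ψ ((φ ∘ₗ LinearMap.mulLeft F (p ^ k)) (u ^ k)) := by
        intro v _
        congr 1
        change _ = φ (p ^ k * u ^ k)
        obtain ⟨c, hc⟩ : p ^ (j - k) * v ∣ (u + p ^ (j - k) * v) ^ k - u ^ k := by
          have := sub_dvd_pow_sub_pow (u + p ^ (j - k) * v) u k
          rwa [add_sub_cancel_left] at this
        have h5 : (p * (u + p ^ (j - k) * v)) ^ k = p ^ k * u ^ k + p ^ j * (v * c) := by
          rw [mul_pow, hjj]
          have h6 : (u + p ^ (j - k) * v) ^ k = u ^ k + p ^ (j - k) * v * c := by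
            rw [← hc]; ring
          rw [h6]
          ring
        rw [h5, map_add, hφj, add_zero]
      rw [Finset.sum_congr rfl h4, Finset.sum_const, card_Pl, nsmul_eq_mul]
      push_cast
      rw [mul_comm (k - 1)]
    rw [Finset.sum_congr rfl h3, ← Finset.mul_sum, hp.natDegree_pow]
    rfl

end FFW
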