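import Pool.Agent.FFW.Crt
import Pool.Agent.FFW.PPow
import Pool.Agent.FFW.PB

/-!
# FFW/Loc: the bound `bb` for exponential sums modulo `g`

`g` monic, `φ` primitive modulo `g`: `‖S ψ k φ (deg g)‖ ≤ q ^ (deg g) * bb k g`.

PROOF. `loc_pp`: `g = p ^ j`, `j ≥ 1`, strong induction on `j`. With `Q = q ^ (deg p)`:
`j = 1`: `pb`, `bq k Q 1 = k / √Q` (`1 % k = 1`, `1 / k = 0` as `k ≥ 2`), `Q * (k / √Q) = k √Q`.
`2 ≤ j ≤ k`: `ppow_a`, `bq k Q j = Q⁻¹` (`j % k ≠ 1`, `(j + k - 1) / k = 1`).
`j > k`: `ppow_b` and `bq k Q j = bq k Q (j - k) / Q` (`j % k`, `j / k`, `(j + k - 1) / k`).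
General `g`: induction over coprime factors (`UniqueFactorizationMonoid.induction_on_coprime`, or
induction on the number of prime factors, splitting off `p ^ (multiplicity)`), `crt`, and
`bb k (g₁ g₂) = bb k g₁ * bb k g₂` for coprime monic `g₁, g₂` (`normalizedFactors_mul`, disjoint
supports), `bb k (p ^ j) = bq k Q j` for `p` monic irreducible, `j ≥ 1`, `bb k 1 = 1`;
`g = 1`: `Pl F 0 = {0}`, `S = ψ(φ(0 ^ k)) = 1`.
-/

open Finset Polynomial

namespace FFW

private theorem bq_nonneg {k : ℕ} {Q : ℝ} (hQ : 0 ≤ Q) (j : ℕ) : 0 ≤ bq k Q j := by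
  unfold bq
  split_ifs <;> positivity

private theorem bq_one {k : ℕ} (hk : 2 ≤ k) (Q : ℝ) : bq k Q 1 = k / Real.sqrt Q := by
  unfold bq
  rw [if_pos (Nat.mod_eq_of_lt (by omega)), Nat.div_eq_of_lt (by omega), pow_zero, div_one]

private theorem bq_mid {k : ℕ} (hk : 2 ≤ k) (Q : ℝ) {j : ℕ} (hj : 2 ≤ j) (hjk : j ≤ k) :
    bq k Q j = Q⁻¹ := by
  unfold bq
  have h1 : j % k ≠ 1 := by
    rcases Nat.lt_or_ge j k with h | h
    · rw [Nat.mod_eq_of_lt h]; omega
    · have : j = k := le_antisymm hjk h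
      rw [this, Nat.mod_self]; omega
  have h2 : (j + k - 1) / k = 1 := by
    rw [Nat.div_eq_iff (by omega)]
    constructor <;> omega
  rw [if_neg h1, h2, pow_one]

private theorem bq_add {k : ℕ} (hk : 2 ≤ k) {Q : ℝ} (hQ : 0 < Q) (j : ℕ) :
    bq k Q (j + k) * Q = bq k Q j := by
  unfold bq
  have hk0 : 0 < k := by omega
  rw [Nat.add_mod_right, Nat.add_div_right _ hk0]
  have h2 : (j + k + k - 1) / k = (j + k - 1) / k + 1 := by
    have : j + k + k - 1 = (j + k - 1) + k := by omega
    rw [this, Nat.add_div_right _ hk0]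
  rw [h2]
  have hQ0 := hQ.ne'
  split_ifs
  · rw [pow_succ]
    field_simp
  · rw [pow_succ]
    field_simp

theorem loc_pp {F : Type*} [Field F] [Fintype F] (ψ : AddChar F ℂ) (hψ : ψ ≠ 1) (k : ℕ)
    (hk : 2 ≤ k) (hkF : (k : F) ≠ 0) (p : F[X]) (hp : p.Monic) (hirr : Irreducible p) (j : ℕ)
    (hj : 1 ≤ j) (φ : F[X] →ₗ[F] F) (hφ : Prim φ (p ^ j)) :
    ‖S ψ k φ (j * p.natDegree)‖ ≤ ((Fintype.card F : ℝ) ^ p.natDegree) ^ j *
      bq k ((Fintype.card F : ℝ) ^ p.natDegree) j := by
  have hq : (0 : ℝ) < Fintype.card F := by exact_mod_cast Fintype.card_pos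
  have hQ : (0 : ℝ) < (Fintype.card F : ℝ) ^ p.natDegree := pow_pos hq _
  set Q : ℝ := (Fintype.card F : ℝ) ^ p.natDegree with hQdef
  induction j using Nat.strong_induction_on generalizing φ with
  | _ j ih =>
    rcases Nat.lt_or_ge j 2 with h2 | h2
    · have hj1 : j = 1 := by omega
      subst hj1
      rw [pow_one] at hφ
      have h := pb ψ hψ k (by omega) p hp hirr φ hφ
      rw [one_mul, bq_one hk, pow_one]
      refine h.trans (le_of_eq ?_)
      rw [← hQdef]
      have hs : Real.sqrt Q ≠ 0 := (Real.sqrt_pos.2 hQ).ne'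
      have hss : Real.sqrt Q * Real.sqrt Q = Q := Real.mul_self_sqrt hQ.le
      field_simp
      rw [pow_two, hss]
    · rcases Nat.lt_or_ge k j with hkj | hkj
      · obtain ⟨φ', hφ', hS⟩ := ppow_b ψ hψ k hk hkF p hp hirr j hkj φ hφ
        have h := ih (j - k) (by omega) (by omega) φ' hφ'
        rw [hS, norm_mul, norm_pow, Complex.norm_natCast, pow_mul, ← hQdef]
        obtain ⟨i, rfl⟩ : ∃ i, j = i + k := ⟨j - k, by omega⟩
        rw [Nat.add_sub_cancel] at h ⊢
        calc Q ^ (k - 1) * ‖S ψ k φ' (i * p.natDegree)‖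
            ≤ Q ^ (k - 1) * (Q ^ i * bq k Q i) := mul_le_mul_of_nonneg_left h (by positivity)
          _ = Q ^ (i + k) * bq k Q (i + k) := by
              rw [← bq_add hk hQ i]
              have : i + k = (k - 1) + i + 1 := by omega
              conv_rhs => rw [this]
              rw [pow_succ, pow_add]
              have h3 : bq k Q ((k - 1) + i + 1) = bq k Q (i + k) := by rw [this]
              rw [h3]
              ring
      · rw [ppow_a ψ hψ k hk hkF p hp hirr j h2 hkj φ hφ, norm_pow, Complex.norm_natCast,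
          bq_mid hk Q h2 hkj, pow_mul, ← hQdef]
        obtain ⟨i, rfl⟩ : ∃ i, j = i + 1 := ⟨j - 1, by omega⟩
        rw [Nat.add_sub_cancel, pow_succ, mul_assoc, mul_inv_cancel₀ hQ.ne', mul_one]

private theorem S_zero {F : Type*} [Field F] [Fintype F] (ψ : AddChar F ℂ) {k : ℕ} (hk : 2 ≤ k)
    (φ : F[X] →ₗ[F] F) : S ψ k φ 0 = 1 := by
  have h : Pl F 0 = {0} := by
    ext x
    rw [mem_Pl, Finset.mem_singleton]
    constructor
    · intro hx
      exact degree_eq_bot.1 (Nat.WithBot.lt_zero_iff.1 hx)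
    · rintro rfl
      rw [degree_zero]
      exact WithBot.bot_lt_coe 0
  unfold S
  rw [h, Finset.sum_singleton, zero_pow (by omega), map_zero, AddChar.map_zero_eq_one]

open scoped Classical in
private theorem bb_one {F : Type*} [Field F] [Fintype F] (k : ℕ) : bb k (1 : F[X]) = 1 := by
  unfold bb
  rw [UniqueFactorizationMonoid.normalizedFactors_one]
  simp

private theorem bb_pow {F : Type*} [Field F] [Fintype F] (k : ℕ) (p : F[X]) (hp : p.Monic)
    (hirr : Irreducible p) (j : ℕ) (hj : 1 ≤ j) :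
    bb k (p ^ j) = bq k ((Fintype.card F : ℝ) ^ p.natDegree) j := by
  classical
  unfold bb
  have h : UniqueFactorizationMonoid.normalizedFactors (p ^ j) = j • ({p} : Multiset F[X]) := by
    rw [UniqueFactorizationMonoid.normalizedFactors_pow,
      UniqueFactorizationMonoid.normalizedFactors_irreducible hirr, hp.normalize_eq_self]
  rw [h, Multiset.toFinset_nsmul _ _ (by omega), Multiset.toFinset_singleton,
    Finset.prod_singleton, Multiset.count_nsmul, Multiset.count_singleton_self, mul_one]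

private theorem bb_mul {F : Type*} [Field F] [Fintype F] (k : ℕ) (g₁ g₂ : F[X]) (h₁ : g₁ ≠ 0)
    (h₂ : g₂ ≠ 0) (hco : IsRelPrime g₁ g₂) : bb k (g₁ * g₂) = bb k g₁ * bb k g₂ := by
  classical
  unfold bb
  rw [UniqueFactorizationMonoid.normalizedFactors_mul h₁ h₂, Multiset.toFinset_add]
  have hno : ∀ p, p ∈ UniqueFactorizationMonoid.normalizedFactors g₁ →
      p ∉ UniqueFactorizationMonoid.normalizedFactors g₂ := by
    intro p hp1 hp2
    have hu := hco (UniqueFactorizationMonoid.dvd_of_mem_normalizedFactors hp1)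
      (UniqueFactorizationMonoid.dvd_of_mem_normalizedFactors hp2)
    exact (UniqueFactorizationMonoid.irreducible_of_normalized_factor p hp1).not_isUnit hu
  rw [Finset.prod_union]
  · congr 1
    · refine Finset.prod_congr rfl (fun p hp => ?_)
      rw [Multiset.mem_toFinset] at hp
      rw [Multiset.count_add, Multiset.count_eq_zero_of_notMem (hno p hp), add_zero]
    · refine Finset.prod_congr rfl (fun p hp => ?_)
      rw [Multiset.mem_toFinset] at hp
      have : p ∉ UniqueFactorizationMonoid.normalizedFactors g₁ := fun h => hno p h hp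
      rw [Multiset.count_add, Multiset.count_eq_zero_of_notMem this, zero_add]
  · rw [Finset.disjoint_left]
    intro p hp1 hp2
    rw [Multiset.mem_toFinset] at hp1 hp2
    exact hno p hp1 hp2

private theorem bb_nonneg {F : Type*} [Field F] [Fintype F] (k : ℕ) (g : F[X]) : 0 ≤ bb k g := by
  classical
  unfold bb
  exact Finset.prod_nonneg (fun p _ => bq_nonneg (by positivity) _)

theorem loc {F : Type*} [Field F] [Fintype F] (ψ : AddChar F ℂ) (hψ : ψ ≠ 1) (k : ℕ)
    (hk : 2 ≤ k) (hkF : (k : F) ≠ 0) (g : F[X]) (hg : g.Monic) (φ : F[X] →ₗ[F] F)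
    (hφ : Prim φ g) :
    ‖S ψ k φ g.natDegree‖ ≤ (Fintype.card F : ℝ) ^ g.natDegree * bb k g := by
  classical
  have key : ∀ a : F[X], a ≠ 0 → ∀ φ : F[X] →ₗ[F] F, Prim φ (normalize a) →
      ‖S ψ k φ (normalize a).natDegree‖ ≤
        (Fintype.card F : ℝ) ^ (normalize a).natDegree * bb k (normalize a) := by
    intro a
    induction a using UniqueFactorizationMonoid.induction_on_coprime with
    | h0 => intro h; exact absurd rfl h
    | h1 hx =>
      rename_i x
      intro _ φ _
      rw [normalize_eq_one.2 hx, natDegree_one, S_zero ψ hk, bb_one]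
      simp
    | hpr i hp =>
      rename_i p
      intro _ φ hφ
      have hpw : normalize (p ^ i) = (normalize p) ^ i := map_pow normalizeHom p i
      rw [hpw] at hφ ⊢
      have hp0 : p ≠ 0 := hp.ne_zero
      have hm : (normalize p).Monic := monic_normalize hp0
      have hirr : Irreducible (normalize p) :=
        (associated_normalize p).irreducible hp.irreducible
      rcases Nat.eq_zero_or_pos i with h0 | h0
      · subst h0
        rw [pow_zero, natDegree_one, S_zero ψ hk, bb_one]
        simp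
      · rw [hm.natDegree_pow, bb_pow k _ hm hirr i h0, mul_comm i, pow_mul, mul_comm _ i]
        exact loc_pp ψ hψ k hk hkF _ hm hirr i h0 φ hφ
    | hcp hco hx hy =>
      rename_i x y
      intro hxy φ hφ
      have hx0 : x ≠ 0 := left_ne_zero_of_mul hxy
      have hy0 : y ≠ 0 := right_ne_zero_of_mul hxy
      have hmx : (normalize x).Monic := monic_normalize hx0
      have hmy : (normalize y).Monic := monic_normalize hy0
      rw [normalize_mul] at hφ ⊢
      have hco2 : IsRelPrime (normalize x) (normalize y) := by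
        intro d hd1 hd2
        exact hco (dvd_normalize_iff.1 hd1) (dvd_normalize_iff.1 hd2)
      obtain ⟨φ₁, φ₂, hφ₁, hφ₂, hS⟩ := crt ψ k (normalize x) (normalize y) hmx hmy
        hco2.isCoprime φ hφ
      rw [hS, norm_mul, hmx.natDegree_mul hmy, pow_add,
        bb_mul k _ _ hmx.ne_zero hmy.ne_zero hco2]
      calc _ ≤ ((Fintype.card F : ℝ) ^ (normalize x).natDegree * bb k (normalize x)) *
            ((Fintype.card F : ℝ) ^ (normalize y).natDegree * bb k (normalize y)) :=
            mul_le_mul (hx hx0 φ₁ hφ₁) (hy hy0 φ₂ hφ₂) (norm_nonneg _)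
              (mul_nonneg (by positivity) (bb_nonneg k _))
        _ = _ := by ring
  have h := key g hg.ne_zero φ
  rw [hg.normalize_eq_self] at h
  exact h hφ

end FFW
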