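import Pool.Agent.FFW.Defs

/-!
# FFW/Num: numerical estimates

`bq_nonneg`. `num_a`: for `k ≥ 3`, `Q ≥ 2`:
`∑_{j=1}^C Q ^ j * (bq k Q j) ^ (k + 2) ≤ 2 (k ^ (k+2) + 2) / (Q √Q)`.

PROOF. Write `j = u k + v`, `1 ≤ v ≤ k`, `u ≥ 0`. `bq k Q j = Q ^ (-u) * bq k Q v`, so the term is
`Q ^ (-2u) * Q ^ v * (bq k Q v) ^ (k+2)`. `v = 1`: `Q * (k / √Q) ^ (k+2) ≤ k ^ (k+2) * Q * Q ^ (-5/2)`
(`k + 2 ≥ 5`, `√Q ≥ 1`) `= k ^ (k+2) / (Q √Q)`. `2 ≤ v ≤ k`: `Q ^ (v - k - 2)`, the sum over `v` is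
`≤ Q ^ (-2) (1 + Q⁻¹ + ...) ≤ 2 Q ^ (-2) ≤ 2 / (Q √Q)`. Sum over `u`: `∑ Q ^ (-2u) ≤ 4/3`.
(Bound the sum over `1 ≤ j ≤ C` by the sum over `u < C`, `v ∈ Icc 1 k`.)

`num_b`: the sum over the monic irreducible `p` of degree `≤ C` of `1 / (Q_p √Q_p)`,
`Q_p = q ^ (deg p)`, is at most `4 / √q`.

PROOF. There are `q ^ d` monic polynomials of degree `d`; the sum is
`≤ ∑_{d=1}^C q ^ d / (q ^ d √(q ^ d)) = ∑ (√q) ^ (-d) ≤ (1/√q) / (1 - 1/√q) ≤ 4 / √q` as `q ≥ 2`.
-/

open Finset Polynomial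

namespace FFW

theorem bq_nonneg (k : ℕ) (Q : ℝ) (hQ : 0 ≤ Q) (j : ℕ) : 0 ≤ bq k Q j := by
  unfold bq
  split_ifs <;> positivity

/-- the value of `bq` on the residue `1` -/
private theorem bq_one (k : ℕ) (hk : 3 ≤ k) (Q : ℝ) (u : ℕ) :
    bq k Q (u * k + 0 + 1) = k / Real.sqrt Q / Q ^ u := by
  unfold bq
  have h1 : (u * k + 0 + 1) % k = 1 := by
    rw [add_zero, mul_comm, Nat.mul_add_mod]
    exact Nat.mod_eq_of_lt (by omega)
  have h2 : (u * k + 0 + 1) / k = u := by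
    rw [add_zero, mul_comm, Nat.mul_add_div (by omega), Nat.div_eq_of_lt (by omega), add_zero]
  rw [if_pos h1, h2]

/-- the value of `bq` on the other residues -/
private theorem bq_other (k : ℕ) (hk : 3 ≤ k) (Q : ℝ) (u v : ℕ) (hv : 1 ≤ v) (hv2 : v < k) :
    bq k Q (u * k + v + 1) = (Q ^ (u + 1))⁻¹ := by
  unfold bq
  have h1 : (u * k + v + 1) % k ≠ 1 := by
    rw [add_assoc, mul_comm, Nat.mul_add_mod]
    rcases eq_or_ne (v + 1) k with h | h
    · rw [h, Nat.mod_self]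
      omega
    · rw [Nat.mod_eq_of_lt (by omega)]
      omega
  have h2 : (u * k + v + 1 + k - 1) / k = u + 1 := by
    have e : u * k + v + 1 + k - 1 = k * (u + 1) + v := by
      have : k * (u + 1) = u * k + k := by ring
      omega
    rw [e, Nat.mul_add_div (by omega), Nat.div_eq_of_lt hv2, add_zero]
  rw [if_neg h1, h2]

private theorem sum_block (f : ℕ → ℝ) (k C : ℕ) :
    ∑ j ∈ range (C * k), f (j + 1) = ∑ u ∈ range C, ∑ v ∈ range k, f (u * k + v + 1) := by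
  induction C with
  | zero => simp
  | succ C ih => rw [Nat.succ_mul, Finset.sum_range_add, ih, Finset.sum_range_succ]

private theorem geo_rev (r : ℝ) (n : ℕ) :
    (∑ i ∈ range n, r ^ (n - i + 1)) * (1 - r) = r ^ 2 - r ^ (n + 2) := by
  induction n with
  | zero => simp
  | succ n ih =>
    rw [Finset.sum_range_succ']
    have e : ∑ i ∈ range n, r ^ (n + 1 - (i + 1) + 1) = ∑ i ∈ range n, r ^ (n - i + 1) := by
      apply Finset.sum_congr rfl
      intro i _
      congr 2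
      omega
    rw [e, add_mul, ih]
    have e2 : n + 1 - 0 + 1 = n + 2 := by omega
    rw [e2]
    ring

theorem num_a (k : ℕ) (hk : 3 ≤ k) (Q : ℝ) (hQ : 2 ≤ Q) (C : ℕ) :
    ∑ j ∈ Icc 1 C, Q ^ j * (bq k Q j) ^ (k + 2) ≤
      2 * ((k : ℝ) ^ (k + 2) + 2) / (Q * Real.sqrt Q) := by
  classical
  have hQ0 : (0 : ℝ) < Q := by linarith
  have hQ1 : (1 : ℝ) ≤ Q := by linarith
  have hs0 : 0 < Real.sqrt Q := Real.sqrt_pos.2 hQ0
  have hs1 : 1 ≤ Real.sqrt Q := by
    rw [show (1 : ℝ) = Real.sqrt 1 by simp]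
    exact Real.sqrt_le_sqrt hQ1
  have hss : Real.sqrt Q * Real.sqrt Q = Q := Real.mul_self_sqrt hQ0.le
  have hsQ : Real.sqrt Q ≤ Q := by nlinarith
  obtain ⟨r, hr⟩ : ∃ r : ℝ, r = Q⁻¹ := ⟨_, rfl⟩
  have hr0 : 0 < r := by rw [hr]; positivity
  have hrQ : r * Q = 1 := by rw [hr]; field_simp
  have hr2 : r ≤ 1 / 2 := by nlinarith
  obtain ⟨K, hK⟩ : ∃ K : ℝ, K = (k : ℝ) ^ (k + 2) := ⟨_, rfl⟩
  have hK0 : 0 ≤ K := by rw [hK]; positivity
  obtain ⟨A, hA⟩ : ∃ A : ℝ, A = 1 / (Q * Real.sqrt Q) := ⟨_, rfl⟩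
  have hA0 : 0 < A := by rw [hA]; positivity
  have hrA : r ^ 2 ≤ A := by
    rw [hA, hr, inv_pow, ← one_div]
    apply one_div_le_one_div_of_le (by positivity)
    nlinarith
  -- the terms
  obtain ⟨f, hf⟩ : ∃ f : ℕ → ℝ, f = fun j => Q ^ j * (bq k Q j) ^ (k + 2) := ⟨_, rfl⟩
  have hf0 : ∀ j, 0 ≤ f j := by
    intro j
    rw [hf]
    have := bq_nonneg k Q hQ0.le j
    positivity
  have ht1 : ∀ u, f (u * k + 0 + 1) ≤ (r ^ 2) ^ u * (K * A) := by
    intro u
    rw [hf]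
    show Q ^ (u * k + 0 + 1) * (bq k Q (u * k + 0 + 1)) ^ (k + 2) ≤ _
    rw [bq_one k hk Q u, div_pow, div_pow, ← hK]
    have h5 : (Real.sqrt Q) ^ 5 ≤ (Real.sqrt Q) ^ (k + 2) := pow_le_pow_right₀ hs1 (by omega)
    have h5' : (Real.sqrt Q) ^ 5 = Q * Q * Real.sqrt Q := by
      calc (Real.sqrt Q) ^ 5 = (Real.sqrt Q * Real.sqrt Q) * (Real.sqrt Q * Real.sqrt Q) *
            Real.sqrt Q := by ring
        _ = _ := by rw [hss]
    have e1 : Q ^ (u * k + 0 + 1) * (K / (Real.sqrt Q) ^ (k + 2) / (Q ^ u) ^ (k + 2)) =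
        (r ^ 2) ^ u * (K * (Q / (Real.sqrt Q) ^ (k + 2))) := by
      rw [hr, ← pow_mul Q u (k + 2)]
      have e2 : u * (k + 2) = u * k + 2 * u := by ring
      rw [e2, pow_add Q (u * k) (2 * u), add_zero, pow_succ Q (u * k), ← pow_mul, inv_pow]
      field_simp
    rw [e1]
    apply mul_le_mul_of_nonneg_left _ (by positivity)
    apply mul_le_mul_of_nonneg_left _ hK0
    rw [hA, div_le_div_iff₀ (by positivity) (by positivity), one_mul]
    calc Q * (Q * Real.sqrt Q) = (Real.sqrt Q) ^ 5 := by rw [h5']; ring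
      _ ≤ _ := h5
  have ht2 : ∀ u v, 1 ≤ v → v < k → f (u * k + v + 1) = (r ^ 2) ^ u * r ^ (k + 1 - v) := by
    intro u v hv hvk
    rw [hf]
    show Q ^ (u * k + v + 1) * (bq k Q (u * k + v + 1)) ^ (k + 2) = _
    rw [bq_other k hk Q u v hv hvk, ← inv_pow, ← hr, ← pow_mul, ← pow_mul, ← pow_add]
    have e : (u + 1) * (k + 2) = (u * k + v + 1) + (2 * u + (k + 1 - v)) := by
      have : (u + 1) * (k + 2) = u * k + 2 * u + k + 2 := by ring
      omega
    rw [e, pow_add r (u * k + v + 1), ← mul_assoc, ← mul_pow, mul_comm Q r, hrQ, one_pow, one_mul]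
  -- a block
  have hblock : ∀ u, ∑ v ∈ range k, f (u * k + v + 1) ≤ (r ^ 2) ^ u * ((K + 2) * A) := by
    intro u
    obtain ⟨n, hn⟩ : ∃ n, k = n + 1 := ⟨k - 1, by omega⟩
    have h1 : ∑ v ∈ range k, f (u * k + v + 1) =
        ∑ i ∈ range n, f (u * k + (i + 1) + 1) + f (u * k + 0 + 1) := by
      rw [show range k = range (n + 1) by rw [hn], Finset.sum_range_succ']
    have h2 : ∑ i ∈ range n, f (u * k + (i + 1) + 1) =
        (r ^ 2) ^ u * ∑ i ∈ range n, r ^ (n - i + 1) := by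
      rw [Finset.mul_sum]
      apply Finset.sum_congr rfl
      intro i hi
      rw [Finset.mem_range] at hi
      rw [ht2 u (i + 1) (by omega) (by omega)]
      congr 2
      omega
    have h3 : ∑ i ∈ range n, r ^ (n - i + 1) ≤ 2 * A := by
      have hg := geo_rev r n
      have hp : 0 < r ^ (n + 2) := by positivity
      have hnn : 0 ≤ ∑ i ∈ range n, r ^ (n - i + 1) := Finset.sum_nonneg fun i _ => by positivity
      nlinarith
    have hp : (0 : ℝ) ≤ (r ^ 2) ^ u := by positivity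
    rw [h1, h2]
    have h4 := ht1 u
    have h5 := mul_le_mul_of_nonneg_left h3 hp
    have e : (r ^ 2) ^ u * ((K + 2) * A) = (r ^ 2) ^ u * (2 * A) + (r ^ 2) ^ u * (K * A) := by ring
    rw [e]
    linarith
  -- all blocks
  have hIcc : ∑ j ∈ Icc 1 C, f j = ∑ j ∈ range C, f (j + 1) := by
    rw [Finset.range_eq_Ico, Finset.sum_Ico_add' (fun j => f j) 0 C 1]
    apply Finset.sum_congr _ (fun _ _ => rfl)
    ext x
    simp only [Finset.mem_Icc, Finset.mem_Ico]
    omega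
  have hle : ∑ j ∈ range C, f (j + 1) ≤ ∑ j ∈ range (C * k), f (j + 1) := by
    apply Finset.sum_le_sum_of_subset_of_nonneg
    · apply Finset.range_subset_range.2
      exact Nat.le_mul_of_pos_right C (by omega)
    · intro i _ _
      exact hf0 _
  have hgeo : ∑ u ∈ range C, (r ^ 2) ^ u ≤ 2 := by
    have hg := geom_sum_mul_neg (r ^ 2) C
    have hp : 0 < (r ^ 2) ^ C := by positivity
    have hnn : 0 ≤ ∑ u ∈ range C, (r ^ 2) ^ u := Finset.sum_nonneg fun i _ => by positivity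
    have hr4 : r ^ 2 ≤ 1 / 4 := by nlinarith
    nlinarith
  calc ∑ j ∈ Icc 1 C, Q ^ j * (bq k Q j) ^ (k + 2) = ∑ j ∈ Icc 1 C, f j := by rw [hf]
    _ ≤ ∑ j ∈ range (C * k), f (j + 1) := by rw [hIcc]; exact hle
    _ = ∑ u ∈ range C, ∑ v ∈ range k, f (u * k + v + 1) := sum_block f k C
    _ ≤ ∑ u ∈ range C, (r ^ 2) ^ u * ((K + 2) * A) := Finset.sum_le_sum fun u _ => hblock u
    _ = (∑ u ∈ range C, (r ^ 2) ^ u) * ((K + 2) * A) := by rw [Finset.sum_mul]
    _ ≤ 2 * ((K + 2) * A) := mul_le_mul_of_nonneg_right hgeo (by positivity)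
    _ = _ := by rw [hA, hK]; ring

open scoped Classical in
theorem num_b {F : Type*} [Field F] [Fintype F] (C : ℕ) :
    ∑ p ∈ (Pl F (C + 1)).filter (fun p => p.Monic ∧ Irreducible p),
      1 / ((Fintype.card F : ℝ) ^ p.natDegree *
        Real.sqrt ((Fintype.card F : ℝ) ^ p.natDegree)) ≤ 4 / Real.sqrt (Fintype.card F) := by
  have hq2 : 2 ≤ Fintype.card F := Fintype.one_lt_card
  obtain ⟨q, hq⟩ : ∃ q : ℝ, q = (Fintype.card F : ℝ) := ⟨_, rfl⟩
  have hqq : (2 : ℝ) ≤ q := by rw [hq]; exact_mod_cast hq2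
  have hq0 : (0 : ℝ) < q := by linarith
  rw [← hq]
  obtain ⟨s, hs⟩ : ∃ s : ℝ, s = (Real.sqrt q)⁻¹ := ⟨_, rfl⟩
  have hsq0 : 0 < Real.sqrt q := Real.sqrt_pos.2 hq0
  have hs0 : 0 < s := by rw [hs]; positivity
  have hsq : ∀ d : ℕ, Real.sqrt (q ^ d) = (Real.sqrt q) ^ d := by
    intro d
    have : q ^ d = ((Real.sqrt q) ^ d) ^ 2 := by
      rw [← pow_mul, mul_comm, pow_mul, Real.sq_sqrt hq0.le]
    rw [this, Real.sqrt_sq (by positivity)]
  have hs3 : s ≤ 3 / 4 := by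
    rw [hs]
    rw [inv_le_comm₀ hsq0 (by norm_num)]
    apply Real.le_sqrt_of_sq_le
    norm_num
    linarith
  have hmap : ∀ p ∈ (Pl F (C + 1)).filter (fun p => p.Monic ∧ Irreducible p),
      p.natDegree ∈ Icc 1 C := by
    intro p hp
    rw [Finset.mem_filter, mem_Pl] at hp
    obtain ⟨h1, h2, h3⟩ := hp
    rw [degree_eq_natDegree h2.ne_zero] at h1
    have h1' : p.natDegree < C + 1 := by exact_mod_cast h1
    have h4 := h3.natDegree_pos
    rw [Finset.mem_Icc]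
    omega
  rw [← Finset.sum_fiberwise_of_maps_to hmap]
  have hterm : ∀ d ∈ Icc 1 C, ∑ p ∈ ((Pl F (C + 1)).filter
      (fun p => p.Monic ∧ Irreducible p)).filter (fun p => p.natDegree = d),
      1 / (q ^ p.natDegree * Real.sqrt (q ^ p.natDegree)) ≤ s ^ d := by
    intro d hd
    have h1 : ∑ p ∈ ((Pl F (C + 1)).filter
        (fun p => p.Monic ∧ Irreducible p)).filter (fun p => p.natDegree = d),
        1 / (q ^ p.natDegree * Real.sqrt (q ^ p.natDegree)) =
        (((Pl F (C + 1)).filter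
        (fun p => p.Monic ∧ Irreducible p)).filter (fun p => p.natDegree = d)).card *
        (1 / (q ^ d * Real.sqrt (q ^ d))) := by
      rw [← nsmul_eq_mul]
      apply Finset.sum_eq_card_nsmul
      intro p hp
      rw [Finset.mem_filter] at hp
      rw [hp.2]
    have h2 : (((Pl F (C + 1)).filter
        (fun p => p.Monic ∧ Irreducible p)).filter (fun p => p.natDegree = d)).card ≤
        (Pl F d).card := by
      apply Finset.card_le_card_of_injOn (fun p => p - X ^ d)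
      · intro p hp
        rw [Finset.mem_coe, Finset.mem_filter, Finset.mem_filter] at hp
        obtain ⟨⟨_, hm, _⟩, hdeg⟩ := hp
        rw [Finset.mem_coe, mem_Pl]
        have hpd : p.degree = d := by
          rw [degree_eq_natDegree hm.ne_zero, hdeg]
        have : (p - X ^ d).degree < p.degree := by
          apply degree_sub_lt_left _ hm.ne_zero
          · rw [hm.leadingCoeff, leadingCoeff_X_pow]
          · rw [hpd, degree_X_pow]
        rwa [hpd] at this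
      · intro p _ p' _ h
        exact sub_left_injective h
    rw [card_Pl] at h2
    have h3 : ((((Pl F (C + 1)).filter
        (fun p => p.Monic ∧ Irreducible p)).filter (fun p => p.natDegree = d)).card : ℝ) ≤
        q ^ d := by
      rw [hq]
      exact_mod_cast h2
    rw [h1, hsq]
    calc _ ≤ q ^ d * (1 / (q ^ d * (Real.sqrt q) ^ d)) :=
          mul_le_mul_of_nonneg_right h3 (by positivity)
      _ = s ^ d := by
        rw [hs, inv_pow]
        field_simp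
  refine (Finset.sum_le_sum hterm).trans ?_
  have hIcc : ∑ d ∈ Icc 1 C, s ^ d = s * ∑ d ∈ range C, s ^ d := by
    rw [Finset.mul_sum, Finset.range_eq_Ico]
    have : ∀ d ∈ Ico 0 C, s * s ^ d = (fun j => s ^ j) (d + 1) := fun d _ => by
      show _ = s ^ (d + 1)
      rw [pow_succ]; ring
    rw [Finset.sum_congr rfl this, Finset.sum_Ico_add' (fun j => s ^ j) 0 C 1]
    apply Finset.sum_congr _ (fun _ _ => rfl)
    ext x
    simp only [Finset.mem_Icc, Finset.mem_Ico]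
    omega
  rw [hIcc, div_eq_mul_inv, ← hs, mul_comm (4 : ℝ) s]
  apply mul_le_mul_of_nonneg_left _ hs0.le
  have hg := geom_sum_mul_neg s C
  have hp : 0 < s ^ C := by positivity
  have hnn : 0 ≤ ∑ u ∈ range C, s ^ u := Finset.sum_nonneg fun i _ => by positivity
  nlinarith

end FFW
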