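import Pool.Agent.FFW.Euler
import Pool.Agent.FFW.Num

/-!
# FFW/SumG: the absolute singular series

`A = 2 (k ^ (k+2) + 2)`. `sum_g`: `∑_{g monic, deg ≤ C} q ^ (deg g) (bb k g) ^ (k+2) ≤ exp(4 A / √q)`.
PROOF. For `g` monic, `q ^ (deg g) (bb k g) ^ (k+2) = ∏_{p | g} Q_p ^ j (bq k Q_p j) ^ (k+2)`,
`j = count p`, `Q_p = q ^ (deg p)` (`deg g = ∑ j deg p`: `g = ∏ normalizedFactors g`). By `euler`
with `W p j = Q_p ^ j (bq k Q_p j) ^ (k+2)` (nonnegative), `num_a` (`Q_p ≥ q ≥ 2`),
`1 + x ≤ exp x` and `num_b`.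

`sum_e`: `∑_{e ≤ C} q ^ e (bb k (X ^ e)) ^ (k+2) ≤ exp(A / √q)`.
PROOF. `bb k (X ^ 0) = 1`, `bb k (X ^ e) = bq k q e` for `e ≥ 1` (`X` monic irreducible of degree
1); so the sum is `≤ 1 + A / (q √q) ≤ 1 + A / √q ≤ exp(A / √q)` by `num_a` with `Q = q`.
-/

open Finset Polynomial

namespace FFW

open scoped Classical in
private theorem deg_prod {F : Type*} [Field F] [Fintype F]
    (g : F[X]) (hg : g.Monic) :
    g.natDegree = ∑ p ∈ (UniqueFactorizationMonoid.normalizedFactors g).toFinset,
      (UniqueFactorizationMonoid.normalizedFactors g).count p * p.natDegree := by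
  have h1 : (UniqueFactorizationMonoid.normalizedFactors g).prod = g := by
    rw [UniqueFactorizationMonoid.prod_normalizedFactors_eq hg.ne_zero, hg.normalize_eq_self]
  have h2 : g = ∏ p ∈ (UniqueFactorizationMonoid.normalizedFactors g).toFinset,
      p ^ (UniqueFactorizationMonoid.normalizedFactors g).count p := by
    conv_lhs => rw [← h1]
    rw [Finset.prod_multiset_count]
  have h3 : ∀ p ∈ (UniqueFactorizationMonoid.normalizedFactors g).toFinset,
      p ^ (UniqueFactorizationMonoid.normalizedFactors g).count p ≠ 0 := by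
    intro p hp
    apply pow_ne_zero
    exact (UniqueFactorizationMonoid.irreducible_of_normalized_factor p
      (Multiset.mem_toFinset.1 hp)).ne_zero
  calc g.natDegree = (∏ p ∈ (UniqueFactorizationMonoid.normalizedFactors g).toFinset,
      p ^ (UniqueFactorizationMonoid.normalizedFactors g).count p).natDegree := by rw [← h2]
    _ = _ := by
      rw [Polynomial.natDegree_prod _ _ h3]
      apply Finset.sum_congr rfl
      intro p _
      rw [Polynomial.natDegree_pow]

open scoped Classical in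
theorem sum_g {F : Type*} [Field F] [Fintype F] (k : ℕ) (hk : 3 ≤ k) (C : ℕ) :
    ∑ g ∈ (Pl F (C + 1)).filter (fun g => g.Monic),
      (Fintype.card F : ℝ) ^ g.natDegree * (bb k g) ^ (k + 2) ≤
      Real.exp (4 * (2 * ((k : ℝ) ^ (k + 2) + 2)) / Real.sqrt (Fintype.card F)) := by
  have hq2 : 2 ≤ Fintype.card F := Fintype.one_lt_card
  have hqq : (2 : ℝ) ≤ (Fintype.card F : ℝ) := by exact_mod_cast hq2
  have hq0 : (0 : ℝ) < (Fintype.card F : ℝ) := by linarith
  have hq1 : (1 : ℝ) ≤ (Fintype.card F : ℝ) := by linarith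
  obtain ⟨A, hA⟩ : ∃ A : ℝ, A = 2 * ((k : ℝ) ^ (k + 2) + 2) := ⟨_, rfl⟩
  have hA0 : 0 ≤ A := by rw [hA]; positivity
  have hE := euler (F := F) C (fun p j => ((Fintype.card F : ℝ) ^ p.natDegree) ^ j *
    (bq k ((Fintype.card F : ℝ) ^ p.natDegree) j) ^ (k + 2)) (fun p j => by
      have := bq_nonneg k ((Fintype.card F : ℝ) ^ p.natDegree) (by positivity) j
      positivity)
  have hterm : ∀ g ∈ (Pl F (C + 1)).filter (fun g => g.Monic),
      (Fintype.card F : ℝ) ^ g.natDegree * (bb k g) ^ (k + 2) =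
      ∏ p ∈ (UniqueFactorizationMonoid.normalizedFactors g).toFinset,
        (((Fintype.card F : ℝ) ^ p.natDegree) ^
          ((UniqueFactorizationMonoid.normalizedFactors g).count p) *
        (bq k ((Fintype.card F : ℝ) ^ p.natDegree)
          ((UniqueFactorizationMonoid.normalizedFactors g).count p)) ^ (k + 2)) := by
    intro g hg
    rw [mem_filter] at hg
    rw [Finset.prod_mul_distrib]
    congr 1
    · conv_lhs => rw [deg_prod g hg.2]
      rw [← Finset.prod_pow_eq_pow_sum]
      apply Finset.prod_congr rfl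
      intro p _
      rw [← pow_mul, mul_comm]
    · unfold bb
      rw [Finset.prod_pow]
  rw [Finset.sum_congr rfl hterm]
  refine hE.trans ?_
  have hfac : ∀ p ∈ (Pl F (C + 1)).filter (fun p => p.Monic ∧ Irreducible p),
      1 + ∑ j ∈ Icc 1 C, ((Fintype.card F : ℝ) ^ p.natDegree) ^ j *
        (bq k ((Fintype.card F : ℝ) ^ p.natDegree) j) ^ (k + 2) ≤
      Real.exp (A * (1 / ((Fintype.card F : ℝ) ^ p.natDegree *
        Real.sqrt ((Fintype.card F : ℝ) ^ p.natDegree)))) := by
    intro p hp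
    rw [mem_filter] at hp
    have hd : 1 ≤ p.natDegree := hp.2.2.natDegree_pos
    have hQ : (2 : ℝ) ≤ (Fintype.card F : ℝ) ^ p.natDegree := by
      calc (2 : ℝ) ≤ (Fintype.card F : ℝ) := hqq
        _ = (Fintype.card F : ℝ) ^ 1 := (pow_one _).symm
        _ ≤ _ := pow_le_pow_right₀ hq1 hd
    have h1 := num_a k hk _ hQ C
    rw [← hA] at h1
    have h2 := Real.add_one_le_exp (A * (1 / ((Fintype.card F : ℝ) ^ p.natDegree *
        Real.sqrt ((Fintype.card F : ℝ) ^ p.natDegree))))
    rw [mul_one_div] at h2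
    rw [mul_one_div]
    linarith
  calc _ ≤ ∏ p ∈ (Pl F (C + 1)).filter (fun p => p.Monic ∧ Irreducible p),
      Real.exp (A * (1 / ((Fintype.card F : ℝ) ^ p.natDegree *
        Real.sqrt ((Fintype.card F : ℝ) ^ p.natDegree)))) := by
        apply Finset.prod_le_prod _ hfac
        intro p _
        have : 0 ≤ ∑ j ∈ Icc 1 C, ((Fintype.card F : ℝ) ^ p.natDegree) ^ j *
            (bq k ((Fintype.card F : ℝ) ^ p.natDegree) j) ^ (k + 2) := by
          apply Finset.sum_nonneg
          intro j _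
          have := bq_nonneg k ((Fintype.card F : ℝ) ^ p.natDegree) (by positivity) j
          positivity
        positivity
    _ = Real.exp (A * ∑ p ∈ (Pl F (C + 1)).filter (fun p => p.Monic ∧ Irreducible p),
        (1 / ((Fintype.card F : ℝ) ^ p.natDegree *
        Real.sqrt ((Fintype.card F : ℝ) ^ p.natDegree)))) := by
        rw [← Real.exp_sum, Finset.mul_sum]
    _ ≤ Real.exp (A * (4 / Real.sqrt (Fintype.card F))) := by
        apply Real.exp_le_exp.2
        exact mul_le_mul_of_nonneg_left (num_b (F := F) C) hA0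
    _ = _ := by
        rw [hA]
        congr 1
        ring

open scoped Classical in
private theorem bb_one {F : Type*} [Field F] [Fintype F] (k : ℕ) :
    bb k (1 : F[X]) = 1 := by
  unfold bb
  rw [UniqueFactorizationMonoid.normalizedFactors_one]
  simp

open scoped Classical in
private theorem bb_X {F : Type*} [Field F] [Fintype F] (k e : ℕ) (he : 1 ≤ e) :
    bb k (X ^ e : F[X]) = bq k (Fintype.card F : ℝ) e := by
  have h1 : UniqueFactorizationMonoid.normalizedFactors (X ^ e : F[X]) =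
      Multiset.replicate e X := by
    rw [UniqueFactorizationMonoid.normalizedFactors_pow,
      UniqueFactorizationMonoid.normalizedFactors_irreducible Polynomial.irreducible_X,
      (Polynomial.monic_X (R := F)).normalize_eq_self, Multiset.nsmul_singleton]
  unfold bb
  rw [h1, Multiset.toFinset_replicate, if_neg (by omega), Finset.prod_singleton,
    Multiset.count_replicate_self, Polynomial.natDegree_X, pow_one]

theorem sum_e {F : Type*} [Field F] [Fintype F] (k : ℕ) (hk : 3 ≤ k) (C : ℕ) :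
    ∑ e ∈ range (C + 1), (Fintype.card F : ℝ) ^ e * (bb k (X ^ e : F[X])) ^ (k + 2) ≤
      Real.exp (2 * ((k : ℝ) ^ (k + 2) + 2) / Real.sqrt (Fintype.card F)) := by
  have hq2 : 2 ≤ Fintype.card F := Fintype.one_lt_card
  have hqq : (2 : ℝ) ≤ (Fintype.card F : ℝ) := by exact_mod_cast hq2
  have hq0 : (0 : ℝ) < (Fintype.card F : ℝ) := by linarith
  have hq1 : (1 : ℝ) ≤ (Fintype.card F : ℝ) := by linarith
  have hs0 : 0 < Real.sqrt (Fintype.card F : ℝ) := Real.sqrt_pos.2 hq0
  obtain ⟨A, hA⟩ : ∃ A : ℝ, A = 2 * ((k : ℝ) ^ (k + 2) + 2) := ⟨_, rfl⟩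
  have hA0 : 0 ≤ A := by rw [hA]; positivity
  rw [Finset.sum_range_succ', pow_zero, pow_zero, bb_one, one_pow, mul_one, ← hA]
  have h1 : ∑ e ∈ range C, (Fintype.card F : ℝ) ^ (e + 1) *
      (bb k (X ^ (e + 1) : F[X])) ^ (k + 2) = ∑ j ∈ Icc 1 C, (Fintype.card F : ℝ) ^ j *
      (bq k (Fintype.card F : ℝ) j) ^ (k + 2) := by
    have hIcc : Icc 1 C = (range C).image (fun j => j + 1) := by
      ext j
      simp only [mem_Icc, mem_image, mem_range]
      constructor
      · rintro ⟨h1, h2⟩; exact ⟨j - 1, by omega, by omega⟩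
      · rintro ⟨i, h1, rfl⟩; omega
    rw [hIcc, Finset.sum_image (by intro a _ b _ h; simpa using h)]
    refine Finset.sum_congr rfl fun j _ => ?_
    rw [bb_X k (j + 1) (by omega)]
  have h2 := num_a k hk _ hqq C
  rw [← hA] at h2
  have h3 : A / ((Fintype.card F : ℝ) * Real.sqrt (Fintype.card F)) ≤
      A / Real.sqrt (Fintype.card F) := by
    apply div_le_div_of_nonneg_left hA0 hs0
    nlinarith
  have h4 := Real.add_one_le_exp (A / Real.sqrt (Fintype.card F))
  rw [h1]
  linarith

end FFW
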