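import Pool.Agent.FFW.Dec
import Pool.Agent.FFW.Fac
import Pool.Agent.FFW.Loc
import Pool.Agent.FFW.SumG

/-!
# FFW/Maj: the major arcs contribute at most half of the main term, absolutely

`Maj M C s`: some nonzero `G` of degree `≤ C` has `fn (M+1) s (G y) = 0` for all `y` of degree
`≤ M - C`. For `M = k D`, `C ≤ D`, `k ≥ 3`, `q ≥ (26 (k ^ (k+2) + 2)) ^ 2`:
`∑_{0 ≠ s ∈ Maj} (‖S ψ k (fn (M+1) s) (D+1)‖ / q ^ (D+1)) ^ (k+2) ≤ 1/2`.

PROOF. For `s ∈ Maj`, `dec` gives `(g, e, φ₁, φ₂)`, `deg g + e ≤ C ≤ D`, primitive; by `fac`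
(with `β = fn (M+1) s`) and `loc` (for `φ₁, g` and `φ₂, X ^ e`, `natDegree (X ^ e) = e`) the
normalised sum is `≤ bb k g * bb k (X ^ e)`. If `g = 1` and `e = 0` then `φ₁ = φ₂ = 0`, so `s = 0`
(`fn (M+1) s (X ^ j) = s j`). So the sum over `s ≠ 0` is at most the sum over the pairs
`(g, e) ≠ (1, 0)`, `g` monic of degree `≤ C`, `e ≤ C`, of (number of `s` with a decomposition,
`≤ q ^ (deg g + e)` by `cnt`) `* (bb k g * bb k (X ^ e)) ^ (k+2)`
`≤ (∑_g q ^ (deg g) (bb k g) ^ (k+2)) (∑_e q ^ e (bb k (X ^ e)) ^ (k+2)) - 1`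
(the pair `(1, 0)` contributes `1`; `bb` is nonnegative) `≤ exp(5 A / √q) - 1 ≤ 1/2` with
`A = 2 (k ^ (k+2) + 2)`, `√q ≥ 13 A`, `exp(5/13) ≤ 3/2`.
-/

open Finset Polynomial

namespace FFW

/-- functionals with a small denominator -/
def Maj {F : Type*} [Field F] [Fintype F] (M C : ℕ) (s : Fin (M + 1) → F) : Prop :=
  ∃ G : F[X], G ≠ 0 ∧ G ∈ Pl F (C + 1) ∧ ∀ y ∈ Pl F (M + 1 - C), fn (M + 1) s (G * y) = 0

private theorem bb_nonneg {F : Type*} [Field F] [Fintype F] (k : ℕ) (g : F[X]) : 0 ≤ bb k g := by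
  unfold bb
  refine Finset.prod_nonneg fun p _ => ?_
  unfold bq
  split_ifs <;> positivity

private theorem bb_one {F : Type*} [Field F] [Fintype F] (k : ℕ) : bb k (1 : F[X]) = 1 := by
  classical
  unfold bb
  rw [UniqueFactorizationMonoid.normalizedFactors_one]
  simp

private theorem exp_bd : Real.exp (5 / 13) ≤ 3 / 2 := by
  have h1 : Real.exp (5 / 13) ^ 13 = Real.exp 1 ^ 5 := by
    rw [← Real.exp_nat_mul, ← Real.exp_nat_mul]
    norm_num
  have h2 : Real.exp 1 ^ 5 ≤ (3 / 2 : ℝ) ^ 13 := by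
    have h3 : Real.exp 1 ≤ 2.7182818286 := Real.exp_one_lt_d9.le
    calc Real.exp 1 ^ 5 ≤ (2.7182818286 : ℝ) ^ 5 :=
          pow_le_pow_left₀ (Real.exp_pos 1).le h3 5
      _ ≤ _ := by norm_num
  rw [← h1] at h2
  exact (pow_le_pow_iff_left₀ (Real.exp_pos _).le (by norm_num) (by norm_num)).1 h2

private theorem sB {F : Type*} [Field F] [Fintype F] (ψ : AddChar F ℂ) (hψ : ψ ≠ 1) (k : ℕ)
    (hk : 3 ≤ k) (hkF : (k : F) ≠ 0) (D C : ℕ) (hC : C ≤ D) (s : Fin (k * D + 1) → F)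
    (g : F[X]) (e : ℕ) (hg : g.Monic) (hge : g.natDegree + e ≤ C) (φ₁ φ₂ : F[X] →ₗ[F] F)
    (h₁ : Prim φ₁ g) (h₂ : Prim φ₂ (X ^ e : F[X]))
    (hz : ∀ z ∈ Pl F (k * D + 1), fn (k * D + 1) s z = φ₁ z + φ₂ (reflect (k * D) z)) :
    ‖S ψ k (fn (k * D + 1) s) (D + 1)‖ / (Fintype.card F : ℝ) ^ (D + 1) ≤
      bb k g * bb k (X ^ e : F[X]) := by
  have hq : (0 : ℝ) < Fintype.card F := by
    exact_mod_cast Fintype.card_pos
  have e1 := fac ψ k D g hg e (by omega) φ₁ φ₂ (fn (k * D + 1) s) h₁.1 h₂.1 hz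
  have e2 := loc ψ hψ k (by omega) hkF g hg φ₁ h₁
  have e3 := loc ψ hψ k (by omega) hkF (X ^ e) (monic_X_pow e) φ₂ h₂
  rw [natDegree_X_pow] at e3
  rw [e1, div_le_iff₀ (by positivity), norm_mul, norm_mul, norm_pow, Complex.norm_natCast]
  have b1 := bb_nonneg k g
  have b2 := bb_nonneg k (X ^ e : F[X])
  calc (Fintype.card F : ℝ) ^ (D + 1 - g.natDegree - e) * ‖S ψ k φ₁ g.natDegree‖ * ‖S ψ k φ₂ e‖
      ≤ (Fintype.card F : ℝ) ^ (D + 1 - g.natDegree - e) *
        ((Fintype.card F : ℝ) ^ g.natDegree * bb k g) *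
        ((Fintype.card F : ℝ) ^ e * bb k (X ^ e)) := by gcongr
    _ = bb k g * bb k (X ^ e) * (Fintype.card F : ℝ) ^ (D + 1) := by
      have h3 : D + 1 = (D + 1 - g.natDegree - e) + g.natDegree + e := by omega
      conv_rhs => rw [h3, pow_add, pow_add]
      ring

open scoped Classical in
theorem maj_sum {F : Type*} [Field F] [Fintype F] (ψ : AddChar F ℂ) (hψ : ψ ≠ 1) (k : ℕ)
    (hk : 3 ≤ k) (hkF : (k : F) ≠ 0) (hq : (26 * ((k : ℝ) ^ (k + 2) + 2)) ^ 2 ≤ Fintype.card F)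
    (D C : ℕ) (hC : C ≤ D) :
    ∑ s ∈ (univ.filter (fun s : Fin (k * D + 1) → F => Maj (k * D) C s)).erase 0,
      (‖S ψ k (fn (k * D + 1) s) (D + 1)‖ / (Fintype.card F : ℝ) ^ (D + 1)) ^ (k + 2) ≤ 1 / 2 := by
  set q : ℝ := (Fintype.card F : ℝ) with hqdef
  have hq0 : (0 : ℝ) < q := by
    rw [hqdef]
    exact_mod_cast Fintype.card_pos
  set S0 := (univ.filter (fun s : Fin (k * D + 1) → F => Maj (k * D) C s)).erase 0 with hS0
  set P : Finset (F[X] × ℕ) := ((Pl F (C + 1)).filter (fun g => g.Monic)) ×ˢ range (C + 1) with hP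
  have hCM : C ≤ k * D := le_trans hC (Nat.le_mul_of_pos_left D (by omega))
  have hex : ∀ s ∈ S0, ∃ p : F[X] × ℕ, p ∈ P.erase (1, 0) ∧
      s ∈ univ.filter (fun s : Fin (k * D + 1) → F => ∃ φ₁ φ₂ : F[X] →ₗ[F] F,
        (∀ y, φ₁ (p.1 * y) = 0) ∧ (∀ y, φ₂ (X ^ p.2 * y) = 0) ∧
        ∀ z ∈ Pl F (k * D + 1), fn (k * D + 1) s z = φ₁ z + φ₂ (reflect (k * D) z)) ∧
      (‖S ψ k (fn (k * D + 1) s) (D + 1)‖ / q ^ (D + 1)) ^ (k + 2) ≤
        (bb k p.1 * bb k (X ^ p.2 : F[X])) ^ (k + 2) := by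
    intro s hs
    rw [hS0, Finset.mem_erase, Finset.mem_filter] at hs
    obtain ⟨hs0, _, G, hG, hGd, hGy⟩ := hs
    obtain ⟨g, e, φ₁, φ₂, hg, hge, h₁, h₂, hz⟩ := dec (k * D) C hCM s G hG hGd hGy
    refine ⟨(g, e), ?_, ?_, ?_⟩
    · rw [Finset.mem_erase, hP, Finset.mem_product, Finset.mem_filter, Finset.mem_range, mem_Pl]
      refine ⟨?_, ⟨?_, hg⟩, by simp only; omega⟩
      · intro h
        apply hs0
        have hg1 : g = 1 := congrArg Prod.fst h
        have he0 : e = 0 := congrArg Prod.snd h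
        subst hg1 he0
        funext j
        have h3 := hz (X ^ (j : ℕ)) (by
          rw [mem_Pl, degree_X_pow]
          exact_mod_cast j.2)
        have h4 := h₁.1 (X ^ (j : ℕ))
        have h5 := h₂.1 (reflect (k * D) (X ^ (j : ℕ)))
        rw [one_mul] at h4
        rw [pow_zero, one_mul] at h5
        rw [h4, h5, add_zero, fn_apply, Finset.sum_eq_single j] at h3
        · rw [coeff_X_pow, if_pos rfl, mul_one] at h3
          exact h3
        · intro b _ hb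
          rw [coeff_X_pow, if_neg, mul_zero]
          intro hbj
          exact hb (Fin.ext hbj)
        · intro hnot
          exact absurd (Finset.mem_univ j) hnot
      · simp only
        rw [degree_eq_natDegree hg.ne_zero]
        have : g.natDegree < C + 1 := by omega
        exact_mod_cast this
    · rw [Finset.mem_filter]
      exact ⟨Finset.mem_univ _, φ₁, φ₂, h₁.1, h₂.1, hz⟩
    · refine pow_le_pow_left₀ (by positivity) ?_ _
      exact sB ψ hψ k hk hkF D C hC s g e hg hge φ₁ φ₂ h₁ h₂ hz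
  choose! p hp1 hp2 hp3 using hex
  have hone : q ^ ((1 : F[X]).natDegree + 0) *
      (bb k (1 : F[X]) * bb k ((X : F[X]) ^ 0)) ^ (k + 2) = 1 := by
    rw [natDegree_one, pow_zero, pow_zero, bb_one]
    norm_num
  have hmem : ((1 : F[X]), 0) ∈ P := by
    rw [hP, Finset.mem_product, Finset.mem_filter, Finset.mem_range, mem_Pl]
    refine ⟨⟨?_, monic_one⟩, Nat.succ_pos C⟩
    simp only
    rw [degree_one]
    exact_mod_cast Nat.succ_pos C
  have hmain : ∑ s ∈ S0, (‖S ψ k (fn (k * D + 1) s) (D + 1)‖ / q ^ (D + 1)) ^ (k + 2) ≤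
      ∑ x ∈ P.erase (1, 0), q ^ (x.1.natDegree + x.2) * (bb k x.1 * bb k (X ^ x.2 : F[X])) ^ (k + 2) := by
    rw [← Finset.sum_fiberwise_of_maps_to hp1]
    refine Finset.sum_le_sum fun x hx => ?_
    have hx1 : x.1.Monic := by
      have := (Finset.mem_erase.1 hx).2
      rw [hP, Finset.mem_product, Finset.mem_filter] at this
      exact this.1.2
    have hc := cnt (F := F) (k * D) x.1 hx1 x.2
    have hsub : S0.filter (fun s => p s = x) ⊆
        univ.filter (fun s : Fin (k * D + 1) → F => ∃ φ₁ φ₂ : F[X] →ₗ[F] F,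
        (∀ y, φ₁ (x.1 * y) = 0) ∧ (∀ y, φ₂ (X ^ x.2 * y) = 0) ∧
        ∀ z ∈ Pl F (k * D + 1), fn (k * D + 1) s z = φ₁ z + φ₂ (reflect (k * D) z)) := by
      intro s hs
      rw [Finset.mem_filter] at hs
      have := hp2 s hs.1
      rw [hs.2] at this
      exact this
    have hcard : ((S0.filter (fun s => p s = x)).card : ℝ) ≤ q ^ (x.1.natDegree + x.2) := by
      have h1 := le_trans (Finset.card_le_card hsub) hc
      rw [hqdef]
      exact_mod_cast h1
    have hBn : 0 ≤ (bb k x.1 * bb k (X ^ x.2 : F[X])) ^ (k + 2) :=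
      pow_nonneg (mul_nonneg (bb_nonneg k _) (bb_nonneg k _)) _
    calc _ ≤ ∑ s ∈ S0.filter (fun s => p s = x), (bb k x.1 * bb k (X ^ x.2 : F[X])) ^ (k + 2) := by
          refine Finset.sum_le_sum fun s hs => ?_
          rw [Finset.mem_filter] at hs
          have := hp3 s hs.1
          rw [hs.2] at this
          exact this
      _ = ((S0.filter (fun s => p s = x)).card : ℝ) * (bb k x.1 * bb k (X ^ x.2 : F[X])) ^ (k + 2) := by
          rw [Finset.sum_const, nsmul_eq_mul]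
      _ ≤ _ := mul_le_mul_of_nonneg_right hcard hBn
  have htot : ∑ x ∈ P, q ^ (x.1.natDegree + x.2) * (bb k x.1 * bb k (X ^ x.2 : F[X])) ^ (k + 2) =
      (∑ g ∈ (Pl F (C + 1)).filter (fun g => g.Monic), q ^ g.natDegree * (bb k g) ^ (k + 2)) *
      ∑ e ∈ range (C + 1), q ^ e * (bb k (X ^ e : F[X])) ^ (k + 2) := by
    rw [hP, Finset.sum_product, Finset.sum_mul_sum]
    refine Finset.sum_congr rfl fun g _ => Finset.sum_congr rfl fun e _ => ?_
    rw [pow_add, mul_pow]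
    ring
  have hsplit := Finset.add_sum_erase P
    (fun x => q ^ (x.1.natDegree + x.2) * (bb k x.1 * bb k (X ^ x.2 : F[X])) ^ (k + 2)) hmem
  simp only at hsplit
  rw [hone] at hsplit
  have hg := sum_g (F := F) k hk C
  have he := sum_e (F := F) k hk C
  rw [← hqdef] at hg he
  set A : ℝ := 2 * ((k : ℝ) ^ (k + 2) + 2) with hA
  have hA0 : 0 < A := by positivity
  have hsq : 13 * A ≤ √q := by
    apply Real.le_sqrt_of_sq_le
    rw [hA]
    calc (13 * (2 * ((k : ℝ) ^ (k + 2) + 2))) ^ 2 = (26 * ((k : ℝ) ^ (k + 2) + 2)) ^ 2 := by ring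
      _ ≤ q := hq
  have hsq0 : 0 < √q := lt_of_lt_of_le (by positivity) hsq
  have hexp : Real.exp (4 * A / √q) * Real.exp (A / √q) ≤ 3 / 2 := by
    rw [← Real.exp_add]
    refine le_trans (Real.exp_le_exp.2 ?_) exp_bd
    rw [← add_div, div_le_iff₀ hsq0]
    linarith
  have hfin : (∑ g ∈ (Pl F (C + 1)).filter (fun g => g.Monic), q ^ g.natDegree * (bb k g) ^ (k + 2)) *
      ∑ e ∈ range (C + 1), q ^ e * (bb k (X ^ e : F[X])) ^ (k + 2) ≤ 3 / 2 := by
    refine le_trans (mul_le_mul hg he ?_ (Real.exp_pos _).le) hexp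
    exact Finset.sum_nonneg fun e _ => mul_nonneg (by positivity) (pow_nonneg (bb_nonneg k _) _)
  linarith

end FFW
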