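import Pool.Agent.FFW.Weyl
import Pool.Agent.FFW.Iter
import Pool.Agent.FFW.Maj

/-!
# FFW/Minor: the minor arcs

If `s` is not in `Maj (k D) C`, `C = (2 ^ (k-1) - 1)(T + 2)`, `2 ^ (k-1) (T + 2) ≤ D`, then the
normalised sum `λ` satisfies `λ ^ (2 ^ (k-1)) ≤ q ^ (-T)`.

PROOF. Otherwise `weyl` (`a = D + 1`) gives `(q ^ (D+1)) ^ (k-1) ≤ q ^ T * #{...}`, and `iter` with
`r = k - 1`, `l = D`, `β = fn (k D + 1) s` gives `G ≠ 0` of degree `≤ C` with
`fn (k D + 1) s (G y) = 0` for `y ∈ Pl (D + (k - 1) D + 1 - C)`, `D + (k-1) D = k D`.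
-/

open Finset Polynomial

namespace FFW

theorem minor {F : Type*} [Field F] [Fintype F] (ψ : AddChar F ℂ) (hψ : ψ ≠ 1) (k : ℕ)
    (hk : 1 ≤ k) (hfac : (k.factorial : F) ≠ 0) (D T : ℕ) (hT : 2 ^ (k - 1) * (T + 2) ≤ D)
    (s : Fin (k * D + 1) → F) (hs : ¬ Maj (k * D) ((2 ^ (k - 1) - 1) * (T + 2)) s) :
    (‖S ψ k (fn (k * D + 1) s) (D + 1)‖ / (Fintype.card F : ℝ) ^ (D + 1)) ^ (2 ^ (k - 1)) ≤
      1 / (Fintype.card F : ℝ) ^ T := by
  classical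
  by_contra hcon
  rw [not_le] at hcon
  apply hs
  have hq : (0 : ℝ) < (Fintype.card F : ℝ) := by
    have : 0 < Fintype.card F := Fintype.card_pos
    exact_mod_cast this
  have h1 := lt_of_lt_of_le hcon (weyl ψ hψ k hk hfac (fn (k * D + 1) s) (D + 1))
  rw [div_lt_div_iff₀ (by positivity) (by positivity), one_mul] at h1
  have h2 : (Fintype.card F ^ (D + 1)) ^ (k - 1) ≤ Fintype.card F ^ T *
      ((Fintype.piFinset (fun _ : Fin (k - 1) => Pl F (D + 1))).filter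
        (fun h => ∀ y ∈ Pl F (D + 1), fn (k * D + 1) s ((∏ i, h i) * y) = 0)).card := by
    rw [mul_comm (Fintype.card F ^ T)]
    have h3 := h1.le
    exact_mod_cast h3
  obtain ⟨G, hG0, hG, hGy⟩ := iter (k - 1) (fn (k * D + 1) s) D D T le_rfl hT (by convert h2)
  refine ⟨G, hG0, hG, fun y hy => hGy y ?_⟩
  have e : D + (k - 1) * D + 1 = k * D + 1 := by
    obtain ⟨j, rfl⟩ : ∃ j, k = j + 1 := ⟨k - 1, by omega⟩
    rw [Nat.add_sub_cancel]
    ring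
  rw [e]
  exact hy

end FFW
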