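import Mathlib

/-!
# FFW/Param: choice of the parameters

PROOF. Let `n = k ((k-1) (D / (k-1))) + 1`, so `k D + 1 - k (k-2) ≤ n ≤ k D + 1`, `K = k 4 ^ k`,
`q ≥ k ^ K`, `q ≥ (k-1) K + 1`, `q ≥ 2`, `q ≥ (26 (k ^ (k+2) + 2)) ^ 2`. Then
`k ^ n ≤ k ^ (K (n / K + 1)) ≤ q ^ (n / K + 1)` and `(k-1) n / (q-1) + 1 ≤ n / K + 1`. So the left
side is at most `q ^ (1 + (k D + 1) + 2 (n / K + 1))` (with `2 ≤ q`), and it suffices that
`k D + 4 + 2 (n / K) < (k+2) τ + n`, `τ = (D - 2 ^ k) / 4 ^ (k-1)`; as `n ≥ k D + 1 - k (k-2)`,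
`2 (n / K) ≤ 2 (k D + 1) / (k 4 ^ k) ≤ D / (2 * 4 ^ (k-1)) + 1` and
`τ ≥ (D - 2 ^ k) / 4 ^ (k-1) - 1` (real quotients) this holds for
`(k + 2 - 1/2) D / 4 ^ (k-1) > (k+2)(2 ^ k + 1) + k (k-2) + 5`, e.g. for all
`D ≥ D₀ = 4 ^ (k-1) ((k+2)(2 ^ k + 1) + k ^ 2 + 5)`.
-/

namespace FFW

private theorem expo {k D P T a τ n : ℕ} (hk : 3 ≤ k) (hP : 1 ≤ P) (h1 : k * (4 * P) * a ≤ n)
    (h2 : n ≤ k * D + 1) (h3 : k * D + 1 ≤ n + k * (k - 2)) (h4 : D < T + P * (τ + 1))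
    (hD : P * ((k + 2) * (T + 1) + k ^ 2 + 5) ≤ D) : k * D + 4 + 2 * a < (k + 2) * τ + n := by
  obtain ⟨m, rfl⟩ : ∃ m, k = m + 3 := ⟨k - 3, by omega⟩
  have e : m + 3 - 2 = m + 1 := by omega
  rw [e] at h3
  have h5 : 4 * P * a ≤ D := by
    by_contra hlt
    push Not at hlt
    have : (m + 3) * (D + 1) ≤ (m + 3) * (4 * P * a) := Nat.mul_le_mul_left _ hlt
    nlinarith
  by_contra hle
  push Not at hle
  have h6 : (m + 5) * τ ≤ 3 + 2 * a + (m + 3) * (m + 1) := by nlinarith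
  have h7 : P * ((m + 5) * τ) ≤ P * (3 + 2 * a + (m + 3) * (m + 1)) := Nat.mul_le_mul_left _ h6
  have h8 : (m + 5) * (D + 1) ≤ (m + 5) * (T + P * (τ + 1)) := Nat.mul_le_mul_left _ h4
  have h9 : T ≤ P * T := Nat.le_mul_of_pos_left _ hP
  have h10 : (m + 5) * T ≤ (m + 5) * (P * T) := Nat.mul_le_mul_left _ h9
  nlinarith

theorem param (k : ℕ) (hk : 3 ≤ k) : ∃ q₀ D₀ : ℕ, ∀ q D : ℕ, q₀ ≤ q → D₀ ≤ D →
    2 ≤ q ∧ 2 ^ k ≤ D ∧ k ≤ D ∧ (26 * ((k : ℝ) ^ (k + 2) + 2)) ^ 2 ≤ (q : ℝ) ∧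
    2 * q ^ (k * D + 1) *
      (q ^ ((k - 1) * (k * ((k - 1) * (D / (k - 1))) + 1) / (q - 1) + 1) *
        k ^ (k * ((k - 1) * (D / (k - 1))) + 1)) <
      q ^ ((k + 2) * ((D - 2 ^ k) / 4 ^ (k - 1))) *
        q ^ (k * ((k - 1) * (D / (k - 1))) + 1) := by
  have hP : 1 ≤ 4 ^ (k - 1) := Nat.one_le_pow _ _ (by norm_num)
  refine ⟨k ^ (k * 4 ^ k) + ((k - 1) * (k * 4 ^ k) + 1) + (26 * (k ^ (k + 2) + 2)) ^ 2 + 2,
    4 ^ (k - 1) * ((k + 2) * (2 ^ k + 1) + k ^ 2 + 5), ?_⟩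
  intro q D hq hD
  have hD1 : (k + 2) * (2 ^ k + 1) + k ^ 2 + 5 ≤ D := le_trans (Nat.le_mul_of_pos_left _ hP) hD
  have hT : 2 ^ k ≤ D := by nlinarith [Nat.zero_le (k ^ 2)]
  have hkD : k ≤ D := by
    have : k ≤ (k + 2) * (2 ^ k + 1) := (Nat.le_add_right k 2).trans (Nat.le_mul_of_pos_right _ (by positivity))
    omega
  have hq2 : 2 ≤ q := by omega
  refine ⟨hq2, hT, hkD, ?_, ?_⟩
  · have : (26 * (k ^ (k + 2) + 2)) ^ 2 ≤ q := by omega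
    exact_mod_cast this
  · set n := k * ((k - 1) * (D / (k - 1))) + 1 with hn
    set K := k * 4 ^ k with hK
    have hK0 : 0 < K := by positivity
    have hqK : k ^ K ≤ q := by omega
    have hqK1 : (k - 1) * K ≤ q - 1 := by omega
    -- the size of `n`
    have hdiv := Nat.div_add_mod D (k - 1)
    have hmod := Nat.mod_lt D (show 0 < k - 1 by omega)
    have h2 : n ≤ k * D + 1 := by
      rw [hn]
      have : (k - 1) * (D / (k - 1)) ≤ D := Nat.mul_div_le D (k - 1)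
      nlinarith
    have h3 : k * D + 1 ≤ n + k * (k - 2) := by
      rw [hn]
      have : D ≤ (k - 1) * (D / (k - 1)) + (k - 2) := by omega
      nlinarith
    have e4 : 4 ^ k = 4 * 4 ^ (k - 1) := by
      rw [← pow_succ']
      congr 1
      omega
    have h1 : k * (4 * 4 ^ (k - 1)) * (n / K) ≤ n := by
      rw [← e4]
      exact Nat.mul_div_le n K
    have h4 : D < 2 ^ k + 4 ^ (k - 1) * ((D - 2 ^ k) / 4 ^ (k - 1) + 1) := by
      have := Nat.lt_mul_div_succ (D - 2 ^ k) (show 0 < 4 ^ (k - 1) by omega)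
      omega
    have hexp := expo hk hP h1 h2 h3 h4 hD
    -- the powers
    have g1 : k ^ n ≤ q ^ (n / K + 1) := by
      calc k ^ n ≤ k ^ (K * (n / K + 1)) :=
            Nat.pow_le_pow_right (by omega) (Nat.lt_mul_div_succ n hK0).le
        _ = (k ^ K) ^ (n / K + 1) := pow_mul _ _ _
        _ ≤ q ^ (n / K + 1) := Nat.pow_le_pow_left hqK _
    have g2 : q ^ ((k - 1) * n / (q - 1) + 1) ≤ q ^ (n / K + 1) := by
      refine Nat.pow_le_pow_right (by omega) (Nat.add_le_add_right ?_ 1)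
      calc (k - 1) * n / (q - 1) ≤ (k - 1) * n / ((k - 1) * K) :=
            Nat.div_le_div_left hqK1 (Nat.mul_pos (by omega) hK0)
        _ = n / K := Nat.mul_div_mul_left _ _ (by omega)
    calc 2 * q ^ (k * D + 1) * (q ^ ((k - 1) * n / (q - 1) + 1) * k ^ n)
        ≤ q * q ^ (k * D + 1) * (q ^ (n / K + 1) * q ^ (n / K + 1)) :=
          Nat.mul_le_mul (Nat.mul_le_mul_right _ hq2) (Nat.mul_le_mul g2 g1)
      _ = q ^ (k * D + 4 + 2 * (n / K)) := by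
          rw [← pow_succ', ← pow_add, ← pow_add]
          congr 1
          ring
      _ < q ^ ((k + 2) * ((D - 2 ^ k) / 4 ^ (k - 1)) + n) := Nat.pow_lt_pow_right (by omega) hexp
      _ = _ := pow_add _ _ _

end FFW
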