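import Pool.Agent.FFW.WSet
import Pool.Agent.FFW.Minor
import Pool.Agent.FFW.Circle
import Pool.Agent.FFW.Param

/-!
# FFW/Final: Waring's problem over `F_q[t]`, `q` large: `3k + 2` summands

Assembly of `exists_W`, `maj_sum`, `minor`, `circle`, `param`.
-/

open Finset Polynomial

namespace FFW

/-- a nontrivial additive character of a finite field -/
theorem exists_psi (F : Type*) [Field F] [Fintype F] : ∃ ψ : AddChar F ℂ, ψ ≠ 1 := by
  obtain ⟨ψ, hψ⟩ := AddChar.exists_apply_ne_zero.2 (one_ne_zero (α := F))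
  refine ⟨ψ, ?_⟩
  rintro rfl
  exact hψ rfl

theorem core {F : Type*} [Field F] [Fintype F] (k D : ℕ) (hk : 3 ≤ k) (hkD : k ≤ D)
    (h2k : 2 ^ k ≤ D) (hchar : ∀ j : ℕ, 1 ≤ j → j ≤ k → (j : F) ≠ 0)
    (hq : (26 * ((k : ℝ) ^ (k + 2) + 2)) ^ 2 ≤ Fintype.card F)
    (hpar : 2 * Fintype.card F ^ (k * D + 1) *
      (Fintype.card F ^ ((k - 1) * (k * ((k - 1) * (D / (k - 1))) + 1) /
        (Fintype.card F - 1) + 1) * k ^ (k * ((k - 1) * (D / (k - 1))) + 1)) <
      Fintype.card F ^ ((k + 2) * ((D - 2 ^ k) / 4 ^ (k - 1))) *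
        Fintype.card F ^ (k * ((k - 1) * (D / (k - 1))) + 1))
    (N : F[X]) (hN : N ∈ Pl F (k * D + 1)) :
    ∃ (x y : Fin k → F[X]) (z : Fin (k + 2) → F[X]), (∀ i, x i ∈ Pl F (D + 1)) ∧
      (∀ i, y i ∈ Pl F (D + 1)) ∧ (∀ i, z i ∈ Pl F (D + 1)) ∧
      N = ∑ i, x i ^ k + ∑ i, y i ^ k + ∑ i, z i ^ k := by
  classical
  obtain ⟨ψ, hψ⟩ := exists_psi F
  set q := Fintype.card F with hqdef
  have hq2 : 2 ≤ q := Fintype.one_lt_card
  have hq1 : (1 : ℝ) ≤ q := by exact_mod_cast (le_trans one_le_two hq2)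
  have hq0 : (0 : ℝ) < q := by linarith
  have hkF : (k : F) ≠ 0 := hchar k (by omega) le_rfl
  have hfac : (k.factorial : F) ≠ 0 := by
    have : ∀ j : ℕ, j ≤ k → (j.factorial : F) ≠ 0 := by
      intro j
      induction j with
      | zero => intro _; simp
      | succ j ih =>
        intro hj
        rw [Nat.factorial_succ, Nat.cast_mul]
        exact mul_ne_zero (hchar (j + 1) (by omega) hj) (ih (by omega))
    exact this k le_rfl
  set E := D / (k - 1) with hE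
  have hE1 : 1 ≤ E := by
    rw [hE]
    exact (Nat.one_le_div_iff (by omega)).2 (by omega)
  set n := k * ((k - 1) * E) + 1 with hn
  set m := (k - 1) * n / (q - 1) + 1 with hm
  have hEle : (k - 1) * E ≤ D := by
    rw [hE]
    exact Nat.mul_div_le D (k - 1)
  have hmm : (k - 1) * n < (q - 1) * m := by
    rw [hm]
    exact Nat.lt_mul_div_succ _ (by omega)
  obtain ⟨W, hW, hWcard⟩ := exists_W (F := F) k E m (by omega) hE1 hkF (by rw [← hn]; exact hmm)
  rw [← hn, ← hqdef] at hWcard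
  set τ := (D - 2 ^ k) / 4 ^ (k - 1) with hτ
  set T := 2 ^ (k - 1) * τ with hT
  have h4 : 4 ^ (k - 1) = 2 ^ (k - 1) * 2 ^ (k - 1) := by
    rw [← mul_pow]
    norm_num
  have h22 : 2 ^ k = 2 ^ (k - 1) * 2 := by
    rw [← pow_succ]
    congr 1
    omega
  have hTD : 2 ^ (k - 1) * (T + 2) ≤ D := by
    have h1 : 4 ^ (k - 1) * τ ≤ D - 2 ^ k := by
      rw [hτ]
      exact Nat.mul_div_le _ _
    have h3 : 2 ^ (k - 1) * (T + 2) = 4 ^ (k - 1) * τ + 2 ^ k := by
      rw [hT, h4, h22]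
      ring
    rw [h3]
    omega
  set C := (2 ^ (k - 1) - 1) * (T + 2) with hC
  have hCD : C ≤ D := by
    refine le_trans ?_ hTD
    rw [hC]
    exact Nat.mul_le_mul_right _ (Nat.sub_le _ _)
  have hWne : W.Nonempty := by
    rw [← Finset.card_pos]
    by_contra h0
    have : W.card = 0 := by omega
    rw [this, mul_zero] at hWcard
    have : 0 < q ^ n := pow_pos (by omega) _
    omega
  have hsub : ∀ w ∈ W, w ∈ Pl F (k * D + 1) := by
    intro w hw
    refine Pl_mono ?_ (hW w hw).1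
    have := Nat.mul_le_mul_left k hEle
    omega
  -- the bound for the minor arcs
  have hlam : ∀ s : Fin (k * D + 1) → F,
      0 ≤ ‖S ψ k (fn (k * D + 1) s) (D + 1)‖ / (q : ℝ) ^ (D + 1) := by
    intro s
    positivity
  have hminor : ∀ s : Fin (k * D + 1) → F, s ∉ {s | Maj (F := F) (k * D) C s} →
      (‖S ψ k (fn (k * D + 1) s) (D + 1)‖ / (q : ℝ) ^ (D + 1)) ^ (k + 2) ≤
        1 / (q : ℝ) ^ ((k + 2) * τ) := by
    intro s hs
    have h1 := minor ψ hψ k (by omega) hfac D T hTD s hs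
    rw [← hqdef] at h1
    have h2 : ‖S ψ k (fn (k * D + 1) s) (D + 1)‖ / (q : ℝ) ^ (D + 1) ≤ 1 / (q : ℝ) ^ τ := by
      have h3 : (1 / (q : ℝ) ^ τ) ^ (2 ^ (k - 1)) = 1 / (q : ℝ) ^ T := by
        rw [div_pow, one_pow, ← pow_mul, hT, mul_comm τ]
      rw [← h3] at h1
      exact le_of_pow_le_pow_left₀ (pow_ne_zero _ (by norm_num)) (by positivity) h1
    calc _ ≤ (1 / (q : ℝ) ^ τ) ^ (k + 2) := pow_le_pow_left₀ (hlam s) h2 _
      _ = 1 / (q : ℝ) ^ ((k + 2) * τ) := by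
        rw [div_pow, one_pow, ← pow_mul, mul_comm τ]
  have hδ : 2 * (1 / (q : ℝ) ^ ((k + 2) * τ)) * (q : ℝ) ^ (k * D + 1) < W.card := by
    have hp : (2 * (q : ℝ) ^ (k * D + 1)) * ((q : ℝ) ^ m * (k : ℝ) ^ n) <
        (q : ℝ) ^ ((k + 2) * τ) * (q : ℝ) ^ n := by
      exact_mod_cast hpar
    have hw : (q : ℝ) ^ n ≤ (q : ℝ) ^ m * (k : ℝ) ^ n * W.card := by
      exact_mod_cast hWcard
    have hkpos : (0 : ℝ) < (k : ℝ) ^ n := by
      have : (0 : ℝ) < k := by exact_mod_cast (by omega : 0 < k)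
      positivity
    have hA : (0 : ℝ) < (q : ℝ) ^ m * (k : ℝ) ^ n := by positivity
    have hB : (0 : ℝ) < (q : ℝ) ^ ((k + 2) * τ) := by positivity
    have h1 : (2 * (q : ℝ) ^ (k * D + 1)) * ((q : ℝ) ^ m * (k : ℝ) ^ n) <
        ((q : ℝ) ^ ((k + 2) * τ) * W.card) * ((q : ℝ) ^ m * (k : ℝ) ^ n) := by
      calc _ < (q : ℝ) ^ ((k + 2) * τ) * (q : ℝ) ^ n := hp
        _ ≤ (q : ℝ) ^ ((k + 2) * τ) * ((q : ℝ) ^ m * (k : ℝ) ^ n * W.card) :=
          mul_le_mul_of_nonneg_left hw hB.le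
        _ = _ := by ring
    have h2 := lt_of_mul_lt_mul_right h1 hA.le
    have h3 : 2 * (1 / (q : ℝ) ^ ((k + 2) * τ)) * (q : ℝ) ^ (k * D + 1) =
        (2 * (q : ℝ) ^ (k * D + 1)) / (q : ℝ) ^ ((k + 2) * τ) := by
      field_simp
    rw [h3, div_lt_iff₀ hB]
    linarith
  have hmaj : ∀ A' : Finset (Fin (k * D + 1) → F),
      (∀ s ∈ A', s ∈ {s | Maj (F := F) (k * D) C s} ∧ s ≠ 0) →
      ∑ s ∈ A', (‖S ψ k (fn (k * D + 1) s) (D + 1)‖ / (Fintype.card F : ℝ) ^ (D + 1)) ^ (k + 2)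
        ≤ 1 / 2 := by
    intro A' hA'
    refine le_trans ?_ (maj_sum ψ hψ k hk hkF hq D C hCD)
    apply Finset.sum_le_sum_of_subset_of_nonneg
    · intro s hs
      rw [Finset.mem_erase, Finset.mem_filter]
      exact ⟨(hA' s hs).2, Finset.mem_univ _, (hA' s hs).1⟩
    · intro s _ _
      exact pow_nonneg (hlam s) _
  obtain ⟨w₁, hw₁, w₂, hw₂, z, hz, hNe⟩ := circle ψ hψ k D (k + 2) W hsub hWne
    {s | Maj (F := F) (k * D) C s} (1 / (q : ℝ) ^ ((k + 2) * τ)) hmaj hminor hδ N hN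
  obtain ⟨x, hx, hxe⟩ := (hW w₁ hw₁).2
  obtain ⟨y, hy, hye⟩ := (hW w₂ hw₂).2
  refine ⟨x, y, z, fun i => Pl_mono (by omega) (hx i), fun i => Pl_mono (by omega) (hy i), hz, ?_⟩
  rw [hNe, hxe, hye]

/-- **Waring's problem over `F_q[t]` for large `q`**: `3 k + 2` strict `k`-th powers suffice. -/
theorem main (k : ℕ) (hk : 3 ≤ k) : ∃ q₀ D₀ : ℕ, ∀ (F : Type) [Field F] [Fintype F],
    q₀ ≤ Fintype.card F → k < ringChar F → ∀ N : F[X], D₀ ≤ N.natDegree →
    ∀ s : ℕ, 3 * k + 2 ≤ s → ∃ x : Fin s → F[X],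
      (∀ i, k * (x i).natDegree < N.natDegree + k) ∧ ∑ i, x i ^ k = N := by
  obtain ⟨q₀, D₀, hpar⟩ := param k hk
  refine ⟨q₀, k * D₀, ?_⟩
  intro F _ _ hq hchar N hN s hs
  have hk0 : 0 < k := by omega
  -- `D = ⌈deg N / k⌉`
  set D := (N.natDegree + k - 1) / k with hD
  have hkD1 : k * D < N.natDegree + k := by
    have := Nat.mul_div_le (N.natDegree + k - 1) k
    rw [← hD] at this
    omega
  have hkD2 : N.natDegree ≤ k * D := by
    have := Nat.lt_mul_div_succ (N.natDegree + k - 1) hk0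
    rw [← hD] at this
    have e : k * (D + 1) = k * D + k := by ring
    omega
  have hD0 : D₀ ≤ D := by
    rw [hD, Nat.le_div_iff_mul_le hk0, mul_comm]
    omega
  obtain ⟨-, h2k, hkD, hq', hp⟩ := hpar (Fintype.card F) D hq hD0
  have hNmem : N ∈ Pl F (k * D + 1) := by
    rw [mem_Pl]
    refine lt_of_le_of_lt degree_le_natDegree ?_
    exact_mod_cast Nat.lt_succ_of_le hkD2
  have hch : ∀ j : ℕ, 1 ≤ j → j ≤ k → (j : F) ≠ 0 := by
    intro j hj hjk h0
    have := (ringChar.spec F j).1 h0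
    have := Nat.le_of_dvd (by omega) this
    omega
  obtain ⟨x, y, z, hx, hy, hz, hNe⟩ := core k D hk hkD h2k hch hq' hp N hNmem
  have hdeg : ∀ p : F[X], p ∈ Pl F (D + 1) → k * p.natDegree < N.natDegree + k := by
    intro p hp
    rw [mem_Pl] at hp
    have : p.natDegree ≤ D := by
      rw [natDegree_le_iff_degree_le]
      exact Order.lt_succ_iff.mp (by exact_mod_cast hp)
    have := Nat.mul_le_mul_left k this
    omega
  -- combine the three families and pad with zeros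
  obtain ⟨r, rfl⟩ : ∃ r, s = ((k + k) + (k + 2)) + r := ⟨s - (3 * k + 2), by omega⟩
  refine ⟨Fin.append (Fin.append (Fin.append x y) z) (fun _ : Fin r => (0 : F[X])), ?_, ?_⟩
  · intro i
    refine Fin.addCases (fun i => ?_) (fun i => ?_) i
    · rw [Fin.append_left]
      refine Fin.addCases (fun i => ?_) (fun i => ?_) i
      · rw [Fin.append_left]
        refine Fin.addCases (fun i => ?_) (fun i => ?_) i
        · rw [Fin.append_left]; exact hdeg _ (hx i)
        · rw [Fin.append_right]; exact hdeg _ (hy i)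
      · rw [Fin.append_right]; exact hdeg _ (hz i)
    · rw [Fin.append_right]
      simp only [natDegree_zero, mul_zero]
      omega
  · rw [Fin.sum_univ_add, Fin.sum_univ_add, Fin.sum_univ_add]
    simp only [Fin.append_left, Fin.append_right]
    rw [zero_pow (by omega), Finset.sum_const_zero, add_zero, hNe]

end FFW
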