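import Mathlib

/-!
# FFW/Param2: choice of the parameters for `2k + 5`

PROOF. As in Param.lean (proved), with `τ = (D / (2 k) - 2 ^ k) / 4 ^ (k-1)` and `5` instead of
`k + 2`: with `n = k ((k-1) (D / (k-1))) + 1`, `K = 8 k ^ 2 4 ^ k`, `q ≥ k ^ K`, `q ≥ (k-1) K + 1` the left side is
at most `q ^ (2 + (k D + 1) + 2 (n / K + 1))` (`4 ≤ q ^ 2`), and it suffices that
`k D + 5 + 2 (n / K) < 5 τ + n`; `n ≥ k D + 1 - k (k-2)`, `2 (n / K) ≤ D / (4 k 4 ^ k) + 1`,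
`τ ≥ D / (2 k 4 ^ (k-1)) - (2 ^ k + 1) / 4 ^ (k-1) - 1` (real quotients, roughly), so this holds for large `D`.
-/

namespace FFW

private theorem expo2 {k D E P T a τ n : ℕ} (hk : 3 ≤ k) (hP : 1 ≤ P) (h1 : 8 * k ^ 2 * (4 * P) * a ≤ n)
    (h2 : n ≤ k * D + 1) (h3 : k * D + 1 ≤ n + k * (k - 2)) (h4 : E < T + P * (τ + 1))
    (hE : D < 2 * k * (E + 1)) (hD : k * P * (5 * T + k ^ 2 + 10) ≤ D) :
    k * D + 5 + 2 * a < 5 * τ + n := by
  obtain ⟨m, rfl⟩ : ∃ m, k = m + 3 := ⟨k - 3, by omega⟩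
  have e : m + 3 - 2 = m + 1 := by omega
  rw [e] at h3
  set s := (m + 3) * P with hs
  have hs1 : 1 ≤ s := Nat.mul_pos (by omega) hP
  have h5 : 32 * s * a ≤ D := by
    by_contra hlt
    push Not at hlt
    have e1 : 8 * (m + 3) ^ 2 * (4 * P) * a = (m + 3) * (32 * s * a) := by
      rw [hs]
      ring
    rw [e1] at h1
    have e2 : (m + 3) * (D + 1) ≤ (m + 3) * (32 * s * a) := Nat.mul_le_mul_left _ hlt
    nlinarith
  by_contra hle
  push Not at hle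
  have h6 : 5 * τ ≤ 4 + 2 * a + (m + 3) * (m + 1) := by omega
  have h7 : s * (5 * τ) ≤ s * (4 + 2 * a + (m + 3) * (m + 1)) := Nat.mul_le_mul_left _ h6
  have h8 : D < 2 * (m + 3) * T + 2 * (s * (τ + 1)) := by
    have e3 : 2 * (m + 3) * (E + 1) ≤ 2 * (m + 3) * (T + P * (τ + 1)) := Nat.mul_le_mul_left _ h4
    have e4 : 2 * (m + 3) * (T + P * (τ + 1)) = 2 * (m + 3) * T + 2 * (s * (τ + 1)) := by
      rw [hs]
      ring
    omega
  have h9 : (m + 3) * T ≤ s * T := Nat.mul_le_mul_right _ (Nat.le_mul_of_pos_right _ hP)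
  have h10 : s * ((m + 3) * (m + 1)) ≤ s * (m + 3) ^ 2 := Nat.mul_le_mul_left _ (by nlinarith)
  have e5 : s * (5 * T + (m + 3) ^ 2 + 10) = 5 * (s * T) + s * (m + 3) ^ 2 + 10 * s := by ring
  rw [e5] at hD
  have e6 : s * (4 + 2 * a + (m + 3) * (m + 1)) = 4 * s + 2 * (s * a) + s * ((m + 3) * (m + 1)) := by ring
  rw [e6] at h7
  have e7 : s * (5 * τ) = 5 * (s * τ) := by ring
  rw [e7] at h7
  have e8 : s * (τ + 1) = s * τ + s := by ring
  rw [e8] at h8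
  have e9 : 32 * s * a = 32 * (s * a) := by ring
  rw [e9] at h5
  have e10 : 2 * (m + 3) * T = 2 * ((m + 3) * T) := by ring
  rw [e10] at h8
  generalize s * a = u at *
  generalize s * τ = w at *
  generalize s * T = x at *
  generalize (m + 3) * T = y at *
  generalize s * ((m + 3) * (m + 1)) = z at *
  generalize s * (m + 3) ^ 2 = v at *
  omega

theorem param2 (k : ℕ) (hk : 3 ≤ k) : ∃ q₀ D₀ : ℕ, ∀ q D : ℕ, q₀ ≤ q → D₀ ≤ D →
    2 ≤ q ∧ 2 ^ k ≤ D / (2 * k) ∧ k ≤ D ∧ 10 * ((k : ℝ) ^ 5 + 1) ≤ Real.sqrt q ∧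
    4 * q ^ (k * D + 1) *
      (q ^ ((k - 1) * (k * ((k - 1) * (D / (k - 1))) + 1) / (q - 1) + 1) *
        k ^ (k * ((k - 1) * (D / (k - 1))) + 1)) <
      q ^ (5 * ((D / (2 * k) - 2 ^ k) / 4 ^ (k - 1))) *
        q ^ (k * ((k - 1) * (D / (k - 1))) + 1) := by
  have hP : 1 ≤ 4 ^ (k - 1) := Nat.one_le_pow _ _ (by norm_num)
  refine ⟨k ^ (8 * k ^ 2 * 4 ^ k) + ((k - 1) * (8 * k ^ 2 * 4 ^ k) + 1) + (10 * (k ^ 5 + 1)) ^ 2 + 2,
    k * 4 ^ (k - 1) * (5 * 2 ^ k + k ^ 2 + 10), ?_⟩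
  intro q D hq hD
  have hkP : k ≤ k * 4 ^ (k - 1) := Nat.le_mul_of_pos_right _ hP
  have hD1 : k * (5 * 2 ^ k + k ^ 2 + 10) ≤ D :=
    le_trans (Nat.mul_le_mul_right _ hkP) hD
  have hT : 2 ^ k ≤ D / (2 * k) := by
    rw [Nat.le_div_iff_mul_le (by omega)]
    nlinarith [Nat.zero_le (k * k ^ 2), Nat.zero_le (k * 2 ^ k), Nat.zero_le k]
  have hkD : k ≤ D := by
    have : k ≤ k * (5 * 2 ^ k + k ^ 2 + 10) := Nat.le_mul_of_pos_right _ (by positivity)
    omega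
  have hq2 : 2 ≤ q := by omega
  refine ⟨hq2, hT, hkD, ?_, ?_⟩
  · have h : (10 * (k ^ 5 + 1)) ^ 2 ≤ q := by omega
    refine Real.le_sqrt_of_sq_le ?_
    exact_mod_cast h
  · set n := k * ((k - 1) * (D / (k - 1))) + 1 with hn
    set K := 8 * k ^ 2 * 4 ^ k with hK
    have hK0 : 0 < K := by positivity
    have hqK : k ^ K ≤ q := by omega
    have hqK1 : (k - 1) * K ≤ q - 1 := by omega
    -- the size of `n`
    have hdiv := Nat.div_add_mod D (k - 1)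
    have hmod := Nat.mod_lt D (show 0 < k - 1 by omega)
    have h2 : n ≤ k * D + 1 := by
      rw [hn]
      have : (k - 1) * (D / (k - 1)) ≤ D := Nat.mul_div_le D (k - 1)
      nlinarith
    have h3 : k * D + 1 ≤ n + k * (k - 2) := by
      rw [hn]
      have : D ≤ (k - 1) * (D / (k - 1)) + (k - 2) := by omega
      nlinarith
    have e4 : 4 ^ k = 4 * 4 ^ (k - 1) := by
      rw [← pow_succ']
      congr 1
      omega
    have h1 : 8 * k ^ 2 * (4 * 4 ^ (k - 1)) * (n / K) ≤ n := by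
      rw [← e4]
      exact Nat.mul_div_le n K
    have h4 : D / (2 * k) < 2 ^ k + 4 ^ (k - 1) * ((D / (2 * k) - 2 ^ k) / 4 ^ (k - 1) + 1) := by
      have := Nat.lt_mul_div_succ (D / (2 * k) - 2 ^ k) (show 0 < 4 ^ (k - 1) by omega)
      omega
    have hE : D < 2 * k * (D / (2 * k) + 1) := Nat.lt_mul_div_succ D (by omega)
    have hexp := expo2 hk hP h1 h2 h3 h4 hE hD
    -- the powers
    have g1 : k ^ n ≤ q ^ (n / K + 1) := by
      calc k ^ n ≤ k ^ (K * (n / K + 1)) :=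
            Nat.pow_le_pow_right (by omega) (Nat.lt_mul_div_succ n hK0).le
        _ = (k ^ K) ^ (n / K + 1) := pow_mul _ _ _
        _ ≤ q ^ (n / K + 1) := Nat.pow_le_pow_left hqK _
    have g2 : q ^ ((k - 1) * n / (q - 1) + 1) ≤ q ^ (n / K + 1) := by
      refine Nat.pow_le_pow_right (by omega) (Nat.add_le_add_right ?_ 1)
      calc (k - 1) * n / (q - 1) ≤ (k - 1) * n / ((k - 1) * K) :=
            Nat.div_le_div_left hqK1 (Nat.mul_pos (by omega) hK0)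
        _ = n / K := Nat.mul_div_mul_left _ _ (by omega)
    have g3 : 4 ≤ q ^ 2 := by nlinarith
    calc 4 * q ^ (k * D + 1) * (q ^ ((k - 1) * n / (q - 1) + 1) * k ^ n)
        ≤ q ^ 2 * q ^ (k * D + 1) * (q ^ (n / K + 1) * q ^ (n / K + 1)) :=
          Nat.mul_le_mul (Nat.mul_le_mul_right _ g3) (Nat.mul_le_mul g2 g1)
      _ = q ^ (k * D + 5 + 2 * (n / K)) := by
          rw [← pow_add, ← pow_add, ← pow_add]
          congr 1
          ring
      _ < q ^ (5 * ((D / (2 * k) - 2 ^ k) / 4 ^ (k - 1)) + n) :=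
          Nat.pow_lt_pow_right (by omega) hexp
      _ = _ := pow_add _ _ _

end FFW
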