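import Pool.Agent.FFW.Den

/-!
# FFW/Part: partition of the solutions modulo `d ^ k` according to `gcd(d, x_1, ..., x_t)`

`dl k t d n = ∑_{a monic, a ∣ d, a ^ k ∣ n} |a| ^ k / |a| ^ t * dst k t (d / a) (n / a ^ k)`,
`|a| = q ^ (deg a)`.

PROOF. For `x ∈ (Pl (k deg d)) ^ t` let `a` be the monic gcd of `d, x_1, ..., x_t`
(`x_i = a y_i`; then no irreducible `p ∣ d / a` divides all `y_i`, and `a` is the only monic divisor of
`d` dividing all `x_i` with this property). For a given `a` the map `y ↦ a y` is a bijection from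
`(Pl (k deg d - deg a)) ^ t` (`deg a ≤ deg d ≤ k deg d`, `k ≥ 1`) to the `x` divisible by `a`.
`d ^ k ∣ a ^ k ∑ y_i ^ k - n` iff `a ^ k ∣ n` and `(d/a) ^ k ∣ ∑ y_i ^ k - n / a ^ k`
(`a ^ k ∣ d ^ k`, cancel `a ^ k`). The conditions on `y` depend only on the `y_i` modulo
`(d/a) ^ k` (degree `k deg d - k deg a`); every residue has `q ^ ((k-1) deg a)` representatives in
`Pl (k deg d - deg a)`. So
`rr k t (d ^ k) n = ∑_a (q ^ ((k-1) deg a)) ^ t * rp k t (d/a) (n / a ^ k)`. Multiply by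
`q ^ (k deg d) / q ^ (k t deg d)`; `deg d = deg a + deg (d/a)`.
-/

open Finset Polynomial

namespace FFW

private theorem mul_dbm {F : Type*} [Field F] {a z : F[X]} (ha : a.Monic) (h : a ∣ z) :
    a * (z /ₘ a) = z := by
  have h1 := modByMonic_add_div z a
  rw [(modByMonic_eq_zero_iff_dvd ha).2 h, zero_add] at h1
  exact h1

private theorem dbm_mul {F : Type*} [Field F] {a z : F[X]} (ha : a.Monic) :
    (a * z) /ₘ a = z := by
  have h1 := mul_dbm ha (Dvd.intro z rfl)
  exact mul_left_cancel₀ ha.ne_zero h1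

private theorem mem_of_mul {F : Type*} [Field F] [Fintype F] {a u : F[X]} {m : ℕ} (ha : a.Monic)
    (h : a * u ∈ Pl F (a.natDegree + m)) : u ∈ Pl F m := by
  rw [mem_Pl] at *
  by_cases hu : u = 0
  · subst hu
    rw [degree_zero]
    exact WithBot.bot_lt_coe m
  · rw [degree_mul, degree_eq_natDegree ha.ne_zero, degree_eq_natDegree hu] at h
    rw [degree_eq_natDegree hu]
    have : a.natDegree + u.natDegree < a.natDegree + m := by exact_mod_cast h
    have h2 : u.natDegree < m := by omega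
    exact_mod_cast h2

private theorem self_mem {F : Type*} [Field F] [Fintype F] (a : F[X]) :
    a ∈ Pl F (a.natDegree + 1) := by
  rw [mem_Pl]
  refine lt_of_le_of_lt degree_le_natDegree ?_
  exact_mod_cast Nat.lt_succ_self _

/-- `a` is the monic gcd of `d` and the `x i` -/
private def GG {F : Type*} [Field F] {t : ℕ} (d : F[X]) (x : Fin t → F[X]) (a : F[X]) : Prop :=
  a.Monic ∧ a ∣ d ∧ (∀ i, a ∣ x i) ∧
    ∀ p, Irreducible p → p ∣ d /ₘ a → ∃ i, ¬ p ∣ x i /ₘ a

private theorem GG_dvd {F : Type*} [Field F] {t : ℕ} {d : F[X]} (hd : d.Monic) {x : Fin t → F[X]}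
    {a b : F[X]} (ha : GG d x a) (hb1 : b ∣ d) (hb2 : ∀ i, b ∣ x i) : b ∣ a := by
  classical
  set l := EuclideanDomain.lcm a b with hl
  have h1 : l ∣ d := EuclideanDomain.lcm_dvd ha.2.1 hb1
  have h2 : ∀ i, l ∣ x i := fun i => EuclideanDomain.lcm_dvd (ha.2.2.1 i) (hb2 i)
  obtain ⟨c, hc⟩ : a ∣ l := EuclideanDomain.dvd_lcm_left a b
  have hbl : b ∣ l := EuclideanDomain.dvd_lcm_right a b
  have hcu : IsUnit c := by
    by_contra hcu
    have hc0 : c ≠ 0 := by
      rintro rfl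
      rw [mul_zero] at hc
      rw [hc, zero_dvd_iff] at h1
      exact hd.ne_zero h1
    obtain ⟨p, hp, hpc⟩ := WfDvdMonoid.exists_irreducible_factor hcu hc0
    obtain ⟨i, hi⟩ := ha.2.2.2 p hp (by
      apply dvd_trans hpc
      obtain ⟨e, he⟩ := h1
      rw [he, hc, mul_assoc, dbm_mul ha.1]
      exact Dvd.intro e rfl)
    apply hi
    apply dvd_trans hpc
    obtain ⟨e, he⟩ := h2 i
    rw [he, hc, mul_assoc, dbm_mul ha.1]
    exact Dvd.intro e rfl
  rw [hc] at hbl
  exact (hcu.dvd_mul_right).1 hbl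

private theorem GG_unique {F : Type*} [Field F] {t : ℕ} {d : F[X]} (hd : d.Monic)
    {x : Fin t → F[X]} {a b : F[X]} (ha : GG d x a) (hb : GG d x b) : a = b :=
  eq_of_monic_of_associated ha.1 hb.1
    (associated_of_dvd_dvd (GG_dvd hd hb ha.2.1 ha.2.2.1) (GG_dvd hd ha hb.2.1 hb.2.2.1))

private theorem GG_exists {F : Type*} [Field F] {t : ℕ} {d : F[X]} (hd : d.Monic)
    (x : Fin t → F[X]) : ∃ a, GG d x a := by
  classical
  -- a monic common divisor of maximal degree
  have hex : ∃ m, ∃ a : F[X], a.Monic ∧ a ∣ d ∧ (∀ i, a ∣ x i) ∧ d.natDegree - a.natDegree = m :=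
    ⟨_, 1, monic_one, one_dvd _, fun i => one_dvd _, rfl⟩
  obtain ⟨a, ha1, ha2, ha3, ha4⟩ := Nat.find_spec hex
  refine ⟨a, ha1, ha2, ha3, ?_⟩
  intro p hp hpd
  by_contra hcon
  push Not at hcon
  have hp0 : p ≠ 0 := hp.ne_zero
  set p' := p * C (p.leadingCoeff)⁻¹ with hp'
  have hp'm : p'.Monic := monic_mul_leadingCoeff_inv hp0
  have hassoc : ∀ z, p ∣ z → p' ∣ z := by
    intro z hz
    have hu : IsUnit (C (p.leadingCoeff)⁻¹ : F[X]) :=
      isUnit_C.2 (IsUnit.mk0 _ (inv_ne_zero (leadingCoeff_ne_zero.2 hp0)))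
    rw [hp']
    exact (hu.mul_right_dvd).2 hz
  have hdeg : 0 < p'.natDegree := by
    rw [hp', natDegree_mul_C (inv_ne_zero (leadingCoeff_ne_zero.2 hp0))]
    exact hp.natDegree_pos
  have hb1 : (a * p').Monic := ha1.mul hp'm
  have hb2 : a * p' ∣ d := by
    rw [← mul_dbm ha1 ha2]
    exact mul_dvd_mul_left a (hassoc _ hpd)
  have hb3 : ∀ i, a * p' ∣ x i := by
    intro i
    rw [← mul_dbm ha1 (ha3 i)]
    exact mul_dvd_mul_left a (hassoc _ (hcon i))
  have hlt : d.natDegree - (a * p').natDegree < Nat.find hex := by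
    rw [← ha4, ha1.natDegree_mul hp'm]
    have := natDegree_le_of_dvd hb2 hd.ne_zero
    rw [ha1.natDegree_mul hp'm] at this
    omega
  exact Nat.find_min hex hlt ⟨a * p', hb1, hb2, hb3, rfl⟩

open scoped Classical in
private theorem fib {F : Type*} [Field F] [Fintype F] (k t : ℕ) (hk : 1 ≤ k) {d a n : F[X]}
    (hd : d.Monic) (ha : a.Monic) (had : a ∣ d) (han : a ^ k ∣ n) :
    (((Fintype.piFinset (fun _ : Fin t => Pl F (d ^ k).natDegree)).filter
      (fun x => d ^ k ∣ ∑ i, x i ^ k - n)).filter (fun x => GG d x a)).card =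
      (Fintype.card F ^ ((k - 1) * a.natDegree)) ^ t * rp k t (d /ₘ a) (n /ₘ (a ^ k)) := by
  set c := d /ₘ a with hc
  set n' := n /ₘ (a ^ k) with hn'
  have hac : a * c = d := mul_dbm ha had
  have hcm : c.Monic := by
    have h := hd
    rw [← hac] at h
    exact ha.of_mul_monic_left h
  have hdeg : d.natDegree = a.natDegree + c.natDegree := by
    rw [← hac, ha.natDegree_mul hcm]
  have hck : (c ^ k).Monic := hcm.pow k
  have hak : (a ^ k).Monic := ha.pow k
  have hckd : (c ^ k).natDegree = k * c.natDegree := hcm.natDegree_pow k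
  have hdkd : (d ^ k).natDegree = k * d.natDegree := hd.natDegree_pow k
  have hn : a ^ k * n' = n := mul_dbm hak han
  have hK : (d ^ k).natDegree = a.natDegree + ((c ^ k).natDegree + (k - 1) * a.natDegree) := by
    rw [hdkd, hckd, hdeg]
    obtain ⟨k', rfl⟩ := Nat.exists_eq_add_of_le' hk
    simp only [Nat.add_sub_cancel]
    ring
  have hpc : ∀ p : F[X], p ∣ c → p ∣ c ^ k := fun p hp => hp.trans (dvd_pow_self c (by omega))
  have hpow : ∀ y z : F[X], c ^ k ∣ (y + c ^ k * z) ^ k - y ^ k := by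
    intro y z
    have h1 : (y + c ^ k * z) - y ∣ (y + c ^ k * z) ^ k - y ^ k := sub_dvd_pow_sub_pow _ _ k
    refine dvd_trans ?_ h1
    rw [add_sub_cancel_left]
    exact Dvd.intro z rfl
  have hcong : ∀ y z : Fin t → F[X], (d ^ k ∣ ∑ i, (a * (y i + c ^ k * z i)) ^ k - n) ↔
      (c ^ k ∣ ∑ i, y i ^ k - n') := by
    intro y z
    have e1 : ∑ i, (a * (y i + c ^ k * z i)) ^ k - n =
        a ^ k * (∑ i, (y i + c ^ k * z i) ^ k - n') := by
      rw [mul_sub, hn, Finset.mul_sum]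
      simp only [mul_pow]
    rw [e1, ← hac, mul_pow, mul_dvd_mul_iff_left hak.ne_zero]
    have e2 : ∑ i, (y i + c ^ k * z i) ^ k - n' =
        (∑ i, y i ^ k - n') + ∑ i, ((y i + c ^ k * z i) ^ k - y i ^ k) := by
      rw [Finset.sum_sub_distrib]
      ring
    rw [e2]
    exact dvd_add_left (Finset.dvd_sum fun i _ => hpow _ _)
  have hdvdp : ∀ p y z : F[X], p ∣ c → (p ∣ y + c ^ k * z ↔ p ∣ y) := by
    intro p y z hp
    exact dvd_add_left (Dvd.dvd.mul_right (hpc p hp) z)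
  have hcard : (Fintype.card F ^ ((k - 1) * a.natDegree)) ^ t =
      (Fintype.piFinset (fun _ : Fin t => Pl F ((k - 1) * a.natDegree))).card := by
    rw [Fintype.card_piFinset]
    simp [card_Pl]
  unfold rp
  rw [hcard, ← Finset.card_product]
  symm
  apply Finset.card_nbij'
    (fun q : (Fin t → F[X]) × (Fin t → F[X]) => fun i => a * (q.2 i + c ^ k * q.1 i))
    (fun x : Fin t → F[X] =>
      ((fun i => (x i /ₘ a) /ₘ (c ^ k)), (fun i => (x i /ₘ a) %ₘ (c ^ k))))
  · rintro ⟨z, y⟩ hq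
    simp only [Finset.mem_coe, Finset.mem_product, Finset.mem_filter, Fintype.mem_piFinset] at hq
    obtain ⟨hz, hy, hy2, hy3⟩ := hq
    simp only [Finset.mem_coe, Finset.mem_filter, Fintype.mem_piFinset]
    refine ⟨⟨fun i => ?_, (hcong y z).2 hy2⟩, ha, had, fun i => Dvd.intro _ rfl, ?_⟩
    · rw [hK]
      refine mul_mem_Pl (self_mem a) (add_mem_Pl (Pl_mono (Nat.le_add_right _ _) (hy i)) ?_)
      exact mul_mem_Pl (self_mem _) (hz i)
    · intro p hp hpc'
      obtain ⟨i, hi⟩ := hy3 p hp hpc'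
      refine ⟨i, ?_⟩
      rw [dbm_mul ha, hdvdp p _ _ hpc']
      exact hi
  · intro x hx
    simp only [Finset.mem_coe, Finset.mem_filter, Fintype.mem_piFinset] at hx
    obtain ⟨⟨hx1, hx2⟩, _, _, hx3, hx4⟩ := hx
    have hu : ∀ i, a * (x i /ₘ a) = x i := fun i => mul_dbm ha (hx3 i)
    have hr : ∀ i, (x i /ₘ a) %ₘ (c ^ k) + c ^ k * ((x i /ₘ a) /ₘ (c ^ k)) = x i /ₘ a :=
      fun i => modByMonic_add_div _ _
    have hum : ∀ i, x i /ₘ a ∈ Pl F ((c ^ k).natDegree + (k - 1) * a.natDegree) := by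
      intro i
      apply mem_of_mul ha
      rw [hu, ← hK]
      exact hx1 i
    have hrm : ∀ i, (x i /ₘ a) %ₘ (c ^ k) ∈ Pl F (c ^ k).natDegree := by
      intro i
      rw [mem_Pl, ← degree_eq_natDegree hck.ne_zero]
      exact degree_modByMonic_lt _ hck
    simp only [Finset.mem_coe, Finset.mem_product, Finset.mem_filter, Fintype.mem_piFinset]
    refine ⟨fun i => ?_, fun i => hrm i, ?_, ?_⟩
    · apply mem_of_mul hck
      have : c ^ k * ((x i /ₘ a) /ₘ (c ^ k)) = x i /ₘ a - (x i /ₘ a) %ₘ (c ^ k) := by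
        rw [eq_sub_iff_add_eq, add_comm]; exact hr i
      rw [this]
      exact sub_mem_Pl (hum i) (Pl_mono (Nat.le_add_right _ _) (hrm i))
    · rw [← hcong (fun i => (x i /ₘ a) %ₘ (c ^ k)) (fun i => (x i /ₘ a) /ₘ (c ^ k))]
      simp only [hr, hu]
      exact hx2
    · intro p hp hpc'
      obtain ⟨i, hi⟩ := hx4 p hp hpc'
      refine ⟨i, ?_⟩
      rw [← hr i, hdvdp p _ _ hpc'] at hi
      exact hi
  · rintro ⟨z, y⟩ hq
    simp only [Finset.mem_coe, Finset.mem_product, Finset.mem_filter, Fintype.mem_piFinset] at hq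
    obtain ⟨hz, hy, hy2, hy3⟩ := hq
    have key : ∀ i, (y i + c ^ k * z i) /ₘ (c ^ k) = z i ∧ (y i + c ^ k * z i) %ₘ (c ^ k) = y i := by
      intro i
      apply div_modByMonic_unique _ _ hck
      refine ⟨rfl, ?_⟩
      rw [degree_eq_natDegree hck.ne_zero]
      exact mem_Pl.1 (hy i)
    simp only [Prod.mk.injEq]
    constructor
    · funext i
      rw [dbm_mul ha, (key i).1]
    · funext i
      rw [dbm_mul ha, (key i).2]
  · intro x hx
    simp only [Finset.mem_coe, Finset.mem_filter, Fintype.mem_piFinset] at hx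
    obtain ⟨⟨hx1, hx2⟩, _, _, hx3, hx4⟩ := hx
    funext i
    simp only
    rw [modByMonic_add_div]
    exact mul_dbm ha (hx3 i)

open scoped Classical in
theorem part {F : Type*} [Field F] [Fintype F] (k t : ℕ) (hk : 1 ≤ k) (d : F[X]) (hd : d.Monic)
    (n : F[X]) :
    dl k t d n = ∑ a ∈ (Pl F (d.natDegree + 1)).filter (fun a => a.Monic ∧ a ∣ d ∧ a ^ k ∣ n),
      ((Fintype.card F : ℝ) ^ a.natDegree) ^ k / ((Fintype.card F : ℝ) ^ a.natDegree) ^ t *
        dst k t (d /ₘ a) (n /ₘ (a ^ k)) := by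
  choose γ hγ using fun x : Fin t → F[X] => GG_exists hd x
  have h1 : rr k t (d ^ k) n =
      ∑ a ∈ (Pl F (d.natDegree + 1)).filter (fun a => a.Monic ∧ a ∣ d ∧ a ^ k ∣ n),
        (Fintype.card F ^ ((k - 1) * a.natDegree)) ^ t * rp k t (d /ₘ a) (n /ₘ (a ^ k)) := by
    unfold rr
    rw [Finset.card_eq_sum_card_fiberwise (f := γ)
      (t := (Pl F (d.natDegree + 1)).filter (fun a => a.Monic ∧ a ∣ d ∧ a ^ k ∣ n))]
    · refine Finset.sum_congr rfl fun a ha => ?_
      rw [Finset.mem_filter] at ha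
      rw [← fib k t hk hd ha.2.1 ha.2.2.1 ha.2.2.2]
      congr 1
      apply Finset.filter_congr
      intro x _
      constructor
      · intro h; rw [← h]; exact hγ x
      · intro h; exact GG_unique hd (hγ x) h
    · intro x hx
      have hx2 := (Finset.mem_filter.1 hx).2
      obtain ⟨g1, g2, g3, _⟩ := hγ x
      rw [Finset.mem_coe, Finset.mem_filter]
      refine ⟨Pl_mono (by have := natDegree_le_of_dvd g2 hd.ne_zero; omega) (self_mem _),
        g1, g2, ?_⟩
      have e1 : γ x ^ k ∣ ∑ i, x i ^ k := Finset.dvd_sum fun i _ => pow_dvd_pow_of_dvd (g3 i) k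
      have e2 : γ x ^ k ∣ ∑ i, x i ^ k - n := (pow_dvd_pow_of_dvd g2 k).trans hx2
      exact (dvd_sub_right e1).1 e2
  unfold dl dst
  rw [h1]
  push_cast
  rw [Finset.mul_sum, Finset.sum_div]
  refine Finset.sum_congr rfl fun a ha => ?_
  rw [Finset.mem_filter] at ha
  have hq : (0 : ℝ) < (Fintype.card F : ℝ) := by exact_mod_cast Fintype.card_pos
  have hac : a * (d /ₘ a) = d := mul_dbm ha.2.1 ha.2.2.1
  have hcm : (d /ₘ a).Monic := by
    have h := hd
    rw [← hac] at h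
    exact ha.2.1.of_mul_monic_left h
  have hdeg : d.natDegree = a.natDegree + (d /ₘ a).natDegree := by
    conv_lhs => rw [← hac]
    exact ha.2.1.natDegree_mul hcm
  rw [hdeg]
  set A := a.natDegree
  set B := (d /ₘ a).natDegree
  obtain ⟨k', rfl⟩ := Nat.exists_eq_add_of_le' hk
  simp only [Nat.add_sub_cancel]
  set q : ℝ := (Fintype.card F : ℝ)
  have e1 : q ^ ((k' + 1) * (A + B)) = (q ^ A) ^ (k' + 1) * q ^ ((k' + 1) * B) := by
    rw [← pow_mul, ← pow_add]; congr 1; ring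
  have e2 : (q ^ ((k' + 1) * (A + B))) ^ t =
      (q ^ (k' * A)) ^ t * ((q ^ A) ^ t * (q ^ ((k' + 1) * B)) ^ t) := by
    rw [← mul_pow, ← mul_pow, ← pow_add, ← pow_add]; congr 2; ring
  rw [e2, e1]
  have f1 : (q ^ (k' * A)) ^ t ≠ 0 := by positivity
  have f2 : (q ^ A) ^ t ≠ 0 := by positivity
  have f3 : (q ^ ((k' + 1) * B)) ^ t ≠ 0 := by positivity
  field_simp

end FFW
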