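import Pool.Agent.FFW.Den
import Pool.Agent.FFW.Euler
import Pool.Agent.FFW.Num

/-!
# FFW/SumC: sums of `∏_{p ∣ c} (1 + ε p)` over monic `c`

`|ε p| ≤ E / (Q_p √Q_p)` for all monic irreducible `p` (`Q_p = q ^ (deg p)`), `0 ≤ E`, `10 E ≤ √q`. Then
`∑_{j ≤ m} ∑_{c ∈ Mo j} ∏_{p ∣ c} (1 + ε p) - q ∑_{j < m} ∑_{c ∈ Mo j} ∏_{p ∣ c} (1 + ε p) ≥ 1/2`.

PROOF. `∏_{p ∣ c} (1 + ε p) = ∑_{b} ∏_{p ∣ b} ε p`, `b` over the monic squarefree divisors of `c`
(`Finset.prod_one_add` / `prod_add`: subsets `T` of the set of prime factors, `b = ∏_{p ∈ T} p`). For a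
monic `b` of degree `β`, `#{c ∈ Mo j : b ∣ c} = q ^ (j - β)` if `j ≥ β`, else `0` (`card_Mo`). So the
left side is
`∑_{b squarefree, deg b ≤ m} (∏_{p ∣ b} ε p) (∑_{j=β}^m q ^ (j-β) - q ∑_{j=β}^{m-1} q ^ (j-β))
= ∑_{b squarefree, deg b ≤ m} ∏_{p ∣ b} ε p ≥ 1 - ∑_{b ≠ 1} ∏_{p ∣ b} |ε p|`. By `euler`
(`C = m`, `W p 1 = |ε p|`, `W p j = 0` for `j ≥ 2`) `∑_{b} ∏ |ε p| ≤ ∏_p (1 + |ε p|) ≤
exp(∑_p E / (Q_p √Q_p)) ≤ exp(4 E / √q) ≤ exp(2/5) ≤ 3/2` (`num_b`).
-/

open Finset Polynomial

namespace FFW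

open scoped Classical in
private lemma sc_mem {F : Type*} [Field F] {c p : F[X]} (hc : c.Monic) :
    p ∈ UniqueFactorizationMonoid.normalizedFactors c ↔ p.Monic ∧ Irreducible p ∧ p ∣ c := by
  rw [UniqueFactorizationMonoid.mem_normalizedFactors_iff' hc.ne_zero]
  constructor
  · rintro ⟨h1, h2, h3⟩
    refine ⟨?_, h1, h3⟩
    have := Polynomial.monic_normalize h1.ne_zero
    rwa [h2] at this
  · rintro ⟨h1, h2, h3⟩
    exact ⟨h2, h1.normalize_eq_self, h3⟩

open scoped Classical in
private lemma sc_sub {F : Type*} [Field F] {c : F[X]} (hc : c.Monic) {T : Finset F[X]}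
    (hT : ∀ p ∈ T, p.Monic ∧ Irreducible p) :
    T ⊆ (UniqueFactorizationMonoid.normalizedFactors c).toFinset ↔ ∏ p ∈ T, p ∣ c := by
  constructor
  · intro h
    have h1 : T.val ≤ UniqueFactorizationMonoid.normalizedFactors c := by
      rw [Multiset.le_iff_subset T.nodup]
      intro p hp
      have := h (Finset.mem_def.mpr hp)
      rwa [Multiset.mem_toFinset] at this
    have h2 := Multiset.prod_dvd_prod_of_le h1
    have h3 : (UniqueFactorizationMonoid.normalizedFactors c).prod = c := by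
      rw [UniqueFactorizationMonoid.prod_normalizedFactors_eq hc.ne_zero]
      exact hc.normalize_eq_self
    rw [h3] at h2
    have h4 : ∏ p ∈ T, p = T.val.prod := by
      rw [Finset.prod_eq_multiset_prod, Multiset.map_id']
    rw [h4]
    exact h2
  · intro h p hp
    rw [Multiset.mem_toFinset, sc_mem hc]
    exact ⟨(hT p hp).1, (hT p hp).2, (Finset.dvd_prod_of_mem _ hp).trans h⟩

open scoped Classical in
private lemma sc_card {F : Type*} [Field F] [Fintype F] {b : F[X]} (hb : b.Monic) (j : ℕ) :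
    ((Mo F j).filter (fun c => b ∣ c)).card =
      if b.natDegree ≤ j then Fintype.card F ^ (j - b.natDegree) else 0 := by
  split_ifs with h
  · rw [← card_Mo]
    symm
    apply Finset.card_bij (fun (d : F[X]) _ => b * d)
    · intro d hd
      rw [mem_Mo] at hd
      rw [mem_filter, mem_Mo]
      refine ⟨⟨hb.mul hd.1, ?_⟩, dvd_mul_right _ _⟩
      rw [hb.natDegree_mul hd.1, hd.2]
      omega
    · intro x _ y _ hxy
      exact mul_left_cancel₀ hb.ne_zero hxy
    · intro c hc
      rw [mem_filter, mem_Mo] at hc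
      obtain ⟨⟨hc1, hc2⟩, d, rfl⟩ := hc
      have hd : d.Monic := hb.of_mul_monic_left hc1
      refine ⟨d, ?_, rfl⟩
      rw [mem_Mo]
      refine ⟨hd, ?_⟩
      rw [hb.natDegree_mul hd] at hc2
      omega
  · rw [Finset.card_eq_zero, Finset.filter_eq_empty_iff]
    intro c hc hbc
    rw [mem_Mo] at hc
    apply h
    rw [← hc.2]
    exact Polynomial.natDegree_le_of_dvd hbc hc.1.ne_zero

private lemma sc_tele (q : ℝ) (β m : ℕ) :
    ∑ j ∈ range (m + 1), (if β ≤ j then q ^ (j - β) else 0) -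
      q * ∑ j ∈ range m, (if β ≤ j then q ^ (j - β) else 0) = if β ≤ m then 1 else 0 := by
  induction m with
  | zero =>
    simp only [zero_add, Finset.range_one, Finset.sum_singleton, Finset.range_zero,
      Finset.sum_empty, mul_zero, sub_zero]
    rcases Nat.eq_zero_or_pos β with h | h
    · simp [h]
    · rw [if_neg (by omega), if_neg (by omega)]
  | succ m ih =>
    have s1 := Finset.sum_range_succ (fun j => if β ≤ j then q ^ (j - β) else 0) m
    have s2 : ∑ j ∈ range (m + 1 + 1), (if β ≤ j then q ^ (j - β) else 0) -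
        q * ∑ j ∈ range (m + 1), (if β ≤ j then q ^ (j - β) else 0) =
        (∑ j ∈ range (m + 1), (if β ≤ j then q ^ (j - β) else 0) -
        q * ∑ j ∈ range m, (if β ≤ j then q ^ (j - β) else 0)) +
        ((if β ≤ m + 1 then q ^ (m + 1 - β) else 0) - q * (if β ≤ m then q ^ (m - β) else 0)) := by
      rw [Finset.sum_range_succ (fun j => if β ≤ j then q ^ (j - β) else 0) (m + 1), s1]
      ring
    rw [s2, ih]
    rcases lt_trichotomy β (m + 1) with h | h | h
    · rw [if_pos (by omega), if_pos (by omega), if_pos (by omega), if_pos (by omega)]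
      have : m + 1 - β = (m - β) + 1 := by omega
      rw [this, pow_succ]
      ring
    · rw [if_neg (by omega), if_pos (by omega), if_neg (by omega), if_pos (by omega), h]
      simp
    · rw [if_neg (by omega), if_neg (by omega), if_neg (by omega), if_neg (by omega)]
      ring

open scoped Classical in
theorem sum_c {F : Type*} [Field F] [Fintype F] (ε : F[X] → ℝ) (E : ℝ) (hE : 0 ≤ E)
    (hε : ∀ p : F[X], p.Monic → Irreducible p →
      |ε p| ≤ E / ((Fintype.card F : ℝ) ^ p.natDegree *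
        Real.sqrt ((Fintype.card F : ℝ) ^ p.natDegree)))
    (hq : 10 * E ≤ Real.sqrt (Fintype.card F)) (m : ℕ) :
    1 / 2 ≤ ∑ j ∈ range (m + 1), ∑ c ∈ Mo F j,
        ∏ p ∈ (UniqueFactorizationMonoid.normalizedFactors c).toFinset, (1 + ε p) -
      (Fintype.card F : ℝ) * ∑ j ∈ range m, ∑ c ∈ Mo F j,
        ∏ p ∈ (UniqueFactorizationMonoid.normalizedFactors c).toFinset, (1 + ε p) := by
  set P := (Pl F (m + 1)).filter (fun p => p.Monic ∧ Irreducible p) with hP
  have hPm : ∀ p ∈ P, p.Monic ∧ Irreducible p := fun p hp => (mem_filter.1 hp).2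
  -- one degree
  have key : ∀ j ≤ m, ∑ c ∈ Mo F j,
      ∏ p ∈ (UniqueFactorizationMonoid.normalizedFactors c).toFinset, (1 + ε p) =
      ∑ T ∈ P.powerset, (∏ p ∈ T, ε p) *
        (if (∏ p ∈ T, p).natDegree ≤ j then
          (Fintype.card F : ℝ) ^ (j - (∏ p ∈ T, p).natDegree) else 0) := by
    intro j hj
    have h1 : ∀ c ∈ Mo F j,
        ∏ p ∈ (UniqueFactorizationMonoid.normalizedFactors c).toFinset, (1 + ε p) =
        ∑ T ∈ P.powerset, (if ∏ p ∈ T, p ∣ c then ∏ p ∈ T, ε p else 0) := by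
      intro c hc
      rw [mem_Mo] at hc
      rw [Finset.prod_one_add, ← Finset.sum_filter]
      apply Finset.sum_congr _ (fun _ _ => rfl)
      ext T
      rw [Finset.mem_powerset, Finset.mem_filter, Finset.mem_powerset]
      have hsub : (UniqueFactorizationMonoid.normalizedFactors c).toFinset ⊆ P := by
        intro p hp
        rw [Multiset.mem_toFinset, sc_mem hc.1] at hp
        rw [hP, mem_filter, mem_Pl]
        refine ⟨?_, hp.1, hp.2.1⟩
        refine lt_of_le_of_lt (Polynomial.degree_le_of_dvd hp.2.2 hc.1.ne_zero) ?_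
        rw [degree_eq_natDegree hc.1.ne_zero, hc.2]
        exact_mod_cast Nat.lt_succ_of_le hj
      constructor
      · intro h
        have hTP := h.trans hsub
        exact ⟨hTP, (sc_sub hc.1 (fun p hp => hPm p (hTP hp))).1 h⟩
      · rintro ⟨hTP, h⟩
        exact (sc_sub hc.1 (fun p hp => hPm p (hTP hp))).2 h
    rw [Finset.sum_congr rfl h1, Finset.sum_comm]
    apply Finset.sum_congr rfl
    intro T hT
    rw [Finset.mem_powerset] at hT
    have hb : (∏ p ∈ T, p).Monic :=
      Polynomial.monic_prod_of_monic _ _ (fun p hp => (hPm p (hT hp)).1)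
    rw [← Finset.sum_filter, Finset.sum_const, sc_card hb, nsmul_eq_mul, mul_comm]
    congr 1
    split_ifs <;> simp
  have hA : ∑ j ∈ range (m + 1), ∑ c ∈ Mo F j,
        ∏ p ∈ (UniqueFactorizationMonoid.normalizedFactors c).toFinset, (1 + ε p) -
      (Fintype.card F : ℝ) * ∑ j ∈ range m, ∑ c ∈ Mo F j,
        ∏ p ∈ (UniqueFactorizationMonoid.normalizedFactors c).toFinset, (1 + ε p) =
      ∑ T ∈ P.powerset, (∏ p ∈ T, ε p) * (if (∏ p ∈ T, p).natDegree ≤ m then 1 else 0) := by
    rw [Finset.sum_congr rfl (fun j hj => key j (by rw [mem_range] at hj; omega)),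
      Finset.sum_congr rfl (fun j hj => key j (by rw [mem_range] at hj; omega)),
      Finset.sum_comm, Finset.sum_comm (s := range m), Finset.mul_sum, ← Finset.sum_sub_distrib]
    apply Finset.sum_congr rfl
    intro T _
    rw [← Finset.mul_sum, ← Finset.mul_sum,
      ← sc_tele (Fintype.card F : ℝ) (∏ p ∈ T, p).natDegree m]
    ring
  rw [hA]
  have hprod : ∑ T ∈ P.powerset, ∏ p ∈ T, |ε p| ≤ 3 / 2 := by
    rw [← Finset.prod_one_add]
    calc ∏ p ∈ P, (1 + |ε p|) ≤ ∏ p ∈ P, Real.exp |ε p| := by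
          apply Finset.prod_le_prod
          · intro p _; positivity
          · intro p _
            rw [add_comm]
            exact Real.add_one_le_exp _
      _ = Real.exp (∑ p ∈ P, |ε p|) := (Real.exp_sum _ _).symm
      _ ≤ Real.exp (2 / 5) := by
          apply Real.exp_le_exp.mpr
          have h1 : ∑ p ∈ P, |ε p| ≤ ∑ p ∈ P, E * (1 / ((Fintype.card F : ℝ) ^ p.natDegree *
              Real.sqrt ((Fintype.card F : ℝ) ^ p.natDegree))) := by
            apply Finset.sum_le_sum
            intro p hp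
            rw [mul_one_div]
            exact hε p (hPm p hp).1 (hPm p hp).2
          rw [← Finset.mul_sum] at h1
          have h2 := mul_le_mul_of_nonneg_left (num_b (F := F) m) hE
          have hs : 0 < Real.sqrt (Fintype.card F) := by
            apply Real.sqrt_pos.2
            exact_mod_cast Fintype.card_pos
          have h3 : E * (4 / Real.sqrt (Fintype.card F)) ≤ 2 / 5 := by
            rw [← mul_div_assoc, div_le_iff₀ hs]
            linarith
          exact h1.trans (h2.trans h3)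
      _ ≤ 3 / 2 := by
          have h := Real.exp_one_lt_d9
          have h5 : Real.exp (2 / 5) ^ 5 ≤ (3 / 2 : ℝ) ^ 5 := by
            rw [← Real.exp_nat_mul]
            have e : ((5 : ℕ) : ℝ) * (2 / 5) = 1 + 1 := by norm_num
            rw [e, Real.exp_add]
            have h0 := Real.exp_pos 1
            nlinarith
          exact le_of_pow_le_pow_left₀ (by norm_num) (by norm_num) h5
  have hempty : (∅ : Finset F[X]) ∈ P.powerset := Finset.empty_mem_powerset P
  rw [← Finset.add_sum_erase _ _ hempty] at hprod ⊢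
  simp only [Finset.prod_empty, natDegree_one, Nat.zero_le, if_true, mul_one] at hprod ⊢
  have hb : |∑ T ∈ P.powerset.erase ∅, (∏ p ∈ T, ε p) *
      (if (∏ p ∈ T, p).natDegree ≤ m then (1 : ℝ) else 0)| ≤
      ∑ T ∈ P.powerset.erase ∅, ∏ p ∈ T, |ε p| := by
    refine (Finset.abs_sum_le_sum_abs _ _).trans (Finset.sum_le_sum ?_)
    intro T _
    rw [abs_mul, Finset.abs_prod]
    have h0 : 0 ≤ ∏ p ∈ T, |ε p| := Finset.prod_nonneg fun p _ => abs_nonneg _
    split_ifs
    · simp
    · simpa using h0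
  have := (abs_le.1 hb).1
  linarith

end FFW
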