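import Pool.Agent.FFW.PrimD
import Pool.Agent.FFW.Part
import Pool.Agent.FFW.EpB
import Pool.Agent.FFW.SumC

/-!
# FFW/SFin: the truncated singular series is at least `1/2`

`10 (k ^ 5 + 1) ≤ √q`, `k ≥ 1`, `k ≠ 0` in `F`. `sfin_ge`: `sfin k 5 C n ≥ 1/2` for all `C`, `n`.

PROOF. By `part` and reindexing `d = a c` (`a` monic with `a ^ k ∣ n`, `deg a ≤ C`, `c` monic of degree
`j - deg a`; `d /ₘ a = c`): `sfin k 5 C n = ∑_{a} |a| ^ k / |a| ^ 5 *
(∑_{i ≤ C - deg a} ∑_{c ∈ Mo i} dst k 5 c (n / a ^ k) - q ∑_{i < C - deg a} ∑_{c ∈ Mo i} dst k 5 c (n / a ^ k))`,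
`|a| = q ^ (deg a)`. By `dst_eq`, `ep_le` and `sum_c` (with `ε p = ep k 5 p (n / a ^ k)`, `E = k ^ 5 + 1`,
`m = C - deg a`) every inner bracket is `≥ 1/2`; all terms are nonnegative and the term `a = 1`
(`1 ∣ d`, `1 ^ k ∣ n`, `deg 1 = 0`) is `≥ 1/2`.
-/

open Finset Polynomial

namespace FFW

private theorem sf_range (f : ℕ → ℝ) {δ M : ℕ} (h : δ ≤ M) :
    ∑ j ∈ range M, (if δ ≤ j then f (j - δ) else 0) = ∑ i ∈ range (M - δ), f i := by
  obtain ⟨m, rfl⟩ := Nat.exists_eq_add_of_le h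
  rw [Finset.sum_range_add, Nat.add_sub_cancel_left]
  have h1 : ∑ x ∈ range δ, (if δ ≤ x then f (x - δ) else 0) = 0 := by
    refine Finset.sum_eq_zero fun x hx => ?_
    rw [if_neg (not_le.2 (Finset.mem_range.1 hx))]
  rw [h1, zero_add]
  refine Finset.sum_congr rfl fun x _ => ?_
  rw [if_pos (Nat.le_add_right _ _), Nat.add_sub_cancel_left]

private theorem sf_mul_dbm {F : Type*} [Field F] {a z : F[X]} (ha : a.Monic) (h : a ∣ z) :
    a * (z /ₘ a) = z := by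
  have h1 := modByMonic_add_div z a
  rw [(modByMonic_eq_zero_iff_dvd ha).2 h, zero_add] at h1
  exact h1

private theorem sf_dbm_mul {F : Type*} [Field F] {a z : F[X]} (ha : a.Monic) :
    (a * z) /ₘ a = z := by
  have h1 := sf_mul_dbm ha (Dvd.intro z rfl)
  exact mul_left_cancel₀ ha.ne_zero h1

open scoped Classical in
/-- the multiples of `a` -/
private theorem sf_mult {F : Type*} [Field F] [Fintype F] {a : F[X]} (ha : a.Monic) (j : ℕ)
    (g : F[X] → ℝ) :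
    ∑ d ∈ (Mo F j).filter (fun d => a ∣ d), g (d /ₘ a) =
      if a.natDegree ≤ j then ∑ c ∈ Mo F (j - a.natDegree), g c else 0 := by
  split_ifs with h
  · symm
    refine Finset.sum_bij (fun c _ => a * c) ?_ ?_ ?_ ?_
    · intro c hc
      rw [mem_Mo] at hc
      rw [Finset.mem_filter, mem_Mo]
      refine ⟨⟨ha.mul hc.1, ?_⟩, Dvd.intro c rfl⟩
      rw [ha.natDegree_mul hc.1, hc.2]
      omega
    · intro c _ c' _ e
      exact mul_left_cancel₀ ha.ne_zero e
    · intro d hd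
      rw [Finset.mem_filter, mem_Mo] at hd
      obtain ⟨⟨hd1, hd2⟩, hd3⟩ := hd
      have e := sf_mul_dbm ha hd3
      refine ⟨d /ₘ a, ?_, e⟩
      have hm : (d /ₘ a).Monic := by
        have h2 : (a * (d /ₘ a)).Monic := by rw [e]; exact hd1
        exact ha.of_mul_monic_left h2
      rw [mem_Mo]
      refine ⟨hm, ?_⟩
      have h3 := ha.natDegree_mul hm
      rw [e, hd2] at h3
      omega
    · intro c _
      rw [sf_dbm_mul ha]
  · refine Finset.sum_eq_zero fun d hd => ?_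
    exfalso
    rw [Finset.mem_filter, mem_Mo] at hd
    obtain ⟨⟨hd1, hd2⟩, hd3⟩ := hd
    have := natDegree_le_of_dvd hd3 hd1.ne_zero
    omega

/-- the weight of `a` -/
private noncomputable def sf_w {F : Type*} [Field F] [Fintype F] (k : ℕ) (a : F[X]) : ℝ :=
  ((Fintype.card F : ℝ) ^ a.natDegree) ^ k / ((Fintype.card F : ℝ) ^ a.natDegree) ^ 5

open scoped Classical in
/-- the admissible `a` -/
private noncomputable def sf_A {F : Type*} [Field F] [Fintype F] (k C : ℕ) (n : F[X]) :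
    Finset F[X] :=
  (Pl F (C + 1)).filter (fun a => a.Monic ∧ a ^ k ∣ n)

private theorem sf_deg {F : Type*} [Field F] [Fintype F] {k C : ℕ} {n a : F[X]}
    (ha : a ∈ sf_A k C n) : a.Monic ∧ a.natDegree ≤ C := by
  classical
  unfold sf_A at ha
  rw [Finset.mem_filter, mem_Pl] at ha
  obtain ⟨h1, h2, -⟩ := ha
  refine ⟨h2, ?_⟩
  rw [degree_eq_natDegree h2.ne_zero] at h1
  have : a.natDegree < C + 1 := by exact_mod_cast h1
  omega

private theorem sf_one {F : Type*} [Field F] [Fintype F] (k : ℕ) (hk : 1 ≤ k) {C j : ℕ}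
    (hj : j ≤ C) (n : F[X]) :
    ∑ d ∈ Mo F j, dl k 5 d n = ∑ a ∈ sf_A k C n, sf_w k a *
      (if a.natDegree ≤ j then ∑ c ∈ Mo F (j - a.natDegree), dst k 5 c (n /ₘ (a ^ k)) else 0) := by
  classical
  have h1 : ∀ d ∈ Mo F j, dl k 5 d n = ∑ a ∈ sf_A k C n,
      (if a ∣ d then sf_w k a * dst k 5 (d /ₘ a) (n /ₘ (a ^ k)) else 0) := by
    intro d hd
    rw [mem_Mo] at hd
    rw [part k 5 hk d hd.1 n, ← Finset.sum_filter]
    refine Finset.sum_congr ?_ fun a _ => rfl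
    ext a
    unfold sf_A
    simp only [Finset.mem_filter]
    constructor
    · rintro ⟨h1, h2, h3, h4⟩
      exact ⟨⟨Pl_mono (by omega) h1, h2, h4⟩, h3⟩
    · rintro ⟨⟨-, h2, h4⟩, h3⟩
      refine ⟨?_, h2, h3, h4⟩
      rw [mem_Pl]
      refine lt_of_le_of_lt degree_le_natDegree ?_
      have := natDegree_le_of_dvd h3 hd.1.ne_zero
      exact_mod_cast Nat.lt_succ_of_le this
  rw [Finset.sum_congr rfl h1, Finset.sum_comm]
  refine Finset.sum_congr rfl fun a ha => ?_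
  rw [← Finset.sum_filter, ← Finset.mul_sum,
    sf_mult (sf_deg ha).1 j (fun c => dst k 5 c (n /ₘ (a ^ k)))]

private theorem sf_br {F : Type*} [Field F] [Fintype F] (k : ℕ) (hk : 1 ≤ k) (hkF : (k : F) ≠ 0)
    (hq : 10 * ((k : ℝ) ^ 5 + 1) ≤ Real.sqrt (Fintype.card F)) (m : ℕ) (n : F[X]) :
    1 / 2 ≤ ∑ i ∈ range (m + 1), ∑ c ∈ Mo F i, dst k 5 c n -
      (Fintype.card F : ℝ) * ∑ i ∈ range m, ∑ c ∈ Mo F i, dst k 5 c n := by
  classical
  have h := sum_c (fun p => ep k 5 p n) ((k : ℝ) ^ 5 + 1) (by positivity)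
    (fun p hp hirr => ep_le k hk p hp hirr n) hq m
  have e : ∀ i, ∑ c ∈ Mo F i, dst k 5 c n = ∑ c ∈ Mo F i,
      ∏ p ∈ (UniqueFactorizationMonoid.normalizedFactors c).toFinset, (1 + ep k 5 p n) := by
    intro i
    refine Finset.sum_congr rfl fun c hc => ?_
    rw [mem_Mo] at hc
    exact dst_eq k 5 hk hkF (by norm_num) c hc.1 n
  simp only [e]
  exact h

theorem sfin_ge {F : Type*} [Field F] [Fintype F] (k : ℕ) (hk : 1 ≤ k) (hkF : (k : F) ≠ 0)
    (hq : 10 * ((k : ℝ) ^ 5 + 1) ≤ Real.sqrt (Fintype.card F)) (C : ℕ) (n : F[X]) :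
    1 / 2 ≤ sfin k 5 C n := by
  classical
  have hcard : (0 : ℝ) < Fintype.card F := by exact_mod_cast Fintype.card_pos
  set B : F[X] → ℝ := fun a =>
    ∑ i ∈ range (C - a.natDegree + 1), ∑ c ∈ Mo F i, dst k 5 c (n /ₘ (a ^ k)) -
      (Fintype.card F : ℝ) * ∑ i ∈ range (C - a.natDegree), ∑ c ∈ Mo F i,
        dst k 5 c (n /ₘ (a ^ k)) with hB
  have hsum : ∀ M, M ≤ C + 1 → C ≤ M → ∑ j ∈ range M, ∑ d ∈ Mo F j, dl k 5 d n =
      ∑ a ∈ sf_A k C n, sf_w k a * ∑ i ∈ range (M - a.natDegree), ∑ c ∈ Mo F i,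
        dst k 5 c (n /ₘ (a ^ k)) := by
    intro M hM hM'
    have h1 : ∀ j ∈ range M, ∑ d ∈ Mo F j, dl k 5 d n = ∑ a ∈ sf_A k C n, sf_w k a *
        (if a.natDegree ≤ j then ∑ c ∈ Mo F (j - a.natDegree), dst k 5 c (n /ₘ (a ^ k)) else 0) :=
      fun j hj => sf_one k hk (by have := Finset.mem_range.1 hj; omega) n
    rw [Finset.sum_congr rfl h1, Finset.sum_comm]
    refine Finset.sum_congr rfl fun a ha => ?_
    rw [← Finset.mul_sum]
    congr 1
    exact sf_range (fun i => ∑ c ∈ Mo F i, dst k 5 c (n /ₘ (a ^ k)))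
      ((sf_deg ha).2.trans hM')
  have e : sfin k 5 C n = ∑ a ∈ sf_A k C n, sf_w k a * B a := by
    unfold sfin
    rw [hsum (C + 1) le_rfl (Nat.le_succ C), hsum C (Nat.le_succ C) le_rfl, Finset.mul_sum,
      ← Finset.sum_sub_distrib]
    refine Finset.sum_congr rfl fun a ha => ?_
    have hd := (sf_deg ha).2
    rw [hB, Nat.sub_add_comm hd]
    ring
  have hw : ∀ a : F[X], 0 ≤ sf_w k a := by
    intro a
    unfold sf_w
    positivity
  have hBa : ∀ a : F[X], 1 / 2 ≤ B a := fun a =>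
    sf_br k hk hkF hq (C - a.natDegree) (n /ₘ (a ^ k))
  have h1 : (1 : F[X]) ∈ sf_A k C n := by
    unfold sf_A
    rw [Finset.mem_filter, mem_Pl]
    refine ⟨?_, monic_one, ?_⟩
    · rw [degree_one]
      exact_mod_cast Nat.succ_pos C
    · rw [one_pow]
      exact one_dvd n
  have hw1 : sf_w k (1 : F[X]) = 1 := by
    unfold sf_w
    rw [natDegree_one, pow_zero, one_pow, one_pow, div_one]
  rw [e]
  calc (1 / 2 : ℝ) ≤ sf_w k (1 : F[X]) * B 1 := by
        rw [hw1, one_mul]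
        exact hBa 1
    _ ≤ ∑ a ∈ sf_A k C n, sf_w k a * B a :=
        Finset.single_le_sum (f := fun a => sf_w k a * B a)
          (fun a _ => mul_nonneg (hw a) (by linarith [hBa a])) h1

end FFW
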