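import Pool.Agent.FFW.Circle2
import Pool.Agent.FFW.SFin
import Pool.Agent.FFW.DTop
import Pool.Agent.FFW.Param2
import Pool.Agent.FFW.Final

/-!
# FFW/Final2: Waring's problem over `F_q[t]`, `q` large: `2k + 5` summands

Assembly of `exists_W`, `minor`, `circle2`, `sfin_ge`, `dtop_ge`, `param2`.
-/

open Finset Polynomial

namespace FFW

/-- a functional with a small denominator `G` is killed by the `k`-th power of the monic `G` -/
theorem good_of_maj {F : Type*} [Field F] [Fintype F] (k D C C₁ C₂ : ℕ) (hk : 1 ≤ k)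
    (h1 : C ≤ C₁) (h2 : C ≤ k * C₂) (h3 : k * C₂ ≤ k * D) (s : Fin (k * D + 1) → F) (h : Maj (k * D) C s) :
    ∃ d : F[X], d.Monic ∧ d.natDegree ≤ C₁ ∧
      ∀ y ∈ Pl F (k * D - k * C₂ + 1 - (d ^ k).natDegree), fn (k * D + 1) s (d ^ k * y) = 0 := by
  obtain ⟨G, hG0, hG, hGy⟩ := h
  have hlc : G.leadingCoeff ≠ 0 := leadingCoeff_ne_zero.2 hG0
  have hGdeg : G.natDegree ≤ C := by
    rw [mem_Pl] at hG
    rw [natDegree_le_iff_degree_le]
    exact Order.lt_succ_iff.mp (by exact_mod_cast hG)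
  have hmon : (G * Polynomial.C (G.leadingCoeff)⁻¹).Monic := monic_mul_leadingCoeff_inv hG0
  have hdeg : (G * Polynomial.C (G.leadingCoeff)⁻¹).natDegree = G.natDegree :=
    natDegree_mul_C (inv_ne_zero hlc)
  refine ⟨G * Polynomial.C (G.leadingCoeff)⁻¹, hmon, by rw [hdeg]; omega, ?_⟩
  intro y hy
  rw [hmon.natDegree_pow, hdeg] at hy
  obtain ⟨j, rfl⟩ : ∃ j, k = j + 1 := ⟨k - 1, by omega⟩
  have e : (G * Polynomial.C (G.leadingCoeff)⁻¹) ^ (j + 1) * y =
      G * (Polynomial.C ((G.leadingCoeff)⁻¹ ^ (j + 1)) * (G ^ j * y)) := by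
    rw [map_pow]; ring
  rw [e]
  apply hGy
  apply smul_mem_Pl
  by_cases hy0 : y = 0
  · rw [hy0, mul_zero]; exact zero_mem_Pl _
  rw [mem_Pl] at hy ⊢
  have hyd : y.natDegree < (j + 1) * D - (j + 1) * C₂ + 1 - (j + 1) * G.natDegree :=
    (natDegree_lt_iff_degree_lt hy0).2 hy
  have hne : G ^ j * y ≠ 0 := mul_ne_zero (pow_ne_zero _ hG0) hy0
  rw [← natDegree_lt_iff_degree_lt hne, natDegree_mul (pow_ne_zero _ hG0) hy0, natDegree_pow]
  have e2 : (j + 1) * G.natDegree = j * G.natDegree + G.natDegree := by ring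
  rw [e2] at hyd
  omega

theorem core2 {F : Type*} [Field F] [Fintype F] (k D : ℕ) (hk : 3 ≤ k) (hkD : k ≤ D)
    (h2k : 2 ^ k ≤ D / (2 * k)) (hchar : ∀ j : ℕ, 1 ≤ j → j ≤ k → (j : F) ≠ 0)
    (hq : 10 * ((k : ℝ) ^ 5 + 1) ≤ Real.sqrt (Fintype.card F))
    (hpar : 4 * Fintype.card F ^ (k * D + 1) *
      (Fintype.card F ^ ((k - 1) * (k * ((k - 1) * (D / (k - 1))) + 1) /
        (Fintype.card F - 1) + 1) * k ^ (k * ((k - 1) * (D / (k - 1))) + 1)) <
      Fintype.card F ^ (5 * ((D / (2 * k) - 2 ^ k) / 4 ^ (k - 1))) *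
        Fintype.card F ^ (k * ((k - 1) * (D / (k - 1))) + 1))
    (N : F[X]) (hN : N ∈ Pl F (k * D + 1)) :
    ∃ (x y : Fin k → F[X]) (z : Fin 5 → F[X]), (∀ i, x i ∈ Pl F (D + 1)) ∧
      (∀ i, y i ∈ Pl F (D + 1)) ∧ (∀ i, z i ∈ Pl F (D + 1)) ∧
      N = ∑ i, x i ^ k + ∑ i, y i ^ k + ∑ i, z i ^ k := by
  classical
  obtain ⟨ψ, hψ⟩ := exists_psi F
  set q := Fintype.card F with hqdef
  have hq2 : 2 ≤ q := Fintype.one_lt_card
  have hq1 : (1 : ℝ) ≤ q := by exact_mod_cast (le_trans one_le_two hq2)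
  have hq0 : (0 : ℝ) < q := by linarith
  have hkF : (k : F) ≠ 0 := hchar k (by omega) le_rfl
  have hfac : (k.factorial : F) ≠ 0 := by
    have : ∀ j : ℕ, j ≤ k → (j.factorial : F) ≠ 0 := by
      intro j
      induction j with
      | zero => intro _; simp
      | succ j ih =>
        intro hj
        rw [Nat.factorial_succ, Nat.cast_mul]
        exact mul_ne_zero (hchar (j + 1) (by omega) hj) (ih (by omega))
    exact this k le_rfl
  set E := D / (k - 1) with hE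
  have hE1 : 1 ≤ E := by
    rw [hE]
    exact (Nat.one_le_div_iff (by omega)).2 (by omega)
  set n := k * ((k - 1) * E) + 1 with hn
  set m := (k - 1) * n / (q - 1) + 1 with hm
  have hEle : (k - 1) * E ≤ D := by
    rw [hE]
    exact Nat.mul_div_le D (k - 1)
  have hmm : (k - 1) * n < (q - 1) * m := by
    rw [hm]
    exact Nat.lt_mul_div_succ _ (by omega)
  obtain ⟨W, hW, hWcard⟩ := exists_W (F := F) k E m (by omega) hE1 hkF (by rw [← hn]; exact hmm)
  rw [← hn, ← hqdef] at hWcard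
  set B := D / (2 * k) with hB
  have hBD : 2 * k * B ≤ D := by
    rw [hB]
    exact Nat.mul_div_le _ _
  have hBD' : k * B + k * B ≤ D := by
    have : 2 * k * B = k * B + k * B := by ring
    omega
  set τ := (B - 2 ^ k) / 4 ^ (k - 1) with hτ
  set T := 2 ^ (k - 1) * τ with hT
  have h4 : 4 ^ (k - 1) = 2 ^ (k - 1) * 2 ^ (k - 1) := by
    rw [← mul_pow]
    norm_num
  have h22 : 2 ^ k = 2 ^ (k - 1) * 2 := by
    rw [← pow_succ]
    congr 1
    omega
  have hTB : 2 ^ (k - 1) * (T + 2) ≤ B := by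
    have h1 : 4 ^ (k - 1) * τ ≤ B - 2 ^ k := by
      rw [hτ]
      exact Nat.mul_div_le _ _
    have h3 : 2 ^ (k - 1) * (T + 2) = 4 ^ (k - 1) * τ + 2 ^ k := by
      rw [hT, h4, h22]
      ring
    rw [h3]
    omega
  have hBle : B ≤ k * B := Nat.le_mul_of_pos_left _ (by omega)
  have hTD : 2 ^ (k - 1) * (T + 2) ≤ D := by omega
  set C := (2 ^ (k - 1) - 1) * (T + 2) with hC
  have hCB : C ≤ B := by
    refine le_trans ?_ hTB
    rw [hC]
    exact Nat.mul_le_mul_right _ (Nat.sub_le _ _)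
  have hB1 : 1 ≤ B := le_trans Nat.one_le_two_pow h2k
  have hWne : W.Nonempty := by
    rw [← Finset.card_pos]
    by_contra h0
    have : W.card = 0 := by omega
    rw [this, mul_zero] at hWcard
    have : 0 < q ^ n := pow_pos (by omega) _
    omega
  have hsub : ∀ w ∈ W, w ∈ Pl F (k * D + 1) := by
    intro w hw
    refine Pl_mono ?_ (hW w hw).1
    have := Nat.mul_le_mul_left k hEle
    omega
  -- the bound for the minor arcs
  have hlam : ∀ s : Fin (k * D + 1) → F,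
      0 ≤ ‖S ψ k (fn (k * D + 1) s) (D + 1)‖ / (q : ℝ) ^ (D + 1) := by
    intro s
    positivity
  have hminor : ∀ s : Fin (k * D + 1) → F, (¬ ∃ d : F[X], d.Monic ∧ d.natDegree ≤ B ∧
        ∀ y ∈ Pl F (k * D - k * B + 1 - (d ^ k).natDegree), fn (k * D + 1) s (d ^ k * y) = 0) →
      (‖S ψ k (fn (k * D + 1) s) (D + 1)‖ / (q : ℝ) ^ (D + 1)) ^ 5 ≤
        1 / (q : ℝ) ^ (5 * τ) := by
    intro s hs
    have hs' : ¬ Maj (k * D) C s := fun h =>
      hs (good_of_maj k D C B B (by omega) hCB (le_trans hCB hBle)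
        (Nat.mul_le_mul_left _ (by omega)) s h)
    have h1 := minor ψ hψ k (by omega) hfac D T hTD s hs'
    rw [← hqdef] at h1
    have h2 : ‖S ψ k (fn (k * D + 1) s) (D + 1)‖ / (q : ℝ) ^ (D + 1) ≤ 1 / (q : ℝ) ^ τ := by
      have h3 : (1 / (q : ℝ) ^ τ) ^ (2 ^ (k - 1)) = 1 / (q : ℝ) ^ T := by
        rw [div_pow, one_pow, ← pow_mul, hT, mul_comm τ]
      rw [← h3] at h1
      exact le_of_pow_le_pow_left₀ (pow_ne_zero _ (by norm_num)) (by positivity) h1
    calc _ ≤ (1 / (q : ℝ) ^ τ) ^ 5 := pow_le_pow_left₀ (hlam s) h2 _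
      _ = 1 / (q : ℝ) ^ (5 * τ) := by
        rw [div_pow, one_pow, ← pow_mul, mul_comm τ]
  have hδ : 4 * (1 / (q : ℝ) ^ (5 * τ)) * (q : ℝ) ^ (k * D + 1) < W.card := by
    have hp : (4 * (q : ℝ) ^ (k * D + 1)) * ((q : ℝ) ^ m * (k : ℝ) ^ n) <
        (q : ℝ) ^ (5 * τ) * (q : ℝ) ^ n := by
      exact_mod_cast hpar
    have hw : (q : ℝ) ^ n ≤ (q : ℝ) ^ m * (k : ℝ) ^ n * W.card := by
      exact_mod_cast hWcard
    have hkpos : (0 : ℝ) < (k : ℝ) ^ n := by
      have : (0 : ℝ) < k := by exact_mod_cast (by omega : 0 < k)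
      positivity
    have hA : (0 : ℝ) < (q : ℝ) ^ m * (k : ℝ) ^ n := by positivity
    have hB : (0 : ℝ) < (q : ℝ) ^ (5 * τ) := by positivity
    have h1 : (4 * (q : ℝ) ^ (k * D + 1)) * ((q : ℝ) ^ m * (k : ℝ) ^ n) <
        ((q : ℝ) ^ (5 * τ) * W.card) * ((q : ℝ) ^ m * (k : ℝ) ^ n) := by
      calc _ < (q : ℝ) ^ (5 * τ) * (q : ℝ) ^ n := hp
        _ ≤ (q : ℝ) ^ (5 * τ) * ((q : ℝ) ^ m * (k : ℝ) ^ n * W.card) :=
          mul_le_mul_of_nonneg_left hw hB.le
        _ = _ := by ring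
    have h2 := lt_of_mul_lt_mul_right h1 hA.le
    have h3 : 4 * (1 / (q : ℝ) ^ (5 * τ)) * (q : ℝ) ^ (k * D + 1) =
        (4 * (q : ℝ) ^ (k * D + 1)) / (q : ℝ) ^ (5 * τ) := by
      field_simp
    rw [h3, div_lt_iff₀ hB]
    linarith
  obtain ⟨w₁, hw₁, w₂, hw₂, z, hz, hNe⟩ := circle2 ψ hψ k D 5 B B (by omega) (by omega)
    (by omega) (by omega) W hsub hWne (1 / (q : ℝ) ^ (5 * τ)) hminor
    (fun n => sfin_ge k (by omega) hkF hq B n)
    (fun m => dtop_ge k (by omega) hkF hq (k * B) (by omega) m) hδ N hN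
  obtain ⟨x, hx, hxe⟩ := (hW w₁ hw₁).2
  obtain ⟨y, hy, hye⟩ := (hW w₂ hw₂).2
  refine ⟨x, y, z, fun i => Pl_mono (by omega) (hx i), fun i => Pl_mono (by omega) (hy i), hz, ?_⟩
  rw [hNe, hxe, hye]

/-- **Waring's problem over `F_q[t]` for large `q`**: `2 k + 5` strict `k`-th powers suffice. -/
theorem main2 (k : ℕ) (hk : 3 ≤ k) : ∃ q₀ D₀ : ℕ, ∀ (F : Type) [Field F] [Fintype F],
    q₀ ≤ Fintype.card F → k < ringChar F → ∀ N : F[X], D₀ ≤ N.natDegree →
    ∀ s : ℕ, 2 * k + 5 ≤ s → ∃ x : Fin s → F[X],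
      (∀ i, k * (x i).natDegree < N.natDegree + k) ∧ ∑ i, x i ^ k = N := by
  obtain ⟨q₀, D₀, hpar⟩ := param2 k hk
  refine ⟨q₀, k * D₀, ?_⟩
  intro F _ _ hq hchar N hN s hs
  have hk0 : 0 < k := by omega
  -- `D = ⌈deg N / k⌉`
  set D := (N.natDegree + k - 1) / k with hD
  have hkD1 : k * D < N.natDegree + k := by
    have := Nat.mul_div_le (N.natDegree + k - 1) k
    rw [← hD] at this
    omega
  have hkD2 : N.natDegree ≤ k * D := by
    have := Nat.lt_mul_div_succ (N.natDegree + k - 1) hk0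
    rw [← hD] at this
    have e : k * (D + 1) = k * D + k := by ring
    omega
  have hD0 : D₀ ≤ D := by
    rw [hD, Nat.le_div_iff_mul_le hk0, mul_comm]
    omega
  obtain ⟨-, h2k, hkD, hq', hp⟩ := hpar (Fintype.card F) D hq hD0
  have hNmem : N ∈ Pl F (k * D + 1) := by
    rw [mem_Pl]
    refine lt_of_le_of_lt degree_le_natDegree ?_
    exact_mod_cast Nat.lt_succ_of_le hkD2
  have hch : ∀ j : ℕ, 1 ≤ j → j ≤ k → (j : F) ≠ 0 := by
    intro j hj hjk h0
    have := (ringChar.spec F j).1 h0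
    have := Nat.le_of_dvd (by omega) this
    omega
  obtain ⟨x, y, z, hx, hy, hz, hNe⟩ := core2 k D hk hkD h2k hch hq' hp N hNmem
  have hdeg : ∀ p : F[X], p ∈ Pl F (D + 1) → k * p.natDegree < N.natDegree + k := by
    intro p hp
    rw [mem_Pl] at hp
    have : p.natDegree ≤ D := by
      rw [natDegree_le_iff_degree_le]
      exact Order.lt_succ_iff.mp (by exact_mod_cast hp)
    have := Nat.mul_le_mul_left k this
    omega
  -- combine the three families and pad with zeros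
  obtain ⟨r, rfl⟩ : ∃ r, s = ((k + k) + 5) + r := ⟨s - (2 * k + 5), by omega⟩
  refine ⟨Fin.append (Fin.append (Fin.append x y) z) (fun _ : Fin r => (0 : F[X])), ?_, ?_⟩
  · intro i
    refine Fin.addCases (fun i => ?_) (fun i => ?_) i
    · rw [Fin.append_left]
      refine Fin.addCases (fun i => ?_) (fun i => ?_) i
      · rw [Fin.append_left]
        refine Fin.addCases (fun i => ?_) (fun i => ?_) i
        · rw [Fin.append_left]; exact hdeg _ (hx i)
        · rw [Fin.append_right]; exact hdeg _ (hy i)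
      · rw [Fin.append_right]; exact hdeg _ (hz i)
    · rw [Fin.append_right]
      simp only [natDegree_zero, mul_zero]
      omega
  · rw [Fin.sum_univ_add, Fin.sum_univ_add, Fin.sum_univ_add]
    simp only [Fin.append_left, Fin.append_right]
    rw [zero_pow (by omega), Finset.sum_const_zero, add_zero, hNe]

end FFW
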