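import Pool.Agent.FFW.Circle3
import Pool.Agent.FFW.Final2

/-!
# FFW/Final3: almost all polynomials are sums of `k + 5` strict `k`-th powers (`q` large)

Assembly of `exists_W`, `minor`, `circle3`, `sfin_ge`, `dtop_ge`, `param2`.
-/

open Finset Polynomial

namespace FFW

private theorem tau_ge (k D : ℕ) (hk : 3 ≤ k) (hD : k * 4 ^ k ≤ D) :
    D / (k * 4 ^ k) + 2 ≤ 5 * ((D / (2 * k) - 2 ^ k) / 4 ^ (k - 1)) := by
  set P := 4 ^ (k - 1) with hP
  have hP1 : 1 ≤ P := Nat.one_le_pow _ _ (by norm_num)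
  have e4 : 4 ^ k = 4 * P := by
    rw [hP, ← pow_succ']
    congr 1
    omega
  have hTP : 2 ^ k ≤ P := by
    rw [hP, show (4 : ℕ) = 2 ^ 2 by norm_num, ← pow_mul]
    exact Nat.pow_le_pow_right (by norm_num) (by omega)
  set T := 2 ^ k with hT
  set E := D / (2 * k) with hE
  set τ := (E - T) / P with hτ
  rw [e4] at hD ⊢
  set a := D / (k * (4 * P)) with ha
  have ha1 : 1 ≤ a := by
    rw [ha]
    exact (Nat.one_le_div_iff (by positivity)).2 hD
  have h1 : k * (4 * P) * a ≤ D := Nat.mul_div_le _ _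
  have h2 : D < 2 * k * (E + 1) := Nat.lt_mul_div_succ D (by omega)
  have h3 : E < T + P * (τ + 1) := by
    have h := Nat.lt_mul_div_succ (E - T) (show 0 < P by omega)
    rw [← hτ] at h
    omega
  have h4 : 2 * k * (E + 1) ≤ 2 * k * (T + P * (τ + 1)) := Nat.mul_le_mul_left _ h3
  have h5 : 2 * k * (2 * P * a) < 2 * k * (P * (τ + 2)) := by
    calc 2 * k * (2 * P * a) = k * (4 * P) * a := by ring
      _ ≤ D := h1
      _ < 2 * k * (E + 1) := h2
      _ ≤ 2 * k * (T + P * (τ + 1)) := h4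
      _ ≤ 2 * k * (P + P * (τ + 1)) := Nat.mul_le_mul_left _ (Nat.add_le_add_right hTP _)
      _ = 2 * k * (P * (τ + 2)) := by ring
  have h6 : P * (2 * a) < P * (τ + 2) := by
    have h7 := Nat.lt_of_mul_lt_mul_left h5
    calc P * (2 * a) = 2 * P * a := by ring
      _ < P * (τ + 2) := h7
  have h8 : 2 * a < τ + 2 := Nat.lt_of_mul_lt_mul_left h6
  omega

theorem core3 {F : Type*} [Field F] [Fintype F] (k D : ℕ) (hk : 3 ≤ k) (hkD : k ≤ D)
    (h2k : 2 ^ k ≤ D / (2 * k)) (hchar : ∀ j : ℕ, 1 ≤ j → j ≤ k → (j : F) ≠ 0)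
    (hq : 10 * ((k : ℝ) ^ 5 + 1) ≤ Real.sqrt (Fintype.card F))
    (hpar : 4 * Fintype.card F ^ (k * D + 1) *
      (Fintype.card F ^ ((k - 1) * (k * ((k - 1) * (D / (k - 1))) + 1) /
        (Fintype.card F - 1) + 1) * k ^ (k * ((k - 1) * (D / (k - 1))) + 1)) <
      Fintype.card F ^ (5 * ((D / (2 * k) - 2 ^ k) / 4 ^ (k - 1))) *
        Fintype.card F ^ (k * ((k - 1) * (D / (k - 1))) + 1))
    (hD4 : k * 4 ^ k ≤ D)
    (X : Finset F[X]) (hX : ∀ N ∈ X, N ∈ Pl F (k * D + 1) ∧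
      ¬ ∃ (x : Fin k → F[X]) (z : Fin 5 → F[X]), (∀ i, x i ∈ Pl F (D + 1)) ∧
        (∀ i, z i ∈ Pl F (D + 1)) ∧ N = ∑ i, x i ^ k + ∑ i, z i ^ k) :
    X.card * Fintype.card F ^ (D / (k * 4 ^ k)) ≤ Fintype.card F ^ (k * D + 1) := by
  classical
  obtain ⟨ψ, hψ⟩ := exists_psi F
  set q := Fintype.card F with hqdef
  have hq2 : 2 ≤ q := Fintype.one_lt_card
  have hq1 : (1 : ℝ) ≤ q := by exact_mod_cast (le_trans one_le_two hq2)
  have hq0 : (0 : ℝ) < q := by linarith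
  have hkF : (k : F) ≠ 0 := hchar k (by omega) le_rfl
  have hfac : (k.factorial : F) ≠ 0 := by
    have : ∀ j : ℕ, j ≤ k → (j.factorial : F) ≠ 0 := by
      intro j
      induction j with
      | zero => intro _; simp
      | succ j ih =>
        intro hj
        rw [Nat.factorial_succ, Nat.cast_mul]
        exact mul_ne_zero (hchar (j + 1) (by omega) hj) (ih (by omega))
    exact this k le_rfl
  set E := D / (k - 1) with hE
  have hE1 : 1 ≤ E := by
    rw [hE]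
    exact (Nat.one_le_div_iff (by omega)).2 (by omega)
  set n := k * ((k - 1) * E) + 1 with hn
  set m := (k - 1) * n / (q - 1) + 1 with hm
  have hEle : (k - 1) * E ≤ D := by
    rw [hE]
    exact Nat.mul_div_le D (k - 1)
  have hmm : (k - 1) * n < (q - 1) * m := by
    rw [hm]
    exact Nat.lt_mul_div_succ _ (by omega)
  obtain ⟨W, hW, hWcard⟩ := exists_W (F := F) k E m (by omega) hE1 hkF (by rw [← hn]; exact hmm)
  rw [← hn, ← hqdef] at hWcard
  have htau := tau_ge k D hk hD4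
  set B := D / (2 * k) with hB
  have hBD : 2 * k * B ≤ D := by
    rw [hB]
    exact Nat.mul_div_le _ _
  have hBD' : k * B + k * B ≤ D := by
    have : 2 * k * B = k * B + k * B := by ring
    omega
  set τ := (B - 2 ^ k) / 4 ^ (k - 1) with hτ
  set T := 2 ^ (k - 1) * τ with hT
  have h4 : 4 ^ (k - 1) = 2 ^ (k - 1) * 2 ^ (k - 1) := by
    rw [← mul_pow]
    norm_num
  have h22 : 2 ^ k = 2 ^ (k - 1) * 2 := by
    rw [← pow_succ]
    congr 1
    omega
  have hTB : 2 ^ (k - 1) * (T + 2) ≤ B := by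
    have h1 : 4 ^ (k - 1) * τ ≤ B - 2 ^ k := by
      rw [hτ]
      exact Nat.mul_div_le _ _
    have h3 : 2 ^ (k - 1) * (T + 2) = 4 ^ (k - 1) * τ + 2 ^ k := by
      rw [hT, h4, h22]
      ring
    rw [h3]
    omega
  have hBle : B ≤ k * B := Nat.le_mul_of_pos_left _ (by omega)
  have hTD : 2 ^ (k - 1) * (T + 2) ≤ D := by omega
  set C := (2 ^ (k - 1) - 1) * (T + 2) with hC
  have hCB : C ≤ B := by
    refine le_trans ?_ hTB
    rw [hC]
    exact Nat.mul_le_mul_right _ (Nat.sub_le _ _)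
  have hB1 : 1 ≤ B := le_trans Nat.one_le_two_pow h2k
  have hsub : ∀ w ∈ W, w ∈ Pl F (k * D + 1) := by
    intro w hw
    refine Pl_mono ?_ (hW w hw).1
    have := Nat.mul_le_mul_left k hEle
    omega
  -- the bound for the minor arcs
  have hlam : ∀ s : Fin (k * D + 1) → F,
      0 ≤ ‖S ψ k (fn (k * D + 1) s) (D + 1)‖ / (q : ℝ) ^ (D + 1) := by
    intro s
    positivity
  have hminor : ∀ s : Fin (k * D + 1) → F, (¬ ∃ d : F[X], d.Monic ∧ d.natDegree ≤ B ∧
        ∀ y ∈ Pl F (k * D - k * B + 1 - (d ^ k).natDegree), fn (k * D + 1) s (d ^ k * y) = 0) →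
      (‖S ψ k (fn (k * D + 1) s) (D + 1)‖ / (q : ℝ) ^ (D + 1)) ^ 5 ≤
        1 / (q : ℝ) ^ (5 * τ) := by
    intro s hs
    have hs' : ¬ Maj (k * D) C s := fun h =>
      hs (good_of_maj k D C B B (by omega) hCB (le_trans hCB hBle)
        (Nat.mul_le_mul_left _ (by omega)) s h)
    have h1 := minor ψ hψ k (by omega) hfac D T hTD s hs'
    rw [← hqdef] at h1
    have h2 : ‖S ψ k (fn (k * D + 1) s) (D + 1)‖ / (q : ℝ) ^ (D + 1) ≤ 1 / (q : ℝ) ^ τ := by
      have h3 : (1 / (q : ℝ) ^ τ) ^ (2 ^ (k - 1)) = 1 / (q : ℝ) ^ T := by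
        rw [div_pow, one_pow, ← pow_mul, hT, mul_comm τ]
      rw [← h3] at h1
      exact le_of_pow_le_pow_left₀ (pow_ne_zero _ (by norm_num)) (by positivity) h1
    calc _ ≤ (1 / (q : ℝ) ^ τ) ^ 5 := pow_le_pow_left₀ (hlam s) h2 _
      _ = 1 / (q : ℝ) ^ (5 * τ) := by
        rw [div_pow, one_pow, ← pow_mul, mul_comm τ]
  -- the exceptional set is small compared with `W`
  have hXW : (W.card : ℝ) * X.card ≤ 16 * (1 / (q : ℝ) ^ (5 * τ) * (q : ℝ) ^ (k * D + 1)) ^ 2 := by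
    by_contra hcon
    rw [not_le] at hcon
    have hneg : (X.image (fun N => -N)).card = X.card :=
      Finset.card_image_of_injective _ neg_injective
    have hXm : ∀ w ∈ X.image (fun N => -N), w ∈ Pl F (k * D + 1) := by
      intro w hw
      rw [Finset.mem_image] at hw
      obtain ⟨N, hN, rfl⟩ := hw
      have := (hX N hN).1
      rw [mem_Pl] at this ⊢
      rwa [degree_neg]
    obtain ⟨w, hw, w', hw', z, hz, h0⟩ := circle3 ψ hψ k D 5 B B (by omega) (by omega)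
      (by omega) (by omega) W (X.image (fun N => -N)) hsub hXm (1 / (q : ℝ) ^ (5 * τ))
      (by positivity) hminor
      (fun n => sfin_ge k (by omega) hkF hq B n)
      (fun m => dtop_ge k (by omega) hkF hq (k * B) (by omega) m)
      (by rw [hneg]; exact hcon) 0 (zero_mem_Pl _)
    rw [Finset.mem_image] at hw'
    obtain ⟨N, hN, rfl⟩ := hw'
    apply (hX N hN).2
    obtain ⟨x, hx, hxe⟩ := (hW w hw).2
    refine ⟨x, z, fun i => Pl_mono (by omega) (hx i), hz, ?_⟩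
    rw [← hxe]
    linear_combination h0
  have hXW' : (W.card * X.card) * q ^ (10 * τ) ≤ 16 * (q ^ (k * D + 1) * q ^ (k * D + 1)) := by
    have hp : (0 : ℝ) < (q : ℝ) ^ (10 * τ) := by positivity
    have h5 : (1 / (q : ℝ) ^ (5 * τ) * (q : ℝ) ^ (k * D + 1)) ^ 2 =
        (q : ℝ) ^ (k * D + 1) * (q : ℝ) ^ (k * D + 1) / (q : ℝ) ^ (10 * τ) := by
      have h6 : (q : ℝ) ^ (10 * τ) = (q : ℝ) ^ (5 * τ) * (q : ℝ) ^ (5 * τ) := by
        rw [← pow_add]
        congr 1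
        ring
      rw [h6]
      field_simp
    rw [h5] at hXW
    have h7 := mul_le_mul_of_nonneg_right hXW hp.le
    have h8 : 16 * ((q : ℝ) ^ (k * D + 1) * (q : ℝ) ^ (k * D + 1) / (q : ℝ) ^ (10 * τ)) *
        (q : ℝ) ^ (10 * τ) = 16 * ((q : ℝ) ^ (k * D + 1) * (q : ℝ) ^ (k * D + 1)) := by
      field_simp
    rw [h8] at h7
    exact_mod_cast h7
  set a := D / (k * 4 ^ k) with ha
  set U := q ^ m * k ^ n with hU
  have hqp : 0 < q := by omega
  -- numerical conclusion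
  have hnum : 4 * q ^ (k * D + 1) * U ≤ q ^ (5 * τ) * q ^ n := hpar.le
  have ha2 : 4 * q ^ a ≤ q ^ (5 * τ) := by
    calc 4 * q ^ a ≤ q ^ 2 * q ^ a := Nat.mul_le_mul_right _ (by nlinarith)
      _ = q ^ (a + 2) := by rw [← pow_add, add_comm]
      _ ≤ q ^ (5 * τ) := Nat.pow_le_pow_right hqp htau
  have h10 : q ^ (10 * τ) = q ^ (5 * τ) * q ^ (5 * τ) := by
    rw [← pow_add]
    congr 1
    ring
  have hfin : (X.card * q ^ a) * (q ^ (10 * τ) * q ^ n) ≤ q ^ (k * D + 1) * (q ^ (10 * τ) * q ^ n) := by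
    calc (X.card * q ^ a) * (q ^ (10 * τ) * q ^ n)
        ≤ (X.card * q ^ a) * (q ^ (10 * τ) * (U * W.card)) :=
          Nat.mul_le_mul_left _ (Nat.mul_le_mul_left _ hWcard)
      _ = (W.card * X.card * q ^ (10 * τ)) * (q ^ a * U) := by ring
      _ ≤ (16 * (q ^ (k * D + 1) * q ^ (k * D + 1))) * (q ^ a * U) :=
          Nat.mul_le_mul_right _ hXW'
      _ = q ^ (k * D + 1) * ((4 * q ^ a) * (4 * q ^ (k * D + 1) * U)) := by ring
      _ ≤ q ^ (k * D + 1) * (q ^ (5 * τ) * (q ^ (5 * τ) * q ^ n)) :=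
          Nat.mul_le_mul_left _ (Nat.mul_le_mul ha2 hnum)
      _ = q ^ (k * D + 1) * (q ^ (10 * τ) * q ^ n) := by rw [h10]; ring
  exact Nat.le_of_mul_le_mul_right hfin (by positivity)

/-- **Almost all polynomials** of degree `≤ k D` are sums of `k + 5` `k`-th powers of polynomials of
degree `≤ D`. -/
theorem main3 (k : ℕ) (hk : 3 ≤ k) : ∃ q₀ D₀ : ℕ, ∀ (F : Type) [Field F] [Fintype F],
    q₀ ≤ Fintype.card F → k < ringChar F → ∀ D : ℕ, D₀ ≤ D → ∀ s : ℕ, k + 5 ≤ s →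
    {N : F[X] | N.natDegree ≤ k * D ∧ ¬ ∃ x : Fin s → F[X],
      (∀ i, (x i).natDegree ≤ D) ∧ ∑ i, x i ^ k = N}.ncard *
        Fintype.card F ^ (D / (k * 4 ^ k)) ≤ Fintype.card F ^ (k * D + 1) := by
  classical
  obtain ⟨q₀, D₀, hpar⟩ := param2 k hk
  refine ⟨q₀, D₀ + k * 4 ^ k, ?_⟩
  intro F _ _ hq hchar D hD s hs
  obtain ⟨-, h2k, hkD, hq', hp⟩ := hpar (Fintype.card F) D hq (by omega)
  have hch : ∀ j : ℕ, 1 ≤ j → j ≤ k → (j : F) ≠ 0 := by
    intro j hj hjk h0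
    have := (ringChar.spec F j).1 h0
    have := Nat.le_of_dvd (by omega) this
    omega
  have hPdeg : ∀ (p : F[X]) (m : ℕ), p ∈ Pl F (m + 1) ↔ p.natDegree ≤ m := by
    intro p m
    rw [mem_Pl, natDegree_le_iff_degree_le]
    constructor
    · intro h
      exact Order.lt_succ_iff.mp (by exact_mod_cast h)
    · intro h
      refine lt_of_le_of_lt h ?_
      exact_mod_cast Nat.lt_succ_self m
  set Y := (Pl F (k * D + 1)).filter (fun N => ¬ ∃ x : Fin s → F[X],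
      (∀ i, (x i).natDegree ≤ D) ∧ ∑ i, x i ^ k = N) with hY
  have hset : {N : F[X] | N.natDegree ≤ k * D ∧ ¬ ∃ x : Fin s → F[X],
      (∀ i, (x i).natDegree ≤ D) ∧ ∑ i, x i ^ k = N} = (Y : Set F[X]) := by
    ext N
    rw [hY, Finset.coe_filter, Set.mem_ofPred_eq, Set.mem_ofPred_eq, hPdeg]
  rw [hset, Set.ncard_coe_finset]
  refine core3 k D hk hkD h2k hch hq' hp (by omega) Y ?_
  intro N hN
  rw [hY, Finset.mem_filter] at hN
  refine ⟨hN.1, ?_⟩
  rintro ⟨x, z, hx, hz, hNe⟩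
  apply hN.2
  obtain ⟨r, rfl⟩ : ∃ r, s = (k + 5) + r := ⟨s - (k + 5), by omega⟩
  refine ⟨Fin.append (Fin.append x z) (fun _ : Fin r => (0 : F[X])), ?_, ?_⟩
  · intro i
    refine Fin.addCases (fun i => ?_) (fun i => ?_) i
    · rw [Fin.append_left]
      refine Fin.addCases (fun i => ?_) (fun i => ?_) i
      · rw [Fin.append_left]; exact (hPdeg _ _).1 (hx i)
      · rw [Fin.append_right]; exact (hPdeg _ _).1 (hz i)
    · rw [Fin.append_right]
      simp only [natDegree_zero]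
      omega
  · rw [Fin.sum_univ_add, Fin.sum_univ_add]
    simp only [Fin.append_left, Fin.append_right]
    rw [zero_pow (by omega), Finset.sum_const_zero, add_zero, hNe]

/-- both statements with the same constants -/
theorem main4 (k : ℕ) (hk : 3 ≤ k) : ∃ q₀ D₀ : ℕ, ∀ (F : Type) [Field F] [Fintype F],
    q₀ ≤ Fintype.card F → k < ringChar F →
    (∀ N : F[X], D₀ ≤ N.natDegree → ∀ s : ℕ, 2 * k + 5 ≤ s → ∃ x : Fin s → F[X],
      (∀ i, k * (x i).natDegree < N.natDegree + k) ∧ ∑ i, x i ^ k = N) ∧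
    (∀ D : ℕ, D₀ ≤ D → ∀ s : ℕ, k + 5 ≤ s →
      {N : F[X] | N.natDegree ≤ k * D ∧ ¬ ∃ x : Fin s → F[X],
        (∀ i, (x i).natDegree ≤ D) ∧ ∑ i, x i ^ k = N}.ncard *
          Fintype.card F ^ (D / (k * 4 ^ k)) ≤ Fintype.card F ^ (k * D + 1)) := by
  obtain ⟨q₁, D₁, h1⟩ := main2 k hk
  obtain ⟨q₂, D₂, h2⟩ := main3 k hk
  refine ⟨max q₁ q₂, max D₁ D₂, ?_⟩
  intro F _ _ hq hchar
  exact ⟨fun N hN => h1 F (le_trans (le_max_left _ _) hq) hchar N (le_trans (le_max_left _ _) hN),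
    fun D hD => h2 F (le_trans (le_max_right _ _) hq) hchar D (le_trans (le_max_right _ _) hD)⟩

end FFW
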