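import Pool.Agent.FFW.Den

/-!
# FFW/FourH: character sum over the functionals killing the multiples of `g`

PROOF. Let `U = {g y : y ∈ Pl (M' + 1 - deg g)}`, a subspace of `V = Pl (M+1)` with
`q ^ (M' + 1 - deg g)` elements (`g y` has degree `≤ M' ≤ M`). The `s` in the sum are the functionals on
`V` vanishing on `U`. For `z ∈ V`: if `z ∈ U` (that is `z ∈ Pl (M'+1)` and `g ∣ z`) every term is `1`;
otherwise some `s₀` vanishing on `U` has `fn (M+1) s₀ z ≠ 0` (linear algebra), and a multiple of it
has `ψ(..) ≠ 1`, so the sum is zero. The number of `s` vanishing on `U` is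
`q ^ (M + 1 - (M' + 1 - deg g)) = q ^ (M - M' + deg g)`: `U` has the basis `g X ^ j`,
`j < M' + 1 - deg g`, and `s` is determined by its values at the exponents `i` outside
`[deg g, M']`, which are free (triangular system: `fn s (g X ^ j) = s_{j + deg g} + ...`).
-/

open Finset Polynomial

namespace FFW

/-- `s ↦ fn m s z` as a linear map. -/
private noncomputable def FourH_ev {F : Type*} [Field F] [Fintype F] (m : ℕ) (z : F[X]) : (Fin m → F) →ₗ[F] F :=
  ∑ i : Fin m, z.coeff (i : ℕ) • LinearMap.proj i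

private lemma FourH_ev_apply {F : Type*} [Field F] [Fintype F] (m : ℕ) (z : F[X])
    (s : Fin m → F) : FourH_ev m z s = fn m s z := by
  unfold FourH_ev
  rw [fn_apply, LinearMap.sum_apply]
  apply Finset.sum_congr rfl
  intro i _
  simp [mul_comm]

private noncomputable def FourH_T {F : Type*} [Field F] [Fintype F] (m n : ℕ) (g : F[X]) :
    (Fin m → F) →ₗ[F] (Fin n → F) :=
  LinearMap.pi (fun j => FourH_ev m (g * X ^ (j : ℕ)))

private lemma FourH_T_apply {F : Type*} [Field F] [Fintype F] (m n : ℕ) (g : F[X])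
    (s : Fin m → F) (j : Fin n) : FourH_T m n g s j = fn m s (g * X ^ (j : ℕ)) := by
  unfold FourH_T
  rw [LinearMap.pi_apply, FourH_ev_apply]

private lemma FourH_X_mem {F : Type*} [Field F] [Fintype F] {n : ℕ} (j : Fin n) :
    (X ^ (j : ℕ) : F[X]) ∈ Pl F n := by
  rw [mem_Pl, degree_X_pow]
  exact_mod_cast j.2

private lemma FourH_ker {F : Type*} [Field F] [Fintype F] (m n : ℕ) (g : F[X])
    (s : Fin m → F) : (∀ y ∈ Pl F n, fn m s (g * y) = 0) ↔ FourH_T m n g s = 0 := by
  constructor
  · intro h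
    funext j
    rw [FourH_T_apply, Pi.zero_apply]
    exact h _ (FourH_X_mem j)
  · intro h y hy
    classical
    unfold Pl at hy
    rw [Finset.mem_image] at hy
    obtain ⟨c, _, rfl⟩ := hy
    rw [Finset.mul_sum, map_sum]
    apply Finset.sum_eq_zero
    intro j _
    have h1 : g * (C (c j) * X ^ (j : ℕ)) = c j • (g * X ^ (j : ℕ)) := by
      rw [smul_eq_C_mul]; ring
    rw [h1, map_smul, ← FourH_T_apply m n g s j, h]
    simp

private lemma FourH_single {F : Type*} [Field F] [Fintype F] {m : ℕ} (i : Fin m) (z : F[X]) :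
    fn m (Pi.single i 1) z = z.coeff i := by
  rw [fn_apply, Finset.sum_eq_single i]
  · simp
  · intro b _ hb
    rw [Pi.single_eq_of_ne hb, zero_mul]
  · simp

private lemma FourH_surj {F : Type*} [Field F] [Fintype F] {m n : ℕ} {g : F[X]} (hg : g.Monic)
    (h : g.natDegree + n ≤ m) : Function.Surjective (FourH_T m n g) := by
  rw [← LinearMap.dualMap_injective_iff]
  rw [← LinearMap.ker_eq_bot, LinearMap.ker_eq_bot']
  intro φ hφ
  set c : Fin n → F := fun j => φ (Pi.single j 1) with hc
  set y : F[X] := ∑ j : Fin n, C (c j) * X ^ (j : ℕ) with hy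
  have h1 : ∀ s : Fin m → F, φ (FourH_T m n g s) = fn m s (g * y) := by
    intro s
    rw [hy, Finset.mul_sum, map_sum, LinearMap.pi_apply_eq_sum_univ φ]
    apply Finset.sum_congr rfl
    intro j _
    have h2 : g * (C (c j) * X ^ (j : ℕ)) = c j • (g * X ^ (j : ℕ)) := by
      rw [smul_eq_C_mul]; ring
    rw [h2, map_smul, FourH_T_apply, smul_eq_mul, smul_eq_mul, mul_comm, hc]
    congr 2
    funext k
    by_cases hk : j = k
    · subst hk; simp
    · rw [if_neg hk, Pi.single_eq_of_ne (Ne.symm hk)]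
  have h2 : ∀ s : Fin m → F, fn m s (g * y) = 0 := by
    intro s
    rw [← h1 s]
    exact LinearMap.congr_fun hφ s
  have hyd : y.degree < n := poly_degree_lt n c
  have h3 : g * y = 0 := by
    ext i
    rw [coeff_zero]
    by_cases hi : i < m
    · rw [← FourH_single (⟨i, hi⟩ : Fin m) (g * y)]
      exact h2 _
    · apply coeff_eq_zero_of_degree_lt
      by_cases hy0 : y = 0
      · rw [hy0, mul_zero, degree_zero]
        exact WithBot.bot_lt_coe _
      rw [degree_mul, degree_eq_natDegree hg.ne_zero, degree_eq_natDegree hy0]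
      rw [degree_eq_natDegree hy0] at hyd
      have : y.natDegree < n := by exact_mod_cast hyd
      have : g.natDegree + y.natDegree < i := by omega
      exact_mod_cast this
  have h4 : y = 0 := by
    rcases mul_eq_zero.1 h3 with h5 | h5
    · exact absurd h5 hg.ne_zero
    · exact h5
  have h5 : ∀ j : Fin n, c j = 0 := by
    intro j
    have h6 := coeff_poly n c (j : ℕ)
    rw [← hy, h4, coeff_zero, dif_pos j.2] at h6
    exact h6.symm
  apply LinearMap.ext
  intro v
  rw [LinearMap.pi_apply_eq_sum_univ φ, LinearMap.zero_apply]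
  apply Finset.sum_eq_zero
  intro j _
  have : (fun k => if j = k then (1 : F) else 0) = Pi.single j 1 := by
    funext k
    by_cases hk : j = k
    · subst hk; simp
    · rw [if_neg hk, Pi.single_eq_of_ne (Ne.symm hk)]
  rw [this]
  have h6 : φ (Pi.single j 1) = 0 := h5 j
  rw [h6, smul_zero]

open scoped Classical in
private lemma FourH_card {F : Type*} [Field F] [Fintype F] {m n : ℕ} {g : F[X]} (hg : g.Monic)
    (h : g.natDegree + n ≤ m) :
    (univ.filter (fun s : Fin m → F => ∀ y ∈ Pl F n, fn m s (g * y) = 0)).card =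
      Fintype.card F ^ (m - n) := by
  have h1 : (univ.filter (fun s : Fin m → F => ∀ y ∈ Pl F n, fn m s (g * y) = 0)).card =
      Fintype.card (LinearMap.ker (FourH_T m n g)) := by
    rw [Fintype.card_subtype]
    congr 1
    ext s
    rw [Finset.mem_filter, Finset.mem_filter, FourH_ker m n g s, LinearMap.mem_ker]
  rw [h1, Module.card_eq_pow_finrank (K := F)]
  congr 1
  have h2 := LinearMap.finrank_range_add_finrank_ker (FourH_T m n g)
  rw [LinearMap.range_eq_top.2 (FourH_surj hg h), finrank_top, Module.finrank_fin_fun,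
    Module.finrank_fin_fun] at h2
  omega

/-- A functional killing the multiples of `g` but not `z`. -/
private lemma FourH_sep {F : Type*} [Field F] [Fintype F] {m : ℕ} {g z : F[X]} (hg : g.Monic)
    (hz : z ∈ Pl F m) (h : ¬ g ∣ z) : ∃ s : Fin m → F, (∀ y, g * y ∈ Pl F m → fn m s (g * y) = 0) ∧
      fn m s z ≠ 0 := by
  have hr : z %ₘ g ≠ 0 := by
    intro h0
    exact h ((modByMonic_eq_zero_iff_dvd hg).1 h0)
  obtain ⟨i, hi⟩ : ∃ i, (z %ₘ g).coeff i ≠ 0 := by
    by_contra h0
    push Not at h0
    exact hr (by ext i; rw [h0 i, coeff_zero])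
  refine ⟨fun j => ((X ^ (j : ℕ) : F[X]) %ₘ g).coeff i, ?_, ?_⟩
  all_goals
    have key : ∀ w ∈ Pl F m, fn m (fun j : Fin m => ((X ^ (j : ℕ) : F[X]) %ₘ g).coeff i) w =
        (w %ₘ g).coeff i := by
      intro w hw
      rw [fn_apply]
      have hw2 : w = ∑ j : Fin m, w.coeff (j : ℕ) • (X ^ (j : ℕ) : F[X]) := by
        ext l
        have h6 := coeff_poly m (fun j : Fin m => w.coeff (j : ℕ)) l
        simp only [← smul_eq_C_mul] at h6
        rw [h6]
        split_ifs with hl
        · rfl
        · rw [mem_Pl] at hw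
          exact (Polynomial.degree_lt_iff_coeff_zero w m).1 hw l (not_lt.mp hl)
      have h7 : w %ₘ g = ∑ j : Fin m, w.coeff (j : ℕ) • ((X ^ (j : ℕ) : F[X]) %ₘ g) := by
        conv_lhs => rw [hw2]
        have h8 : ∀ u : F[X], u %ₘ g = Polynomial.modByMonicHom g u := fun u => rfl
        rw [h8, map_sum]
        apply Finset.sum_congr rfl
        intro j _
        rw [map_smul, ← h8]
      rw [h7, Polynomial.finsetSum_coeff]
      apply Finset.sum_congr rfl
      intro j _
      rw [coeff_smul, smul_eq_mul, mul_comm]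
  · intro y hy
    rw [key _ hy, (modByMonic_eq_zero_iff_dvd hg).2 (dvd_mul_right g y), coeff_zero]
  · rw [key _ hz]
    exact hi

open scoped Classical in
theorem four_h {F : Type*} [Field F] [Fintype F] (ψ : AddChar F ℂ) (hψ : ψ ≠ 1) (M M' : ℕ)
    (hM : M' ≤ M) (g : F[X]) (hg : g.Monic) (hgd : g.natDegree ≤ M') (z : F[X])
    (hz : z ∈ Pl F (M + 1)) :
    ∑ s ∈ univ.filter (fun s : Fin (M + 1) → F =>
      ∀ y ∈ Pl F (M' + 1 - g.natDegree), fn (M + 1) s (g * y) = 0), ψ (fn (M + 1) s z) =
    if z ∈ Pl F (M' + 1) ∧ g ∣ z then (Fintype.card F : ℂ) ^ (M - M' + g.natDegree) else 0 := by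
  set n := M' + 1 - g.natDegree with hn
  have hdeg : ∀ y ∈ Pl F n, g * y ∈ Pl F (M' + 1) := by
    intro y hy
    have h1 : g ∈ Pl F (g.natDegree + 1) := by
      rw [mem_Pl]
      refine lt_of_le_of_lt degree_le_natDegree ?_
      exact_mod_cast Nat.lt_succ_self _
    have h2 := mul_mem_Pl h1 hy
    have h3 : g.natDegree + n = M' + 1 := by omega
    rwa [h3] at h2
  set K : Finset (Fin (M + 1) → F) := univ.filter (fun s : Fin (M + 1) → F =>
      ∀ y ∈ Pl F n, fn (M + 1) s (g * y) = 0) with hK
  have hcard : K.card = Fintype.card F ^ (M - M' + g.natDegree) := by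
    rw [hK, FourH_card hg (by omega)]
    congr 1
    omega
  suffices main : ∑ s ∈ K, ψ (fn (M + 1) s z) =
      if z ∈ Pl F (M' + 1) ∧ g ∣ z then (Fintype.card F : ℂ) ^ (M - M' + g.natDegree) else 0 by
    convert main
  by_cases hc : z ∈ Pl F (M' + 1) ∧ g ∣ z
  · rw [if_pos hc]
    obtain ⟨hz', y, rfl⟩ := hc
    have hy : y ∈ Pl F n := by
      rw [mem_Pl] at hz' ⊢
      by_cases hy0 : y = 0
      · rw [hy0, degree_zero]
        exact WithBot.bot_lt_coe _
      rw [degree_mul, degree_eq_natDegree hg.ne_zero, degree_eq_natDegree hy0] at hz'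
      rw [degree_eq_natDegree hy0]
      have : g.natDegree + y.natDegree < M' + 1 := by exact_mod_cast hz'
      have : y.natDegree < n := by omega
      exact_mod_cast this
    have h1 : ∀ s ∈ K, ψ (fn (M + 1) s (g * y)) = 1 := by
      intro s hs
      rw [hK, Finset.mem_filter] at hs
      rw [hs.2 y hy, AddChar.map_zero_eq_one]
    rw [Finset.sum_congr rfl h1, Finset.sum_const, hcard, nsmul_eq_mul, mul_one]
    push_cast
    rfl
  · rw [if_neg hc]
    obtain ⟨s₀, hs₀, hs₀z⟩ : ∃ s₀ ∈ K, fn (M + 1) s₀ z ≠ 0 := by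
      by_cases hz' : z ∈ Pl F (M' + 1)
      · have hgz : ¬ g ∣ z := fun h => hc ⟨hz', h⟩
        obtain ⟨s, hs1, hs2⟩ := FourH_sep hg hz hgz
        refine ⟨s, ?_, hs2⟩
        rw [hK, Finset.mem_filter]
        refine ⟨Finset.mem_univ _, fun y hy => hs1 y ?_⟩
        exact Pl_mono (by omega) (hdeg y hy)
      · have hz0 : z ≠ 0 := by
          rintro rfl
          exact hz' (zero_mem_Pl _)
        have hzd : z.natDegree < M + 1 := by
          rw [mem_Pl, degree_eq_natDegree hz0] at hz
          exact_mod_cast hz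
        have hzd' : M' + 1 ≤ z.natDegree := by
          by_contra h0
          apply hz'
          rw [mem_Pl, degree_eq_natDegree hz0]
          exact_mod_cast (by omega : z.natDegree < M' + 1)
        refine ⟨Pi.single (⟨z.natDegree, hzd⟩ : Fin (M + 1)) 1, ?_, ?_⟩
        · rw [hK, Finset.mem_filter]
          refine ⟨Finset.mem_univ _, fun y hy => ?_⟩
          rw [FourH_single]
          have h1 := hdeg y hy
          rw [mem_Pl] at h1
          exact (Polynomial.degree_lt_iff_coeff_zero _ _).1 h1 _ hzd'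
        · rw [FourH_single]
          exact leadingCoeff_ne_zero.2 hz0
    obtain ⟨b, hb⟩ : ∃ b, ψ b ≠ 1 := by
      by_contra h0
      push Not at h0
      exact hψ (by ext b; rw [h0 b]; rfl)
    set a : F := b / fn (M + 1) s₀ z with ha
    have hab : fn (M + 1) (a • s₀) z = b := by
      rw [← FourH_ev_apply, map_smul, FourH_ev_apply, smul_eq_mul, ha, div_mul_cancel₀ _ hs₀z]
    have hadd : ∀ (s t : Fin (M + 1) → F) (w : F[X]),
        fn (M + 1) (s + t) w = fn (M + 1) s w + fn (M + 1) t w := by
      intro s t w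
      rw [← FourH_ev_apply, map_add, FourH_ev_apply, FourH_ev_apply]
    have hsmul : ∀ (c : F) (s : Fin (M + 1) → F) (w : F[X]),
        fn (M + 1) (c • s) w = c * fn (M + 1) s w := by
      intro c s w
      rw [← FourH_ev_apply, map_smul, FourH_ev_apply, smul_eq_mul]
    have ht : ∀ s, s ∈ K ↔ s + a • s₀ ∈ K := by
      intro s
      rw [hK, Finset.mem_filter] at hs₀
      rw [hK, Finset.mem_filter, Finset.mem_filter]
      constructor
      · rintro ⟨_, h⟩
        refine ⟨Finset.mem_univ _, fun y hy => ?_⟩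
        rw [hadd, hsmul, h y hy, hs₀.2 y hy, mul_zero, add_zero]
      · rintro ⟨_, h⟩
        refine ⟨Finset.mem_univ _, fun y hy => ?_⟩
        have h1 := h y hy
        rwa [hadd, hsmul, hs₀.2 y hy, mul_zero, add_zero] at h1
    have hsum : ∑ s ∈ K, ψ (fn (M + 1) s z) = ∑ s ∈ K, ψ (fn (M + 1) (s + a • s₀) z) := by
      symm
      apply Finset.sum_bij (fun s _ => s + a • s₀)
      · intro s hs
        exact (ht s).1 hs
      · intro s _ t _ h
        exact add_right_cancel h
      · intro s hs
        refine ⟨s - a • s₀, ?_, sub_add_cancel _ _⟩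
        rw [ht, sub_add_cancel]
        exact hs
      · intro s _
        rfl
    have h2 : ∑ s ∈ K, ψ (fn (M + 1) (s + a • s₀) z) = (∑ s ∈ K, ψ (fn (M + 1) s z)) * ψ b := by
      rw [Finset.sum_mul]
      apply Finset.sum_congr rfl
      intro s _
      rw [hadd, hab, AddChar.map_add_eq_mul]
    rw [h2] at hsum
    have h3 : (∑ s ∈ K, ψ (fn (M + 1) s z)) * (1 - ψ b) = 0 := by
      linear_combination hsum
    rcases mul_eq_zero.1 h3 with h4 | h4
    · exact h4
    · exact absurd (sub_eq_zero.1 h4).symm hb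

end FFW
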