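import Pool.Agent.FFW.Defs

/-!
# FFW/Hank: functionals of small Hankel rank

`Pl a` = polynomials of degree `< a`. Let `a ≤ b`, `c < a` and suppose that
`L = {h ∈ Pl a : β(h y) = 0 for all y ∈ Pl b}` has at least `q ^ (a - c)` elements. Then there is
`g ≠ 0` of degree `≤ c` with `β(g y) = 0` for all `y ∈ Pl (a + b - 1 - c)`.

PROOF (`m = a - 1`, `l = b - 1`). `L` is closed under differences and constants. The map
`L × Pl (c + 1) → Pl a`, `(x, y) ↦ x + y`, is not injective (`q ^ (a - c) * q ^ (c + 1) > q ^ a`),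
so `L` contains a nonzero element of degree `≤ c`. Let `g ∈ L`, `g ≠ 0` be of minimal degree `e`,
`e ≤ c`. CLAIM: `β(g t ^ j) = 0` for all `j ≤ m + l - c`. Suppose not and let `j1` be the least `j`
with `β(g t ^ j) ≠ 0`; `j1 ≤ m + l - c` and `j1 ≥ l + 1` (as `g ∈ L`). Let
`B = {r + u g : deg r < e, u ∈ span(t ^ d : j1 - l ≤ d ≤ m - e)} ⊆ Pl a`; it is closed under
differences and has `q ^ (e + (m - e - (j1 - l) + 1)) = q ^ (m + 1 - (j1 - l))` elements
(uniqueness of division by `g`). `L ∩ B = {0}`: let `h = r + u g ∈ L ∩ B`. If `u = 0` then `h = r`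
has degree `< e` and `h ∈ L`, so `h = 0` by minimality of `e`. If `u ≠ 0` let `d = deg u`,
`J = j1 - d`, so `e + 1 ≤ J ≤ l` (`d ≤ m - e`, `j1 ≥ l + 1 ≥ m + 1`; `d ≥ j1 - l`).
`β(h * (g t ^ (J - e))) = 0` since `h ∈ L` and `g t ^ (J - e)` has degree `J ≤ l`.
`β(g * (r t ^ (J - e))) = 0` since `deg (r t ^ (J - e)) ≤ J - 1 < j1` and `β(g t ^ j) = 0` for all
`j < j1`. Hence `β(g * (u g t ^ (J - e))) = 0`; but `u g t ^ (J - e)` has degree exactly
`d + J = j1`, so this is (leading coefficient) `* β(g t ^ j1) ≠ 0`, a contradiction.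
So `(x, y) ↦ x + y` is injective on `L × B`: `q ^ (a - c) * q ^ (m + 1 - (j1 - l)) ≤ q ^ (m + 1)`,
i.e. `m + 1 - c ≤ j1 - l`, `j1 ≥ m + l + 1 - c`, a contradiction. By linearity `β(g y) = 0` for
all `y` of degree `≤ m + l - c = a + b - 2 - c`.
-/

open Finset Polynomial

namespace FFW

private lemma hank_C {F : Type*} [Field F] (β : F[X] →ₗ[F] F) (c : F) (z : F[X]) :
    β (C c * z) = c * β z := by
  rw [← smul_eq_C_mul, map_smul, smul_eq_mul]

/-- linearity: from the powers of `X` to all polynomials of degree `< N` -/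
private lemma hank_lin {F : Type*} [Field F] (β : F[X] →ₗ[F] F) (g : F[X]) (N : ℕ)
    (h : ∀ j < N, β (g * X ^ j) = 0) (y : F[X]) (hy : y.degree < N) : β (g * y) = 0 := by
  have h1 : y = ∑ i ∈ range N, C (y.coeff i) * X ^ i := by
    ext n
    rw [Polynomial.finsetSum_coeff]
    simp only [coeff_C_mul, coeff_X_pow, mul_ite, mul_one, mul_zero]
    rw [Finset.sum_ite_eq]
    split_ifs with hn
    · rfl
    · exact (Polynomial.degree_lt_iff_coeff_zero y N).1 hy n (not_lt.1 fun hlt =>
        hn (Finset.mem_range.2 hlt))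
  rw [h1, Finset.mul_sum, map_sum]
  refine Finset.sum_eq_zero fun i hi => ?_
  have h2 : g * (C (y.coeff i) * X ^ i) = C (y.coeff i) * (g * X ^ i) := by ring
  rw [h2, hank_C, h i (Finset.mem_range.1 hi), mul_zero]

/-- the top term -/
private lemma hank_top {F : Type*} [Field F] (β : F[X] →ₗ[F] F) (g : F[X]) (j1 : ℕ)
    (h : ∀ j < j1, β (g * X ^ j) = 0) (h1 : β (g * X ^ j1) ≠ 0) (w : F[X]) (hw : w ≠ 0)
    (hd : w.natDegree = j1) : β (g * w) ≠ 0 := by
  have h2 := w.eraseLead_add_C_mul_X_pow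
  have h3 : w.eraseLead.degree < j1 := by
    have := degree_eraseLead_lt hw
    rwa [degree_eq_natDegree hw, hd] at this
  have h4 : β (g * w) = w.leadingCoeff * β (g * X ^ j1) := by
    conv_lhs => rw [← h2]
    rw [mul_add, map_add, hank_lin β g j1 h _ h3, zero_add, hd]
    have h5 : g * (C w.leadingCoeff * X ^ j1) = C w.leadingCoeff * (g * X ^ j1) := by ring
    rw [h5, hank_C]
  rw [h4]
  exact mul_ne_zero (leadingCoeff_ne_zero.2 hw) h1

open scoped Classical in
theorem hank {F : Type*} [Field F] [Fintype F] (β : F[X] →ₗ[F] F) (a b c : ℕ) (hab : a ≤ b)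
    (hc : c < a)
    (hL : Fintype.card F ^ (a - c) ≤
      ((Pl F a).filter (fun h => ∀ y ∈ Pl F b, β (h * y) = 0)).card) :
    ∃ g ∈ Pl F (c + 1), g ≠ 0 ∧ ∀ y ∈ Pl F (a + b - 1 - c), β (g * y) = 0 := by
  set q := Fintype.card F with hq
  have hq1 : 1 < q := Fintype.one_lt_card
  set L := (Pl F a).filter (fun h => ∀ y ∈ Pl F b, β (h * y) = 0) with hLdef
  have hLmem : ∀ h, h ∈ L ↔ h ∈ Pl F a ∧ ∀ y ∈ Pl F b, β (h * y) = 0 := fun h => by
    rw [hLdef, Finset.mem_filter]
  have hLsub : ∀ h h', h ∈ L → h' ∈ L → h - h' ∈ L := by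
    intro h h' hh hh'
    rw [hLmem] at *
    refine ⟨sub_mem_Pl hh.1 hh'.1, fun y hy => ?_⟩
    rw [sub_mul, map_sub, hh.2 y hy, hh'.2 y hy, sub_zero]
  -- a nonzero element of degree at most c
  have hex : ∃ g ∈ L.filter (fun g => g ≠ 0), g ∈ Pl F (c + 1) := by
    have hcard : (Pl F a).card < (L ×ˢ Pl F (c + 1)).card := by
      rw [Finset.card_product, card_Pl, card_Pl, ← hq]
      calc q ^ a < q ^ (a + 1) := Nat.pow_lt_pow_right hq1 (Nat.lt_succ_self a)
        _ = q ^ (a - c) * q ^ (c + 1) := by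
          rw [← pow_add]
          congr 1
          omega
        _ ≤ L.card * q ^ (c + 1) := Nat.mul_le_mul_right _ hL
    obtain ⟨x, hx, x', hx', hne, hxx⟩ := Finset.exists_ne_map_eq_of_card_lt_of_maps_to
      (f := fun z : F[X] × F[X] => z.1 + z.2) hcard (by
        intro z hz
        rw [Finset.mem_coe, Finset.mem_product] at hz
        exact add_mem_Pl ((hLmem _).1 hz.1).1 (Pl_mono (by omega) hz.2))
    rw [Finset.mem_product] at hx hx'
    have h1 : x.1 - x'.1 = x'.2 - x.2 := by
      have : x.1 + x.2 = x'.1 + x'.2 := hxx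
      linear_combination this
    have h2 : x.1 - x'.1 ≠ 0 := by
      intro h0
      apply hne
      have h3 : x'.2 - x.2 = 0 := by rw [← h1, h0]
      exact Prod.ext (sub_eq_zero.1 h0) (sub_eq_zero.1 h3).symm
    refine ⟨x.1 - x'.1, Finset.mem_filter.2 ⟨hLsub _ _ hx.1 hx'.1, h2⟩, ?_⟩
    rw [h1]
    exact sub_mem_Pl hx'.2 hx.2
  obtain ⟨g0, hg0, hg0c⟩ := hex
  obtain ⟨g, hg, hmin⟩ := Finset.exists_min_image (L.filter (fun g => g ≠ 0))
    (fun g => g.natDegree) ⟨g0, hg0⟩
  rw [Finset.mem_filter] at hg hg0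
  obtain ⟨hgL, hg1⟩ := hg
  set e := g.natDegree with he
  have hec : e ≤ c := by
    have h1 : e ≤ g0.natDegree := hmin g0 (Finset.mem_filter.2 hg0)
    have h2 : g0.degree < ((c + 1 : ℕ) : WithBot ℕ) := mem_Pl.1 hg0c
    rw [degree_eq_natDegree hg0.2] at h2
    have h3 : g0.natDegree < c + 1 := by exact_mod_cast h2
    omega
  have hgdeg : g.degree = (e : WithBot ℕ) := degree_eq_natDegree hg1
  have hminL : ∀ h ∈ L, h.degree < (e : WithBot ℕ) → h = 0 := by
    intro h hh hd
    by_contra h0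
    have h1 : e ≤ h.natDegree := hmin h (Finset.mem_filter.2 ⟨hh, h0⟩)
    rw [degree_eq_natDegree h0] at hd
    have h2 : h.natDegree < e := by exact_mod_cast hd
    omega
  refine ⟨g, ?_, hg1, ?_⟩
  · rw [mem_Pl, hgdeg]
    exact_mod_cast Nat.lt_succ_of_le hec
  -- the claim
  have hclaim : ∀ j < a + b - 1 - c, β (g * X ^ j) = 0 := by
    by_contra hcon
    push Not at hcon
    have hfind : ∃ j, β (g * X ^ j) ≠ 0 := ⟨hcon.choose, hcon.choose_spec.2⟩
    set j1 := Nat.find hfind with hj1
    have hj1ne : β (g * X ^ j1) ≠ 0 := Nat.find_spec hfind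
    have hj1min : ∀ j < j1, β (g * X ^ j) = 0 := fun j hj => by
      by_contra h
      exact Nat.find_min hfind hj h
    have hj1le : j1 < a + b - 1 - c :=
      lt_of_le_of_lt (Nat.find_min' hfind hcon.choose_spec.2) hcon.choose_spec.1
    have hj1b : b ≤ j1 := by
      by_contra h
      apply hj1ne
      refine ((hLmem g).1 hgL).2 _ ?_
      rw [mem_Pl, degree_X_pow]
      exact_mod_cast not_le.1 h
    -- s = j1 - l
    obtain ⟨s, hs⟩ : ∃ s, j1 = s + (b - 1) := ⟨j1 - (b - 1), by omega⟩
    obtain ⟨k, hk⟩ : ∃ k, a = e + s + k := ⟨a - e - s, by omega⟩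
    have hB : ∀ x ∈ L, ∀ r ∈ Pl F e, ∀ u ∈ Pl F k, x = r + X ^ s * u * g → x = 0 ∧ r = 0 ∧ u = 0 := by
      intro x hx r hr u hu hxe
      have hu0 : u = 0 := by
        by_contra hu0
        have hud : u.natDegree < k := by
          have := mem_Pl.1 hu
          rw [degree_eq_natDegree hu0] at this
          exact_mod_cast this
        obtain ⟨J, hJ⟩ : ∃ J, j1 = (s + u.natDegree) + (e + J) :=
          ⟨j1 - (s + u.natDegree) - e, by omega⟩
        have h1 : β (x * (g * X ^ J)) = 0 := by
          refine ((hLmem x).1 hx).2 _ ?_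
          rw [mem_Pl, degree_mul, hgdeg, degree_X_pow]
          have : e + J < b := by omega
          exact_mod_cast this
        have h2 : β (g * (r * X ^ J)) = 0 := by
          refine hank_lin β g j1 hj1min _ ?_
          rw [degree_mul, degree_X_pow]
          by_cases hr0 : r = 0
          · rw [hr0, degree_zero, WithBot.bot_add]
            exact WithBot.bot_lt_coe _
          · have hrd : r.natDegree < e := by
              have := mem_Pl.1 hr
              rw [degree_eq_natDegree hr0] at this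
              exact_mod_cast this
            rw [degree_eq_natDegree hr0]
            have : r.natDegree + J < j1 := by omega
            exact_mod_cast this
        have hw : X ^ s * u * g * X ^ J ≠ 0 := by
          refine mul_ne_zero (mul_ne_zero (mul_ne_zero ?_ hu0) hg1) ?_ <;>
            exact pow_ne_zero _ X_ne_zero
        have hwd : (X ^ s * u * g * X ^ J).natDegree = j1 := by
          rw [natDegree_mul_X_pow J (mul_ne_zero (mul_ne_zero (pow_ne_zero _ X_ne_zero) hu0) hg1),
            natDegree_mul (mul_ne_zero (pow_ne_zero _ X_ne_zero) hu0) hg1,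
            natDegree_mul (pow_ne_zero _ X_ne_zero) hu0, natDegree_X_pow, ← he]
          omega
        have h3 := hank_top β g j1 hj1min hj1ne _ hw hwd
        apply h3
        have h4 : g * (X ^ s * u * g * X ^ J) = x * (g * X ^ J) - g * (r * X ^ J) := by
          rw [hxe]
          ring
        rw [h4, map_sub, h1, h2, sub_zero]
      have hxr : x = r := by
        rw [hxe, hu0]
        ring
      have hx0 : x = 0 := by
        refine hminL x hx ?_
        rw [hxr]
        exact mem_Pl.1 hr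
      exact ⟨hx0, by rw [← hxr, hx0], hu0⟩
    have hinj : Set.InjOn (fun z : F[X] × F[X] × F[X] => z.1 + z.2.1 + X ^ s * z.2.2 * g)
        (L ×ˢ (Pl F e ×ˢ Pl F k) : Finset (F[X] × F[X] × F[X])) := by
      rintro ⟨x, r, u⟩ hz ⟨x', r', u'⟩ hz' heq
      rw [Finset.mem_coe, Finset.mem_product, Finset.mem_product] at hz hz'
      obtain ⟨h1, h2, h3⟩ := hz
      obtain ⟨h1', h2', h3'⟩ := hz'
      have h4 : x - x' = (r' - r) + X ^ s * (u' - u) * g := by
        have : x + r + X ^ s * u * g = x' + r' + X ^ s * u' * g := heq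
        linear_combination this
      obtain ⟨h5, h6, h7⟩ := hB _ (hLsub _ _ h1 h1') _ (sub_mem_Pl h2' h2) _ (sub_mem_Pl h3' h3) h4
      have h8 : x = x' := sub_eq_zero.1 h5
      have h9 : r' = r := sub_eq_zero.1 h6
      have h10 : u' = u := sub_eq_zero.1 h7
      rw [h8, h9, h10]
    have hmaps : ∀ z ∈ (L ×ˢ (Pl F e ×ˢ Pl F k) : Finset (F[X] × F[X] × F[X])),
        z.1 + z.2.1 + X ^ s * z.2.2 * g ∈ Pl F a := by
      rintro ⟨x, r, u⟩ hz
      rw [Finset.mem_product, Finset.mem_product] at hz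
      obtain ⟨h1, h2, h3⟩ := hz
      refine add_mem_Pl (add_mem_Pl ((hLmem _).1 h1).1 (Pl_mono (by omega) h2)) ?_
      rw [mem_Pl]
      by_cases hu0 : u = 0
      · rw [hu0, mul_zero, zero_mul, degree_zero]
        exact WithBot.bot_lt_coe _
      · have hud : u.natDegree < k := by
          have := mem_Pl.1 h3
          rw [degree_eq_natDegree hu0] at this
          exact_mod_cast this
        rw [degree_mul, degree_mul, degree_X_pow, hgdeg, degree_eq_natDegree hu0]
        have : s + u.natDegree + e < a := by omega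
        exact_mod_cast this
    have hcard := Finset.card_le_card_of_injOn _ hmaps hinj
    rw [Finset.card_product, Finset.card_product, card_Pl, card_Pl, card_Pl, ← hq, ← pow_add] at hcard
    have h1 : q ^ (a - c) * q ^ (e + k) ≤ q ^ a := (Nat.mul_le_mul_right _ hL).trans hcard
    rw [← pow_add] at h1
    have h2 := (Nat.pow_le_pow_iff_right hq1).1 h1
    omega
  intro y hy
  exact hank_lin β g _ hclaim y (mem_Pl.1 hy)

end FFW
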