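import Pool.Agent.FFW.Den

/-!
# FFW/Hens: primitive solutions modulo `p ^ i` (Hensel)

PROOF by induction on `i ≥ 1`. `i = 1`: definition of `np` (`p ^ 1 = p`). Step: write
`x ∈ (Pl ((i+1) d)) ^ t` (`d = deg p`) uniquely as `x_j = y_j + p ^ i z_j`, `y_j ∈ Pl (i d)`,
`z_j ∈ Pl d` (division by `p ^ i`; `deg p ^ (i+1) = (i+1) d`). `∑ x_j ^ k - n ≡
(∑ y_j ^ k - n) + p ^ i ∑ k y_j ^ (k-1) z_j mod p ^ (i+1)`. So `p ^ i ∣ ∑ y_j ^ k - n =: p ^ i w` and
`p ∣ w + ∑ k y_j ^ (k-1) z_j`; `p ∣ x_j ↔ p ∣ y_j`. If `p ∤ y_{j0}` then for arbitrary `z_j`,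
`j ≠ j0`, there is exactly one `z_{j0} ∈ Pl d` (`k y_{j0} ^ (k-1)` is invertible modulo `p`). So every
primitive `y` has exactly `(q ^ d) ^ (t-1)` lifts.
-/

open Finset Polynomial

namespace FFW

open scoped Classical in
private lemma hens_lin {F : Type*} [Field F] [Fintype F] (t : ℕ) (p : F[X]) (hp : p.Monic)
    (hirr : Irreducible p) (a : Fin (t + 1) → F[X]) (w : F[X]) (j0 : Fin (t + 1))
    (hc : ¬ p ∣ a j0) :
    ((Fintype.piFinset (fun _ : Fin (t + 1) => Pl F p.natDegree)).filter
      (fun z => p ∣ w + ∑ j, a j * z j)).card = (Fintype.card F ^ p.natDegree) ^ t := by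
  obtain ⟨s, u, hsu⟩ := (hirr.coprime_iff_not_dvd).2 hc
  rw [← card_Pl (F := F) p.natDegree, ← Fintype.card_piFinset_const (Pl F p.natDegree) t]
  apply Finset.card_bij (fun (z : Fin (t + 1) → F[X]) _ => fun j => z (j0.succAbove j))
  · intro z hz
    rw [Finset.mem_filter, Fintype.mem_piFinset] at hz
    rw [Fintype.mem_piFinset]
    intro j
    exact hz.1 _
  · intro z hz z' hz' h
    rw [Finset.mem_filter, Fintype.mem_piFinset] at hz hz'
    have hs : ∀ j, z (j0.succAbove j) = z' (j0.succAbove j) := fun j => congrFun h j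
    have h1 := dvd_sub hz.2 hz'.2
    rw [Fin.sum_univ_succAbove _ j0, Fin.sum_univ_succAbove _ j0] at h1
    have h2 : ∑ j, a (j0.succAbove j) * z (j0.succAbove j) =
        ∑ j, a (j0.succAbove j) * z' (j0.succAbove j) :=
      Finset.sum_congr rfl (fun j _ => by rw [hs j])
    rw [h2] at h1
    have h3 : p ∣ a j0 * (z j0 - z' j0) := by
      convert h1 using 1
      ring
    have h4 : p ∣ z j0 - z' j0 := (hirr.prime.dvd_or_dvd h3).resolve_left hc
    have h5 : z j0 - z' j0 = 0 := by
      apply Polynomial.eq_zero_of_dvd_of_degree_lt h4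
      rw [degree_eq_natDegree hp.ne_zero]
      exact mem_Pl.1 (sub_mem_Pl (hz.1 j0) (hz'.1 j0))
    funext j
    rcases Fin.eq_self_or_eq_succAbove j0 j with rfl | ⟨l, rfl⟩
    · exact sub_eq_zero.1 h5
    · exact hs l
  · intro z' hz'
    rw [Fintype.mem_piFinset] at hz'
    set B : F[X] := w + ∑ j, a (j0.succAbove j) * z' j with hB
    refine ⟨Fin.insertNth j0 ((-(u * B)) %ₘ p) z', ?_, ?_⟩
    · rw [Finset.mem_filter, Fintype.mem_piFinset]
      constructor
      · intro j
        rcases Fin.eq_self_or_eq_succAbove j0 j with rfl | ⟨l, rfl⟩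
        · rw [Fin.insertNth_apply_same, mem_Pl, ← degree_eq_natDegree hp.ne_zero]
          exact degree_modByMonic_lt _ hp
        · rw [Fin.insertNth_apply_succAbove]
          exact hz' l
      · rw [Fin.sum_univ_succAbove _ j0, Fin.insertNth_apply_same]
        simp only [Fin.insertNth_apply_succAbove]
        have h1 := Polynomial.modByMonic_add_div (-(u * B)) p
        have h2 : (-(u * B)) %ₘ p = -(u * B) - p * ((-(u * B)) /ₘ p) := by
          rw [eq_sub_iff_add_eq]; exact h1
        rw [h2]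
        refine ⟨s * B - a j0 * ((-(u * B)) /ₘ p), ?_⟩
        have h3 : w + (a j0 * (-(u * B) - p * (-(u * B) /ₘ p)) +
            ∑ j, a (j0.succAbove j) * z' j) = B + a j0 * (-(u * B) - p * (-(u * B) /ₘ p)) := by
          rw [hB]; ring
        rw [h3]
        have h4 : B = (s * p + u * a j0) * B := by rw [hsu, one_mul]
        nth_rewrite 1 [h4]
        ring
    · funext j
      rw [Fin.insertNth_apply_succAbove]

open scoped Classical in
private lemma hens_step {F : Type*} [Field F] [Fintype F] (k t : ℕ) (hkF : (k : F) ≠ 0)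
    (p : F[X]) (hp : p.Monic) (hirr : Irreducible p) (i : ℕ) (hi : 1 ≤ i)
    (n : F[X]) :
    ((Fintype.piFinset (fun _ : Fin (t + 1) => Pl F (p ^ (i + 1)).natDegree)).filter
      (fun x => p ^ (i + 1) ∣ ∑ j, x j ^ k - n ∧ ∃ j, ¬ p ∣ x j)).card =
    ((Fintype.piFinset (fun _ : Fin (t + 1) => Pl F (p ^ i).natDegree)).filter
      (fun x => p ^ i ∣ ∑ j, x j ^ k - n ∧ ∃ j, ¬ p ∣ x j)).card *
      (Fintype.card F ^ p.natDegree) ^ t := by
  have hP : (p ^ i).Monic := hp.pow i
  have hP0 : (p ^ i) ≠ 0 := hP.ne_zero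
  have hpP : p ∣ p ^ i := dvd_pow_self p (by omega)
  have hdeg : (p ^ (i + 1)).natDegree = (p ^ i).natDegree + p.natDegree := by
    rw [pow_succ, hP.natDegree_mul hp]
  rw [Finset.card_eq_sum_card_fiberwise (f := fun (x : Fin (t + 1) → F[X]) => fun j => x j %ₘ p ^ i)
    (t := (Fintype.piFinset (fun _ : Fin (t + 1) => Pl F (p ^ i).natDegree)).filter
      (fun x => p ^ i ∣ ∑ j, x j ^ k - n ∧ ∃ j, ¬ p ∣ x j))]
  · rw [← smul_eq_mul, ← Finset.sum_const]
    apply Finset.sum_congr rfl
    intro y hy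
    rw [Finset.mem_filter, Fintype.mem_piFinset] at hy
    obtain ⟨hyd, ⟨w, hw⟩, j0, hj0⟩ := hy
    -- the linear form
    have hc : ¬ p ∣ (k : F[X]) * y j0 ^ (k - 1) := by
      intro h
      rcases hirr.prime.dvd_or_dvd h with h | h
      · have hu : IsUnit (k : F[X]) := by
          have : (k : F[X]) = C (k : F) := (map_natCast C k).symm
          rw [this]
          exact isUnit_C.2 (isUnit_iff_ne_zero.2 hkF)
        exact hirr.not_isUnit (isUnit_of_dvd_unit h hu)
      · exact hj0 (hirr.prime.dvd_of_dvd_pow h)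
    rw [← hens_lin t p hp hirr (fun j => (k : F[X]) * y j ^ (k - 1)) w j0 hc]
    symm
    have key : ∀ z : Fin (t + 1) → F[X],
        (p ^ (i + 1) ∣ ∑ j, (y j + p ^ i * z j) ^ k - n ↔
          p ∣ w + ∑ j, (k : F[X]) * y j ^ (k - 1) * z j) := by
      intro z
      have hex : ∀ j, ∃ κ : F[X], (y j + p ^ i * z j) ^ k =
          y j ^ k + k * y j ^ (k - 1) * (p ^ i * z j) + κ * (p ^ i * z j) ^ 2 := by
        intro j
        exact ⟨(Polynomial.powAddExpansion (y j) (p ^ i * z j) k).1,
          (Polynomial.powAddExpansion (y j) (p ^ i * z j) k).2⟩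
      choose κ hκ using hex
      have h1 : ∑ j, (y j + p ^ i * z j) ^ k - n =
          p ^ i * (w + ∑ j, (k : F[X]) * y j ^ (k - 1) * z j) +
            p ^ (i + 1) * (p ^ (i - 1) * ∑ j, κ j * z j ^ 2) := by
        have e1 : p ^ (i + 1) * p ^ (i - 1) = p ^ i * p ^ i := by
          rw [← pow_add, ← pow_add]
          congr 1
          omega
        rw [← mul_assoc, e1, mul_add, ← hw, Finset.mul_sum, Finset.mul_sum]
        have h2 : ∑ j, (y j + p ^ i * z j) ^ k = ∑ j, y j ^ k +
            (∑ j, p ^ i * ((k : F[X]) * y j ^ (k - 1) * z j) +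
              ∑ j, p ^ i * p ^ i * (κ j * z j ^ 2)) := by
          rw [← Finset.sum_add_distrib, ← Finset.sum_add_distrib]
          apply Finset.sum_congr rfl
          intro j _
          rw [hκ j]
          ring
        rw [h2]
        ring
      rw [h1, dvd_add_left (Dvd.intro _ rfl), pow_succ, mul_dvd_mul_iff_left hP0]
    apply Finset.card_bij (fun (z : Fin (t + 1) → F[X]) _ => fun j => y j + p ^ i * z j)
    · intro z hz
      rw [Finset.mem_filter, Fintype.mem_piFinset] at hz
      rw [Finset.mem_filter, Finset.mem_filter, Fintype.mem_piFinset]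
      refine ⟨⟨?_, (key z).2 hz.2, j0, ?_⟩, ?_⟩
      · intro j
        rw [hdeg]
        apply add_mem_Pl
        · exact Pl_mono (Nat.le_add_right _ _) (hyd j)
        · apply mul_mem_Pl _ (hz.1 j)
          rw [mem_Pl, degree_eq_natDegree hP0]
          exact_mod_cast Nat.lt_succ_self _
      · intro h
        apply hj0
        exact (dvd_add_left (dvd_mul_of_dvd_left hpP _)).1 h
      · funext j
        have := (Polynomial.div_modByMonic_unique (f := y j + p ^ i * z j) (z j) (y j) hP
          ⟨rfl, by rw [degree_eq_natDegree hP0]; exact mem_Pl.1 (hyd j)⟩).2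
        exact this
    · intro z _ z' _ h
      funext j
      have := congrFun h j
      simp only [add_right_inj] at this
      exact mul_left_cancel₀ hP0 this
    · intro x hx
      rw [Finset.mem_filter, Finset.mem_filter, Fintype.mem_piFinset] at hx
      obtain ⟨⟨hxd, hxn, _⟩, hxy⟩ := hx
      have hxj : ∀ j, y j + p ^ i * (x j /ₘ p ^ i) = x j := by
        intro j
        have h1 := congrFun hxy j
        rw [← h1]
        exact Polynomial.modByMonic_add_div (x j) (p ^ i)
      refine ⟨fun j => x j /ₘ p ^ i, ?_, ?_⟩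
      · rw [Finset.mem_filter, Fintype.mem_piFinset]
        constructor
        · intro j
          rw [mem_Pl]
          by_cases h0 : x j /ₘ p ^ i = 0
          · rw [h0, degree_zero]; exact WithBot.bot_lt_coe _
          have h1 : (x j).natDegree < (p ^ i).natDegree + p.natDegree := by
            have := mem_Pl.1 (hxd j)
            rw [hdeg] at this
            by_cases hx0 : x j = 0
            · exfalso; apply h0; rw [hx0, zero_divByMonic]
            · rw [degree_eq_natDegree hx0] at this
              exact_mod_cast this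
          rw [degree_eq_natDegree h0, natDegree_divByMonic _ hP]
          have h2 : 0 < p.natDegree := by
            exact hirr.natDegree_pos
          have : (x j).natDegree - (p ^ i).natDegree < p.natDegree := by omega
          exact_mod_cast this
        · rw [← key]
          simp only [hxj]
          exact hxn
      · funext j
        exact hxj j
  · intro x hx
    simp only [Finset.coe_filter, Set.mem_ofPred_eq, Fintype.mem_piFinset] at hx ⊢
    obtain ⟨hxd, hxn, j0, hj0⟩ := hx
    have hm : ∀ j, p ^ i ∣ x j - x j %ₘ p ^ i := by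
      intro j
      refine ⟨x j /ₘ p ^ i, ?_⟩
      rw [sub_eq_iff_eq_add, add_comm]
      exact (Polynomial.modByMonic_add_div (x j) (p ^ i)).symm
    refine ⟨?_, ?_, j0, ?_⟩
    · intro j
      rw [mem_Pl, ← degree_eq_natDegree hP0]
      exact degree_modByMonic_lt _ hP
    · have h1 : p ^ i ∣ ∑ j, x j ^ k - n := (pow_dvd_pow p (Nat.le_succ i)).trans hxn
      have h2 : p ^ i ∣ ∑ j, x j ^ k - ∑ j, (x j %ₘ p ^ i) ^ k := by
        rw [← Finset.sum_sub_distrib]
        apply Finset.dvd_sum
        intro j _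
        exact (hm j).trans (sub_dvd_pow_sub_pow _ _ k)
      have h3 := dvd_sub h1 h2
      convert h3 using 1
      ring
    · intro h
      apply hj0
      have h1 : p ∣ x j0 - x j0 %ₘ p ^ i := hpP.trans (hm j0)
      have h2 := dvd_add h1 h
      rwa [sub_add_cancel] at h2

open scoped Classical in
theorem hens {F : Type*} [Field F] [Fintype F] (k t : ℕ) (hk : 1 ≤ k) (hkF : (k : F) ≠ 0)
    (ht : 1 ≤ t) (p : F[X]) (hp : p.Monic) (hirr : Irreducible p) (i : ℕ) (hi : 1 ≤ i)
    (n : F[X]) :
    ((Fintype.piFinset (fun _ : Fin t => Pl F (p ^ i).natDegree)).filter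
      (fun x => p ^ i ∣ ∑ j, x j ^ k - n ∧ ∃ j, ¬ p ∣ x j)).card =
    (Fintype.card F ^ p.natDegree) ^ ((i - 1) * (t - 1)) * np k t p n := by
  obtain ⟨t, rfl⟩ : ∃ t', t = t' + 1 := ⟨t - 1, by omega⟩
  induction i, hi using Nat.le_induction with
  | base => simp only [pow_one, Nat.sub_self, zero_mul, pow_zero, one_mul]; rfl
  | succ i hi ih =>
    rw [hens_step k t hkF p hp hirr i hi n, ih]
    have e : (i + 1 - 1) * (t + 1 - 1) = (i - 1) * (t + 1 - 1) + t := by
      obtain ⟨i, rfl⟩ : ∃ i', i = i' + 1 := ⟨i - 1, by omega⟩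
      simp only [Nat.add_sub_cancel]
      ring
    rw [e, pow_add]
    ring

end FFW
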