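import Pool.Agent.FFW.Den

/-!
# FFW/Om: the weight of the major arcs

`d` monic is GOOD (for `β`, `M'`) if `β(d ^ k y) = 0` for all `y ∈ Pl (M' + 1 - deg (d ^ k))`.
If some monic `d` of degree `≤ C₁` is good then
`∑_{j ≤ C₁} #{good d of degree j} = 1 + q ∑_{j < C₁} #{good d of degree j}`; otherwise all these numbers
are zero.

PROOF. (1) More generally say that a monic `g` kills if `β(g y) = 0` for all
`y ∈ Pl (M' + 1 - deg g)`. If `g` kills, `g ∣ g'` monic of degree `≤ M' + 1`, then `g'` kills.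
(2) If `g, g'` kill and `deg g, deg g' ≤ K`, `2 K ≤ M' + 1`, then the monic gcd `G` kills: every
`G y`, `y ∈ Pl (M' + 1 - deg G)`, is `g a + g' b` with `a ∈ Pl (M' + 1 - deg g)`,
`b ∈ Pl (M' + 1 - deg g')`: write `G y = g a₀ + g' b₀` (Bezout), divide `a₀` by `g' / G` (monic of
degree `deg g' - deg G`): `a₀ = (g'/G) c + a`, `deg a < deg g' - deg G`, so
`deg (g a) < deg g + deg g' - deg G ≤ M' + 1 - deg G ≤ M' + 1`; then `g' b = G y - g a`,
`b = b₀ + (g/G) c`, has degree `≤ M'`.
(3) `K = k C₁`. The good `d` of degree `≤ C₁` are closed under monic gcd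
(`gcd(d ^ k, d' ^ k) = gcd(d, d') ^ k`) and under multiples of degree `≤ C₁`. If there is one, let `h`
be a good one of minimal degree; `gcd(h, d)` is good for every good `d`, so `h ∣ d`. Hence
`#{good d of degree j} = #{c monic of degree j - deg h} = q ^ (j - deg h)` for `deg h ≤ j ≤ C₁`
(`card_Mo`), `0` for `j < deg h`, and
`∑_{j=deg h}^{C₁} q ^ (j - deg h) = 1 + q ∑_{j=deg h}^{C₁-1} q ^ (j - deg h)`.
-/

open Finset Polynomial

namespace FFW

/-- `g` kills -/
private def Kl {F : Type*} [Field F] [Fintype F] (M' : ℕ) (β : F[X] →ₗ[F] F) (g : F[X]) : Prop :=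
  ∀ y ∈ Pl F (M' + 1 - g.natDegree), β (g * y) = 0

private theorem kl_of_dvd {F : Type*} [Field F] [Fintype F] {M' : ℕ} {β : F[X] →ₗ[F] F}
    {g c : F[X]} (hg : g.Monic) (hc : c.Monic) (h : Kl M' β g) : Kl M' β (g * c) := by
  intro y hy
  rw [hg.natDegree_mul hc] at hy
  rw [mul_assoc]
  apply h
  by_cases h0 : M' + 1 - (g.natDegree + c.natDegree) = 0
  · rw [h0, mem_Pl] at hy
    have : y = 0 := by
      rw [← degree_eq_bot]
      by_contra hne
      rw [degree_eq_natDegree (fun h => hne (by rw [h, degree_zero]))] at hy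
      have h2 : y.natDegree < 0 := by exact_mod_cast hy
      omega
    rw [this, mul_zero]
    exact zero_mem_Pl _
  · have h1 : c ∈ Pl F (c.natDegree + 1) := by
      rw [mem_Pl]
      refine lt_of_le_of_lt degree_le_natDegree ?_
      exact_mod_cast Nat.lt_succ_self _
    exact Pl_mono (by omega) (mul_mem_Pl h1 hy)

private theorem kl_gcd {F : Type*} [Field F] [Fintype F] {M' : ℕ} {β : F[X] →ₗ[F] F}
    {G g₁ g₂ : F[X]} (hG : G.Monic) (h₁ : g₁.Monic) (h₂ : g₂.Monic) (hc : IsCoprime g₁ g₂)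
    (k₁ : Kl M' β (G * g₁)) (k₂ : Kl M' β (G * g₂))
    (hd : (G * g₁).natDegree + (G * g₂).natDegree ≤ M' + 1) : Kl M' β G := by
  intro y hy
  obtain ⟨a₀, b₀, hab⟩ := hc
  rw [hG.natDegree_mul h₁, hG.natDegree_mul h₂] at hd
  set a := (a₀ * y) %ₘ g₂ with ha
  set c := (a₀ * y) /ₘ g₂ with hcdef
  have hdiv : a + g₂ * c = a₀ * y := modByMonic_add_div _ g₂
  have e1 : G * y = G * g₁ * a + G * g₂ * (g₁ * c + b₀ * y) := by
    calc G * y = G * (a₀ * g₁ + b₀ * g₂) * y := by rw [hab, mul_one]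
      _ = G * g₁ * (a₀ * y) + G * g₂ * (b₀ * y) := by ring
      _ = G * g₁ * (a + g₂ * c) + G * g₂ * (b₀ * y) := by rw [hdiv]
      _ = _ := by ring
  have da : a.degree < g₂.degree := degree_modByMonic_lt _ h₂
  have ma : a ∈ Pl F (M' + 1 - (G * g₁).natDegree) := by
    rw [hG.natDegree_mul h₁, mem_Pl]
    refine lt_of_lt_of_le da ?_
    rw [degree_eq_natDegree h₂.ne_zero]
    exact_mod_cast (by omega : g₂.natDegree ≤ M' + 1 - (G.natDegree + g₁.natDegree))
  have mb : (g₁ * c + b₀ * y) ∈ Pl F (M' + 1 - (G * g₂).natDegree) := by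
    set b := g₁ * c + b₀ * y with hb
    rw [hG.natDegree_mul h₂, mem_Pl]
    by_cases hb0 : b = 0
    · rw [hb0, degree_zero]
      exact WithBot.bot_lt_coe _
    have e2 : G * g₂ * b = G * y - G * g₁ * a := by rw [e1]; ring
    have d1 : (G * y).degree < ((M' + 1 : ℕ) : WithBot ℕ) := by
      rw [mem_Pl] at hy
      by_cases hy0 : y = 0
      · rw [hy0, mul_zero, degree_zero]
        exact WithBot.bot_lt_coe _
      rw [degree_eq_natDegree hy0] at hy
      have hy' : y.natDegree < M' + 1 - G.natDegree := by exact_mod_cast hy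
      rw [degree_mul, degree_eq_natDegree hG.ne_zero, degree_eq_natDegree hy0]
      exact_mod_cast (by omega : G.natDegree + y.natDegree < M' + 1)
    have d2 : (G * g₁ * a).degree < ((M' + 1 : ℕ) : WithBot ℕ) := by
      by_cases ha0 : a = 0
      · rw [ha0, mul_zero, degree_zero]
        exact WithBot.bot_lt_coe _
      rw [degree_eq_natDegree ha0, degree_eq_natDegree h₂.ne_zero] at da
      have da' : a.natDegree < g₂.natDegree := by exact_mod_cast da
      rw [degree_mul, degree_mul, degree_eq_natDegree hG.ne_zero, degree_eq_natDegree h₁.ne_zero,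
        degree_eq_natDegree ha0]
      exact_mod_cast (by omega : G.natDegree + g₁.natDegree + a.natDegree < M' + 1)
    have d3 : (G * g₂ * b).degree < ((M' + 1 : ℕ) : WithBot ℕ) := by
      rw [e2]
      exact lt_of_le_of_lt (degree_sub_le _ _) (max_lt d1 d2)
    rw [degree_mul, degree_mul, degree_eq_natDegree hG.ne_zero, degree_eq_natDegree h₂.ne_zero,
      degree_eq_natDegree hb0] at d3
    have d4 : G.natDegree + g₂.natDegree + b.natDegree < M' + 1 := by exact_mod_cast d3
    rw [degree_eq_natDegree hb0]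
    exact_mod_cast (by omega : b.natDegree < M' + 1 - (G.natDegree + g₂.natDegree))
  rw [e1, map_add, k₁ a ma, k₂ _ mb, add_zero]

/-- a monic gcd with coprime cofactors -/
private theorem exists_gcd {F : Type*} [Field F] {h d : F[X]} (hh : h.Monic) (hd : d.Monic) :
    ∃ e h₁ d₁ : F[X], e.Monic ∧ h₁.Monic ∧ d₁.Monic ∧ h = e * h₁ ∧ d = e * d₁ ∧
      IsCoprime h₁ d₁ := by
  classical
  set e₀ := EuclideanDomain.gcd h d with he₀
  have e0 : e₀ ≠ 0 := fun h0 => hh.ne_zero (EuclideanDomain.gcd_eq_zero_iff.1 h0).1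
  set e := e₀ * C e₀.leadingCoeff⁻¹ with he
  have em : e.Monic := monic_mul_leadingCoeff_inv e0
  have hu : C e₀.leadingCoeff * C e₀.leadingCoeff⁻¹ = (1 : F[X]) := by
    rw [← C_mul, mul_inv_cancel₀ (leadingCoeff_ne_zero.2 e0), C_1]
  have de : e ∣ e₀ := ⟨C e₀.leadingCoeff, by
    rw [he, mul_assoc, mul_comm (C e₀.leadingCoeff⁻¹), hu, mul_one]⟩
  obtain ⟨h₁, hh₁⟩ := de.trans (EuclideanDomain.gcd_dvd_left h d)
  obtain ⟨d₁, hd₁⟩ := de.trans (EuclideanDomain.gcd_dvd_right h d)
  refine ⟨e, h₁, d₁, em, ?_, ?_, hh₁, hd₁, ?_⟩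
  · exact em.of_mul_monic_left (by rw [← hh₁]; exact hh)
  · exact em.of_mul_monic_left (by rw [← hd₁]; exact hd)
  · have hab := EuclideanDomain.gcd_eq_gcd_ab h d
    rw [← he₀] at hab
    refine ⟨EuclideanDomain.gcdA h d * C e₀.leadingCoeff⁻¹,
      EuclideanDomain.gcdB h d * C e₀.leadingCoeff⁻¹, ?_⟩
    have key : e * (EuclideanDomain.gcdA h d * C e₀.leadingCoeff⁻¹ * h₁ +
        EuclideanDomain.gcdB h d * C e₀.leadingCoeff⁻¹ * d₁) = e * 1 := by
      calc e * (EuclideanDomain.gcdA h d * C e₀.leadingCoeff⁻¹ * h₁ +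
        EuclideanDomain.gcdB h d * C e₀.leadingCoeff⁻¹ * d₁)
          = (e * h₁) * EuclideanDomain.gcdA h d * C e₀.leadingCoeff⁻¹ +
            (e * d₁) * EuclideanDomain.gcdB h d * C e₀.leadingCoeff⁻¹ := by ring
        _ = (h * EuclideanDomain.gcdA h d + d * EuclideanDomain.gcdB h d) *
            C e₀.leadingCoeff⁻¹ := by rw [← hh₁, ← hd₁]; ring
        _ = e * 1 := by rw [← hab, mul_one]
    exact mul_left_cancel₀ em.ne_zero key

private theorem sum_geo (q D C : ℕ) (hC : D ≤ C) :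
    ∑ j ∈ range (C + 1), (if D ≤ j then q ^ (j - D) else 0) =
      1 + q * ∑ j ∈ range C, (if D ≤ j then q ^ (j - D) else 0) := by
  induction C, hC using Nat.le_induction with
  | base =>
    rw [sum_range_succ]
    have h0 : ∑ j ∈ range D, (if D ≤ j then q ^ (j - D) else 0) = 0 := by
      apply sum_eq_zero
      intro j hj
      rw [mem_range] at hj
      rw [if_neg (by omega)]
    rw [h0, if_pos le_rfl]
    simp
  | succ C hC ih =>
    rw [sum_range_succ _ (C + 1)]
    conv_lhs => rw [ih]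
    rw [sum_range_succ _ C, if_pos (by omega : D ≤ C + 1), if_pos hC, mul_add, ← add_assoc]
    congr 1
    rw [show C + 1 - D = (C - D) + 1 by omega, pow_succ']

open scoped Classical in
private theorem card_mult {F : Type*} [Field F] [Fintype F] {h : F[X]} (hm : h.Monic) (j : ℕ) :
    ((Mo F j).filter (fun d => h ∣ d)).card =
      if h.natDegree ≤ j then Fintype.card F ^ (j - h.natDegree) else 0 := by
  split_ifs with hj
  · rw [← card_Mo (F := F) (j - h.natDegree)]
    symm
    refine card_bij (fun c _ => h * c) ?_ ?_ ?_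
    · intro c hc
      rw [mem_Mo] at hc
      rw [mem_filter, mem_Mo]
      refine ⟨⟨hm.mul hc.1, ?_⟩, dvd_mul_right _ _⟩
      rw [hm.natDegree_mul hc.1, hc.2]
      omega
    · intro c _ c' _ he
      exact mul_left_cancel₀ hm.ne_zero he
    · intro d hd
      rw [mem_filter, mem_Mo] at hd
      obtain ⟨⟨hdm, hdj⟩, c, rfl⟩ := hd
      have hcm : c.Monic := hm.of_mul_monic_left hdm
      rw [hm.natDegree_mul hcm] at hdj
      exact ⟨c, mem_Mo.2 ⟨hcm, by omega⟩, rfl⟩
  · rw [card_eq_zero, filter_eq_empty_iff]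
    intro d hd hdvd
    rw [mem_Mo] at hd
    have := natDegree_le_of_dvd hdvd hd.1.ne_zero
    omega

open scoped Classical in
theorem omega_one {F : Type*} [Field F] [Fintype F] (k M' C₁ : ℕ) (hk : 1 ≤ k)
    (hM : 2 * (k * C₁) ≤ M' + 1) (β : F[X] →ₗ[F] F)
    (h : ∃ d : F[X], d.Monic ∧ d.natDegree ≤ C₁ ∧
      ∀ y ∈ Pl F (M' + 1 - (d ^ k).natDegree), β (d ^ k * y) = 0) :
    ∑ j ∈ range (C₁ + 1), ((Mo F j).filter
      (fun d => ∀ y ∈ Pl F (M' + 1 - (d ^ k).natDegree), β (d ^ k * y) = 0)).card =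
    1 + Fintype.card F * ∑ j ∈ range C₁, ((Mo F j).filter
      (fun d => ∀ y ∈ Pl F (M' + 1 - (d ^ k).natDegree), β (d ^ k * y) = 0)).card := by
  -- minimal good polynomial
  have hex : ∃ n, ∃ d : F[X], d.Monic ∧ d.natDegree ≤ C₁ ∧ Kl M' β (d ^ k) ∧ d.natDegree = n := by
    obtain ⟨d, h1, h2, h3⟩ := h
    exact ⟨_, d, h1, h2, h3, rfl⟩
  obtain ⟨g, gm, gC, gk, gn⟩ := Nat.find_spec hex
  have hmin : ∀ d : F[X], d.Monic → d.natDegree ≤ C₁ → Kl M' β (d ^ k) →
      g.natDegree ≤ d.natDegree := by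
    intro d h1 h2 h3
    rw [gn]
    exact Nat.find_min' hex ⟨d, h1, h2, h3, rfl⟩
  have hgood : ∀ d : F[X], d.Monic → d.natDegree ≤ C₁ → (Kl M' β (d ^ k) ↔ g ∣ d) := by
    intro d hd hdC
    constructor
    · intro hdk
      obtain ⟨e, g₁, d₁, em, g₁m, d₁m, hg, hd', hco⟩ := exists_gcd gm hd
      have h1 : g ^ k = e ^ k * g₁ ^ k := by rw [hg, mul_pow]
      have h2 : d ^ k = e ^ k * d₁ ^ k := by rw [hd', mul_pow]
      have hek : Kl M' β (e ^ k) := by
        refine kl_gcd (em.pow k) (g₁m.pow k) (d₁m.pow k) hco.pow ?_ ?_ ?_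
        · rw [← h1]; exact gk
        · rw [← h2]; exact hdk
        · rw [← h1, ← h2, gm.natDegree_pow, hd.natDegree_pow]
          have a1 : k * g.natDegree ≤ k * C₁ := Nat.mul_le_mul_left k gC
          have a2 : k * d.natDegree ≤ k * C₁ := Nat.mul_le_mul_left k hdC
          omega
      have hdeg : g.natDegree = e.natDegree + g₁.natDegree := by
        rw [hg, em.natDegree_mul g₁m]
      have h3 := hmin e em (by omega) hek
      have h4 : g₁.natDegree = 0 := by omega
      have h5 : g₁ = 1 := g₁m.natDegree_eq_zero.1 h4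
      rw [hg, h5, mul_one, hd']
      exact dvd_mul_right _ _
    · rintro ⟨c, rfl⟩
      have hc : c.Monic := gm.of_mul_monic_left hd
      rw [mul_pow]
      exact kl_of_dvd (gm.pow k) (hc.pow k) gk
  have hcount : ∀ j, j ≤ C₁ → ((Mo F j).filter
      (fun d => ∀ y ∈ Pl F (M' + 1 - (d ^ k).natDegree), β (d ^ k * y) = 0)).card =
      if g.natDegree ≤ j then Fintype.card F ^ (j - g.natDegree) else 0 := by
    intro j hj
    rw [← card_mult gm j]
    congr 1
    ext d
    simp only [mem_filter]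
    refine and_congr_right fun hd => ?_
    rw [mem_Mo] at hd
    exact hgood d hd.1 (by rw [hd.2]; exact hj)
  rw [sum_congr rfl (fun j hj => hcount j (by rw [mem_range] at hj; omega)),
    sum_congr rfl (fun j hj => hcount j (by rw [mem_range] at hj; omega))]
  exact sum_geo _ _ _ gC

end FFW
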