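import Pool.Agent.FFW.Hens

/-!
# FFW/PrimD: the density of primitive solutions is a product over the primes

`dst k t c n = ∏_{p ∣ c} (1 + ep k t p n)` for `c` monic (`k ≥ 1`, `t ≥ 1`, `k ≠ 0` in `F`).

PROOF. `c = p ^ u`, `p` monic irreducible, `u ≥ 1`: `c ^ k = p ^ (k u)`, the primitivity condition
(for all irreducible `p' ∣ p ^ u`: associated to `p`) is `∃ i, ¬ p ∣ x i`, so `hens` with `i = k u`
gives `rp = (Q ^ ((k u - 1)(t - 1))) np`, `Q = q ^ (deg p)`, and
`dst = Q ^ (k u) Q ^ ((k u - 1)(t-1)) np / Q ^ (k u t) = Q np / Q ^ t = 1 + ep`.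
Coprime monic `c₁, c₂`: `rp (c₁ c₂) = rp c₁ * rp c₂` by the Chinese remainder theorem
(`x ↦ (x %ₘ c₁ ^ k, x %ₘ c₂ ^ k)` is a bijection `Pl (deg (c₁ c₂) ^ k) → Pl × Pl`; an irreducible
`p ∣ c₁ c₂` divides exactly one of them, and `p ∣ x_i ↔ p ∣ x_i %ₘ c₁ ^ k` if `p ∣ c₁`), so
`dst (c₁ c₂) = dst c₁ * dst c₂`. Induction over coprime factors
(`UniqueFactorizationMonoid.induction_on_coprime` or as in the proof of `loc` in Loc.lean);
`c = 1`: `Pl F 0 = {0}`, `dst = 1`.
-/

open Finset Polynomial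

namespace FFW

private theorem crt_inj {F : Type*} [Field F] [Fintype F] (g₁ g₂ : F[X]) (h₁ : g₁.Monic)
    (h₂ : g₂.Monic) (hco : IsCoprime g₁ g₂) :
    Set.InjOn (fun x : F[X] => (x %ₘ g₁, x %ₘ g₂)) (Pl F (g₁ * g₂).natDegree : Set F[X]) := by
  intro x hx y hy hxy
  rw [Finset.mem_coe] at hx hy
  simp only [Prod.mk.injEq] at hxy
  have hz : ∀ g : F[X], g.Monic → x %ₘ g = y %ₘ g → g ∣ x - y := by
    intro g hg h
    rw [← modByMonic_eq_zero_iff_dvd hg, sub_modByMonic, h, sub_self]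
  have hdvd : g₁ * g₂ ∣ x - y := IsCoprime.mul_dvd hco (hz g₁ h₁ hxy.1) (hz g₂ h₂ hxy.2)
  have hlt : (x - y).degree < (g₁ * g₂).degree := by
    have := mem_Pl.1 (sub_mem_Pl hx hy)
    rwa [degree_eq_natDegree (mul_ne_zero h₁.ne_zero h₂.ne_zero)]
  exact sub_eq_zero.1 (eq_zero_of_dvd_of_degree_lt hdvd hlt)

private theorem mod_mem {F : Type*} [Field F] [Fintype F] (g : F[X]) (hg : g.Monic) (x : F[X]) :
    x %ₘ g ∈ Pl F g.natDegree := by
  rw [mem_Pl]
  have := degree_modByMonic_lt x hg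
  rwa [degree_eq_natDegree hg.ne_zero] at this

private theorem crt_img {F : Type*} [Field F] [Fintype F] (g₁ g₂ : F[X]) (h₁ : g₁.Monic)
    (h₂ : g₂.Monic) (hco : IsCoprime g₁ g₂) (y z : F[X]) (hy : y ∈ Pl F g₁.natDegree)
    (hz : z ∈ Pl F g₂.natDegree) :
    ∃ x ∈ Pl F (g₁ * g₂).natDegree, x %ₘ g₁ = y ∧ x %ₘ g₂ = z := by
  classical
  have hdeg : (g₁ * g₂).natDegree = g₁.natDegree + g₂.natDegree := h₁.natDegree_mul h₂
  have hinj := crt_inj g₁ g₂ h₁ h₂ hco
  have himg : (Pl F (g₁ * g₂).natDegree).image (fun x : F[X] => (x %ₘ g₁, x %ₘ g₂)) =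
      Pl F g₁.natDegree ×ˢ Pl F g₂.natDegree := by
    apply Finset.eq_of_subset_of_card_le
    · intro z hz
      rw [Finset.mem_image] at hz
      obtain ⟨x, _, rfl⟩ := hz
      rw [Finset.mem_product]
      exact ⟨mod_mem g₁ h₁ x, mod_mem g₂ h₂ x⟩
    · rw [Finset.card_image_of_injOn hinj, Finset.card_product, card_Pl, card_Pl, card_Pl, hdeg,
        pow_add]
  have h : (y, z) ∈ Pl F g₁.natDegree ×ˢ Pl F g₂.natDegree := Finset.mem_product.2 ⟨hy, hz⟩
  rw [← himg, Finset.mem_image] at h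
  obtain ⟨x, hx, hxy⟩ := h
  simp only [Prod.mk.injEq] at hxy
  exact ⟨x, hx, hxy.1, hxy.2⟩

private theorem sub_mod {F : Type*} [Field F] (g x : F[X]) : g ∣ x - x %ₘ g := by
  have := modByMonic_add_div x g
  exact ⟨x /ₘ g, by linear_combination -this⟩

private theorem dvd_sum_iff {F : Type*} [Field F] {t : ℕ} (k : ℕ) (g n : F[X])
    (x : Fin t → F[X]) :
    g ∣ ∑ i, x i ^ k - n ↔ g ∣ ∑ i, (x i %ₘ g) ^ k - n := by
  have h : g ∣ (∑ i, x i ^ k - n) - (∑ i, (x i %ₘ g) ^ k - n) := by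
    have e : (∑ i, x i ^ k - n) - (∑ i, (x i %ₘ g) ^ k - n) =
        ∑ i, (x i ^ k - (x i %ₘ g) ^ k) := by
      rw [Finset.sum_sub_distrib]; ring
    rw [e]
    exact Finset.dvd_sum (fun i _ => dvd_trans (sub_mod g (x i)) (sub_dvd_pow_sub_pow _ _ k))
  constructor
  · intro h1
    have h2 := dvd_sub h1 h
    rwa [sub_sub_cancel] at h2
  · intro h1
    have h2 := dvd_add h h1
    rwa [sub_add_cancel] at h2

private theorem dvd_mod_iff {F : Type*} [Field F] (p g x : F[X]) (h : p ∣ g) :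
    p ∣ x ↔ p ∣ x %ₘ g := by
  have h0 : p ∣ x - x %ₘ g := dvd_trans h (sub_mod g x)
  constructor
  · intro h1
    have h2 := dvd_sub h1 h0
    rwa [sub_sub_cancel] at h2
  · intro h1
    have h2 := dvd_add h0 h1
    rwa [sub_add_cancel] at h2

open scoped Classical in
private theorem rp_mul {F : Type*} [Field F] [Fintype F] (k t : ℕ) (hk : 1 ≤ k) (c₁ c₂ : F[X])
    (h₁ : c₁.Monic) (h₂ : c₂.Monic) (hco : IsCoprime c₁ c₂) (n : F[X]) :
    rp k t (c₁ * c₂) n = rp k t c₁ n * rp k t c₂ n := by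
  have hg₁ : (c₁ ^ k).Monic := h₁.pow k
  have hg₂ : (c₂ ^ k).Monic := h₂.pow k
  have hcg : IsCoprime (c₁ ^ k) (c₂ ^ k) := hco.pow
  have hinj := crt_inj _ _ hg₁ hg₂ hcg
  have himg := crt_img _ _ hg₁ hg₂ hcg
  have hcond : ∀ x : Fin t → F[X],
      ((c₁ ^ k * c₂ ^ k ∣ ∑ i, x i ^ k - n ∧
        ∀ p, Irreducible p → p ∣ c₁ * c₂ → ∃ i, ¬ p ∣ x i) ↔
      (c₁ ^ k ∣ ∑ i, (x i %ₘ c₁ ^ k) ^ k - n ∧
        ∀ p, Irreducible p → p ∣ c₁ → ∃ i, ¬ p ∣ x i %ₘ c₁ ^ k) ∧
      (c₂ ^ k ∣ ∑ i, (x i %ₘ c₂ ^ k) ^ k - n ∧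
        ∀ p, Irreducible p → p ∣ c₂ → ∃ i, ¬ p ∣ x i %ₘ c₂ ^ k)) := by
    intro x
    rw [← dvd_sum_iff, ← dvd_sum_iff]
    have hp : ∀ (c : F[X]) (p : F[X]), p ∣ c → p ∣ c ^ k := fun c p h => dvd_pow h (by omega)
    constructor
    · rintro ⟨a, b⟩
      refine ⟨⟨dvd_of_mul_right_dvd a, fun p hp1 hp2 => ?_⟩,
        ⟨dvd_of_mul_left_dvd a, fun p hp1 hp2 => ?_⟩⟩
      · obtain ⟨i, hi⟩ := b p hp1 (hp2.mul_right _)
        exact ⟨i, fun h => hi ((dvd_mod_iff p _ _ (hp _ _ hp2)).2 h)⟩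
      · obtain ⟨i, hi⟩ := b p hp1 (hp2.mul_left _)
        exact ⟨i, fun h => hi ((dvd_mod_iff p _ _ (hp _ _ hp2)).2 h)⟩
    · rintro ⟨⟨a1, b1⟩, ⟨a2, b2⟩⟩
      refine ⟨IsCoprime.mul_dvd hcg a1 a2, fun p hp1 hp2 => ?_⟩
      rcases hp1.prime.dvd_or_dvd hp2 with h | h
      · obtain ⟨i, hi⟩ := b1 p hp1 h
        exact ⟨i, fun h' => hi ((dvd_mod_iff p _ _ (hp _ _ h)).1 h')⟩
      · obtain ⟨i, hi⟩ := b2 p hp1 h
        exact ⟨i, fun h' => hi ((dvd_mod_iff p _ _ (hp _ _ h)).1 h')⟩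
  unfold rp
  rw [← Finset.card_product, mul_pow]
  refine Finset.card_bij (fun x _ => (fun i => x i %ₘ c₁ ^ k, fun i => x i %ₘ c₂ ^ k)) ?_ ?_ ?_
  · intro x hx
    rw [Finset.mem_filter] at hx
    have h := (hcond x).1 hx.2
    rw [Finset.mem_product, Finset.mem_filter, Finset.mem_filter]
    refine ⟨⟨?_, h.1⟩, ⟨?_, h.2⟩⟩
    · rw [Fintype.mem_piFinset]
      exact fun i => mod_mem _ hg₁ _
    · rw [Fintype.mem_piFinset]
      exact fun i => mod_mem _ hg₂ _
  · intro x hx y hy hxy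
    rw [Finset.mem_filter, Fintype.mem_piFinset] at hx hy
    simp only [Prod.mk.injEq] at hxy
    funext i
    refine hinj (Finset.mem_coe.2 (hx.1 i)) (Finset.mem_coe.2 (hy.1 i)) ?_
    simp only [Prod.mk.injEq]
    exact ⟨congrFun hxy.1 i, congrFun hxy.2 i⟩
  · rintro ⟨y, z⟩ hyz
    rw [Finset.mem_product, Finset.mem_filter, Finset.mem_filter, Fintype.mem_piFinset,
      Fintype.mem_piFinset] at hyz
    choose x hx1 hx2 hx3 using fun i => himg (y i) (z i) (hyz.1.1 i) (hyz.2.1 i)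
    have e1 : (fun i => x i %ₘ c₁ ^ k) = y := funext hx2
    have e2 : (fun i => x i %ₘ c₂ ^ k) = z := funext hx3
    refine ⟨x, ?_, ?_⟩
    · rw [Finset.mem_filter, Fintype.mem_piFinset]
      refine ⟨hx1, (hcond x).2 ?_⟩
      simp only [hx2, hx3]
      exact ⟨hyz.1.2, hyz.2.2⟩
    · rw [e1, e2]

private theorem dst_mul {F : Type*} [Field F] [Fintype F] (k t : ℕ) (hk : 1 ≤ k) (c₁ c₂ : F[X])
    (h₁ : c₁.Monic) (h₂ : c₂.Monic) (hco : IsCoprime c₁ c₂) (n : F[X]) :
    dst k t (c₁ * c₂) n = dst k t c₁ n * dst k t c₂ n := by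
  unfold dst
  rw [rp_mul k t hk c₁ c₂ h₁ h₂ hco, h₁.natDegree_mul h₂, mul_add, pow_add, mul_pow, div_mul_div_comm]
  push_cast
  congr 1
  ring

private theorem Pl_zero {F : Type*} [Field F] [Fintype F] : Pl F 0 = {0} := by
  ext x
  rw [mem_Pl, Finset.mem_singleton]
  constructor
  · intro hx
    exact degree_eq_bot.1 (Nat.WithBot.lt_zero_iff.1 hx)
  · rintro rfl
    rw [degree_zero]
    exact WithBot.bot_lt_coe 0

private theorem dst_one {F : Type*} [Field F] [Fintype F] (k t : ℕ) (n : F[X]) :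
    dst k t (1 : F[X]) n = 1 := by
  classical
  have h : rp k t (1 : F[X]) n = 1 := by
    unfold rp
    rw [Finset.filter_true_of_mem]
    · rw [Fintype.card_piFinset, one_pow, natDegree_one, Pl_zero]
      simp
    · intro x _
      refine ⟨by rw [one_pow]; exact one_dvd _, fun p hp hp1 => ?_⟩
      exact absurd (isUnit_of_dvd_one hp1) hp.not_isUnit
  unfold dst
  rw [h, natDegree_one]
  simp

private theorem dst_pow {F : Type*} [Field F] [Fintype F] (k t : ℕ) (hk : 1 ≤ k)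
    (hkF : (k : F) ≠ 0) (ht : 1 ≤ t) (p : F[X]) (hp : p.Monic) (hirr : Irreducible p) (u : ℕ)
    (hu : 1 ≤ u) (n : F[X]) : dst k t (p ^ u) n = 1 + ep k t p n := by
  classical
  have hrp : rp k t (p ^ u) n =
      (Fintype.card F ^ p.natDegree) ^ ((u * k - 1) * (t - 1)) * np k t p n := by
    rw [← hens k t hk hkF ht p hp hirr (u * k) (Nat.mul_pos hu hk) n]
    unfold rp
    rw [← pow_mul]
    congr 1
    apply Finset.filter_congr
    intro x _
    refine and_congr_right (fun _ => ?_)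
    constructor
    · intro h
      exact h p hirr (dvd_pow_self p (by omega))
    · rintro ⟨i, hi⟩ p' hp' hd
      refine ⟨i, fun h => hi ?_⟩
      have h1 : p' ∣ p := hp'.prime.dvd_of_dvd_pow hd
      exact ((hp'.associated_of_dvd hirr h1).symm.dvd).trans h
  unfold dst ep
  rw [hrp, hp.natDegree_pow]
  push_cast
  have hq : (0 : ℝ) < Fintype.card F := by exact_mod_cast Fintype.card_pos
  have hQ : (0 : ℝ) < (Fintype.card F : ℝ) ^ p.natDegree := pow_pos hq _
  have e1 : (Fintype.card F : ℝ) ^ (k * (u * p.natDegree)) =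
      ((Fintype.card F : ℝ) ^ p.natDegree) ^ (u * k) := by
    rw [← pow_mul]
    congr 1
    ring
  rw [e1]
  set Q : ℝ := (Fintype.card F : ℝ) ^ p.natDegree with hQdef
  obtain ⟨m, hm⟩ : ∃ m, u * k = m + 1 := ⟨u * k - 1, by have := Nat.mul_pos hu hk; omega⟩
  obtain ⟨s, rfl⟩ : ∃ s, t = s + 1 := ⟨t - 1, by omega⟩
  rw [hm, Nat.add_sub_cancel, Nat.add_sub_cancel]
  have hQ0 : Q ≠ 0 := hQ.ne'
  have e2 : (Q ^ (m + 1)) ^ (s + 1) = Q ^ m * Q ^ (m * s) * Q ^ (s + 1) := by
    rw [← pow_mul, ← pow_add, ← pow_add]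
    congr 1
    ring
  rw [e2, add_sub_cancel, div_eq_div_iff (by positivity) (by positivity)]
  ring

open scoped Classical in
private theorem one_prod {F : Type*} [Field F] [Fintype F] (f : F[X] → ℝ) :
    ∏ p ∈ (UniqueFactorizationMonoid.normalizedFactors (1 : F[X])).toFinset, f p = 1 := by
  rw [UniqueFactorizationMonoid.normalizedFactors_one]
  simp

open scoped Classical in
private theorem pow_prod {F : Type*} [Field F] [Fintype F] (f : F[X] → ℝ) (p : F[X])
    (hp : p.Monic) (hirr : Irreducible p) (j : ℕ) (hj : 1 ≤ j) :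
    ∏ p ∈ (UniqueFactorizationMonoid.normalizedFactors (p ^ j)).toFinset, f p = f p := by
  have h : UniqueFactorizationMonoid.normalizedFactors (p ^ j) = j • ({p} : Multiset F[X]) := by
    rw [UniqueFactorizationMonoid.normalizedFactors_pow,
      UniqueFactorizationMonoid.normalizedFactors_irreducible hirr, hp.normalize_eq_self]
  rw [h, Multiset.toFinset_nsmul _ _ (by omega), Multiset.toFinset_singleton,
    Finset.prod_singleton]

open scoped Classical in
private theorem mul_prod {F : Type*} [Field F] [Fintype F] (f : F[X] → ℝ) (g₁ g₂ : F[X])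
    (h₁ : g₁ ≠ 0) (h₂ : g₂ ≠ 0) (hco : IsRelPrime g₁ g₂) :
    ∏ p ∈ (UniqueFactorizationMonoid.normalizedFactors (g₁ * g₂)).toFinset, f p =
    (∏ p ∈ (UniqueFactorizationMonoid.normalizedFactors g₁).toFinset, f p) *
      ∏ p ∈ (UniqueFactorizationMonoid.normalizedFactors g₂).toFinset, f p := by
  rw [UniqueFactorizationMonoid.normalizedFactors_mul h₁ h₂, Multiset.toFinset_add]
  have hno : ∀ p, p ∈ UniqueFactorizationMonoid.normalizedFactors g₁ →
      p ∉ UniqueFactorizationMonoid.normalizedFactors g₂ := by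
    intro p hp1 hp2
    have hu := hco (UniqueFactorizationMonoid.dvd_of_mem_normalizedFactors hp1)
      (UniqueFactorizationMonoid.dvd_of_mem_normalizedFactors hp2)
    exact (UniqueFactorizationMonoid.irreducible_of_normalized_factor p hp1).not_isUnit hu
  rw [Finset.prod_union]
  rw [Finset.disjoint_left]
  intro p hp1 hp2
  rw [Multiset.mem_toFinset] at hp1 hp2
  exact hno p hp1 hp2

open scoped Classical in
theorem dst_eq {F : Type*} [Field F] [Fintype F] (k t : ℕ) (hk : 1 ≤ k) (hkF : (k : F) ≠ 0)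
    (ht : 1 ≤ t) (c : F[X]) (hc : c.Monic) (n : F[X]) :
    dst k t c n = ∏ p ∈ (UniqueFactorizationMonoid.normalizedFactors c).toFinset,
      (1 + ep k t p n) := by
  have key : ∀ a : F[X], a ≠ 0 → dst k t (normalize a) n =
      ∏ p ∈ (UniqueFactorizationMonoid.normalizedFactors (normalize a)).toFinset,
        (1 + ep k t p n) := by
    intro a
    induction a using UniqueFactorizationMonoid.induction_on_coprime with
    | h0 => intro h; exact absurd rfl h
    | h1 hx =>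
      rename_i x
      intro _
      rw [normalize_eq_one.2 hx, dst_one, one_prod]
    | hpr i hp =>
      rename_i p
      intro _
      have hpw : normalize (p ^ i) = (normalize p) ^ i := map_pow normalizeHom p i
      rw [hpw]
      have hp0 : p ≠ 0 := hp.ne_zero
      have hm : (normalize p).Monic := monic_normalize hp0
      have hirr : Irreducible (normalize p) :=
        (associated_normalize p).irreducible hp.irreducible
      rcases Nat.eq_zero_or_pos i with h0 | h0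
      · subst h0
        rw [pow_zero, dst_one, one_prod]
      · rw [dst_pow k t hk hkF ht _ hm hirr i h0 n,
          pow_prod (fun p => 1 + ep k t p n) _ hm hirr i h0]
    | hcp hco hx hy =>
      rename_i x y
      intro hxy
      have hx0 : x ≠ 0 := left_ne_zero_of_mul hxy
      have hy0 : y ≠ 0 := right_ne_zero_of_mul hxy
      have hmx : (normalize x).Monic := monic_normalize hx0
      have hmy : (normalize y).Monic := monic_normalize hy0
      rw [normalize_mul]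
      have hco2 : IsRelPrime (normalize x) (normalize y) := by
        intro d hd1 hd2
        exact hco (dvd_normalize_iff.1 hd1) (dvd_normalize_iff.1 hd2)
      rw [dst_mul k t hk _ _ hmx hmy hco2.isCoprime, hx hx0, hy hy0,
        mul_prod _ _ _ hmx.ne_zero hmy.ne_zero hco2]
  have h := key c hc.ne_zero
  rwa [hc.normalize_eq_self] at h

end FFW
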