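import Mathlib

/-!
# FFW/RM: the Reed-Muller minimum distance (elementary version)

`P` a polynomial in `n` variables over `F` (`q` elements), `totalDegree P < (q - 1) * m`, nonzero at
one point `a`. Then it is nonzero at at least `q ^ (n - m)` points: `q ^ n ≤ q ^ m * #{P ≠ 0}`.

PROOF. For a matrix `L : Fin m → Fin n → F` let `P_L = P (a + u L)`, a polynomial in the `m`
variables `u` of total degree `≤ totalDegree P < (q - 1) * m`
(`bind₁` / `aeval` with `C (a i) + ∑ j, C (L j i) * X j`; the total degree does not increase).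
By Chevalley-Warning (`MvPolynomial.sum_eval_eq_zero`) `∑_u P_L(u) = 0`; as `P_L(0) = P(a) ≠ 0`
there is `u ≠ 0` with `P (a + u L) ≠ 0`. Count the pairs `(L, u)`, `u ≠ 0`, `P (a + u L) ≠ 0`:
for each `u ≠ 0` the map `L ↦ a + u L` from `(Fin m → Fin n → F)` to `(Fin n → F)` has all fibres
of size `q ^ (n m - n)` (surjective affine map of finite vector spaces; or: choose `j` with
`u j ≠ 0`, then the other rows of `L` are free and the row `j` is determined), so the number of
pairs is `(q ^ m - 1) * q ^ (n m - n) * #S`, and it is `≥ q ^ (n m)` (`m ≥ 1`; for `m = 0` the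
hypothesis on the degree is void). Hence `q ^ n ≤ (q ^ m - 1) * #S ≤ q ^ m * #S`.
-/

open Finset MvPolynomial

namespace FFW

variable {F : Type*} [Field F]

/-- The linear form `a_i + ∑_j L_{ji} u_j`. -/
private noncomputable def rmLin {m n : ℕ} (a : Fin n → F) (L : Fin m → Fin n → F) (i : Fin n) :
    MvPolynomial (Fin m) F :=
  C (a i) + ∑ j, C (L j i) * X j

/-- The polynomial `P (a + u L)` in `u`. -/
private noncomputable def rmPol {m n : ℕ} (P : MvPolynomial (Fin n) F) (a : Fin n → F)
    (L : Fin m → Fin n → F) : MvPolynomial (Fin m) F :=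
  ∑ d ∈ P.support, C (P.coeff d) * ∏ i, rmLin a L i ^ d i

private lemma rmLin_eval {m n : ℕ} (a : Fin n → F) (L : Fin m → Fin n → F) (i : Fin n)
    (u : Fin m → F) : eval u (rmLin a L i) = a i + ∑ j, L j i * u j := by
  simp [rmLin]

private lemma rmPol_eval {m n : ℕ} (P : MvPolynomial (Fin n) F) (a : Fin n → F)
    (L : Fin m → Fin n → F) (u : Fin m → F) :
    eval u (rmPol P a L) = eval (fun i => a i + ∑ j, L j i * u j) P := by
  rw [eval_eq' (fun i => a i + ∑ j, L j i * u j) P]
  unfold rmPol
  rw [map_sum]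
  refine Finset.sum_congr rfl fun d _ => ?_
  rw [map_mul, eval_C, map_prod]
  congr 1
  refine Finset.prod_congr rfl fun i _ => ?_
  rw [map_pow, rmLin_eval]

private lemma rmLin_deg {m n : ℕ} (a : Fin n → F) (L : Fin m → Fin n → F) (i : Fin n) :
    (rmLin a L i).totalDegree ≤ 1 := by
  unfold rmLin
  refine (totalDegree_add _ _).trans (max_le ?_ ?_)
  · rw [totalDegree_C]
    exact Nat.zero_le 1
  · refine totalDegree_finsetSum_le fun j _ => ?_
    refine (totalDegree_mul _ _).trans ?_
    rw [totalDegree_C, totalDegree_X]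

private lemma rmPol_deg {m n : ℕ} (P : MvPolynomial (Fin n) F) (a : Fin n → F)
    (L : Fin m → Fin n → F) : (rmPol P a L).totalDegree ≤ P.totalDegree := by
  unfold rmPol
  refine totalDegree_finsetSum_le fun d hd => ?_
  refine (totalDegree_mul _ _).trans ?_
  rw [totalDegree_C, zero_add]
  refine (totalDegree_finsetProd _ _).trans ?_
  have h1 : ∑ i, (rmLin a L i ^ d i).totalDegree ≤ ∑ i, d i := by
    refine Finset.sum_le_sum fun i _ => ?_
    refine (totalDegree_pow _ _).trans ?_
    have := rmLin_deg a L i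
    calc d i * (rmLin a L i).totalDegree ≤ d i * 1 := Nat.mul_le_mul_left _ this
      _ = d i := mul_one _
  refine h1.trans ?_
  have h2 := le_totalDegree hd
  rwa [Finsupp.sum_fintype _ _ (fun _ => rfl)] at h2

variable [Fintype F]

private lemma rm_exists {m n : ℕ} (P : MvPolynomial (Fin n) F)
    (hdeg : P.totalDegree < (Fintype.card F - 1) * m) (a : Fin n → F) (ha : eval a P ≠ 0)
    (L : Fin m → Fin n → F) :
    ∃ u : Fin m → F, u ≠ 0 ∧ eval (fun i => a i + ∑ j, L j i * u j) P ≠ 0 := by
  classical
  by_contra hcon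
  push Not at hcon
  have h1 : ∑ u, eval u (rmPol P a L) = 0 := by
    refine MvPolynomial.sum_eval_eq_zero _ ?_
    rw [Fintype.card_fin]
    exact (rmPol_deg P a L).trans_lt hdeg
  rw [Finset.sum_eq_single (0 : Fin m → F)] at h1
  · rw [rmPol_eval] at h1
    apply ha
    have h2 : (fun i => a i + ∑ j, L j i * (0 : Fin m → F) j) = a := by
      funext i
      simp
    rwa [h2] at h1
  · intro u _ hu
    rw [rmPol_eval]
    exact hcon u hu
  · intro h
    exact absurd (Finset.mem_univ _) h

open scoped Classical in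
/-- For `u ≠ 0`: the number of `L` with `a + u L ∈ S` is at most `#S q^(n (m-1))`. -/
private lemma rm_fib {m n : ℕ} (S : Finset (Fin n → F)) (a : Fin n → F) (u : Fin m → F)
    (hu : u ≠ 0) :
    (univ.filter (fun L : Fin m → Fin n → F => (fun i => a i + ∑ j, L j i * u j) ∈ S)).card ≤
      S.card * (Fintype.card F ^ n) ^ (m - 1) := by
  obtain ⟨j, hj⟩ := Function.ne_iff.1 hu
  rw [Pi.zero_apply] at hj
  have h1 : (Fintype.piFinset (fun i : Fin m => if i = j then S else univ)).card =
      S.card * (Fintype.card F ^ n) ^ (m - 1) := by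
    rw [Fintype.card_piFinset, ← Finset.mul_prod_erase univ _ (Finset.mem_univ j), if_pos rfl]
    congr 1
    rw [Finset.prod_congr rfl (g := fun _ => Fintype.card F ^ n)]
    · rw [Finset.prod_const, Finset.card_erase_of_mem (Finset.mem_univ j), Finset.card_univ,
        Fintype.card_fin]
    · intro i hi
      rw [if_neg (Finset.ne_of_mem_erase hi), Finset.card_univ]
      simp
  rw [← h1]
  refine Finset.card_le_card_of_injOn
    (fun L => Function.update L j (fun i => a i + ∑ k, L k i * u k)) ?_ ?_
  · intro L hL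
    rw [Finset.mem_coe, Finset.mem_filter] at hL
    rw [Finset.mem_coe, Fintype.mem_piFinset]
    intro i
    by_cases hi : i = j
    · subst hi
      rw [if_pos rfl]
      show Function.update L i (fun i' => a i' + ∑ k, L k i' * u k) i ∈ S
      rw [Function.update_self]
      exact hL.2
    · rw [if_neg hi]
      exact Finset.mem_univ _
  · intro L _ L' _ hLL
    have h2 : ∀ k, k ≠ j → L k = L' k := by
      intro k hk
      have := congrFun hLL k
      simpa [Function.update_of_ne hk] using this
    have h3 : (fun i => a i + ∑ k, L k i * u k) = fun i => a i + ∑ k, L' k i * u k := by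
      have := congrFun hLL j
      simpa using this
    funext k i
    by_cases hk : k = j
    · subst hk
      have h4 := congrFun h3 i
      simp only [add_right_inj] at h4
      rw [← Finset.add_sum_erase univ _ (Finset.mem_univ k),
        ← Finset.add_sum_erase univ (fun k => L' k i * u k) (Finset.mem_univ k)] at h4
      have h5 : ∑ x ∈ univ.erase k, L x i * u x = ∑ x ∈ univ.erase k, L' x i * u x := by
        refine Finset.sum_congr rfl fun x hx => ?_
        rw [h2 x (Finset.ne_of_mem_erase hx)]
      rw [h5] at h4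
      have h6 := add_right_cancel h4
      exact mul_right_cancel₀ hj h6
    · rw [h2 k hk]

open scoped Classical in
theorem rm {F : Type*} [Field F] [Fintype F] (n m : ℕ) (P : MvPolynomial (Fin n) F)
    (hdeg : P.totalDegree < (Fintype.card F - 1) * m) (a : Fin n → F) (ha : eval a P ≠ 0) :
    Fintype.card F ^ n ≤
      Fintype.card F ^ m * (univ.filter (fun y : Fin n → F => eval y P ≠ 0)).card := by
  set S : Finset (Fin n → F) := univ.filter (fun y : Fin n → F => eval y P ≠ 0) with hS
  set q := Fintype.card F with hq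
  have hq0 : 0 < q := Fintype.card_pos
  have hm : 0 < m := by
    rcases Nat.eq_zero_or_pos m with h | h
    · rw [h, mul_zero] at hdeg
      exact absurd hdeg (Nat.not_lt_zero _)
    · exact h
  have h1 : ∀ L : Fin m → Fin n → F, 1 ≤ (univ.filter (fun u : Fin m → F =>
      u ≠ 0 ∧ (fun i => a i + ∑ j, L j i * u j) ∈ S)).card := by
    intro L
    obtain ⟨u, hu, hP⟩ := rm_exists P hdeg a ha L
    refine Finset.card_pos.2 ⟨u, ?_⟩
    rw [Finset.mem_filter]
    refine ⟨Finset.mem_univ _, hu, ?_⟩
    rw [hS, Finset.mem_filter]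
    exact ⟨Finset.mem_univ _, hP⟩
  have h2 : (q ^ n) ^ m ≤ ∑ L : Fin m → Fin n → F, (univ.filter (fun u : Fin m → F =>
      u ≠ 0 ∧ (fun i => a i + ∑ j, L j i * u j) ∈ S)).card := by
    calc (q ^ n) ^ m = ∑ _L : Fin m → Fin n → F, 1 := by simp [hq]
      _ ≤ _ := Finset.sum_le_sum fun L _ => h1 L
  have h3 : ∑ L : Fin m → Fin n → F, (univ.filter (fun u : Fin m → F =>
      u ≠ 0 ∧ (fun i => a i + ∑ j, L j i * u j) ∈ S)).card =
      ∑ u : Fin m → F, (univ.filter (fun L : Fin m → Fin n → F =>
      u ≠ 0 ∧ (fun i => a i + ∑ j, L j i * u j) ∈ S)).card := by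
    simp only [Finset.card_filter]
    exact Finset.sum_comm
  have h4 : ∑ u : Fin m → F, (univ.filter (fun L : Fin m → Fin n → F =>
      u ≠ 0 ∧ (fun i => a i + ∑ j, L j i * u j) ∈ S)).card ≤
      ∑ _u : Fin m → F, S.card * (q ^ n) ^ (m - 1) := by
    refine Finset.sum_le_sum fun u _ => ?_
    by_cases hu : u = 0
    · simp [hu]
    · have h5 := rm_fib S a u hu
      simpa [hu] using h5
  have h5 : ∑ _u : Fin m → F, S.card * (q ^ n) ^ (m - 1) = q ^ m * (S.card * (q ^ n) ^ (m - 1)) := by
    simp [hq]
  have h6 : (q ^ n) ^ m = q ^ n * (q ^ n) ^ (m - 1) := by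
    rw [← pow_succ']
    congr 1
    omega
  have h7 : q ^ n * (q ^ n) ^ (m - 1) ≤ (q ^ m * S.card) * (q ^ n) ^ (m - 1) := by
    rw [← h6, mul_assoc, ← h5]
    exact h2.trans (h3.le.trans h4)
  exact Nat.le_of_mul_le_mul_right h7 (by positivity)

end FFW
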