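import Pool.Agent.FFW.Defs

/-!
# FFW/Sys: the square system for sums of `k` `k`-th powers

`D1 = (k - 1) E`, `n = k D1 + 1`. There are `n` polynomials `f_e` (`e < n`) in `n` variables `y`,
of total degree `≤ k`, such that for every `y` the `f_e(y)` are the coefficients of a sum
`∑_{i<k} x_i ^ k`, `x_i` of degree `≤ D1`, and such that the Jacobian determinant is not zero at
one point `y0`.

PROOF. For `e < n` put `ii e = min (e / D1) (k - 1)`, `jj e = e - (ii e) * D1`
(so `jj e < D1` if `ii e < k - 1`, `jj e ≤ D1` if `ii e = k - 1`; `e = (ii e) * D1 + jj e`).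
`x_i(y) = ∑_{e : ii e = i} y_e t ^ (jj e)` (degree `≤ D1`), as a polynomial in `t` over
`MvPolynomial (Fin n) F`: `Xi i = ∑_e if ii e = i then C (X e) * X ^ (jj e) else 0`,
`f_e = (∑_i (Xi i) ^ k).coeff e`. Total degree of the coefficients of `Xi i` is `≤ 1`, so total
degree of the coefficients of `(Xi i) ^ k` is `≤ k` (induction on the power). Evaluation at `y`:
`Polynomial.map (eval y)`. `x_i` has degree `≤ D1`, so `∑ x_i ^ k` has degree `≤ k D1 < n`.
`pderiv e' (f_e) = (k * (Xi (ii e')) ^ (k - 1) * X ^ (jj e')).coeff e` (apply the derivation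
`pderiv e'` coefficientwise: it is a derivation `D` of `Polynomial (MvPolynomial ..)`, coefficient
by coefficient, `D (Xi i) = if ii e' = i then X ^ (jj e') else 0`; or avoid it: prove the product
rule for the coefficientwise `pderiv` directly and use induction on the power).
Base point: `y0_e = 1` if `jj e = (ii e) * E`, else `0`; then `x_i = t ^ (i E)`
(`i E < D1` for `i < k - 1`, `(k - 1) E = D1`), `x_i ^ (k - 1) = t ^ (i (k - 1) E) = t ^ (i D1)`,
so the column `e'` of the Jacobian matrix is `k * t ^ ((ii e') D1 + jj e') = k * t ^ e'`: the matrix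
is `k` times the identity, its determinant is `k ^ n ≠ 0`.
-/

open Finset MvPolynomial

namespace FFW

private def ii (k D e : ℕ) : ℕ := min (e / D) (k - 1)

private def jj (k D e : ℕ) : ℕ := e - ii k D e * D

private theorem ii_lt {k D e : ℕ} (hk : 2 ≤ k) : ii k D e < k := by
  unfold ii; omega

private theorem ii_mul_le {k D e : ℕ} : ii k D e * D ≤ e := by
  unfold ii
  calc min (e / D) (k - 1) * D ≤ e / D * D := Nat.mul_le_mul_right _ (min_le_left _ _)
    _ ≤ e := Nat.div_mul_le_self e D

private theorem ii_jj {k D e : ℕ} : ii k D e * D + jj k D e = e := by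
  unfold jj
  have := @ii_mul_le k D e
  omega

private theorem jj_le {k D e : ℕ} (hk : 2 ≤ k) (hD : 1 ≤ D) (he : e < k * D + 1) :
    jj k D e ≤ D := by
  have h := @ii_jj k D e
  rcases le_total (e / D) (k - 1) with h1 | h1
  · have h2 : ii k D e = e / D := min_eq_left h1
    rw [h2] at h
    have h3 := Nat.div_add_mod' e D
    have h4 := Nat.mod_lt e (show 0 < D by omega)
    omega
  · have h2 : ii k D e = k - 1 := min_eq_right h1
    rw [h2] at h
    obtain ⟨m, rfl⟩ : ∃ m, k = m + 1 := ⟨k - 1, by omega⟩
    simp only [Nat.add_sub_cancel] at h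
    rw [add_mul] at he
    omega

private theorem ii_base {k E i : ℕ} (hk : 2 ≤ k) (hE : 1 ≤ E) (hi : i < k) :
    ii k ((k - 1) * E) (i * ((k - 1) * E) + i * E) = i := by
  obtain ⟨m, rfl⟩ : ∃ m, k = m + 1 := ⟨k - 1, by omega⟩
  simp only [Nat.add_sub_cancel]
  have hm : 1 ≤ m := by omega
  have hD : 0 < m * E := Nat.mul_pos hm hE
  unfold ii
  simp only [Nat.add_sub_cancel]
  rw [Nat.add_comm, Nat.add_mul_div_right _ _ hD]
  rcases Nat.lt_or_ge i m with h | h
  · rw [Nat.div_eq_of_lt (Nat.mul_lt_mul_of_pos_right h hE)]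
    omega
  · have : i = m := by omega
    subst this
    rw [Nat.div_self hD]
    omega

private theorem jj_base {k E i : ℕ} (hk : 2 ≤ k) (hE : 1 ≤ E) (hi : i < k) :
    jj k ((k - 1) * E) (i * ((k - 1) * E) + i * E) = i * E := by
  unfold jj
  rw [ii_base hk hE hi]
  omega

section

variable {F : Type*} [Field F] {σ : Type*}

/-- coefficientwise bound of the total degree -/
private def TD (d : ℕ) (P : Polynomial (MvPolynomial σ F)) : Prop :=
  ∀ m, (P.coeff m).totalDegree ≤ d

private theorem TD_mul {a b : ℕ} {P Q : Polynomial (MvPolynomial σ F)} (hP : TD a P)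
    (hQ : TD b Q) : TD (a + b) (P * Q) := by
  intro m
  rw [Polynomial.coeff_mul]
  refine totalDegree_finsetSum_le fun x _ => ?_
  exact le_trans (totalDegree_mul _ _) (add_le_add (hP _) (hQ _))

private theorem TD_sum {ι : Type*} {d : ℕ} (s : Finset ι)
    (P : ι → Polynomial (MvPolynomial σ F)) (h : ∀ i ∈ s, TD d (P i)) : TD d (∑ i ∈ s, P i) := by
  intro m
  rw [Polynomial.finsetSum_coeff]
  exact totalDegree_finsetSum_le fun i hi => h i hi m

private theorem TD_one : TD 0 (1 : Polynomial (MvPolynomial σ F)) := by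
  intro m
  rw [Polynomial.coeff_one]
  split_ifs <;> simp

private theorem TD_pow {P : Polynomial (MvPolynomial σ F)} (hP : TD 1 P) (k : ℕ) :
    TD k (P ^ k) := by
  induction k with
  | zero => rw [pow_zero]; exact TD_one
  | succ k ih => rw [pow_succ]; exact TD_mul ih hP

/-- coefficientwise derivation -/
private noncomputable def dd (j : σ) (P : Polynomial (MvPolynomial σ F)) :
    Polynomial (MvPolynomial σ F) :=
  ∑ m ∈ P.support, Polynomial.monomial m (pderiv j (P.coeff m))

private theorem coeff_dd (j : σ) (P : Polynomial (MvPolynomial σ F)) (m : ℕ) :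
    (dd j P).coeff m = pderiv j (P.coeff m) := by
  unfold dd
  rw [Polynomial.finsetSum_coeff]
  simp only [Polynomial.coeff_monomial]
  rw [Finset.sum_ite_eq']
  split_ifs with h
  · rfl
  · rw [Polynomial.notMem_support_iff.mp h, map_zero]

private theorem dd_mul (j : σ) (P Q : Polynomial (MvPolynomial σ F)) :
    dd j (P * Q) = P * dd j Q + Q * dd j P := by
  ext1 m
  rw [coeff_dd, Polynomial.coeff_mul, map_sum, Polynomial.coeff_add, mul_comm Q,
    Polynomial.coeff_mul, Polynomial.coeff_mul, ← Finset.sum_add_distrib]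
  refine Finset.sum_congr rfl fun x _ => ?_
  rw [coeff_dd, coeff_dd, Derivation.leibniz, smul_eq_mul, smul_eq_mul]
  ring

private theorem dd_sum {ι : Type*} (j : σ) (s : Finset ι)
    (P : ι → Polynomial (MvPolynomial σ F)) : dd j (∑ i ∈ s, P i) = ∑ i ∈ s, dd j (P i) := by
  ext1 m
  rw [coeff_dd, Polynomial.finsetSum_coeff, Polynomial.finsetSum_coeff, map_sum]
  simp only [coeff_dd]

private theorem dd_one (j : σ) : dd j (1 : Polynomial (MvPolynomial σ F)) = 0 := by
  ext1 m
  rw [coeff_dd, Polynomial.coeff_one]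
  split_ifs <;> simp

private theorem dd_pow (j : σ) (P : Polynomial (MvPolynomial σ F)) (k : ℕ) :
    dd j (P ^ (k + 1)) = ((k + 1 : ℕ) : Polynomial (MvPolynomial σ F)) * P ^ k * dd j P := by
  induction k with
  | zero => simp
  | succ k ih =>
    rw [pow_succ, dd_mul, ih]
    push_cast
    ring

end

/-- the unknown polynomial number `i` -/
private noncomputable def Xi (F : Type*) [Field F] (k D n i : ℕ) :
    Polynomial (MvPolynomial (Fin n) F) :=
  ∑ e : Fin n, if ii k D e = i then Polynomial.C (X e) * Polynomial.X ^ (jj k D e) else 0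

section

variable {F : Type*} [Field F]

private theorem TD_Xi (k D n i : ℕ) : TD 1 (Xi F k D n i) := by
  unfold Xi
  refine TD_sum _ _ fun e _ => ?_
  split_ifs with h
  · intro m
    rw [Polynomial.coeff_C_mul, Polynomial.coeff_X_pow]
    split_ifs
    · rw [mul_one]
      exact le_of_eq (totalDegree_X e)
    · simp
  · intro m
    simp

private theorem map_Xi (k D n i : ℕ) (y : Fin n → F) :
    (Xi F k D n i).map (eval y) =
      ∑ e : Fin n, if ii k D e = i then Polynomial.C (y e) * Polynomial.X ^ (jj k D e) else 0 := by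
  unfold Xi
  rw [Polynomial.map_sum]
  refine Finset.sum_congr rfl fun e _ => ?_
  split_ifs with h
  · simp
  · simp

private theorem dd_Xi (k D n i : ℕ) (j : Fin n) :
    dd j (Xi F k D n i) = if ii k D j = i then Polynomial.X ^ (jj k D j) else 0 := by
  unfold Xi
  rw [dd_sum, Finset.sum_eq_single j]
  · split_ifs with h
    · ext1 m
      rw [coeff_dd, Polynomial.coeff_C_mul, Polynomial.coeff_X_pow]
      split_ifs
      · simp
      · simp
    · ext1 m
      rw [coeff_dd]
      simp
  · intro e _ he
    split_ifs with h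
    · ext1 m
      rw [coeff_dd, Polynomial.coeff_C_mul, Polynomial.coeff_X_pow]
      split_ifs
      · rw [mul_one, pderiv_X_of_ne he, Polynomial.coeff_zero]
      · simp
    · ext1 m
      rw [coeff_dd]
      simp
  · intro h
    exact absurd (Finset.mem_univ j) h

end

theorem sys {F : Type*} [Field F] [Fintype F] (k E : ℕ) (hk : 2 ≤ k) (hE : 1 ≤ E)
    (hp : (k : F) ≠ 0) :
    ∃ f : Fin (k * ((k - 1) * E) + 1) → MvPolynomial (Fin (k * ((k - 1) * E) + 1)) F,
      (∀ i, (f i).totalDegree ≤ k) ∧
      (∀ y : Fin (k * ((k - 1) * E) + 1) → F, ∃ x : Fin k → Polynomial F,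
        (∀ i, x i ∈ Pl F ((k - 1) * E + 1)) ∧
        (∑ i, x i ^ k) ∈ Pl F (k * ((k - 1) * E) + 1) ∧
        ∀ e, eval y (f e) = (∑ i, x i ^ k).coeff (e : ℕ)) ∧
      ∃ y0 : Fin (k * ((k - 1) * E) + 1) → F,
        (Matrix.of fun i j => eval y0 (pderiv j (f i))).det ≠ 0 := by
  obtain ⟨D, hD⟩ : ∃ D, D = (k - 1) * E := ⟨_, rfl⟩
  have hD1 : 1 ≤ D := by
    rw [hD]
    exact Nat.mul_pos (by omega) hE
  have hbi : ∀ i, i < k → ii k D (i * D + i * E) = i := fun i hi => by
    rw [hD]; exact ii_base hk hE hi
  have hbj : ∀ i, i < k → jj k D (i * D + i * E) = i * E := fun i hi => by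
    rw [hD]; exact jj_base hk hE hi
  have hbn : ∀ i, i < k → i * D + i * E < k * D + 1 := by
    intro i hi
    have h1 : i * D + i * E ≤ (k - 1) * D + (k - 1) * E :=
      add_le_add (Nat.mul_le_mul_right _ (by omega)) (Nat.mul_le_mul_right _ (by omega))
    rw [← hD] at h1
    obtain ⟨m, rfl⟩ : ∃ m, k = m + 1 := ⟨k - 1, by omega⟩
    simp only [Nat.add_sub_cancel] at h1
    rw [add_mul]
    omega
  rw [← hD]
  set n := k * D + 1 with hn
  refine ⟨fun e => (∑ i : Fin k, Xi F k D n i ^ k).coeff (e : ℕ), ?_, ?_, ?_⟩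
  · intro e
    exact TD_sum Finset.univ (fun i : Fin k => Xi F k D n i ^ k)
      (fun i _ => TD_pow (TD_Xi k D n i) k) _
  · intro y
    have hx : ∀ i : Fin k, (Xi F k D n i).map (eval y) ∈ Pl F (D + 1) := by
      intro i
      rw [mem_Pl, map_Xi]
      refine lt_of_le_of_lt (Polynomial.degree_sum_le _ _) ?_
      rw [Finset.sup_lt_iff (WithBot.bot_lt_coe _)]
      intro e _
      split_ifs with h
      · refine lt_of_le_of_lt (Polynomial.degree_C_mul_X_pow_le _ _) ?_
        have := jj_le hk hD1 e.2
        exact_mod_cast Nat.lt_succ_of_le this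
      · rw [Polynomial.degree_zero]
        exact WithBot.bot_lt_coe _
    refine ⟨fun i => (Xi F k D n i).map (eval y), hx, ?_, ?_⟩
    · rw [mem_Pl]
      refine lt_of_le_of_lt (Polynomial.degree_sum_le _ _) ?_
      rw [Finset.sup_lt_iff (WithBot.bot_lt_coe _)]
      intro i _
      have h1 := hx i
      rw [mem_Pl] at h1
      have h2 : ((Xi F k D n i).map (eval y)).degree ≤ (D : ℕ) := by
        rw [Polynomial.degree_le_iff_coeff_zero]
        intro m hm
        exact (Polynomial.degree_lt_iff_coeff_zero _ _).1 h1 m (by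
          have : D < m := by exact_mod_cast hm
          omega)
      have h3 := Polynomial.degree_pow_le_of_le k h2
      refine lt_of_le_of_lt h3 ?_
      rw [hn]
      exact_mod_cast Nat.lt_succ_self _
    · intro e
      rw [← Polynomial.coeff_map, Polynomial.map_sum]
      simp only [Polynomial.map_pow]
  · set y0 : Fin n → F := fun e => if jj k D e = ii k D e * E then 1 else 0 with hy0
    have hmap : ∀ i : Fin k, (Xi F k D n i).map (eval y0) = Polynomial.X ^ ((i : ℕ) * E) := by
      intro i
      rw [map_Xi, Finset.sum_eq_single (⟨i * D + i * E, hbn i i.2⟩ : Fin n)]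
      · simp only [hy0, hbi i i.2, hbj i i.2, if_true, map_one, one_mul]
      · intro e _ he
        split_ifs with h
        · simp only [hy0]
          rw [if_neg, map_zero, zero_mul]
          intro h2
          apply he
          ext
          have h3 := @ii_jj k D e
          rw [h2, h] at h3
          exact h3.symm
        · rfl
      · intro h
        exact absurd (Finset.mem_univ _) h
    refine ⟨y0, ?_⟩
    have hM : (Matrix.of fun i j : Fin n =>
        eval y0 (pderiv j ((∑ i : Fin k, Xi F k D n i ^ k).coeff (i : ℕ)))) =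
        (k : F) • (1 : Matrix (Fin n) (Fin n) F) := by
      ext a j
      rw [Matrix.of_apply, ← coeff_dd, ← Polynomial.coeff_map, dd_sum, Polynomial.map_sum]
      have hterm : ∀ i : Fin k, (dd j (Xi F k D n i ^ k)).map (eval y0) =
          if ii k D j = i then (k : Polynomial F) * Polynomial.X ^ (j : ℕ) else 0 := by
        intro i
        obtain ⟨m, hm⟩ : ∃ m, k = m + 1 := ⟨k - 1, by omega⟩
        have h1 : dd j (Xi F k D n i ^ k) =
            ((k : ℕ) : Polynomial (MvPolynomial (Fin n) F)) * Xi F k D n i ^ (k - 1) *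
              dd j (Xi F k D n i) := by
          have := dd_pow j (Xi F k D n i) (k - 1)
          rwa [Nat.sub_add_cancel (by omega : 1 ≤ k)] at this
        rw [h1, dd_Xi, Polynomial.map_mul, Polynomial.map_mul, Polynomial.map_natCast,
          Polynomial.map_pow, hmap]
        split_ifs with h
        · rw [Polynomial.map_pow, Polynomial.map_X, mul_assoc, ← pow_mul, ← pow_add]
          congr 2
          rw [← h]
          have h3 := @ii_jj k D j
          calc ii k D j * E * (k - 1) + jj k D j = ii k D j * ((k - 1) * E) + jj k D j := by ring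
            _ = ii k D j * D + jj k D j := by rw [hD]
            _ = j := h3
        · rw [Polynomial.map_zero, mul_zero]
      simp only [hterm]
      rw [Finset.sum_eq_single (⟨ii k D j, ii_lt hk⟩ : Fin k)]
      · simp only [if_true]
        rw [← Polynomial.C_eq_natCast, Polynomial.coeff_C_mul, Polynomial.coeff_X_pow,
          Matrix.smul_apply, Matrix.one_apply, smul_eq_mul]
        simp only [Fin.ext_iff]
      · intro i _ hi
        rw [if_neg]
        intro h
        exact hi (Fin.ext h.symm)
      · intro h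
        exact absurd (Finset.mem_univ _) h
    rw [hM, Matrix.det_smul, Matrix.det_one, mul_one]
    exact pow_ne_zero _ hp

end FFW
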