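import Pool.Agent.FFW.Sys
import Pool.Agent.FFW.RM
import Pool.Agent.FFW.Bez

/-!
# FFW/WSet: many sums of `k` `k`-th powers

`n = k (k - 1) E + 1`, `(k - 1) n < (q - 1) m`: there is a finite set `W` of sums of `k` `k`-th
powers of polynomials of degree `≤ (k - 1) E` with `q ^ n ≤ q ^ m * k ^ n * #W`.

PROOF. Take `f` from `sys`. `J := det (Matrix.of fun i j => pderiv j (f i))`, a polynomial of total
degree `≤ n (k - 1)` (`totalDegree (pderiv j p) ≤ totalDegree p - 1`; `Matrix.det_apply`, total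
degree of products and sums) with `eval y J = det (eval y (pderiv j (f i)))` (`RingHom.map_det`).
`J(y0) ≠ 0`, so `rm` gives `q ^ n ≤ q ^ m * #U`, `U = {y : J(y) ≠ 0}`. Let `W` be the image of `U`
under `y ↦ ∑ x_i(y) ^ k` (choose the `x_i(y)`). Two points with the same image have the same values
`f_e(y)` for all `e`, so by `bez` (with `d = k`) every fibre has at most `k ^ n` elements and
`#U ≤ k ^ n * #W` (`Finset.card_le_mul_card_image`).
-/

open Finset Polynomial

namespace FFW

private lemma wset_td_pderiv {F : Type*} [Field F] {n : ℕ} (p : MvPolynomial (Fin n) F) (i : Fin n)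
    (d : ℕ) (h : p.totalDegree ≤ d + 1) : (MvPolynomial.pderiv i p).totalDegree ≤ d := by
  unfold MvPolynomial.totalDegree
  refine Finset.sup_le fun s hs => ?_
  rw [MvPolynomial.mem_support_iff, MvPolynomial.coeff_pderiv] at hs
  have h1 : s + Finsupp.single i 1 ∈ p.support := by
    rw [MvPolynomial.mem_support_iff]
    exact left_ne_zero_of_mul hs
  have h2 := (MvPolynomial.le_totalDegree h1).trans h
  have h3 : ((s + Finsupp.single i 1).sum fun _ e => e) = (s.sum fun _ e => e) + 1 := by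
    rw [Finsupp.sum_add_index' (fun _ => rfl) (fun _ _ _ => rfl), Finsupp.sum_single_index rfl]
  rw [h3] at h2
  omega

private lemma wset_td_det {F : Type*} [Field F] {n : ℕ}
    (M : Matrix (Fin n) (Fin n) (MvPolynomial (Fin n) F)) (d : ℕ)
    (h : ∀ i j, (M i j).totalDegree ≤ d) : M.det.totalDegree ≤ n * d := by
  rw [Matrix.det_apply]
  refine MvPolynomial.totalDegree_finsetSum_le fun σ _ => ?_
  have h1 : (∏ i, M (σ i) i).totalDegree ≤ n * d := by
    refine (MvPolynomial.totalDegree_finsetProd _ _).trans ?_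
    refine (Finset.sum_le_sum fun i _ => h (σ i) i).trans ?_
    simp
  rcases Int.units_eq_one_or (Equiv.Perm.sign σ) with hs | hs
  · rw [hs, one_smul]
    exact h1
  · rw [hs, Units.neg_smul, one_smul, MvPolynomial.totalDegree_neg]
    exact h1

private lemma wset_aux {F : Type*} [Field F] [Fintype F] (k E m n : ℕ) (hk : 2 ≤ k)
    (hm : (k - 1) * n < (Fintype.card F - 1) * m)
    (f : Fin n → MvPolynomial (Fin n) F) (hf : ∀ e, (f e).totalDegree ≤ k)
    (x : (Fin n → F) → Fin k → F[X])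
    (hx1 : ∀ y, ∀ i, x y i ∈ Pl F ((k - 1) * E + 1))
    (hx2 : ∀ y, (∑ i, x y i ^ k) ∈ Pl F n)
    (hx3 : ∀ y, ∀ e : Fin n, (∑ i, x y i ^ k).coeff (e : ℕ) = MvPolynomial.eval y (f e))
    (y0 : Fin n → F)
    (hy0 : (Matrix.of fun i j => MvPolynomial.eval y0 (MvPolynomial.pderiv j (f i))).det ≠ 0) :
    ∃ W : Finset F[X],
      (∀ w ∈ W, w ∈ Pl F n ∧
        ∃ x : Fin k → F[X], (∀ i, x i ∈ Pl F ((k - 1) * E + 1)) ∧ w = ∑ i, x i ^ k) ∧
      Fintype.card F ^ n ≤ Fintype.card F ^ m * k ^ n * W.card := by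
  classical
  set M : Matrix (Fin n) (Fin n) (MvPolynomial (Fin n) F) :=
    Matrix.of fun i j => MvPolynomial.pderiv j (f i) with hM
  have hev : ∀ y : Fin n → F, MvPolynomial.eval y M.det =
      (Matrix.of fun i j => MvPolynomial.eval y (MvPolynomial.pderiv j (f i))).det := by
    intro y
    rw [RingHom.map_det]
    congr 1
  have hJd : M.det.totalDegree ≤ n * (k - 1) := by
    refine wset_td_det M (k - 1) fun i j => ?_
    rw [hM, Matrix.of_apply]
    refine wset_td_pderiv _ _ _ ?_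
    rw [Nat.sub_add_cancel (by omega)]
    exact hf i
  have hrm := rm n m M.det (lt_of_le_of_lt (by rw [mul_comm]; exact hJd.trans (by rw [mul_comm]))
    hm) y0 (by rw [hev]; exact hy0)
  set U := univ.filter (fun y : Fin n → F => MvPolynomial.eval y M.det ≠ 0) with hU
  refine ⟨U.image (fun y => ∑ i, x y i ^ k), ?_, ?_⟩
  · intro w hw
    obtain ⟨y, _, rfl⟩ := Finset.mem_image.1 hw
    exact ⟨hx2 y, x y, hx1 y, rfl⟩
  · have hcard : U.card ≤ k ^ n * (U.image (fun y => ∑ i, x y i ^ k)).card := by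
      refine Finset.card_le_mul_card_image U (k ^ n) fun w _ => ?_
      refine le_trans (Finset.card_le_card ?_) (bez n k f hf (fun e => w.coeff (e : ℕ)))
      intro y hy
      rw [Finset.mem_filter, hU, Finset.mem_filter] at hy
      rw [Finset.mem_filter]
      refine ⟨Finset.mem_univ _, fun i => ?_, ?_⟩
      · rw [← hx3 y i, hy.2]
      · rw [← hev]
        exact hy.1.2
    calc Fintype.card F ^ n ≤ Fintype.card F ^ m * U.card := hrm
      _ ≤ Fintype.card F ^ m * (k ^ n * (U.image (fun y => ∑ i, x y i ^ k)).card) :=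
          Nat.mul_le_mul_left _ hcard
      _ = _ := by ring

theorem exists_W {F : Type*} [Field F] [Fintype F] (k E m : ℕ) (hk : 2 ≤ k) (hE : 1 ≤ E)
    (hp : (k : F) ≠ 0)
    (hm : (k - 1) * (k * ((k - 1) * E) + 1) < (Fintype.card F - 1) * m) :
    ∃ W : Finset F[X],
      (∀ w ∈ W, w ∈ Pl F (k * ((k - 1) * E) + 1) ∧
        ∃ x : Fin k → F[X], (∀ i, x i ∈ Pl F ((k - 1) * E + 1)) ∧ w = ∑ i, x i ^ k) ∧
      Fintype.card F ^ (k * ((k - 1) * E) + 1) ≤
        Fintype.card F ^ m * k ^ (k * ((k - 1) * E) + 1) * W.card := by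
  classical
  obtain ⟨f, hf, hx, y0, hy0⟩ := sys (F := F) k E hk hE hp
  choose x hx1 hx2 hx3 using hx
  exact wset_aux k E m _ hk hm f hf x hx1 hx2 (fun y e => (hx3 y e).symm) y0 hy0

end FFW
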