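import Pool.Agent.FFW.Defs

/-!
# FFW/Weyl: Weyl differencing over `F[t]`

`weyl_gen`: for a polynomial `Q` in one variable over `R = F[t]` of degree `≤ j + 1`,
`(‖∑_{x ∈ Pl a} ψ(β(Q(x)))‖ / q ^ a) ^ (2 ^ j)` is at most the proportion of the
`h ∈ (Pl a) ^ j` such that `β((j+1)! * Q.coeff (j+1) * h_1 ... h_j * y) = 0` for all `y ∈ Pl a`.

PROOF by induction on `j`. `j = 0`: `Q = C c * X + C b`, `ψ(β(c x + b)) = ψ(β(b)) ψ(β(c x))`; the map
`x ↦ β(c x)` is linear on the finite vector space `Pl a` (an additive subgroup, closed under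
multiplication by constants): if it is zero the norm is `q ^ a`, otherwise it takes every value of
`F` equally often and `∑_x ψ(β(c x)) = 0` as `ψ ≠ 1` (shift by `y` with `ψ(β(c y)) ≠ 1`).
`j → j + 1` (`Q` of degree `≤ j + 2`): `|∑_x ψ(β(Q(x)))|² = ∑_h ∑_x ψ(β(Q(x + h) - Q(x)))`
(`Pl a` is a group), so with normalised sums `|E| ^ (2 ^ (j+1)) = (|E|²) ^ (2 ^ j) ≤
(E_h |E_x ψ(β(Q(x+h) - Q(x)))|) ^ (2 ^ j) ≤ E_h |E_x ...| ^ (2 ^ j)` (convexity,
`inner_le_nnorm_mul_nnorm` / `inv_mul_sum_pow_le` ...). `Q_h := Q.comp (X + C h) - Q` has degree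
`≤ j + 1` and `Q_h.coeff (j+1) = (j+2) * Q.coeff (j+2) * h` (`Polynomial.taylor`,
`taylor_coeff`, `hasseDeriv`); apply the induction hypothesis to `Q_h` and sum over `h`
(`Fin.consEquiv` / `Fin.prod_univ_succ`).

`weyl`: the case `Q = X ^ k`, `j = k - 1`; the constant `k! ≠ 0` is removed
(`β(k! z) = k! β(z)`).
-/

open Finset Polynomial

namespace FFW

private theorem sum_shift {F : Type*} [Field F] [Fintype F] {A : Type*} [AddCommMonoid A]
    (m : ℕ) {y : F[X]} (hy : y ∈ Pl F m) (f : F[X] → A) :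
    ∑ x ∈ Pl F m, f (x + y) = ∑ x ∈ Pl F m, f x := by
  refine Finset.sum_nbij' (fun x => x + y) (fun x => x - y) ?_ ?_ ?_ ?_ ?_
  · intro x hx
    exact add_mem_Pl hx hy
  · intro x hx
    exact sub_mem_Pl hx hy
  · intro x _
    simp
  · intro x _
    simp
  · intro x _
    rfl

private theorem card_ne {F : Type*} [Field F] [Fintype F] (a : ℕ) :
    (0 : ℝ) < (Fintype.card F : ℝ) ^ a := by
  have : 0 < Fintype.card F := Fintype.card_pos
  positivity

private theorem diff_coeff {R : Type*} [CommRing R] (Q : Polynomial R) (n : ℕ)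
    (hQ : Q.natDegree ≤ n + 1) (h : R) :
    (Q.comp (X + C h) - Q).natDegree ≤ n ∧
      (Q.comp (X + C h) - Q).coeff n = ((n + 1 : ℕ) : R) * Q.coeff (n + 1) * h := by
  have e : Q.comp (X + C h) = taylor h Q := by
    rw [taylor_apply]
  rw [e]
  constructor
  · rw [natDegree_le_iff_coeff_eq_zero]
    intro N hN
    rw [coeff_sub, taylor_coeff]
    have h1 : (hasseDeriv N Q).natDegree ≤ 0 := by
      refine (natDegree_hasseDeriv_le Q N).trans ?_
      omega
    rw [eval_eq_sum_range' (Nat.lt_succ_of_le h1), Finset.sum_range_succ, Finset.sum_range_zero,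
      hasseDeriv_coeff]
    simp
  · rw [coeff_sub, taylor_coeff]
    have h1 : (hasseDeriv n Q).natDegree ≤ 1 := by
      refine (natDegree_hasseDeriv_le Q n).trans ?_
      omega
    rw [eval_eq_sum_range' (Nat.lt_succ_of_le h1), Finset.sum_range_succ, Finset.sum_range_succ,
      Finset.sum_range_zero, hasseDeriv_coeff, hasseDeriv_coeff]
    have h2 : (1 + n).choose n = n + 1 := by
      rw [Nat.add_comm 1 n, Nat.choose_succ_self_right]
    rw [h2, Nat.add_comm 1 n]
    simp

open scoped Classical in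
private theorem card_split {F : Type*} [Field F] [Fintype F] (a j : ℕ)
    (P : F[X] → F[X] → Prop) :
    ∑ h ∈ Pl F a, (((Fintype.piFinset (fun _ : Fin j => Pl F a)).filter
      (fun g => P h (∏ i, g i))).card : ℝ) ≤
    (((Fintype.piFinset (fun _ : Fin (j + 1) => Pl F a)).filter
      (fun g => P (g 0) (∏ i : Fin j, g i.succ))).card : ℝ) := by
  rw [← Nat.cast_sum]
  refine Nat.cast_le.2 ?_
  rw [← Finset.card_sigma]
  refine Finset.card_le_card_of_injOn (fun p => Fin.cons p.1 p.2) ?_ ?_
  · intro p hp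
    rw [Finset.mem_coe, Finset.mem_sigma, Finset.mem_filter, Fintype.mem_piFinset] at hp
    rw [Finset.mem_coe, Finset.mem_filter, Fintype.mem_piFinset]
    refine ⟨fun i => ?_, ?_⟩
    · refine Fin.cases ?_ (fun i => ?_) i
      · simpa using hp.1
      · simpa using hp.2.1 i
    · simpa using hp.2.2
  · rintro ⟨h, g⟩ _ ⟨h', g'⟩ _ heq
    have h1 : h = h' := by
      have := congrFun heq 0
      simpa using this
    have h2 : g = g' := by
      funext i
      have := congrFun heq i.succ
      simpa using this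
    subst h1
    subst h2
    rfl

open scoped Classical in
theorem weyl_gen {F : Type*} [Field F] [Fintype F] (ψ : AddChar F ℂ) (hψ : ψ ≠ 1)
    (β : F[X] →ₗ[F] F) (a j : ℕ) (Q : Polynomial F[X]) (hQ : Q.natDegree ≤ j + 1) :
    (‖∑ x ∈ Pl F a, ψ (β (Q.eval x))‖ / (Fintype.card F : ℝ) ^ a) ^ (2 ^ j) ≤
      (((Fintype.piFinset (fun _ : Fin j => Pl F a)).filter
        (fun h => ∀ y ∈ Pl F a,
          β (((j + 1).factorial : F[X]) * Q.coeff (j + 1) * (∏ i, h i) * y) = 0)).card : ℝ) /
        ((Fintype.card F : ℝ) ^ a) ^ j := by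
  induction j generalizing Q with
  | zero =>
    have hN := card_ne (F := F) a
    have hev : ∀ x : F[X], Q.eval x = Q.coeff 0 + Q.coeff 1 * x := by
      intro x
      rw [eval_eq_sum_range' (Nat.lt_succ_of_le hQ), Finset.sum_range_succ, Finset.sum_range_succ,
        Finset.sum_range_zero]
      simp
    by_cases hc : ∀ y ∈ Pl F a, β (Q.coeff 1 * y) = 0
    · have h1 : (Fintype.piFinset (fun _ : Fin 0 => Pl F a)).filter
        (fun h => ∀ y ∈ Pl F a,
          β (((0 + 1).factorial : F[X]) * Q.coeff (0 + 1) * (∏ i, h i) * y) = 0) =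
          Fintype.piFinset (fun _ : Fin 0 => Pl F a) := by
        rw [Finset.filter_eq_self]
        intro h _ y hy
        have := hc y hy
        simpa using this
      rw [h1]
      have h2 : ‖∑ x ∈ Pl F a, ψ (β (Q.eval x))‖ ≤ (Fintype.card F : ℝ) ^ a := by
        refine (norm_sum_le _ _).trans ?_
        simp only [AddChar.norm_apply, Finset.sum_const, card_Pl]
        simp
      have h3 : (Fintype.piFinset (fun _ : Fin 0 => Pl F a)).card = 1 := by
        rw [Fintype.card_piFinset]
        simp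
      rw [h3]
      simp only [pow_zero, pow_one, Nat.cast_one, div_one]
      rw [div_le_one hN]
      exact h2
    · push Not at hc
      obtain ⟨y, hy, hy0⟩ := hc
      obtain ⟨r, hr⟩ : ∃ r : F, ψ r ≠ 1 := by
        by_contra hcon
        push Not at hcon
        apply hψ
        ext r
        simpa using hcon r
      set y' : F[X] := C (r / β (Q.coeff 1 * y)) * y with hy'
      have hy'm : y' ∈ Pl F a := smul_mem_Pl _ hy
      have hβ : β (Q.coeff 1 * y') = r := by
        have : Q.coeff 1 * y' = (r / β (Q.coeff 1 * y)) • (Q.coeff 1 * y) := by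
          rw [hy', smul_eq_C_mul]
          ring
        rw [this, map_smul, smul_eq_mul, div_mul_cancel₀ _ hy0]
      have hz : ∑ x ∈ Pl F a, ψ (β (Q.eval x)) = 0 := by
        have h1 := sum_shift a hy'm (fun x => ψ (β (Q.eval x)))
        have h2 : ∀ x : F[X], ψ (β (Q.eval (x + y'))) = ψ r * ψ (β (Q.eval x)) := by
          intro x
          rw [hev, hev, mul_add, ← add_assoc, map_add, AddChar.map_add_eq_mul, hβ, mul_comm]
        simp only [h2] at h1
        rw [← Finset.mul_sum] at h1
        have h3 : (ψ r - 1) * ∑ x ∈ Pl F a, ψ (β (Q.eval x)) = 0 := by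
          rw [sub_mul, h1, one_mul, sub_self]
        rcases mul_eq_zero.1 h3 with h4 | h4
        · exact absurd (sub_eq_zero.1 h4) hr
        · exact h4
      rw [hz]
      simp
  | succ j ih =>
    set N : ℝ := (Fintype.card F : ℝ) ^ a with hNdef
    have hN : 0 < N := card_ne (F := F) a
    set Qh : F[X] → Polynomial F[X] := fun h => Q.comp (X + C h) - Q with hQh
    set E : ℂ := ∑ x ∈ Pl F a, ψ (β (Q.eval x)) with hE
    set t : F[X] → ℝ := fun h => ‖∑ x ∈ Pl F a, ψ (β ((Qh h).eval x))‖ / N with ht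
    -- the square
    have hsq : ‖E‖ ^ 2 ≤ ∑ h ∈ Pl F a, ‖∑ x ∈ Pl F a, ψ (β ((Qh h).eval x))‖ := by
      have h1 : ((‖E‖ ^ 2 : ℝ) : ℂ) = ∑ h ∈ Pl F a, ∑ x ∈ Pl F a, ψ (β ((Qh h).eval x)) := by
        have h2 : ((‖E‖ ^ 2 : ℝ) : ℂ) = E * (starRingEnd ℂ) E := by
          rw [Complex.mul_conj']
          push_cast
          rfl
        rw [h2, mul_comm, hE, map_sum, Finset.sum_mul]
        rw [Finset.sum_comm]
        refine Finset.sum_congr rfl fun x hx => ?_
        rw [← sum_shift a hx (fun x' => ψ (β (Q.eval x'))), Finset.mul_sum]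
        refine Finset.sum_congr rfl fun h _ => ?_
        rw [← AddChar.map_neg_eq_conj, ← AddChar.map_add_eq_mul, ← map_neg, ← map_add]
        congr 2
        rw [hQh]
        simp only [eval_sub, eval_comp, eval_add, eval_X, eval_C]
        rw [add_comm x h]
        ring
      have h3 : ‖E‖ ^ 2 = ‖((‖E‖ ^ 2 : ℝ) : ℂ)‖ := by
        rw [Complex.norm_real, Real.norm_of_nonneg (by positivity)]
      rw [h3, h1]
      exact norm_sum_le _ _
    have hstep : (‖E‖ / N) ^ 2 ≤ ∑ h ∈ Pl F a, 1 / N * t h := by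
      rw [div_pow, ← Finset.mul_sum, ht]
      simp only
      rw [← Finset.sum_div, div_le_iff₀ (by positivity)]
      have : 1 / N * ((∑ h ∈ Pl F a, ‖∑ x ∈ Pl F a, ψ (β ((Qh h).eval x))‖) / N) * N ^ 2 =
          ∑ h ∈ Pl F a, ‖∑ x ∈ Pl F a, ψ (β ((Qh h).eval x))‖ := by
        field_simp
      rw [this]
      exact hsq
    have hw : ∑ h ∈ Pl F a, 1 / N = 1 := by
      rw [Finset.sum_const, card_Pl, nsmul_eq_mul]
      push_cast
      rw [← hNdef]
      field_simp
    have ht0 : ∀ h ∈ Pl F a, 0 ≤ t h := fun h _ => by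
      rw [ht]
      positivity
    have hmean := Real.pow_arith_mean_le_arith_mean_pow (Pl F a) (fun _ => 1 / N) t
      (fun _ _ => by positivity) hw ht0 (2 ^ j)
    have hIH : ∀ h ∈ Pl F a, t h ^ (2 ^ j) ≤
        (((Fintype.piFinset (fun _ : Fin j => Pl F a)).filter
        (fun g => ∀ y ∈ Pl F a,
          β (((j + 2).factorial : F[X]) * Q.coeff (j + 2) * (h * ∏ i, g i) * y) = 0)).card : ℝ) /
        N ^ j := by
      intro h _
      have hd := diff_coeff Q (j + 1) hQ h
      have h1 := ih (Qh h) hd.1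
      refine h1.trans (le_of_eq ?_)
      congr 3
      refine Finset.filter_congr fun g _ => ?_
      have e1 : ∀ y : F[X], ((j + 1).factorial : F[X]) * (Qh h).coeff (j + 1) * (∏ i, g i) * y =
          ((j + 2).factorial : F[X]) * Q.coeff (j + 2) * (h * ∏ i, g i) * y := by
        intro y
        rw [hQh]
        simp only
        rw [hd.2, Nat.factorial_succ (j + 1)]
        push_cast
        ring
      simp only [e1]
    calc (‖E‖ / N) ^ (2 ^ (j + 1)) = ((‖E‖ / N) ^ 2) ^ (2 ^ j) := by
          rw [← pow_mul, pow_succ']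
      _ ≤ (∑ h ∈ Pl F a, 1 / N * t h) ^ (2 ^ j) := by
          gcongr
      _ ≤ ∑ h ∈ Pl F a, 1 / N * t h ^ (2 ^ j) := hmean
      _ ≤ ∑ h ∈ Pl F a, 1 / N * ((((Fintype.piFinset (fun _ : Fin j => Pl F a)).filter
        (fun g => ∀ y ∈ Pl F a,
          β (((j + 2).factorial : F[X]) * Q.coeff (j + 2) * (h * ∏ i, g i) * y) = 0)).card : ℝ) /
        N ^ j) := by
          refine Finset.sum_le_sum fun h hh => ?_
          exact mul_le_mul_of_nonneg_left (hIH h hh) (by positivity)
      _ = (∑ h ∈ Pl F a, (((Fintype.piFinset (fun _ : Fin j => Pl F a)).filter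
        (fun g => ∀ y ∈ Pl F a,
          β (((j + 2).factorial : F[X]) * Q.coeff (j + 2) * (h * ∏ i, g i) * y) = 0)).card : ℝ)) /
          N ^ (j + 1) := by
          rw [Finset.sum_div]
          refine Finset.sum_congr rfl fun h _ => ?_
          rw [pow_succ]
          field_simp
      _ ≤ _ := by
          have h5 := card_split (F := F) a j (fun h g => ∀ y ∈ Pl F a,
            β (((j + 2).factorial : F[X]) * Q.coeff (j + 2) * (h * g) * y) = 0)
          have h6 : 0 < N ^ (j + 1) := by positivity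
          refine (div_le_div_iff_of_pos_right h6).2 (le_trans (le_of_eq ?_)
            (h5.trans (le_of_eq ?_)))
          · refine Finset.sum_congr rfl fun h _ => ?_
            refine congrArg (fun s : Finset (Fin j → F[X]) => (s.card : ℝ)) ?_
            ext g
            simp only [Finset.mem_filter]
          · refine congrArg (fun s : Finset (Fin (j + 1) → F[X]) => (s.card : ℝ)) ?_
            ext g
            simp only [Finset.mem_filter, Fin.prod_univ_succ]

open scoped Classical in
theorem weyl {F : Type*} [Field F] [Fintype F] (ψ : AddChar F ℂ) (hψ : ψ ≠ 1) (k : ℕ)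
    (hk : 1 ≤ k) (hfac : (k.factorial : F) ≠ 0) (β : F[X] →ₗ[F] F) (a : ℕ) :
    (‖S ψ k β a‖ / (Fintype.card F : ℝ) ^ a) ^ (2 ^ (k - 1)) ≤
      (((Fintype.piFinset (fun _ : Fin (k - 1) => Pl F a)).filter
        (fun h => ∀ y ∈ Pl F a, β ((∏ i, h i) * y) = 0)).card : ℝ) /
        ((Fintype.card F : ℝ) ^ a) ^ (k - 1) := by
  have hd : (X ^ k : Polynomial F[X]).natDegree ≤ (k - 1) + 1 := by
    rw [natDegree_X_pow]
    omega
  have h := weyl_gen ψ hψ β a (k - 1) (X ^ k) hd
  have hk1 : k - 1 + 1 = k := by omega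
  rw [hk1] at h
  have hS : S ψ k β a = ∑ x ∈ Pl F a, ψ (β ((X ^ k : Polynomial F[X]).eval x)) := by
    unfold S
    simp only [eval_pow, eval_X]
  rw [hS]
  refine h.trans (le_of_eq ?_)
  congr 3
  refine Finset.filter_congr fun g _ => ?_
  have e1 : ∀ y : F[X], β ((k.factorial : F[X]) * (X ^ k : Polynomial F[X]).coeff k *
      (∏ i, g i) * y) = (k.factorial : F) * β ((∏ i, g i) * y) := by
    intro y
    have e2 : (k.factorial : F[X]) * (X ^ k : Polynomial F[X]).coeff k * (∏ i, g i) * y =
        (k.factorial : F) • ((∏ i, g i) * y) := by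
      rw [coeff_X_pow, if_pos rfl, smul_eq_C_mul, mul_one]
      rw [show (C (k.factorial : F) : F[X]) = (k.factorial : F[X]) from map_natCast C _]
      ring
    rw [e2, map_smul, smul_eq_mul]
  refine forall₂_congr fun y _ => ?_
  rw [e1, mul_eq_zero, or_iff_right hfac]

end FFW
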